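import Pool.Agent.Lib.MP_b9166b_al.Rg.Blk

/-!
# MP_b9166b_al, PRIME POWER: systems of blocks from commuting elements of order `s`

`G x`, `x : B × (ZMod s × ZMod s)`, are commuting elements of `A` with `G x ^ s = 1`, and every
permutation of the indices is induced by a conjugation. `ph G u = ∏ x, G x ^ u x`.
-/

set_option autoImplicit false

namespace Pool.Agent.Lib.MP_b9166b_al.Aq

open Equiv Equiv.Perm Rg

section Zh

variable {M : Type} [Group M] {s : ℕ} [NeZero s]

/-- the homomorphism `c ↦ h ^ c` -/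
def zh (h : M) (hs : h ^ s = 1) : Multiplicative (ZMod s) →* M where
  toFun c := h ^ c.toAdd.val
  map_one' := by
    rw [toAdd_one, ZMod.val_zero, pow_zero]
  map_mul' a b := by
    rw [toAdd_mul, ZMod.val_add, ← pow_eq_pow_mod _ hs, pow_add]

theorem zh_apply (h : M) (hs : h ^ s = 1) (c : Multiplicative (ZMod s)) :
    zh h hs c = h ^ c.toAdd.val := rfl

end Zh

section Ph

variable {A X : Type} [Group A] [Fintype X] {s : ℕ} [NeZero s] (G : X → A)
  (hc : ∀ x y, Commute (G x) (G y)) (hp : ∀ x, G x ^ s = 1)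

/-- the product of the powers of the commuting elements `G x` -/
noncomputable def ph : (X → Multiplicative (ZMod s)) →* A :=
  MonoidHom.noncommPiCoprod (fun x => zh (G x) (hp x)) fun x y _ _ _ => (hc x y).pow_pow _ _

theorem ph_single [DecidableEq X] (x : X) (c : Multiplicative (ZMod s)) :
    ph G hc hp (Pi.mulSingle x c) = G x ^ c.toAdd.val := by
  unfold ph
  rw [MonoidHom.noncommPiCoprod_mulSingle, zh_apply]

omit [NeZero s] in
/-- induction: products of the elements with one nontrivial coordinate -/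
theorem mem_of_single [DecidableEq X] (P : Subgroup (X → Multiplicative (ZMod s)))
    (u : X → Multiplicative (ZMod s)) (h : ∀ x, Pi.mulSingle x (u x) ∈ P) : u ∈ P := by
  rw [← Finset.univ_prod_mulSingle u]
  exact Subgroup.prod_mem _ fun x _ => h x

theorem ph_nat {M : Type} [Group M] (F F' : A →* M) (Θ : Perm X)
    (h : ∀ x, F (G x) = F' (G (Θ x))) (u : X → Multiplicative (ZMod s)) :
    F (ph G hc hp u) = F' (ph G hc hp (u ∘ Θ.symm)) := by
  classical
  let R : (X → Multiplicative (ZMod s)) →* (X → Multiplicative (ZMod s)) :=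
    { toFun := fun u => u ∘ Θ.symm
      map_one' := rfl
      map_mul' := fun _ _ => rfl }
  refine mem_of_single ((F.comp (ph G hc hp)).eqLocus ((F'.comp (ph G hc hp)).comp R)) u ?_
  intro x
  change F (ph G hc hp (Pi.mulSingle x (u x))) =
    F' (ph G hc hp ((Pi.mulSingle x (u x) : X → Multiplicative (ZMod s)) ∘ Θ.symm))
  have h1 : (Pi.mulSingle x (u x) : X → Multiplicative (ZMod s)) ∘ Θ.symm =
      Pi.mulSingle (Θ x) (u x) := by
    funext y
    rw [Function.comp_apply]
    by_cases hy : y = Θ x
    · subst hy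
      rw [Equiv.symm_apply_apply, Pi.mulSingle_eq_same, Pi.mulSingle_eq_same]
    · rw [Pi.mulSingle_eq_of_ne hy, Pi.mulSingle_eq_of_ne]
      intro h2
      exact hy ((Equiv.symm_apply_eq Θ).1 h2)
  rw [h1, ph_single, ph_single, map_pow, map_pow, h]

theorem ph_conj {Θ : Perm X} {α : A} (h : ∀ x, α * G x * α⁻¹ = G (Θ x))
    (u : X → Multiplicative (ZMod s)) :
    α * ph G hc hp u * α⁻¹ = ph G hc hp (u ∘ Θ.symm) :=
  ph_nat G hc hp (MulAut.conj α).toMonoidHom (MonoidHom.id A) Θ h u

theorem ph_comm {σ : A} {u : X → Multiplicative (ZMod s)}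
    (h : ∀ x, u x ≠ 1 → Commute σ (G x)) : Commute σ (ph G hc hp u) := by
  classical
  have h1 : u ∈ (Subgroup.centralizer {σ}).comap (ph G hc hp) := by
    refine mem_of_single _ u fun x => ?_
    rw [Subgroup.mem_comap, Subgroup.mem_centralizer_singleton_iff]
    by_cases hx : u x = 1
    · rw [hx, Pi.mulSingle_one, map_one, mul_one, one_mul]
    · rw [ph_single]
      exact ((h x hx).pow_right _).eq.symm
  rw [Subgroup.mem_comap, Subgroup.mem_centralizer_singleton_iff] at h1
  exact h1.symm

end Ph

section Blk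

variable {B : Type} {s : ℕ}

/-- the exponents of the translation by `w` -/
def lw (w : B → ZMod s × ZMod s) : B × (ZMod s × ZMod s) → Multiplicative (ZMod s) :=
  fun x => Multiplicative.ofAdd (x.2.1 * (w x.1).1 + x.2.2 * (w x.1).2)

theorem lw_add (v w : B → ZMod s × ZMod s) : lw (v + w) = lw v * lw w := by
  funext x
  rw [Pi.mul_apply]
  unfold lw
  rw [← ofAdd_add, Pi.add_apply, Prod.fst_add, Prod.snd_add]
  congr 1
  ring

theorem lw_single_ne [DecidableEq B] {b : B} {v : ZMod s × ZMod s}
    {x : B × (ZMod s × ZMod s)} (hx : x.1 ≠ b) : lw (Pi.single b v) x = 1 := by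
  unfold lw
  rw [Pi.single_eq_of_ne hx, Prod.fst_zero, Prod.snd_zero, mul_zero, mul_zero, add_zero,
    ofAdd_zero]

theorem lw_single_same [DecidableEq B] (b : B) (v l : ZMod s × ZMod s) :
    lw (Pi.single b v) (b, l) = Multiplicative.ofAdd (l.1 * v.1 + l.2 * v.2) := by
  unfold lw
  rw [Pi.single_eq_same]

/-- a bijection of the plane with the given linear form as first coordinate -/
theorem exists_equiv_form [hs : Fact s.Prime] {v : ZMod s × ZMod s} (hv : v ≠ 0) :
    ∃ γ : Perm (ZMod s × ZMod s), ∀ l, (γ l).1 = l.1 * v.1 + l.2 * v.2 := by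
  by_cases h1 : v.1 = 0
  · have h2 : v.2 ≠ 0 := fun h => hv (Prod.ext h1 h)
    refine ⟨{ toFun := fun l => (l.2 * v.2, l.1)
              invFun := fun l => (l.2, l.1 * v.2⁻¹)
              left_inv := fun l => by
                ext
                · rfl
                · simp only
                  rw [mul_assoc, mul_inv_cancel₀ h2, mul_one]
              right_inv := fun l => by
                ext
                · simp only
                  rw [mul_assoc, inv_mul_cancel₀ h2, mul_one]
                · rfl }, fun l => ?_⟩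
    change l.2 * v.2 = l.1 * v.1 + l.2 * v.2
    rw [h1, mul_zero, zero_add]
  · refine ⟨{ toFun := fun l => (l.1 * v.1 + l.2 * v.2, l.2)
              invFun := fun l => ((l.1 - l.2 * v.2) * v.1⁻¹, l.2)
              left_inv := fun l => by
                ext
                · simp only
                  rw [add_sub_cancel_right, mul_assoc, mul_inv_cancel₀ h1, mul_one]
                · rfl
              right_inv := fun l => by
                ext
                · simp only
                  rw [mul_assoc, inv_mul_cancel₀ h1, mul_one, sub_add_cancel]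
                · rfl }, fun l => rfl⟩

variable {A : Type} [Group A] [Fintype B] [DecidableEq B] [hs : Fact s.Prime]
  (G : B × (ZMod s × ZMod s) → A) (hc : ∀ x y, Commute (G x) (G y)) (hp : ∀ x, G x ^ s = 1)

/-- the system of blocks -/
noncomputable def blkGen
    (hΘ : ∀ Θ : Perm (B × (ZMod s × ZMod s)), ∃ α : A, ∀ x, α * G x * α⁻¹ = G (Θ x))
    (S : Set A) (gen : Subgroup.closure S = ⊤)
    (avoid : ∀ σ ∈ S, ∃ T : Finset B, T.card ≤ 3 ∧ ∀ b ∉ T, ∀ l, Commute σ (G (b, l)))
    (simp : ∀ N : Subgroup A, N.Normal → ∀ b, ph G hc hp (lw (Pi.single b (1, 0))) ∈ N → N = ⊤) :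
    Blk A B s where
  d w := ph G hc hp (lw w)
  add v w := by rw [lw_add, map_mul]
  perm θ := by
    obtain ⟨α, hα⟩ := hΘ (Equiv.prodCongr θ (Equiv.refl _))
    refine ⟨α, fun w => ?_⟩
    rw [ph_conj G hc hp hα]
    rfl
  lin v hv := by
    choose γ hγ using fun b => exists_equiv_form (hv b)
    obtain ⟨α, hα⟩ := hΘ (Equiv.prodCongrRight γ)
    refine ⟨α, fun b => ?_⟩
    rw [ph_conj G hc hp hα]
    congr 1
    funext y
    rw [Function.comp_apply]
    obtain ⟨⟨b', l⟩, rfl⟩ := (Equiv.prodCongrRight γ).surjective y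
    rw [Equiv.symm_apply_apply]
    change lw (Pi.single b (v b)) (b', l) = lw (Pi.single b (1, 0)) (b', γ b' l)
    by_cases hb : b' = b
    · subst hb
      rw [lw_single_same, lw_single_same, hγ, mul_one, mul_zero, add_zero]
    · rw [lw_single_ne hb, lw_single_ne hb]
  S := S
  gen := gen
  avoid σ hσ := by
    obtain ⟨T, hT, h⟩ := avoid σ hσ
    refine ⟨T, hT, fun b hb v => ph_comm G hc hp fun x hx => ?_⟩
    by_cases hxb : x.1 = b
    · obtain ⟨b', l⟩ := x
      change b' = b at hxb
      subst hxb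
      exact h b' hb l
    · exact absurd (lw_single_ne hxb) hx
  simp N hN b hb := simp N hN b hb

theorem blkGen_e
    (hΘ : ∀ Θ : Perm (B × (ZMod s × ZMod s)), ∃ α : A, ∀ x, α * G x * α⁻¹ = G (Θ x))
    (S : Set A) (gen : Subgroup.closure S = ⊤)
    (avoid : ∀ σ ∈ S, ∃ T : Finset B, T.card ≤ 3 ∧ ∀ b ∉ T, ∀ l, Commute σ (G (b, l)))
    (simp : ∀ N : Subgroup A, N.Normal → ∀ b, ph G hc hp (lw (Pi.single b (1, 0))) ∈ N → N = ⊤)
    (b : B) : (blkGen G hc hp hΘ S gen avoid simp).e b = ph G hc hp (lw (Pi.single b (1, 0))) :=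
  rfl

end Blk

end Pool.Agent.Lib.MP_b9166b_al.Aq
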