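import Pool.Agent.Lib.MP_b9166b_al.Aq.Kap
import Pool.Agent.Lib.MP_b9166b_al.Aq.BlkGen

/-!
# MP_b9166b_al, PRIME POWER, regular case: the canonical commutators of disjoint sets of five points
-/

set_option autoImplicit false

namespace Pool.Agent.Lib.MP_b9166b_al.Aq

open Equiv Equiv.Perm Rg

section Via

variable {X Ω : Type} [Fintype X] [DecidableEq X] [Fintype Ω] [DecidableEq Ω]

theorem via_two {f g : X ↪ Ω} {υ : Perm Ω} (h : ∀ x, υ (f x) = g x) (d : Perm X) :
    υ * viaEmbeddingHom f d * υ⁻¹ = viaEmbeddingHom g d := by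
  rw [mul_inv_eq_iff_eq_mul]
  apply Equiv.ext
  intro y
  rw [Perm.mul_apply, Perm.mul_apply]
  by_cases hy : ∃ x, f x = y
  · obtain ⟨x, rfl⟩ := hy
    rw [via_apply, h, h, via_apply]
  · push Not at hy
    rw [via_apply_of_notMem f d hy, via_apply_of_notMem]
    intro x hx
    rw [← h] at hx
    exact hy x (υ.injective hx)

theorem via_comm {f : X ↪ Ω} {υ : Perm Ω} (h : ∀ x, υ (f x) = f x) (d : Perm X) :
    Commute υ (viaEmbeddingHom f d) :=
  mul_inv_eq_iff_eq_mul.1 (via_two h d)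

end Via

section Ak

variable {L H Ω I : Type} [Group L] [Group H] [Fintype Ω] [DecidableEq Ω]

/-- the five points of the index `i` -/
def ji (j : I × Fin 5 ↪ Ω) (i : I) : Fin 5 ↪ Ω :=
  ⟨fun x => j (i, x), fun _ _ h => congrArg Prod.snd (j.injective h)⟩

omit [Fintype Ω] [DecidableEq Ω] in
theorem ji_apply (j : I × Fin 5 ↪ Ω) (i : I) (x : Fin 5) : ji j i x = j (i, x) := rfl

theorem via_ji_ne (j : I × Fin 5 ↪ Ω) {i i' : I} (hi : i' ≠ i) (d : Perm (Fin 5)) (x : Fin 5) :
    viaEmbeddingHom (ji j i) d (j (i', x)) = j (i', x) := by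
  refine via_apply_of_notMem (ji j i) d fun y hy => hi ?_
  exact (congrArg Prod.fst (j.injective hy)).symm

theorem via_ji_same (j : I × Fin 5 ↪ Ω) (i : I) (d : Perm (Fin 5)) (x : Fin 5) :
    viaEmbeddingHom (ji j i) d (j (i, x)) = j (i, d x) :=
  via_apply (ji j i) d x

theorem via_ji_comm (j : I × Fin 5 ↪ Ω) {i i' : I} (hi : i' ≠ i) (d d' : Perm (Fin 5)) :
    Commute (viaEmbeddingHom (ji j i) d) (viaEmbeddingHom (ji j i') d') :=
  via_comm (fun x => via_ji_ne j hi d x) d'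

variable (π : L →* Perm Ω) (ρ : L →* H) (j : I × Fin 5 ↪ Ω) (α β : Perm (Fin 5))

/-- the canonical commutator of the index `i` -/
noncomputable def ak (i : I) : H :=
  kap π ρ (viaEmbeddingHom (ji j i) α) (viaEmbeddingHom (ji j i) β)

variable {π ρ j α β}

theorem via_mem (hr : π.range = alternatingGroup Ω) {d : Perm (Fin 5)} (hd : sign d = 1) (i : I) :
    viaEmbeddingHom (ji j i) d ∈ π.range := by
  rw [hr, mem_alternatingGroup, sign_via, hd]

variable (hr : π.range = alternatingGroup Ω)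
  (hcen : ∀ n, π n = 1 → ∀ g, Commute (ρ n) (ρ g)) (hα : sign α = 1) (hβ : sign β = 1)

include hr hcen hα hβ

theorem ak_conj {g : L} {i i' : I} (h : ∀ x, π g (j (i, x)) = j (i', x)) :
    ρ g * ak π ρ j α β i * (ρ g)⁻¹ = ak π ρ j α β i' := by
  unfold ak
  rw [kap_conj hcen (via_mem hr hα i) (via_mem hr hβ i), via_two (g := ji j i') h,
    via_two (g := ji j i') h]

theorem ak_map {i i' : I} (f : L →* L) (fH : H →* H) (υ : Perm Ω)
    (hf : ∀ g, π (f g) = υ * π g * υ⁻¹) (hfH : ∀ g, ρ (f g) = fH (ρ g))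
    (h : ∀ x, υ (j (i, x)) = j (i', x)) :
    fH (ak π ρ j α β i) = ak π ρ j α β i' := by
  unfold ak
  rw [kap_map hcen (via_mem hr hα i) (via_mem hr hβ i) f fH υ hf hfH,
    via_two (g := ji j i') h, via_two (g := ji j i') h]

theorem ak_comm (i i' : I) : Commute (ak π ρ j α β i) (ak π ρ j α β i') := by
  by_cases h : i' = i
  · rw [h]
  · exact kap_comm_kap hcen (via_mem hr hα i) (via_mem hr hβ i) (via_mem hr hα i')
      (via_mem hr hβ i') (via_ji_comm j h _ _) (via_ji_comm j h _ _) (via_ji_comm j h _ _)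
      (via_ji_comm j h _ _)

theorem ak_pre (i : I) : ∃ n, π n = viaEmbeddingHom (ji j i) (α * β * α⁻¹ * β⁻¹) ∧
    ρ n = ak π ρ j α β i := by
  obtain ⟨n, h1, h2⟩ := exists_kap hcen (via_mem hr hα i) (via_mem hr hβ i)
  refine ⟨n, ?_, h2⟩
  rw [h1]
  simp only [map_mul, map_inv]

theorem ak_comm_of {g : L} {i : I} (h : ∀ x, π g (j (i, x)) = j (i, x)) :
    Commute (ρ g) (ak π ρ j α β i) :=
  kap_comm hcen (via_mem hr hα i) (via_mem hr hβ i) (via_comm (f := ji j i) h α)
    (via_comm (f := ji j i) h β)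

theorem ak_pow_cen {s : ℕ} (hs : (α * β * α⁻¹ * β⁻¹) ^ s = 1) (i : I) (g : L) :
    Commute (ak π ρ j α β i ^ s) (ρ g) := by
  obtain ⟨n, h1, h2⟩ := ak_pre hr hcen hα hβ (j := j) i
  rw [← h2, ← map_pow]
  refine hcen _ ?_ g
  rw [map_pow, h1, ← map_pow, hs, map_one]

omit hα hβ hcen in
/-- even permutations of the sets of five points -/
theorem exists_swap [Fintype I] [DecidableEq I] {i i' : I} (h : i' ≠ i) :
    ∃ g, ∀ x, π g (j (i, x)) = j (i', x) := by
  have h3 : viaEmbeddingHom j (Equiv.prodCongrLeft (fun _ : Fin 5 => swap i i') *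
      swap (i', 0) (i', 1)) ∈ π.range := by
    have h4 : ((i', 0) : I × Fin 5) ≠ (i', 1) := by simp
    rw [hr, mem_alternatingGroup, sign_via, Perm.sign_mul, sign_prodCongrLeft,
      sign_swap h4, Finset.prod_const, Finset.card_univ, Fintype.card_fin,
      sign_swap h.symm]
    decide
  obtain ⟨g, hg⟩ := h3
  refine ⟨g, fun x => ?_⟩
  rw [hg, via_apply, Perm.mul_apply, swap_apply_of_ne_of_ne]
  · change j (swap i i' i, x) = _
    rw [swap_apply_left]
  · intro h4
    exact h (congrArg Prod.fst h4).symm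
  · intro h4
    exact h (congrArg Prod.fst h4).symm

theorem ak_pow_eq [Fintype I] [DecidableEq I] {s : ℕ} (hs : (α * β * α⁻¹ * β⁻¹) ^ s = 1)
    (i i' : I) : ak π ρ j α β i ^ s = ak π ρ j α β i' ^ s := by
  by_cases h : i' = i
  · rw [h]
  · obtain ⟨g, hg⟩ := exists_swap (j := j) hr h
    have h3 := ak_conj hr hcen hα hβ (ρ := ρ) hg
    rw [← h3, conj_pow, ← (ak_pow_cen hr hcen hα hβ hs i g).eq, mul_inv_cancel_right]

omit hα hβ hcen in
/-- the permutations of the indices, twice -/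
theorem exists_dbl {X : Type} [Fintype X] [DecidableEq X] (j : (X × Bool) × Fin 5 ↪ Ω)
    (Θ : Perm X) : ∃ g, ∀ x t y, π g (j ((x, t), y)) = j ((Θ x, t), y) := by
  have h3 : viaEmbeddingHom j (Equiv.prodCongrLeft (fun _ : Fin 5 =>
      Equiv.prodCongrLeft (fun _ : Bool => Θ))) ∈ π.range := by
    rw [hr, mem_alternatingGroup, sign_via, sign_prodCongrLeft]
    refine Finset.prod_eq_one fun _ _ => ?_
    rw [sign_prodCongrLeft, Finset.prod_const, Finset.card_univ, Fintype.card_bool]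
    exact Int.units_sq _
  obtain ⟨g, hg⟩ := h3
  refine ⟨g, fun x t y => ?_⟩
  rw [hg, via_apply]
  rfl

end Ak

end Pool.Agent.Lib.MP_b9166b_al.Aq
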