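import Pool.Agent.Lib.MP_b9166b_al.Aq.BlkAk

/-!
# MP_b9166b_al, PRIME POWER, regular case: commuting elements of order `s`
-/

set_option autoImplicit false

namespace Pool.Agent.Lib.MP_b9166b_al.Aq

open Equiv Equiv.Perm Rg

variable {L H Ω X : Type} [Group L] [Group H] [Fintype Ω] [DecidableEq Ω]
  {π : L →* Perm Ω} {ρ : L →* H} {α β : Perm (Fin 5)}
  (hr : π.range = alternatingGroup Ω)
  (hcen : ∀ n, π n = 1 → ∀ g, Commute (ρ n) (ρ g)) (hα : sign α = 1) (hβ : sign β = 1)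
  (j : (X × Bool) × Fin 5 ↪ Ω)

/-- the quotient of two canonical commutators -/
noncomputable def gk (x : X) : ρ.range :=
  ⟨ak π ρ j α β (x, false) * (ak π ρ j α β (x, true))⁻¹, by
    obtain ⟨n, -, hn⟩ := ak_pre hr hcen hα hβ (j := j) (x, false)
    obtain ⟨m, -, hm⟩ := ak_pre hr hcen hα hβ (j := j) (x, true)
    rw [← hn, ← hm, ← map_inv, ← map_mul]
    exact ⟨_, rfl⟩⟩

theorem gk_coe (x : X) : (gk hr hcen hα hβ j x : H) =
    ak π ρ j α β (x, false) * (ak π ρ j α β (x, true))⁻¹ := rfl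

theorem gk_comm (x y : X) : Commute (gk hr hcen hα hβ j x) (gk hr hcen hα hβ j y) := by
  have h := fun i i' => ak_comm hr hcen hα hβ (j := j) i i'
  have h1 : Commute (gk hr hcen hα hβ j x : H) (gk hr hcen hα hβ j y : H) := by
    rw [gk_coe, gk_coe]
    exact ((h _ _).mul_right (h _ _).inv_right).mul_left
      (((h _ _).mul_right (h _ _).inv_right).inv_left)
  exact Subtype.ext h1.eq

theorem gk_pow [Fintype X] [DecidableEq X] {s : ℕ} (hs : (α * β * α⁻¹ * β⁻¹) ^ s = 1) (x : X) :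
    gk hr hcen hα hβ j x ^ s = 1 := by
  apply Subtype.ext
  rw [SubmonoidClass.coe_pow, gk_coe, (ak_comm hr hcen hα hβ (j := j) _ _).inv_right.mul_pow,
    inv_pow, ak_pow_eq hr hcen hα hβ hs (x, false) (x, true), mul_inv_cancel]
  rfl

theorem gk_conj {g : L} {x x' : X} (h : ∀ t y, π g (j ((x, t), y)) = j ((x', t), y)) :
    ρ g * (gk hr hcen hα hβ j x : H) * (ρ g)⁻¹ = gk hr hcen hα hβ j x' := by
  rw [gk_coe, gk_coe, ← ak_conj hr hcen hα hβ (i := (x, false)) (h false),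
    ← ak_conj hr hcen hα hβ (i := (x, true)) (h true)]
  group

theorem gk_map {x x' : X} (f : L →* L) (fH : H →* H) (υ : Perm Ω)
    (hf : ∀ g, π (f g) = υ * π g * υ⁻¹) (hfH : ∀ g, ρ (f g) = fH (ρ g))
    (h : ∀ t y, υ (j ((x, t), y)) = j ((x', t), y)) :
    fH (gk hr hcen hα hβ j x : H) = gk hr hcen hα hβ j x' := by
  rw [gk_coe, gk_coe, map_mul, map_inv,
    ak_map hr hcen hα hβ (i := (x, false)) f fH υ hf hfH (h false),
    ak_map hr hcen hα hβ (i := (x, true)) f fH υ hf hfH (h true)]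

theorem gk_comm_of {g : L} {x : X} (h : ∀ t y, π g (j ((x, t), y)) = j ((x, t), y)) :
    Commute (ρ g) (gk hr hcen hα hβ j x : H) := by
  have h1 := gk_conj hr hcen hα hβ j h
  exact mul_inv_eq_iff_eq_mul.1 h1

theorem gk_pre (x : X) : ∃ n, ρ n = (gk hr hcen hα hβ j x : H) ∧
    (∀ y, π n (j ((x, false), y)) = j ((x, false), (α * β * α⁻¹ * β⁻¹) y)) ∧
    ∀ x', x' ≠ x → ∀ y, π n (j ((x', false), y)) = j ((x', false), y) := by
  obtain ⟨n, hn, hn'⟩ := ak_pre hr hcen hα hβ (j := j) (x, false)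
  obtain ⟨m, hm, hm'⟩ := ak_pre hr hcen hα hβ (j := j) (x, true)
  have h1 : ∀ x' y, π m⁻¹ (j ((x', false), y)) = j ((x', false), y) := by
    intro x' y
    rw [map_inv, Perm.inv_eq_iff_eq, hm, via_ji_ne]
    simp
  refine ⟨n * m⁻¹, ?_, ?_, ?_⟩
  · rw [map_mul, map_inv, hn', hm', gk_coe]
  · intro y
    rw [map_mul, Perm.mul_apply, h1, hn, via_ji_same]
  · intro x' hx y
    rw [map_mul, Perm.mul_apply, h1, hn, via_ji_ne]
    intro h
    exact hx (congrArg Prod.fst h)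

/-- preimages of the products -/
theorem ph_pre [Fintype X] {s : ℕ} [NeZero s] (h1s : 1 < s)
    (hs : (α * β * α⁻¹ * β⁻¹) ^ s = 1) (hp : ∀ x, gk hr hcen hα hβ j x ^ s = 1)
    (u : X → Multiplicative (ZMod s)) :
    ∃ g, ρ g = (ph (gk hr hcen hα hβ j) (gk_comm hr hcen hα hβ j) hp u : H) ∧
      ∀ x y, π g (j ((x, false), y)) = j ((x, false), zh _ hs (u x) y) := by
  classical
  let P : Subgroup (X → Multiplicative (ZMod s)) :=
    { carrier := {u | ∃ g, ρ g =
          (ph (gk hr hcen hα hβ j) (gk_comm hr hcen hα hβ j) hp u : H) ∧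
          ∀ x y, π g (j ((x, false), y)) = j ((x, false), zh _ hs (u x) y)}
      one_mem' := ⟨1, by rw [map_one, map_one]; rfl, fun x y => by
        rw [map_one, Pi.one_apply, map_one]
        rfl⟩
      mul_mem' := by
        rintro u v ⟨g, hg, hg'⟩ ⟨g', hk, hk'⟩
        refine ⟨g * g', ?_, fun x y => ?_⟩
        · rw [map_mul, map_mul, hg, hk]
          rfl
        · rw [map_mul, Perm.mul_apply, hk', hg', Pi.mul_apply, map_mul, Perm.mul_apply]
      inv_mem' := by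
        rintro u ⟨g, hg, hg'⟩
        refine ⟨g⁻¹, ?_, fun x y => ?_⟩
        · rw [map_inv, map_inv, hg]
          rfl
        · rw [map_inv, Perm.inv_eq_iff_eq, hg', Pi.inv_apply, map_inv, ← Perm.mul_apply,
            mul_inv_cancel, Perm.one_apply] }
  change u ∈ P
  refine mem_of_single P u fun x => ?_
  have hx : (Pi.mulSingle x (Multiplicative.ofAdd (1 : ZMod s)) :
      X → Multiplicative (ZMod s)) ∈ P := by
    obtain ⟨n, hn, hn1, hn2⟩ := gk_pre hr hcen hα hβ j x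
    have : Fact (1 < s) := ⟨h1s⟩
    have h11 : (Multiplicative.toAdd (Multiplicative.ofAdd (1 : ZMod s))).val = 1 := by
      rw [toAdd_ofAdd, ZMod.val_one]
    refine ⟨n, ?_, fun x' y => ?_⟩
    · rw [ph_single, h11, pow_one, hn]
    · by_cases hx' : x' = x
      · subst hx'
        rw [Pi.mulSingle_eq_same, zh_apply, h11, pow_one, hn1]
      · rw [Pi.mulSingle_eq_of_ne hx', map_one, Perm.one_apply, hn2 x' hx']
  have h2 : (Pi.mulSingle x (u x) : X → Multiplicative (ZMod s)) =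
      (Pi.mulSingle x (Multiplicative.ofAdd (1 : ZMod s))) ^ (u x).toAdd.val := by
    rw [← Pi.mulSingle_pow, ← ofAdd_nsmul, nsmul_one, ZMod.natCast_zmod_val, ofAdd_toAdd]
  rw [h2]
  exact P.pow_mem hx _

end Pool.Agent.Lib.MP_b9166b_al.Aq
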