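import Pool.Agent.Lib.MP_b9166b_al.Aq.Kap
import Pool.Agent.Lib.MP_b9166b_al.Aq.BlkGk
import Pool.Agent.Lib.MP_b9166b_al.Rg.Blk

/-!
# MP_b9166b_al, PRIME POWER, regular case: blocks in a central extension

`π : L →* Perm Ω` has the alternating group as image, `ρ` maps its kernel to central elements of
the image of `ρ`. `Ω` contains `s² · 2` sets of five points for each block `b : B`. Then `ρ.range`
has a system of blocks `Blk ρ.range B s`.

Proof. Let `I = (B × (ZMod s × ZMod s)) × Bool`, `j i : Fin 5 ↪ Ω`, `j i x = j (i, x)`, `α`, `β`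
as in `exists_five`, and `a i = kap (via (j i) α) (via (j i) β)`, where
`via = viaEmbeddingHom`. A permutation `τ` of `I` gives a permutation of `I × Fin 5` of the same
sign, hence a permutation `υ` of `Ω`. If `τ` is even and `π g = υ` then `ρ g * a i * (ρ g)⁻¹ =
a (τ i)` (`kap_conj`). The `a i` commute (`kap_comm_kap`). `(a i) ^ s` is central (`exists_kap`:
it is `ρ n` with `π n = 1`), and so it does not depend on `i` (the group of the even permutations
of `I` is transitive). So `G b l = a ((b, l), false) * (a ((b, l), true))⁻¹` satisfies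
`G b l ^ s = 1`. Define
`d w = ∏ b, ∏ l, (G b l) ^ (l.1 * (w b).1 + l.2 * (w b).2).val`.
* `add`: exponents modulo `s`.
* `perm`: let `ρ g`, `π g` induced by `τ ((b, l), t) = ((θ b, l), t)` (even, as `Bool` has two
  elements). It maps `G b l` to `G (θ b) l`.
* `lin`: for `v b ≠ 0` choose an additive automorphism `β b` of `ZMod s × ZMod s` with
  `(β b l).1 = l.1 * (v b).1 + l.2 * (v b).2`, and take `τ ((b, l), t) = ((b, β b l), t)`.
* `S`: the elements `ρ g` where `π g` is a three cycle. `gen`: the group of the `g` with `ρ g` in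
  the closure contains the kernel of `π` (`n = g⁻¹ (g n)`) and its image contains the three cycles.
* `avoid`: `π g` moves three points, so it meets at most three blocks; `kap_comm`.
* `simp`: the preimage of `N` in `L` contains `g` with `π g ≠ 1` (the product of the
  `via (j i) [α, β]` with exponents; use `exists_kap`), so its image is the alternating group
  (simple), and `L` is generated by it and the kernel of `π`; modulo `N` the group `ρ.range` is
  commutative, and it is perfect.
* the last statement: `kap_map`.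
-/

set_option autoImplicit false

namespace Pool.Agent.Lib.MP_b9166b_al.Aq

open Equiv Equiv.Perm Rg

section

variable {L H Ω : Type} [Group L] [Group H] [Fintype Ω] [DecidableEq Ω] {π : L →* Perm Ω}
  {ρ : L →* H}

/-- the images of the preimages of the three cycles generate the image of `ρ` -/
theorem cen_gen (hr : π.range = alternatingGroup Ω) {a b c : Ω} (hab : a ≠ b) (hac : a ≠ c)
    (hbc : b ≠ c) :
    Subgroup.closure {σ : ρ.range | ∃ g, IsThreeCycle (π g) ∧ ρ g = (σ : H)} = ⊤ := by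
  set S : Set ρ.range := {σ : ρ.range | ∃ g, IsThreeCycle (π g) ∧ ρ g = (σ : H)} with hS
  have hP3 : ∀ g, IsThreeCycle (π g) → g ∈ (Subgroup.closure S).comap ρ.rangeRestrict := by
    intro g hg
    exact Subgroup.subset_closure ⟨g, hg, rfl⟩
  obtain ⟨g₀, hg₀⟩ : ∃ g₀, π g₀ = swap a b * swap a c := by
    have h1 : swap a b * swap a c ∈ π.range := by
      rw [hr]
      exact (isThreeCycle_swap_mul_swap_same hab hac hbc).mem_alternatingGroup
    exact h1
  have h3 : IsThreeCycle (π g₀) := hg₀ ▸ isThreeCycle_swap_mul_swap_same hab hac hbc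
  have hker : ∀ n, π n = 1 → n ∈ (Subgroup.closure S).comap ρ.rangeRestrict := by
    intro n hn
    have h4 : g₀ * n ∈ (Subgroup.closure S).comap ρ.rangeRestrict := by
      apply hP3
      rw [map_mul, hn, mul_one]
      exact h3
    exact (Subgroup.mul_mem_cancel_left _ (hP3 g₀ h3)).1 h4
  have hall : ∀ σ ∈ Subgroup.closure {σ : Perm Ω | IsThreeCycle σ}, ∀ x, π x = σ →
      x ∈ (Subgroup.closure S).comap ρ.rangeRestrict := by
    intro σ hσ
    induction hσ using Subgroup.closure_induction with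
    | mem σ hσ =>
      intro x hx
      exact hP3 x (hx ▸ hσ)
    | one => exact hker
    | mul σ τ hσ hτ ih1 ih2 =>
      intro x hx
      rw [closure_three_cycles_eq_alternating, ← hr] at hσ
      obtain ⟨a, ha⟩ := hσ
      have h4 : a⁻¹ * x ∈ (Subgroup.closure S).comap ρ.rangeRestrict := by
        apply ih2
        rw [map_mul, map_inv, hx, ha, inv_mul_cancel_left]
      have h5 := Subgroup.mul_mem _ (ih1 a ha) h4
      rwa [mul_inv_cancel_left] at h5
    | inv σ hσ ih =>
      intro x hx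
      have h4 := ih x⁻¹ (by rw [map_inv, hx, inv_inv])
      exact (Subgroup.inv_mem_iff _).1 h4
  rw [Subgroup.eq_top_iff']
  rintro ⟨_, x, rfl⟩
  exact hall (π x) (by
    rw [closure_three_cycles_eq_alternating, ← hr]
    exact ⟨x, rfl⟩) x rfl

/-- a normal subgroup which contains the image of an element not in the kernel of `π` is
everything -/
theorem cen_simp (hr : π.range = alternatingGroup Ω) (hperf : commutator L = ⊤)
    (h5 : 5 ≤ Nat.card Ω) (hcen : ∀ n, π n = 1 → ∀ g, Commute (ρ n) (ρ g))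
    (N : Subgroup ρ.range) (hN : N.Normal) {g₀ : L} (h1 : π g₀ ≠ 1)
    (h0 : ρ.rangeRestrict g₀ ∈ N) : N = ⊤ := by
  have hsimp : IsSimpleGroup (alternatingGroup Ω) := alternatingGroup.isSimpleGroup h5
  let πA : L →* alternatingGroup Ω := π.codRestrict _ fun x => by
    rw [← hr]
    exact ⟨x, rfl⟩
  have hsurj : Function.Surjective πA := by
    rintro ⟨σ, hσ⟩
    rw [← hr] at hσ
    obtain ⟨x, rfl⟩ := hσ
    exact ⟨x, rfl⟩
  have hN' : (N.comap ρ.rangeRestrict).Normal := inferInstance
  have hM : ((N.comap ρ.rangeRestrict).map πA).Normal := hN'.map πA hsurj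
  have hx : ∀ x, ∃ n ∈ N.comap ρ.rangeRestrict, π n = π x := by
    intro x
    rcases hM.eq_bot_or_eq_top with h | h
    · exfalso
      have h2 : πA g₀ ∈ (N.comap ρ.rangeRestrict).map πA := ⟨g₀, h0, rfl⟩
      rw [h, Subgroup.mem_bot] at h2
      exact h1 (congrArg Subtype.val h2)
    · have h2 : πA x ∈ (N.comap ρ.rangeRestrict).map πA := by
        rw [h]
        exact Subgroup.mem_top _
      obtain ⟨n, hn, hn'⟩ := h2
      exact ⟨n, hn, congrArg Subtype.val hn'⟩
  have hcomm : commutator L ≤ N.comap ρ.rangeRestrict := by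
    rw [commutator_def, Subgroup.commutator_le]
    intro x _ y _
    obtain ⟨n, hn, hnx⟩ := hx x
    obtain ⟨m, hm, hmy⟩ := hx y
    rw [commutatorElement_def, Subgroup.mem_comap]
    have h2 : ρ.rangeRestrict (x * y * x⁻¹ * y⁻¹) = ρ.rangeRestrict (n * m * n⁻¹ * m⁻¹) := by
      apply Subtype.ext
      change ρ (x * y * x⁻¹ * y⁻¹) = ρ (n * m * n⁻¹ * m⁻¹)
      rw [← kap_eq hcen, ← kap_eq hcen, hnx, hmy]
    rw [h2, map_mul, map_mul, map_mul]
    exact N.mul_mem (N.mul_mem (N.mul_mem hn hm) ((N.comap ρ.rangeRestrict).inv_mem hn))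
      ((N.comap ρ.rangeRestrict).inv_mem hm)
  rw [hperf, top_le_iff] at hcomm
  rw [Subgroup.eq_top_iff']
  rintro ⟨_, x, rfl⟩
  have h2 : x ∈ N.comap ρ.rangeRestrict := by
    rw [hcomm]
    exact Subgroup.mem_top _
  exact h2

end

theorem exists_blk_cen {L H Ω B : Type} [Group L] [Group H] [Fintype Ω] [DecidableEq Ω]
    [Fintype B] [DecidableEq B] [Nonempty B] {π : L →* Perm Ω} {ρ : L →* H}
    (hr : π.range = alternatingGroup Ω) (hperf : commutator L = ⊤) (h5 : 5 ≤ Nat.card Ω)
    (hcen : ∀ n, π n = 1 → ∀ g, Commute (ρ n) (ρ g)) {s : ℕ} (hs : s = 2 ∨ s = 3)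
    (j : ((B × (ZMod s × ZMod s)) × Bool) × Fin 5 ↪ Ω) :
    ∃ Δ : Blk ρ.range B s, ∀ (f : L →* L) (fH : H →* H) (υ : Perm Ω) (θ : Perm B),
      (∀ g, π (f g) = υ * π g * υ⁻¹) → (∀ g, ρ (f g) = fH (ρ g)) →
      (∀ b l t x, υ (j (((b, l), t), x)) = j (((θ b, l), t), x)) →
      ∀ b, fH (Δ.e b : H) = Δ.e (θ b) := by
  obtain ⟨α, β, hα, hβ, hs5, hne⟩ := exists_five hs
  have hs' : s.Prime := by
    rcases hs with rfl | rfl
    · exact Nat.prime_two
    · exact Nat.prime_three
  have hsF : Fact s.Prime := ⟨hs'⟩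
  have hsF1 : Fact (1 < s) := ⟨hs'.one_lt⟩
  have hp := gk_pow hr hcen hα hβ j hs5
  have hc := gk_comm hr hcen hα hβ j
  have hΘ : ∀ Θ : Perm (B × (ZMod s × ZMod s)), ∃ a : ρ.range, ∀ x,
      a * gk hr hcen hα hβ j x * a⁻¹ = gk hr hcen hα hβ j (Θ x) := by
    intro Θ
    obtain ⟨g, hg⟩ := exists_dbl hr j Θ
    exact ⟨⟨ρ g, g, rfl⟩, fun x => Subtype.ext
      (gk_conj hr hcen hα hβ j (x := x) (x' := Θ x) fun t y => hg x t y)⟩
  obtain ⟨b₀⟩ := ‹Nonempty B›
  have hgen : Subgroup.closure {σ : ρ.range | ∃ g, IsThreeCycle (π g) ∧ ρ g = (σ : H)} = ⊤ :=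
    cen_gen hr (a := j (((b₀, 0), false), 0)) (b := j (((b₀, 0), false), 1))
      (c := j (((b₀, 0), false), 2))
      (fun h => (by decide : (0 : Fin 5) ≠ 1) (congrArg Prod.snd (j.injective h)))
      (fun h => (by decide : (0 : Fin 5) ≠ 2) (congrArg Prod.snd (j.injective h)))
      (fun h => (by decide : (1 : Fin 5) ≠ 2) (congrArg Prod.snd (j.injective h)))
  have havoid : ∀ σ ∈ {σ : ρ.range | ∃ g, IsThreeCycle (π g) ∧ ρ g = (σ : H)},
      ∃ T : Finset B, T.card ≤ 3 ∧ ∀ b ∉ T, ∀ l, Commute σ (gk hr hcen hα hβ j (b, l)) := by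
    classical
    rintro σ ⟨g, hg, hσ⟩
    refine ⟨Finset.univ.filter fun b => ∃ e : ((ZMod s × ZMod s) × Bool) × Fin 5,
      j (((b, e.1.1), e.1.2), e.2) ∈ (π g).support, ?_, ?_⟩
    · rw [← hg.card_support]
      have h : ∀ b ∈ Finset.univ.filter (fun b => ∃ e : ((ZMod s × ZMod s) × Bool) × Fin 5,
          j (((b, e.1.1), e.1.2), e.2) ∈ (π g).support),
          ∃ e : ((ZMod s × ZMod s) × Bool) × Fin 5,
            j (((b, e.1.1), e.1.2), e.2) ∈ (π g).support := fun b hb => (Finset.mem_filter.1 hb).2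
      choose! e he using h
      apply Finset.card_le_card_of_injOn (fun b => j (((b, (e b).1.1), (e b).1.2), (e b).2))
      · intro b hb
        exact he b hb
      · intro b hb b' hb' hbb
        exact congrArg (fun x => x.1.1.1) (j.injective hbb)
    · intro b hb l
      have h1 : ∀ t y, π g (j (((b, l), t), y)) = j (((b, l), t), y) := by
        intro t y
        by_contra hcon
        apply hb
        rw [Finset.mem_filter]
        exact ⟨Finset.mem_univ _, ((l, t), y), Perm.mem_support.2 hcon⟩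
      have h2 := gk_comm_of hr hcen hα hβ j (g := g) (x := (b, l)) h1
      rw [hσ] at h2
      exact Subtype.ext h2.eq
  have hsimp : ∀ N : Subgroup ρ.range, N.Normal → ∀ b,
      ph (gk hr hcen hα hβ j) hc hp (lw (Pi.single b (1, 0))) ∈ N → N = ⊤ := by
    intro N hN b hb
    obtain ⟨g₀, h0, h0'⟩ := ph_pre hr hcen hα hβ j hs'.one_lt hs5 hp
      (lw (Pi.single b ((1 : ZMod s), (0 : ZMod s))))
    refine cen_simp hr hperf h5 hcen N hN (g₀ := g₀) ?_ ?_
    · intro h1
      apply hne
      apply Equiv.ext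
      intro y
      have h2 := h0' (b, ((1 : ZMod s), (0 : ZMod s))) y
      rw [h1, lw_single_same, mul_one, mul_zero, add_zero, zh_apply, toAdd_ofAdd, ZMod.val_one,
        pow_one] at h2
      exact (congrArg Prod.snd (j.injective h2)).symm
    · have h2 : ρ.rangeRestrict g₀ = ph (gk hr hcen hα hβ j) hc hp (lw (Pi.single b (1, 0))) :=
        Subtype.ext h0
      rw [h2]
      exact hb
  refine ⟨blkGen (gk hr hcen hα hβ j) hc hp hΘ _ hgen havoid hsimp, ?_⟩
  intro f fH υ θ hf hfH hυ b
  rw [blkGen_e, blkGen_e]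
  have h1 := ph_nat (gk hr hcen hα hβ j) hc hp (fH.comp ρ.range.subtype) ρ.range.subtype
    (Equiv.prodCongr θ (Equiv.refl (ZMod s × ZMod s))) (fun x => by
      obtain ⟨b', l⟩ := x
      exact gk_map hr hcen hα hβ j (x := (b', l)) (x' := (θ b', l)) f fH υ hf hfH
        fun t y => hυ b' l t y) (lw (Pi.single b (1, 0)))
  have h2 : (lw (Pi.single b ((1 : ZMod s), (0 : ZMod s))) :
      B × (ZMod s × ZMod s) → Multiplicative (ZMod s)) ∘
      (Equiv.prodCongr θ (Equiv.refl (ZMod s × ZMod s))).symm =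
      lw (Pi.single (θ b) ((1 : ZMod s), (0 : ZMod s))) := by
    funext y
    obtain ⟨b', l⟩ := y
    change lw (Pi.single b ((1 : ZMod s), (0 : ZMod s))) (θ.symm b', l) = _
    by_cases hb : b' = θ b
    · subst hb
      rw [Equiv.symm_apply_apply, lw_single_same, lw_single_same]
    · rw [lw_single_ne (x := (b', l)) hb, lw_single_ne]
      intro h3
      exact hb ((Equiv.symm_apply_eq θ).1 h3)
  rw [h2] at h1
  exact h1

end Pool.Agent.Lib.MP_b9166b_al.Aq
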