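import Pool.Agent.Lib.MP_b9166b_al.Aq.CoreU
import Pool.Agent.Lib.MP_b9166b_al.An.Wk

/-!
# MP_b9166b_al, PRIME POWER: the orders of the stabilizers

`so F c ω` is the order of the stabilizer of `ω` in `F`.

Proof of `exists_min` (compare `An.exists_period` in An/Fib.lean). All orders are in
`{1, …, Nat.card F}`. If no order `a` occurs often (first property) then for every `a ≤ Nat.card F`
there are `S`, `m` such that `a` occurs at most `m` times in the covers of `S` with `P`, and the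
degrees of the covers with `P` of the union of these `S` are bounded, contradiction to `hgrow` and
`hne`. Let `a` be the smallest such order.

Proof of `exists_over`. Take a set `Δ` of five points, `v ∈ Vr π Δ`, `v ≠ 1` (`An.exists_order`), a
point `ψ` with `π' v ψ ≠ ψ`; by `Nat2.moved` it lies over a point of `Δ`. Move it with
`An.exists_move` and `Ov.map`.

Proof of `bad_le`. For every such `ω` there is a `ψ` over `ω` with `so F c' ψ < a`: the stabilizer
of a point `ψ` over `ω` is contained in the stabilizer of `ω` (`Ov.map`, `Ov.unique`). If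
`so F c ω < a` take any `ψ` over `ω`. If `so F c ω = a` and `Gp` does not hold, there is `ψ` over
`ω` and `f` in the stabilizer of `ω`, but not in that of `ψ`, so `so F c' ψ < a`. Points over
different `ω` are different (`Ov.unique`).
-/

set_option autoImplicit false

namespace Pool.Agent.Lib.MP_b9166b_al.Aq

open Equiv Equiv.Perm An

variable {G : Type} [Group G]

/-- the order of the stabilizer -/
noncomputable def so (F : Subgroup G) (c : Cv G) (ω : Fin c.n) : ℕ :=
  Nat.card {f : F // c.p f ω = ω}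

theorem So_card_sub_le {n : ℕ} (f : Fin n → ℕ) (Q : Fin n → Prop) (s : Finset ℕ)
    (h : ∀ ω, Q ω → f ω ∈ s) : Nat.card {ω // Q ω} ≤ ∑ k ∈ s, Nat.card {ω // f ω = k} := by
  classical
  rw [Nat.card_eq_fintype_card, Fintype.card_subtype]
  have h1 : (Finset.univ.filter Q) ⊆ s.biUnion fun k => Finset.univ.filter fun ω => f ω = k := by
    intro ω hω
    rw [Finset.mem_filter] at hω
    rw [Finset.mem_biUnion]
    exact ⟨f ω, h ω hω.2, by simp⟩
  refine (Finset.card_le_card h1).trans (Finset.card_biUnion_le.trans ?_)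
  refine le_of_eq (Finset.sum_congr rfl fun k _ => ?_)
  rw [Nat.card_eq_fintype_card, Fintype.card_subtype]

/-- the bounds for the orders -/
theorem So_bounds (F : Subgroup G) [Finite F] (c : Cv G) (ω : Fin c.n) :
    1 ≤ so F c ω ∧ so F c ω ≤ Nat.card F := by
  have h1 : Nonempty {f : F // c.p f ω = ω} := ⟨⟨1, by
    rw [Subgroup.coe_one, c.p_one, Perm.one_apply]⟩⟩
  exact ⟨Nat.card_pos, Nat.card_le_card_of_injective Subtype.val Subtype.val_injective⟩

theorem exists_min {F : Subgroup G} [Finite F] {P : Cv G → Prop}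
    (hex : ∀ S : Finset G, ∃ c, P c ∧ c.Cov S)
    (hgrow : ∀ z : G, z ≠ 1 → ∀ m : ℕ, ∃ S : Finset G, ∀ c : Cv G, c.Cov S →
      m < (c.p z).support.card) (hne : ∃ z : G, z ≠ 1) :
    ∃ (a B : ℕ) (S₂ : Finset G),
      (∀ (S : Finset G) (m : ℕ), ∃ c, P c ∧ c.Cov S ∧
        m ≤ Nat.card {ω : Fin c.n // so F c ω = a}) ∧
      ∀ c, P c → c.Cov S₂ → Nat.card {ω : Fin c.n // so F c ω < a} ≤ B := by
  classical
  obtain ⟨Q, hQ⟩ : ∃ Q : ℕ → Prop, ∀ a, Q a ↔ ∀ (S : Finset G) (m : ℕ), ∃ c, P c ∧ c.Cov S ∧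
      m ≤ Nat.card {ω : Fin c.n // so F c ω = a} := ⟨_, fun a => Iff.rfl⟩
  have hP : ∀ a, ∃ (S : Finset G) (m : ℕ), ¬ Q a → ∀ c, P c → c.Cov S →
      Nat.card {ω : Fin c.n // so F c ω = a} ≤ m := by
    intro a
    by_cases ha : Q a
    · exact ⟨∅, 0, fun h => absurd ha h⟩
    · have h1 := ha
      rw [hQ] at h1
      push Not at h1
      obtain ⟨S, m, h2⟩ := h1
      exact ⟨S, m, fun _ c hc hS => (h2 c hc hS).le⟩
  choose Sf mf hf using hP
  have hexa : ∃ a, Q a := by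
    by_contra hcon
    push Not at hcon
    obtain ⟨z, hz⟩ := hne
    obtain ⟨Sz, hSz⟩ := hgrow z hz (∑ k ∈ Finset.Icc 1 (Nat.card F), mf k)
    obtain ⟨c, hc, hcov⟩ := hex (Sz ∪ (Finset.Icc 1 (Nat.card F)).biUnion Sf)
    have h1 := hSz c (hcov.mono Finset.subset_union_left)
    have h2 := So_card_sub_le (fun ω => so F c ω) (fun _ => True)
      (Finset.Icc 1 (Nat.card F)) (fun ω _ => by
        rw [Finset.mem_Icc]
        exact So_bounds F c ω)
    have h3 : Nat.card {ω : Fin c.n // True} = c.n := by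
      rw [Nat.card_eq_fintype_card, Fintype.card_subtype_true, Fintype.card_fin]
    have h4 : ∑ k ∈ Finset.Icc 1 (Nat.card F), Nat.card {ω : Fin c.n //
        so F c ω = k} ≤ ∑ k ∈ Finset.Icc 1 (Nat.card F), mf k := by
      apply Finset.sum_le_sum
      intro k hk
      refine hf k (hcon k) c hc (hcov.mono ?_)
      intro g hg
      rw [Finset.mem_union]
      exact Or.inr (Finset.mem_biUnion.2 ⟨k, hk, hg⟩)
    have h5 : (c.p z).support.card ≤ c.n := by
      have h6 := Finset.card_le_univ (c.p z).support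
      rwa [Fintype.card_fin] at h6
    rw [h3] at h2
    omega
  have hQa := Nat.find_spec hexa
  have hmin : ∀ b < Nat.find hexa, ¬ Q b := fun b hb => Nat.find_min hexa hb
  set a := Nat.find hexa with ha
  refine ⟨a, ∑ k ∈ Finset.range a, mf k, (Finset.range a).biUnion Sf, (hQ a).1 hQa, ?_⟩
  intro c hc hcov
  refine (So_card_sub_le (fun ω => so F c ω) _ (Finset.range a)
    (fun ω hω => Finset.mem_range.2 hω)).trans ?_
  apply Finset.sum_le_sum
  intro k hk
  refine hf k (hmin k (Finset.mem_range.1 hk)) c hc (hcov.mono ?_)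
  intro g hg
  exact Finset.mem_biUnion.2 ⟨k, hk, hg⟩

/-- there are points over every point -/
theorem exists_over {U Ω Ω' : Type} [Group U] [Finite U] [Fintype Ω] [DecidableEq Ω]
    {π : U →* Perm Ω} {π' : U →* Perm Ω'} (hN : Nat2 π π') (hr : π.range = alternatingGroup Ω)
    (h6 : 6 ≤ Fintype.card Ω) (hπ' : Function.Injective π') (ω : Ω) : ∃ ψ, Ov π π' ψ ω := by
  obtain ⟨Δ, -, hΔ⟩ := Finset.exists_subset_card_eq (s := (Finset.univ : Finset Ω))
    (n := 5) (by rw [Finset.card_univ]; omega)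
  obtain ⟨v, hv, -, hv1⟩ := exists_order hr hΔ.ge Nat.prime_two (Or.inl rfl)
  have h1 : ∃ ψ, π' v ψ ≠ ψ := by
    by_contra hcon
    push Not at hcon
    apply hv1
    apply hπ'
    rw [map_one]
    exact Equiv.ext hcon
  obtain ⟨ψ, hψ⟩ := h1
  obtain ⟨ω', -, h2⟩ := hN.moved hv hψ
  obtain ⟨u, hu⟩ := exists_move hr h6 ω' ω
  refine ⟨π' u ψ, ?_⟩
  rw [← hu]
  exact h2.map u

/-- `ω` has a stabilizer of order `a` in `F`, which fixes all points over `ω` -/
def Gp (F : Subgroup G) {c c' : Cv G} {U : Subgroup G} (hU : U ≤ c.H) (hU' : U ≤ c'.H) (a : ℕ)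
    (ω : Fin c.n) : Prop :=
  so F c ω = a ∧ ∀ ψ, Ov (thc c hU) (thc c' hU') ψ ω → ∀ f ∈ F, c.p f ω = ω → c'.p f ψ = ψ

theorem bad_le {F U : Subgroup G} [Finite F] (hFU : F ≤ U) {c c' : Cv G} (hU : U ≤ c.H)
    (hU' : U ≤ c'.H) (hr : (thc c hU).range = alternatingGroup (Fin c.n)) (h6 : 6 ≤ c.n)
    (hN : Nat2 (thc c hU) (thc c' hU')) (hinj : Function.Injective (thc c' hU')) {a B : ℕ}
    (hB : Nat.card {ψ : Fin c'.n // so F c' ψ < a} ≤ B) :
    Nat.card {ω : Fin c.n // so F c ω ≤ a ∧ ¬ Gp F hU hU' a ω} ≤ B := by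
  classical
  refine le_trans ?_ hB
  have hUfin : Finite U := Finite.of_injective (Subgroup.inclusion hU)
    (Subgroup.inclusion_injective _)
  have h6' : 6 ≤ Fintype.card (Fin c.n) := by
    rw [Fintype.card_fin]
    exact h6
  have hp : ∀ f : F, c.p f = thc c hU ⟨f, hFU f.2⟩ := fun f => c.p_mem (hU (hFU f.2))
  have hp' : ∀ f : F, c'.p f = thc c' hU' ⟨f, hFU f.2⟩ := fun f => c'.p_mem (hU' (hFU f.2))
  have hsub : ∀ ψ ω, Ov (thc c hU) (thc c' hU') ψ ω →
      {f : F | c'.p f ψ = ψ} ⊆ {f : F | c.p f ω = ω} := by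
    intro ψ ω h f hf
    have hf1 : c'.p f ψ = ψ := hf
    have h1 := h.map ⟨f, hFU f.2⟩
    rw [← hp, ← hp', hf1] at h1
    exact (h.unique hr h6' h1).symm
  have h1 : ∀ ω : {ω : Fin c.n // so F c ω ≤ a ∧ ¬ Gp F hU hU' a ω},
      ∃ ψ, Ov (thc c hU) (thc c' hU') ψ ω.1 ∧ so F c' ψ < a := by
    rintro ⟨ω, h2, h3⟩
    rcases Nat.lt_or_eq_of_le h2 with h4 | h4
    · obtain ⟨ψ, hψ⟩ := exists_over hN hr h6' hinj ω
      refine ⟨ψ, hψ, lt_of_le_of_lt ?_ h4⟩
      exact Set.ncard_le_ncard (hsub ψ ω hψ) (Set.toFinite _)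
    · have h5 : ¬ ∀ ψ, Ov (thc c hU) (thc c' hU') ψ ω → ∀ f ∈ F, c.p f ω = ω → c'.p f ψ = ψ :=
        fun h => h3 ⟨h4, h⟩
      push Not at h5
      obtain ⟨ψ, hψ, f, hf, h7, h8⟩ := h5
      refine ⟨ψ, hψ, ?_⟩
      rw [← h4]
      refine Set.ncard_lt_ncard (s := {f : F | c'.p f ψ = ψ}) (t := {f : F | c.p f ω = ω})
        ⟨hsub ψ ω hψ, fun h9 => h8 ?_⟩ (Set.toFinite _)
      have h10 : (⟨f, hf⟩ : F) ∈ {f : F | c.p f ω = ω} := h7
      exact h9 h10
  choose ψ hψ1 hψ2 using h1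
  apply Nat.card_le_card_of_injective (fun ω => (⟨ψ ω, hψ2 ω⟩ :
    {ψ : Fin c'.n // so F c' ψ < a}))
  intro ω ω' h
  have h2 : ψ ω = ψ ω' := congrArg Subtype.val h
  have h3 := hψ1 ω'
  rw [← h2] at h3
  exact Subtype.ext ((hψ1 ω).unique hr h6' h3)

end Pool.Agent.Lib.MP_b9166b_al.Aq
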