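import Pool.Agent.Lib.MP_b9166b_al.Aq.NmF
import Pool.Agent.Lib.MP_b9166b_al.An.Wk

/-!
# MP_b9166b_al, PRIME POWER: the number of independent sets is bounded

Proof. This is the proof of `An.le_of_sets` (An/Wk.lean) with the norms `nmF F (u i)` over the
subgroup `F` instead of the norms `nm x (u i) l`. For `f, f' ∈ F` the elements `f * u i * f⁻¹` and
`f' * u j * f'⁻¹` commute: conjugate with `f⁻¹`, let `h = f⁻¹ * f'`; if `π h` maps a point of `Δ j`
to a point of `Δ i` then `i = j` and `h` commutes with `u j` by `hD1`; else use `Nat2.commute`.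
Similarly `g * (f * u i * f⁻¹) * g⁻¹` and `f' * u j * f'⁻¹` commute by `hD2`, `hgF`. `nmF F (u i)`
acts on the points over `Δ i` as `u i` (`nmF_apply`: if `f * u i * f⁻¹ ≠ u i` then `π f` maps no
point of `Δ i` to a point of `Δ i`, by `hD1`), and fixes the points over `Δ i'`, `i' ≠ i`.
-/

set_option autoImplicit false

namespace Pool.Agent.Lib.MP_b9166b_al.Aq

open Equiv Equiv.Perm An

variable {U Ω Ω' : Type} [Group U] [Finite U] [Fintype Ω] [DecidableEq Ω]
  {π : U →* Perm Ω} {π' : U →* Perm Ω'}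
  {G K V : Type} [Group G] [Field K] [AddCommGroup V] [Module K V]

theorem le_of_setsF {j : U →* G} (hj : Function.Injective j) (hN : Nat2 π π')
    (hr : π.range = alternatingGroup Ω) (h6 : 6 ≤ Fintype.card Ω)
    (hπ' : Function.Injective π') {F : Subgroup U} {x g : U} (hxF : x ∈ F)
    {x' : G} (hx' : j x = x') {g' : Subgroup.centralizer ({x'} : Set G)} (hg' : j g = g')
    (ρ : Subgroup.centralizer ({x'} : Set G) →* (V →ₗ[K] V)ˣ) (hρ : Function.Injective ρ)
    {d : ℕ} (hd : Deg (ρ g').val d) {k : ℕ} (Δ : Fin k → Finset Ω)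
    (hΔ : ∀ i, 5 ≤ (Δ i).card)
    (hD1 : ∀ f ∈ F, ∀ i j, ∀ ω ∈ Δ i, ∀ ω' ∈ Δ j, π f ω = ω' →
      i = j ∧ ∀ v ∈ Vr π (Δ i : Set Ω), Commute f v)
    (hD2 : ∀ f ∈ F, ∀ i j, ∀ ω ∈ Δ i, ∀ ω' ∈ Δ j, π (g * f) ω ≠ ω')
    (hgF : ∀ f ∈ F, Commute g f) : k ≤ 2 * d := by
  classical
  obtain ⟨r, hrp, h23, hrK⟩ : ∃ r : ℕ, r.Prime ∧ (r = 2 ∨ r = 3) ∧ (r : K) ≠ 0 := by
    by_cases h : ((2 : ℕ) : K) = 0
    · refine ⟨3, Nat.prime_three, Or.inr rfl, fun h' => ?_⟩
      have h1 : (1 : K) = ((3 : ℕ) : K) - ((2 : ℕ) : K) := by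
        push_cast
        ring
      rw [h, h', sub_zero] at h1
      exact one_ne_zero h1
    · exact ⟨2, Nat.prime_two, Or.inl rfl, h⟩
  choose u hu hur hu1 using fun i => exists_order hr (hΔ i) hrp h23
  have hy : ∀ i (f : U), f * u i * f⁻¹ ∈ Vr π (π f '' (Δ i : Set Ω)) := fun i f =>
    Vr_conj π f _ (hu i)
  -- conjugates whose sets meet are equal
  have hsame : ∀ i j, ∀ f ∈ F, ∀ f' ∈ F, (∃ ω ∈ Δ i, ∃ ω' ∈ Δ j, π f ω = π f' ω') →
      f * u i * f⁻¹ = f' * u j * f'⁻¹ := by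
    rintro i j f hf f' hf' ⟨ω, hω, ω', hω', h1⟩
    obtain ⟨h2, h3⟩ := hD1 (f⁻¹ * f') (F.mul_mem (F.inv_mem hf) hf') j i ω' hω' ω hω (by
      rw [map_mul, map_inv, Perm.mul_apply, ← h1, inv_apply_eq'])
    subst h2
    have h4 := (h3 _ (hu j)).eq
    have h5 : f' * u j * f'⁻¹ = f * ((f⁻¹ * f') * u j) * f'⁻¹ := by group
    rw [h5, h4]
    group
  -- the conjugates commute
  have hyc : ∀ i j, ∀ f ∈ F, ∀ f' ∈ F, Commute (f * u i * f⁻¹) (f' * u j * f'⁻¹) := by
    intro i j f hf f' hf'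
    by_cases h : ∃ ω ∈ Δ i, ∃ ω' ∈ Δ j, π f ω = π f' ω'
    · rw [hsame i j f hf f' hf' h]
    · refine hN.commute hr h6 hπ' ?_ (hy i f) (hy j f')
      rintro _ ⟨ω, hω, rfl⟩ ⟨ω', hω', h1⟩
      exact h ⟨ω, by simpa using hω, ω', by simpa using hω', h1.symm⟩
  have hyg : ∀ i j, ∀ f ∈ F, ∀ f' ∈ F,
      Commute (g * (f * u i * f⁻¹) * g⁻¹) (f' * u j * f'⁻¹) := by
    intro i j f hf f' hf'
    refine hN.commute hr h6 hπ' ?_ (Vr_conj π g _ (hy i f)) (hy j f')
    rintro _ ⟨_, ⟨ω, hω, rfl⟩, rfl⟩ ⟨ω', hω', h1⟩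
    apply hD2 (f'⁻¹ * f) (F.mul_mem (F.inv_mem hf') hf) i j ω (by simpa using hω) ω'
      (by simpa using hω')
    have h2 : g * (f'⁻¹ * f) = f'⁻¹ * (g * f) := by
      rw [← mul_assoc, (hgF _ (F.inv_mem hf')).eq, mul_assoc]
    rw [h2, map_mul, map_mul, map_inv, Perm.mul_apply, Perm.mul_apply, ← h1, inv_apply_eq']
  let w : Fin k → U := fun i => nmF F (u i) (hyc i i)
  have hwc : ∀ i j, Commute (w i) (w j) := by
    intro i j
    apply nmF_commute
    intro f' hf'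
    apply Commute.symm
    apply nmF_commute
    intro f hf
    exact hyc j i f' hf' f hf
  have hwr : ∀ i, w i ^ r = 1 := fun i => nmF_pow (hur i)
  have hwx : ∀ i, Commute (w i) x := fun i => nmF_comm hxF
  have hwg : ∀ i j, Commute (g * w i * g⁻¹) (w j) := by
    intro i j
    apply nmF_commute
    intro f' hf'
    have h1 : Commute (g⁻¹ * (f' * u j * f'⁻¹) * g) (w i) := by
      apply nmF_commute
      intro f hf
      have h2 := hyg i j f hf f' hf'
      rw [← Commute.conj_iff g⁻¹] at h2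
      have h3 : g⁻¹ * (g * (f * u i * f⁻¹) * g⁻¹) * g⁻¹⁻¹ = f * u i * f⁻¹ := by group
      rw [h3, inv_inv] at h2
      exact h2.symm
    rw [← Commute.conj_iff g] at h1
    have h3 : g * (g⁻¹ * (f' * u j * f'⁻¹) * g) * g⁻¹ = f' * u j * f'⁻¹ := by
      group
    rw [h3] at h1
    exact h1.symm
  -- the fixed points
  have hfix : ∀ i (ψ : Ω'), (∀ f ∈ F, ∀ ω ∈ Δ i, ¬ Ov π π' ψ (π f ω)) → π' (w i) ψ = ψ := by
    intro i ψ hψ
    have h1 : w i ∈ stb π' ψ := by
      apply nmF_mem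
      intro f hf
      rw [mem_stb]
      by_contra hcon
      obtain ⟨_, ⟨ω, hω, rfl⟩, h2⟩ := hN.moved (hy i f) hcon
      exact hψ f hf ω (by simpa using hω) h2
    exact h1
  have hact : ∀ i (ψ : Ω'), (∃ ω ∈ Δ i, Ov π π' ψ ω) → π' (w i) ψ = π' (u i) ψ := by
    rintro i ψ ⟨ω, hω, hψ⟩
    apply nmF_apply
    intro f hf hne
    by_contra hcon
    obtain ⟨_, ⟨ω', hω', rfl⟩, h3⟩ := hN.moved (hy i f) hcon
    have h4 := hψ.unique hr h6 h3
    obtain ⟨-, h5⟩ := hD1 f hf i i ω' (by simpa using hω') ω hω h4.symm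
    apply hne
    rw [(h5 _ (hu i)).eq, mul_inv_cancel_right]
  have hind : ∀ i₀, w i₀ ∉ Subgroup.closure (w '' {i | i ≠ i₀}) := by
    intro i₀ hmem
    -- a point moved by `u i₀`
    have h1 : ∃ ψ, π' (u i₀) ψ ≠ ψ := by
      by_contra hcon
      push Not at hcon
      apply hu1 i₀
      apply hπ'
      rw [map_one]
      exact Equiv.ext hcon
    obtain ⟨ψ, hψ⟩ := h1
    obtain ⟨ω, hω, h2⟩ := hN.moved (hu i₀) hψ
    have hω' : ω ∈ Δ i₀ := by simpa using hω
    apply hψ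
    rw [← hact i₀ ψ ⟨ω, hω', h2⟩]
    have h3 : Subgroup.closure (w '' {i | i ≠ i₀}) ≤ stb π' ψ := by
      rw [Subgroup.closure_le]
      rintro _ ⟨i, hi, rfl⟩
      apply hfix
      intro f hf ω₁ hω₁ h4
      have h5 := h2.unique hr h6 h4
      exact hi (hD1 f hf i i₀ ω₁ hω₁ ω hω' h5.symm).1
    exact h3 hmem
  have hcard := card_closure_ge hrp hwc hwr hind Finset.univ
  rw [Finset.card_univ, Fintype.card_fin] at hcard
  set W : Subgroup U := Subgroup.closure (w '' ((Finset.univ : Finset (Fin k)) : Set (Fin k)))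
    with hW
  have hle : ∀ S : Subgroup U, (∀ i, w i ∈ S) → W ≤ S := by
    intro S hS
    rw [hW, Subgroup.closure_le]
    rintro _ ⟨i, -, rfl⟩
    exact hS i
  have hWx : ∀ a ∈ W, Commute a x := by
    intro a ha
    have h1 : W ≤ Subgroup.centralizer ({x} : Set U) := by
      apply hle
      intro i
      rw [Subgroup.mem_centralizer_singleton_iff]
      exact (hwx i).eq
    exact (Subgroup.mem_centralizer_singleton_iff.1 (h1 ha))
  have hWw : ∀ i, ∀ a ∈ W, Commute a (w i) := by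
    intro i a ha
    have h1 : W ≤ Subgroup.centralizer ({w i} : Set U) := by
      apply hle
      intro i'
      rw [Subgroup.mem_centralizer_singleton_iff]
      exact (hwc i' i).eq
    exact (Subgroup.mem_centralizer_singleton_iff.1 (h1 ha))
  have hWc : ∀ a ∈ W, ∀ b ∈ W, a * b = b * a := by
    intro a ha b hb
    have h1 : W ≤ Subgroup.centralizer ({a} : Set U) := by
      apply hle
      intro i
      rw [Subgroup.mem_centralizer_singleton_iff]
      exact (hWw i a ha).symm.eq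
    exact ((Subgroup.mem_centralizer_singleton_iff.1 (h1 hb))).symm
  have hWr : ∀ a ∈ W, a ^ r = 1 := by
    intro a ha
    have h0 : ∀ b ∈ W, b ∈ W ∧ b ^ r = 1 := by
      intro b hb
      rw [hW] at hb
      induction hb using Subgroup.closure_induction with
      | mem z hz =>
        obtain ⟨i, -, rfl⟩ := hz
        exact ⟨Subgroup.subset_closure ⟨i, by simp, rfl⟩, hwr i⟩
      | one => exact ⟨W.one_mem, one_pow r⟩
      | mul b c _ _ ihb ihc =>
        refine ⟨W.mul_mem ihb.1 ihc.1, ?_⟩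
        have h1 : Commute b c := hWc b ihb.1 c ihc.1
        rw [h1.mul_pow, ihb.2, ihc.2, one_mul]
      | inv b _ ihb => exact ⟨W.inv_mem ihb.1, by rw [inv_pow, ihb.2, inv_one]⟩
    exact (h0 a ha).2
  have hWgw : ∀ i, ∀ a ∈ W, Commute (g * a * g⁻¹) (w i) := by
    intro i a ha
    have h1 : W ≤ Subgroup.centralizer ({g⁻¹ * w i * g} : Set U) := by
      apply hle
      intro i'
      rw [Subgroup.mem_centralizer_singleton_iff]
      have h2 := hwg i' i
      rw [← Commute.conj_iff g⁻¹] at h2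
      have h3 : g⁻¹ * (g * w i' * g⁻¹) * g⁻¹⁻¹ = w i' := by group
      rw [h3, inv_inv] at h2
      exact h2.eq
    have h2 : Commute a (g⁻¹ * w i * g) := (Subgroup.mem_centralizer_singleton_iff.1 (h1 ha))
    rw [← Commute.conj_iff g] at h2
    have h3 : g * (g⁻¹ * w i * g) * g⁻¹ = w i := by group
    rwa [h3] at h2
  have hWg : ∀ a ∈ W, ∀ b ∈ W, Commute (g * a * g⁻¹) b := by
    intro a ha b hb
    have h1 : W ≤ Subgroup.centralizer ({g * a * g⁻¹} : Set U) := by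
      apply hle
      intro i
      rw [Subgroup.mem_centralizer_singleton_iff]
      exact (hWgw i a ha).symm.eq
    exact Commute.symm (Subgroup.mem_centralizer_singleton_iff.1 (h1 hb))
  have hWfix : ∀ a ∈ W, ∀ ψ, π' a ψ ≠ ψ → ∃ i, ∃ f ∈ F, ∃ ω ∈ Δ i, Ov π π' ψ (π f ω) := by
    intro a ha ψ hψ
    by_contra hcon
    push Not at hcon
    apply hψ
    have h1 : W ≤ stb π' ψ := by
      apply hle
      intro i
      exact hfix i ψ (hcon i)
    exact h1 ha
  have hWi : ∀ a ∈ W, g * a * g⁻¹ = a → a = 1 := by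
    intro a ha hag
    by_contra hne
    have h1 : ∃ ψ, π' a ψ ≠ ψ := by
      by_contra hcon
      push Not at hcon
      apply hne
      apply hπ'
      rw [map_one]
      exact Equiv.ext hcon
    obtain ⟨ψ, hψ⟩ := h1
    obtain ⟨i, f, hf, ω, hω, h2⟩ := hWfix a ha ψ hψ
    have h3 : π' a ((π' g)⁻¹ ψ) ≠ (π' g)⁻¹ ψ := by
      intro h4
      apply hψ
      rw [← hag, map_mul, map_mul, map_inv, Perm.mul_apply, Perm.mul_apply, h4, apply_inv_eq']
    obtain ⟨i', f', hf', ω', hω', h4⟩ := hWfix a ha _ h3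
    have h5 := h4.map g
    rw [apply_inv_eq'] at h5
    have h7 := h2.unique hr h6 h5
    apply hD2 (f⁻¹ * f') (F.mul_mem (F.inv_mem hf) hf') i' i ω' hω' ω hω
    have h8 : g * (f⁻¹ * f') = f⁻¹ * (g * f') := by
      rw [← mul_assoc, (hgF _ (F.inv_mem hf)).eq, mul_assoc]
    rw [h8, map_mul, map_mul, map_inv, Perm.mul_apply, Perm.mul_apply, ← h7, inv_apply_eq']
  have h1 := core hj hx' hg' ρ hρ hd hrp hrK W hWx hWc hWr hWg hWi
  exact (Nat.pow_le_pow_iff_right hrp.one_lt).1 (hcard.trans h1)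

end Pool.Agent.Lib.MP_b9166b_al.Aq
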