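import Pool.Agent.Lib.MP_b9166b_al.Aq.Fb
import Pool.Agent.Lib.MP_b9166b_al.Aq.So
import Pool.Agent.Lib.MP_b9166b_al.Aq.WkF

/-!
# MP_b9166b_al, PRIME POWER: the second level

Proof. Let `d` be the dimension of the range of `1 - ρ g` and `m = (2 * d + 1) * 5 + B`. Let `S` be the set of `exists_fibq` for `c`, `U`, `ω₁`, `m`, and
let `c₁` be a cover with `P₁ c₁`, `c₁.Cov S`. So `U ≤ c₁.H`, the action of `U` on
`Fin c₁.n` is injective, `Nat2` holds for `c`, `c₁` (group `U`), and at least `m` points of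
`Fin c₁.n` lie over `ω₁`. Let `U₁` be a core of `c₁` for `F₁` (`exists_core`), and `c₂` a cover
with `P c₂`, `c₂.Cov (c₁.toFinset ∪ S₂ ∪ S₁')`. So `U₁ ≤ c₂.H`, the action of `U₁` on `Fin c₂.n`
is injective, and `Nat2` holds for `c₁`, `c₂` (group `U₁`), by `hP₁.nat`.
* If `ψ` lies over `ω₁` then its stabilizer in `F` is contained in the stabilizer of `ω₁` (`Ov.map`,
  `Ov.unique`), so `so F c₁ ψ ≤ a`. By `bad_le` (for `c₁`, `c₂`, `U₁`, and `F`) at least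
  `(2 * d + 1) * 5` of the points over `ω₁` satisfy `Gp F _ _ a`, and then their stabilizer in `F` is
  the stabilizer of `ω₁`. So we get disjoint sets `Δ i`, `i : Fin (2 * d + 1)`, of five such points.
* Apply `le_of_setsF` to the group `U₁`, `j = U₁.subtype`, and `F.subgroupOf U₁`: a
  contradiction. `hD1`: if `f ∈ F` maps a point `ω` of `Δ i` to the point `ω'` of `Δ j`, then
  `f` fixes `ω₁` (the points lie over `ω₁`; `f ∈ F ≤ U`), so it fixes all points of the sets `Δ i'`;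
  so `ω = ω'`, `i = j`, and `f` commutes with `Vr (Δ i)` by `Nat2.commute_of_fix` and `Gp`. `hD2`:
  if `g f ω = ω'` then `g f ω₁ = ω₁` (`g ∈ U`), so `f (g ω₁) = f ω₂ = ω₁`, contradiction.
-/

set_option autoImplicit false

namespace Pool.Agent.Lib.MP_b9166b_al.Aq

open Equiv Equiv.Perm An

variable {G : Type} [Group G]

/-- the stabilizer of a point over `ω` is contained in the stabilizer of `ω` -/
theorem fix_of_over {c c₁ : Cv G} {U : Subgroup G} [Finite U] (hU : U ≤ c.H) (hU' : U ≤ c₁.H)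
    (hr : (thc c hU).range = alternatingGroup (Fin c.n)) (h6 : 6 ≤ Fintype.card (Fin c.n))
    {ψ ψ' : Fin c₁.n} {ω : Fin c.n} (hψ : Ov (thc c hU) (thc c₁ hU') ψ ω)
    (hψ' : Ov (thc c hU) (thc c₁ hU') ψ' ω) {f : G} (hf : f ∈ U) (hfψ : c₁.p f ψ = ψ') :
    c.p f ω = ω := by
  have h1 := hψ.map (⟨f, hf⟩ : U)
  have h2 : thc c₁ hU' ⟨f, hf⟩ ψ = ψ' := by
    rw [← hfψ, c₁.p_mem (hU' hf)]
    rfl
  rw [h2] at h1
  have h3 := h1.unique hr h6 hψ'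
  rw [c.p_mem (hU hf)]
  exact h3

theorem level_B {q : ℕ} (hq : q.Prime)
    (hgrow : ∀ z : G, z ≠ 1 → ∀ m : ℕ, ∃ S : Finset G, ∀ c : Cv G, c.Cov S →
      m < (c.p z).support.card) {F F₁ : Subgroup G} [Finite F] (hFF₁ : F ≤ F₁)
    (hF₁q : IsPGroup q F₁)
    {P : Cv G → Prop} {S₁ : Finset G} (hP : Cls q F P S₁)
    {P₁ : Cv G → Prop} {S₁' : Finset G} (hP₁ : Cls q F₁ P₁ S₁') {a B : ℕ} {S₂ : Finset G}
    (hB : ∀ c, P c → c.Cov S₂ → Nat.card {ω : Fin c.n // so F c ω < a} ≤ B)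
    {c : Cv G} {U : Subgroup G} {ω₁ ω₂ : Fin c.n} {g : G} (hc : P c) (hU : Core q c F U)
    (hω₁ : so F c ω₁ = a) (hgU : g ∈ U) (hgF₁ : g ∈ F₁) (hgF : ∀ f ∈ F, Commute g f)
    (hgω : c.p g ω₁ = ω₂) (hω : ∀ f ∈ F, c.p f ω₁ ≠ ω₂) {x : G} (hx : x ∈ F)
    {K V : Type} [Field K] [AddCommGroup V] [Module K V]
    (ρ : Subgroup.centralizer ({x} : Set G) →* (V →ₗ[K] V)ˣ) (hρ : Function.Injective ρ)
    (hfin : ∀ u, Module.Finite K (LinearMap.range (1 - (ρ u).val))) : False := by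
  classical
  have hgC : g ∈ Subgroup.centralizer ({x} : Set G) := by
    rw [Subgroup.mem_centralizer_singleton_iff]
    exact (hgF x hx).eq
  set d := Module.finrank K (LinearMap.range (1 - (ρ ⟨g, hgC⟩).val)) with hd
  have hdeg : Deg (ρ ⟨g, hgC⟩).val d := ⟨hfin _, le_rfl⟩
  have h6 : 6 ≤ Fintype.card (Fin c.n) := by
    rw [Fintype.card_fin]
    exact hP.big c hc
  have hUfin : Finite U :=
    Finite.of_injective (Subgroup.inclusion hU.le) (Subgroup.inclusion_injective hU.le)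
  -- the second level
  obtain ⟨S, hS⟩ := exists_fibq hP hgrow hc hU ω₁ ((2 * d + 1) * 5 + B)
  obtain ⟨c₁, hc₁, hcov₁⟩ := hP₁.ex S
  obtain ⟨hU', hinj, hN, hcard⟩ := hS c₁ hcov₁
  have hn6 := hP₁.big c₁ hc₁
  have h61 : 6 ≤ Fintype.card (Fin c₁.n) := by
    rw [Fintype.card_fin]
    exact hn6
  obtain ⟨U₁, hU₁⟩ := exists_core hq c₁ (hP₁.le c₁ hc₁) hF₁q (by omega)
  have hU₁fin : Finite U₁ :=
    Finite.of_injective (Subgroup.inclusion hU₁.le) (Subgroup.inclusion_injective hU₁.le)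
  have hFU₁ : F ≤ U₁ := hFF₁.trans hU₁.FU
  obtain ⟨c₂, hc₂, hcov₂⟩ := hP.ex (c₁.toFinset ∪ S₂ ∪ S₁')
  obtain ⟨hle, hinj₀⟩ := c₁.le_of_cov (hcov₂.mono (by
    intro g hg
    simp only [Finset.mem_union]
    exact Or.inl (Or.inl hg)))
  have hU₁' : U₁ ≤ c₂.H := hU₁.le.trans hle
  have hinj₁ : Function.Injective (thc c₂ hU₁') := by
    have h1 : Function.Injective ((c₂.π.comp (Subgroup.inclusion hle)).comp
        (Subgroup.inclusion hU₁.le)) := hinj₀.comp (Subgroup.inclusion_injective hU₁.le)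
    exact h1
  have hN₁ : Nat2 (thc c₁ hU₁.le) (thc c₂ hU₁') :=
    hP₁.nat c₁ hc₁ U₁ hU₁ c₂ (hcov₂.mono Finset.subset_union_right) hU₁'
  have hbad := bad_le hFU₁ hU₁.le hU₁' hU₁.range hn6 hN₁ hinj₁ (a := a) (B := B)
    (hB c₂ hc₂ (hcov₂.mono (by
      intro g hg
      simp only [Finset.mem_union]
      exact Or.inl (Or.inr hg))))
  -- the stabilizers
  have hfix : ∀ {ψ ψ' : Fin c₁.n}, Ov (thc c hU.le) (thc c₁ hU') ψ ω₁ →
      Ov (thc c hU.le) (thc c₁ hU') ψ' ω₁ → ∀ {f : G}, f ∈ U → c₁.p f ψ = ψ' →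
      c.p f ω₁ = ω₁ := fun h1 h2 _ hf hfψ => fix_of_over hU.le hU' hU.range h6 h1 h2 hf hfψ
  have hso : ∀ ψ, Ov (thc c hU.le) (thc c₁ hU') ψ ω₁ → so F c₁ ψ ≤ a := by
    intro ψ hψ
    rw [← hω₁]
    refine Nat.card_le_card_of_injective
      (fun f : {f : F // c₁.p f ψ = ψ} => (⟨f.1, hfix hψ hψ (hU.FU f.1.2) f.2⟩ :
        {f : F // c.p f ω₁ = ω₁})) ?_
    intro f f' h
    have h1 := congrArg Subtype.val h
    exact Subtype.ext h1
  have hst : ∀ ψ, Ov (thc c hU.le) (thc c₁ hU') ψ ω₁ → so F c₁ ψ = a → ∀ f ∈ F,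
      c.p f ω₁ = ω₁ → c₁.p f ψ = ψ := by
    intro ψ hψ hψa f hf hfω
    let ι : {f : F // c₁.p f ψ = ψ} → {f : F // c.p f ω₁ = ω₁} :=
      fun f => ⟨f.1, hfix hψ hψ (hU.FU f.1.2) f.2⟩
    have h1 : Function.Injective ι := by
      intro f f' h
      have h2 := congrArg Subtype.val h
      exact Subtype.ext h2
    have h2 : Nat.card {f : F // c.p f ω₁ = ω₁} ≤ Nat.card {f : F // c₁.p f ψ = ψ} := by
      have h3 : so F c ω₁ = so F c₁ ψ := hω₁.trans hψa.symm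
      exact h3.le
    have h3 : Function.Surjective ι :=
      (Function.Injective.bijective_of_nat_card_le h1 h2).2
    obtain ⟨f', hf'⟩ := h3 ⟨⟨f, hf⟩, hfω⟩
    have h4 : (f'.1 : G) = f := congrArg (fun z : {f : F // c.p f ω₁ = ω₁} => ((z.1 : F) : G)) hf'
    have h5 := f'.2
    rwa [h4] at h5
  have hcnt : (2 * d + 1) * 5 ≤ Nat.card {ψ : Fin c₁.n //
      Ov (thc c hU.le) (thc c₁ hU') ψ ω₁ ∧ Gp F hU₁.le hU₁' a ψ} := by
    have h1 : Nat.card {ψ // Ov (thc c hU.le) (thc c₁ hU') ψ ω₁} ≤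
        Nat.card {ψ : Fin c₁.n // (Ov (thc c hU.le) (thc c₁ hU') ψ ω₁ ∧
          Gp F hU₁.le hU₁' a ψ) ∨ (so F c₁ ψ ≤ a ∧ ¬ Gp F hU₁.le hU₁' a ψ)} := by
      refine Nat.card_le_card_of_injective (fun ψ => ⟨ψ.1, ?_⟩) ?_
      · by_cases h : Gp F hU₁.le hU₁' a ψ.1
        · exact Or.inl ⟨ψ.2, h⟩
        · exact Or.inr ⟨hso ψ.1 ψ.2, h⟩
      · intro ψ ψ' h
        have h1 := congrArg Subtype.val h
        exact Subtype.ext h1
    have h2 := card_or (fun ψ : Fin c₁.n => Ov (thc c hU.le) (thc c₁ hU') ψ ω₁ ∧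
      Gp F hU₁.le hU₁' a ψ) (fun ψ => so F c₁ ψ ≤ a ∧ ¬ Gp F hU₁.le hU₁' a ψ)
    omega
  -- the sets
  obtain ⟨e⟩ : Nonempty (Fin (2 * d + 1) × Fin 5 ↪ {ψ : Fin c₁.n //
      Ov (thc c hU.le) (thc c₁ hU') ψ ω₁ ∧ Gp F hU₁.le hU₁' a ψ}) := by
    apply Function.Embedding.nonempty_of_card_le
    rw [Fintype.card_prod, Fintype.card_fin, Fintype.card_fin, ← Nat.card_eq_fintype_card]
    exact hcnt
  let Δ : Fin (2 * d + 1) → Finset (Fin c₁.n) := fun i =>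
    Finset.univ.image fun t => (e (i, t) : Fin c₁.n)
  have hΔ : ∀ i, (Δ i).card = 5 := by
    intro i
    rw [Finset.card_image_of_injective, Finset.card_univ, Fintype.card_fin]
    intro t t' h
    exact congrArg Prod.snd (e.injective (Subtype.ext h))
  have hΔ' : ∀ i, ∀ ψ ∈ Δ i, Ov (thc c hU.le) (thc c₁ hU') ψ ω₁ ∧ Gp F hU₁.le hU₁' a ψ := by
    intro i ψ hψ
    obtain ⟨t, -, rfl⟩ := Finset.mem_image.1 hψ
    exact (e (i, t)).2
  have hΔdis : ∀ i j, ∀ ψ, ψ ∈ Δ i → ψ ∈ Δ j → i = j := by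
    intro i j ψ h1 h2
    obtain ⟨t, -, rfl⟩ := Finset.mem_image.1 h1
    obtain ⟨t', -, h3⟩ := Finset.mem_image.1 h2
    exact (congrArg Prod.fst (e.injective (Subtype.ext h3))).symm
  have hp₁ : ∀ u : U₁, c₁.p (u : G) = thc c₁ hU₁.le u := fun u => c₁.p_mem (hU₁.le u.2)
  have hp₂ : ∀ u : U₁, c₂.p (u : G) = thc c₂ hU₁' u := fun u => c₂.p_mem (hU₁' u.2)
  have hgU₁ : g ∈ U₁ := hU₁.FU hgF₁
  have hfinal := le_of_setsF (G := G) (j := U₁.subtype) U₁.subtype_injective hN₁ hU₁.range h61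
    hinj₁ (F := F.subgroupOf U₁) (x := ⟨x, hFU₁ hx⟩) (g := ⟨g, hgU₁⟩) hx (x' := x) rfl
    (g' := ⟨g, hgC⟩) rfl ρ hρ hdeg Δ (fun i => (hΔ i).ge) (by
      intro f hf i j ψ hψ ψ' hψ' h
      have hf' : (f : G) ∈ F := hf
      have h1 : c₁.p (f : G) ψ = ψ' := by rw [hp₁, h]
      have h2 := hfix (hΔ' i ψ hψ).1 (hΔ' j ψ' hψ').1 (hU.FU hf') h1
      have h3 : ∀ k, ∀ ψ ∈ Δ k, c₁.p (f : G) ψ = ψ := fun k ψ hψ =>
        hst ψ (hΔ' k ψ hψ).1 (hΔ' k ψ hψ).2.1 f hf' h2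
      rw [h3 i ψ hψ] at h1
      subst h1
      refine ⟨hΔdis i j ψ hψ hψ', fun v hv => ?_⟩
      refine hN₁.commute_of_fix hinj₁ ?_ ?_ hv
      · intro ψ₁ hψ₁
        rw [← hp₁]
        exact h3 i ψ₁ (by simpa using hψ₁)
      · intro ψ₁ hψ₁ χ hχ
        have h4 : ψ₁ ∈ Δ i := by simpa using hψ₁
        rw [← hp₂]
        exact (hΔ' i ψ₁ h4).2.2 χ hχ f hf' (h3 i ψ₁ h4)) (by
      intro f hf i j ψ hψ ψ' hψ' h
      have hf' : (f : G) ∈ F := hf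
      have hfU : (f : G) ∈ U := hU.FU hf'
      have h1 : c₁.p (g * (f : G)) ψ = ψ' := by
        rw [← h, ← hp₁]
        rfl
      have h2 := hfix (hΔ' i ψ hψ).1 (hΔ' j ψ' hψ').1 (U.mul_mem hgU hfU) h1
      have h3 : g * (f : G) = f * g := (hgF f hf').eq
      rw [h3, c.p_mul (hU.le hfU) (hU.le hgU), Perm.mul_apply, hgω] at h2
      apply hω (f : G)⁻¹ (F.inv_mem hf')
      rw [c.p_inv (hU.le hfU), Perm.inv_eq_iff_eq, h2]) (by
      intro f hf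
      apply Subtype.ext
      exact (hgF f hf).eq)
  omega

end Pool.Agent.Lib.MP_b9166b_al.Aq
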