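import Pool.Agent.Lib.MP_b9166b_al.Aq.LvA
import Pool.Agent.Lib.MP_b9166b_al.Aq.LvB

/-!
# MP_b9166b_al, PRIME POWER: the case without regular orbits
-/

set_option autoImplicit false

namespace Pool.Agent.Lib.MP_b9166b_al.Aq

open Equiv Equiv.Perm An

variable {G : Type} [Group G]

/-- a `q`-group extended by a commuting `q`-element -/
theorem isPGroup_sup {q : ℕ} {F : Subgroup G} (hF : IsPGroup q F) {g : G} {j : ℕ}
    (hg : g ^ (q ^ j) = 1) (hgF : ∀ f ∈ F, Commute g f) :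
    IsPGroup q (F ⊔ Subgroup.zpowers g : Subgroup G) := by
  have hcop : Subgroup.zpowers g ≤ Subgroup.normalizer F := by
    rw [Subgroup.zpowers_le, Subgroup.mem_normalizer_iff]
    intro f
    constructor
    · intro hf
      rw [(hgF f hf).eq, mul_inv_cancel_right]
      exact hf
    · intro hf
      have h1 := (hgF _ hf).eq
      have h2 : g * f * g⁻¹ = f := by
        have h3 : g * (g * f * g⁻¹) * g⁻¹ = g * f * g⁻¹ := by
          rw [h1, mul_inv_cancel_right]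
        exact mul_left_cancel (mul_right_cancel h3)
      rwa [h2] at hf
  rw [sup_comm]
  refine IsPGroup.to_sup_of_normal_right' (H := Subgroup.zpowers g) (K := F) ?_ hF hcop
  intro z
  obtain ⟨_, i, rfl⟩ := z
  refine ⟨j, Subtype.ext ?_⟩
  change (g ^ i) ^ (q ^ j) = 1
  rw [← zpow_natCast, ← zpow_mul, mul_comm, zpow_mul, zpow_natCast, hg, one_zpow]

theorem case_N (hs : IsSimpleGroup G) (hG : ¬ FinPerm G)
    (hcov : ∀ S : Finset G, ∃ c : Cv G, c.Cov S) {q : ℕ} (hq : q.Prime) {x : G} (F : Subgroup G)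
    (hF : Finite F) (hFq : IsPGroup q F) (hx : x ∈ F)
    (hNR : ∀ (c : Cv G) (hF : F ≤ c.H) (ω : Fin c.n), ∃ h : F, h ≠ 1 ∧ thc c hF h ω = ω) :
    ¬ FinLin (Subgroup.centralizer ({x} : Set G)) := by
  rintro ⟨K, _, V, _, _, -, ρ, hρ, hfin⟩
  have hgrow : ∀ z : G, z ≠ 1 → ∀ m : ℕ, ∃ S : Finset G, ∀ c : Cv G, c.Cov S →
      m < (c.p z).support.card := fun z hz m => growth hs hG hz m
  obtain ⟨P, S₁, hP⟩ := exists_cls hs hG hcov hq F hFq hNR
  obtain ⟨a, B, S₂, ha, hB⟩ := exists_min (F := F) hP.ex hgrow (exists_ne (1 : G))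
  obtain ⟨c, U, ω₁, ω₂, g, j, hc, hU, h1, h2, h3, h4, h5, h6⟩ := level_A hq hFq hP ha hB
  set F₁ : Subgroup G := F ⊔ Subgroup.zpowers g with hF₁
  have hle : F ≤ F₁ := le_sup_left
  have hg₁ : g ∈ F₁ := Subgroup.mem_sup_right (Subgroup.mem_zpowers g)
  have hF₁q : IsPGroup q F₁ := isPGroup_sup hFq h4 h3
  have hF₁U : F₁ ≤ U := sup_le hU.FU (Subgroup.zpowers_le.2 h2)
  have hF₁fin : Finite F₁ := Finite.of_injective (Subgroup.inclusion (hF₁U.trans hU.le))
    (Subgroup.inclusion_injective _)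
  obtain ⟨P₁, S₁', hP₁⟩ := exists_cls hs hG hcov hq F₁ hF₁q (fun c' hc' ω => by
    obtain ⟨h, hh, hh'⟩ := hNR c' (hle.trans hc') ω
    exact ⟨Subgroup.inclusion hle h, fun h7 => hh (Subgroup.inclusion_injective hle (by
      rw [h7, map_one])), hh'⟩)
  exact level_B hq hgrow hle hF₁q hP hP₁ hB hc hU h1 h2 hg₁ h3 h5 h6 hx ρ hρ hfin

end Pool.Agent.Lib.MP_b9166b_al.Aq
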