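import Pool.Agent.Lib.MP_b9166b_al.Aq.Cv

/-!
# MP_b9166b_al, PRIME POWER: large `q`-subgroups

Proof. Let `y ≠ 1` in `G`, `B = q * (k + 2)`, `S` the set from `growth` for `y` and `B`, and `c` a
cover of `S` and of all elements of `D`. Then `B < c.n`, and `D ≤ c.H`. The order of `c.H` is
divisible by the order of the alternating group of degree `n = c.n`, and `2 * |Alt n| = n!` is
divisible by `q ^ (k + 2)`, as `q (k + 2) ≤ n`. So `q ^ (k + 1)` divides the order of `c.H`.
`D` is contained in a Sylow `q`-subgroup of `c.H` (`IsPGroup.exists_le_sylow` for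
`D.subgroupOf c.H`); let `F` be its image in `G`. Its order is at least
`q ^ (k + 1) ≥ k` (`Sylow.pow_dvd_card_of_pow_dvd_card` or the like).
-/

set_option autoImplicit false

namespace Pool.Agent.Lib.MP_b9166b_al.Aq

open Equiv Equiv.Perm

private theorem pow_dvd_factorial_mul (q m : ℕ) (hq : 0 < q) : q ^ m ∣ (q * m).factorial := by
  induction m with
  | zero => exact one_dvd _
  | succ m ih =>
    rw [pow_succ, Nat.mul_succ]
    exact (Nat.mul_dvd_mul ih (Nat.dvd_factorial hq le_rfl)).trans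
      (Nat.factorial_mul_factorial_dvd_factorial_add _ _)

private theorem pow_dvd_of_two_mul {q k a : ℕ} (hq : q.Prime) (h : q ^ (k + 2) ∣ 2 * a) :
    q ^ (k + 1) ∣ a := by
  rcases eq_or_ne q 2 with h2 | h2
  · subst h2
    rw [pow_succ', Nat.mul_dvd_mul_iff_left two_pos] at h
    exact h
  · have hc : Nat.Coprime (q ^ (k + 2)) 2 :=
      Nat.Coprime.pow_left _ ((Nat.coprime_primes hq Nat.prime_two).2 h2)
    exact (pow_dvd_pow q (Nat.le_succ _)).trans (hc.dvd_of_dvd_mul_left h)

theorem exists_large {G : Type} [Group G] (hs : IsSimpleGroup G) (hG : ¬ FinPerm G)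
    (hcov : ∀ S : Finset G, ∃ c : Cv G, c.Cov S) {q : ℕ} (hq : q.Prime) (D : Subgroup G)
    (hD : Finite D) (hDq : IsPGroup q D) (k : ℕ) :
    ∃ F : Subgroup G, Finite F ∧ IsPGroup q F ∧ D ≤ F ∧ k ≤ Nat.card F := by
  classical
  have : Fact q.Prime := ⟨hq⟩
  obtain ⟨y, hy⟩ := @exists_ne G hs.toNontrivial 1
  obtain ⟨S, hS⟩ := growth hs hG hy (q * (k + 2))
  have hDf : (D : Set G).Finite := Set.finite_coe_iff.1 hD
  obtain ⟨c, hc⟩ := hcov (S ∪ hDf.toFinset)
  have hn : q * (k + 2) ≤ c.n := by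
    have h1 := hS c (hc.mono Finset.subset_union_left)
    have h2 : (c.p y).support.card ≤ c.n := by
      have h3 := Finset.card_le_univ (c.p y).support
      rwa [Fintype.card_fin] at h3
    exact h1.le.trans h2
  have hle : D ≤ c.H := fun g hg =>
    (hc.mono Finset.subset_union_right).mem (hDf.mem_toFinset.2 hg)
  have hdvd : q ^ (k + 1) ∣ Nat.card c.H := by
    have h1 : Nat.card (alternatingGroup (Fin c.n)) ∣ Nat.card c.H := by
      rw [← c.range]
      exact Subgroup.card_range_dvd c.π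
    refine (pow_dvd_of_two_mul hq ?_).trans h1
    have h2 : 2 ≤ c.n := by
      have h3 := hq.two_le
      nlinarith
    have : Nontrivial (Fin c.n) := Fin.nontrivial_iff_two_le.2 h2
    rw [two_mul_nat_card_alternatingGroup, Nat.card_perm, Nat.card_eq_fintype_card,
      Fintype.card_fin]
    exact (pow_dvd_factorial_mul q (k + 2) hq.pos).trans (Nat.factorial_dvd_factorial hn)
  have hDp : IsPGroup q (D.subgroupOf c.H) :=
    hDq.of_equiv (Subgroup.subgroupOfEquivOfLe hle).symm
  obtain ⟨Q, hQ⟩ := hDp.exists_le_sylow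
  refine ⟨(Q : Subgroup c.H).map c.H.subtype, ?_, Q.isPGroup'.map _, ?_, ?_⟩
  · have h1 : ((((Q : Subgroup c.H).map c.H.subtype : Subgroup G)) : Set G).Finite :=
      c.finite_coe.subset (fun g hg => by
        obtain ⟨x, -, rfl⟩ := hg
        exact x.2)
    exact h1.to_subtype
  · intro g hg
    exact ⟨⟨g, hle hg⟩, hQ (Subgroup.mem_subgroupOf.2 hg), rfl⟩
  · rw [Subgroup.card_map_of_injective c.H.subtype_injective]
    have h1 : q ^ (k + 1) ≤ Nat.card Q :=
      Nat.le_of_dvd Nat.card_pos (Q.pow_dvd_card_of_pow_dvd_card hdvd)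
    have h2 : k + 1 < q ^ (k + 1) := Nat.lt_pow_self hq.one_lt
    omega

end Pool.Agent.Lib.MP_b9166b_al.Aq
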