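import Pool.Agent.Lib.MP_b9166b_al.Rg.CoreB

/-!
# MP_b9166b_al, PRIME POWER, regular case: no finitary representation

Proof. This is `Rg.no_finLin` (Rg/CoreC.lean) with `q`-groups only.
* `f₀` is a free element for `F₀ = zpowers x` (a finite `q`-group), `c = f₀.na x 1`.
  `D = closure {x, c}` is contained in `f₀.Y ⊔ F₀`, a finite `q`-group (`f₀.Y` is a finite
  `q`-group normalized by `F₀`).
* Instead of `exists_reps` use `hlarge` for `D`: a finite `q`-group `F₁ ≥ D` of order at least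
  `k * Nat.card D`, so it contains `g i`, `i < k`, with `g i * (g j)⁻¹ ∉ D` for `i ≠ j` (right
  cosets of `D` in `F₁`).
* `f₁` is a free element for `F₁`. By `Free.bound` `q = 0` in `K`.
* `F₂ = closure ({x} ∪ {f₁.el x c (g i) | i < k + 1})` is contained in
  `f₁.Y ⊔ zpowers x`, a finite `q`-group, as `f₁.Y` is normalized by `x`; `x ∈ F₂`. `f₂` is a free
  element for `F₂`, and `Free.contra` applies.
-/

set_option autoImplicit false

namespace Pool.Agent.Lib.MP_b9166b_al.Aq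

open Pool.Agent.Lib.MP_b9166b_al Rg
open scoped Pointwise

/-- a finite `q`-group normalized by a finite `q`-group -/
theorem NfR_sup {G : Type} [Group G] {q : ℕ} {F : Subgroup G} (f : Free q F)
    {H : Subgroup G} (hHF : H ≤ F) (hHfin : Finite H) (hH : IsPGroup q H) :
    Finite (H ⊔ f.Y : Subgroup G) ∧ IsPGroup q (H ⊔ f.Y : Subgroup G) := by
  have hYfin := f.fin
  have hn : H ≤ Subgroup.normalizer (f.Y : Set G) := by
    intro h hh
    rw [Subgroup.mem_normalizer_iff]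
    intro a
    constructor
    · intro ha
      exact f.norm h (hHF hh) a ha
    · intro ha
      have h1 := f.norm h⁻¹ (F.inv_mem (hHF hh)) _ ha
      have h2 : h⁻¹ * (h * a * h⁻¹) * h⁻¹⁻¹ = a := by group
      rwa [h2] at h1
  constructor
  · have h1 : ((H ⊔ f.Y : Subgroup G) : Set G) = (H : Set G) * (f.Y : Set G) :=
      Subgroup.coe_mul_of_left_le_normalizer_right H f.Y hn
    have h2 : ((H : Set G) * (f.Y : Set G)).Finite :=
      Set.Finite.mul (Set.toFinite _) (Set.toFinite _)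
    rw [← h1] at h2
    exact h2
  · refine IsPGroup.to_sup_of_normal_right' hH ?_ hn
    intro a
    obtain ⟨n, hn⟩ := f.tors a a.2
    exact ⟨n, Subtype.ext hn⟩

/-- representatives of right cosets of `D` in a large finite group -/
theorem NfR_reps {G : Type} [Group G] {D F : Subgroup G} (hDF : D ≤ F) (hF : Finite F) {k : ℕ}
    (hk : k * Nat.card D ≤ Nat.card F) :
    ∃ g : ℕ → G, (∀ i, g i ∈ F) ∧ ∀ i < k, ∀ j < k, i ≠ j → g i * (g j)⁻¹ ∉ D := by
  classical
  set D' : Subgroup F := D.subgroupOf F with hD'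
  have h1 : Nat.card D' = Nat.card D := Nat.card_congr (Subgroup.subgroupOfEquivOfLe hDF).toEquiv
  have h2 : Nat.card F = Nat.card (F ⧸ D') * Nat.card D' := Subgroup.card_eq_card_quotient_mul_card_subgroup D'
  have hDpos : 0 < Nat.card D := by
    have : Finite D := Finite.of_injective (Subgroup.inclusion hDF) (Subgroup.inclusion_injective _)
    exact Nat.card_pos
  have h3 : k ≤ Nat.card (F ⧸ D') := by
    rw [h2, h1] at hk
    exact Nat.le_of_mul_le_mul_right hk hDpos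
  have hfinq : Finite (F ⧸ D') := Quotient.finite _
  obtain ⟨e⟩ : Nonempty (Fin (Nat.card (F ⧸ D')) ≃ F ⧸ D') := ⟨(Finite.equivFin (F ⧸ D')).symm⟩
  refine ⟨fun i => if h : i < k then
    (((Quotient.out (e ⟨i, lt_of_lt_of_le h h3⟩) : F) : G))⁻¹ else 1, fun i => ?_, ?_⟩
  · by_cases h : i < k
    · simp only [dif_pos h]
      exact F.inv_mem (Quotient.out (e ⟨i, lt_of_lt_of_le h h3⟩) : F).2
    · simp only [dif_neg h]
      exact F.one_mem
  · intro i hi j hj hij h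
    simp only [dif_pos hi, dif_pos hj, inv_inv] at h
    apply hij
    have h4 : ((Quotient.out (e ⟨i, lt_of_lt_of_le hi h3⟩) : F))⁻¹ *
        (Quotient.out (e ⟨j, lt_of_lt_of_le hj h3⟩) : F) ∈ D' := by
      exact Subgroup.mem_subgroupOf.2 h
    have h5 : (QuotientGroup.mk (Quotient.out (e ⟨i, lt_of_lt_of_le hi h3⟩)) : F ⧸ D') =
        QuotientGroup.mk (Quotient.out (e ⟨j, lt_of_lt_of_le hj h3⟩)) := QuotientGroup.eq.2 h4
    rw [QuotientGroup.out_eq', QuotientGroup.out_eq'] at h5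
    have h6 := e.injective h5
    exact congrArg Fin.val h6

theorem no_finLin_q {G : Type} [Group G] {q : ℕ} (hq : q.Prime) {x : G} {j : ℕ}
    (hx : x ^ (q ^ j) = 1)
    (hlarge : ∀ D : Subgroup G, Finite D → IsPGroup q D → ∀ k : ℕ,
      ∃ F : Subgroup G, Finite F ∧ IsPGroup q F ∧ D ≤ F ∧ k ≤ Nat.card F)
    (hfree : ∀ F : Subgroup G, Finite F → IsPGroup q F → x ∈ F → Nonempty (Free q F)) :
    ¬ FinLin (Subgroup.centralizer ({x} : Set G)) := by
  classical
  rintro ⟨K, _, V, _, _, hV, ρ, hρ, hfin⟩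
  have hVn : Nontrivial V := by
    rw [← not_subsingleton_iff_nontrivial]
    intro h
    exact hV inferInstance
  -- the order of `x`
  have hxo : IsOfFinOrder x :=
    isOfFinOrder_iff_pow_eq_one.2 ⟨q ^ j, pow_pos hq.pos j, hx⟩
  have h0 : 0 < orderOf x := hxo.orderOf_pos
  have hxfin : Finite (Subgroup.zpowers x) := by
    exact (finite_zpowers.2 hxo).to_subtype
  have hxq : IsPGroup q (Subgroup.zpowers x) := by
    rintro ⟨a, ha⟩
    obtain ⟨i, rfl⟩ := Subgroup.mem_zpowers_iff.1 ha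
    refine ⟨j, Subtype.ext ?_⟩
    change (x ^ i) ^ (q ^ j) = 1
    rw [← zpow_natCast, ← zpow_mul, mul_comm, zpow_mul, zpow_natCast, hx, one_zpow]
  -- a second element of the centralizer
  have hx₀ : x ∈ Subgroup.zpowers x := Subgroup.mem_zpowers x
  obtain ⟨f₀⟩ := hfree (Subgroup.zpowers x) hxfin hxq hx₀
  set c : G := f₀.na x 1 with hc
  have hcC : c ∈ Subgroup.centralizer ({x} : Set G) := f₀.cen hx₀ (Subgroup.one_mem _)
  have hcx : c ∉ Subgroup.zpowers x := f₀.na_notMem hq hx₀ h0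
  set d₀ : ℕ := Module.finrank K (LinearMap.range (1 - (ρ ⟨c, hcC⟩).val)) with hd₀
  have hd : Deg (ρ ⟨c, hcC⟩).val d₀ := ⟨hfin _, le_rfl⟩
  obtain ⟨hS0, hS0q⟩ := NfR_sup f₀ le_rfl hxfin hxq
  set D : Subgroup G := Subgroup.zpowers x ⊔ f₀.Y with hD
  have hxD : x ∈ D := Subgroup.mem_sup_left hx₀
  have hcD : c ∈ D := Subgroup.mem_sup_right (f₀.na_mem hx₀ (Subgroup.one_mem _))
  set k : ℕ := (2 * (2 * d₀)) * (2 * (2 * d₀) + 1) + 1 + 2 * d₀ with hk
  obtain ⟨F₁, hF₁fin, hF₁q, hDF₁, hF₁k⟩ := hlarge D hS0 hS0q (k * Nat.card D)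
  obtain ⟨g, hg, hgD⟩ := NfR_reps hDF₁ hF₁fin hF₁k
  have hxF₁ : x ∈ F₁ := hDF₁ hxD
  have hcF₁ : c ∈ F₁ := hDF₁ hcD
  obtain ⟨f₁⟩ := hfree F₁ hF₁fin hF₁q hxF₁
  have hqK : (q : K) = 0 := by
    by_contra hqK
    have := f₁.bound hq hqK hxF₁ hcF₁ h0 hcC hcx hxD hcD
      (k := k) (fun i => g i) (fun i => hg i)
      (fun i j hij => hgD i i.2 j j.2 fun h => hij (Fin.ext h)) ρ hρ hd
    omega
  have hqchar : CharP K q := by
    obtain ⟨r, hr⟩ := CharP.exists K
    have h1 : r ∣ q := (CharP.cast_eq_zero_iff K r q).1 hqK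
    rcases (Nat.dvd_prime hq).1 h1 with h2 | h2
    · subst h2
      exact absurd rfl (CharP.ringChar_ne_one (R := K) |> fun h => by
        rw [← ringChar.eq K 1] at h
        exact h)
    · rw [← h2]
      exact hr
  obtain ⟨hF₂fin, hF₂q⟩ := NfR_sup f₁ (Subgroup.zpowers_le.2 hxF₁) hxfin hxq
  have hx₂ : x ∈ (Subgroup.zpowers x ⊔ f₁.Y : Subgroup G) := Subgroup.mem_sup_left hx₀
  obtain ⟨f₂⟩ := hfree (Subgroup.zpowers x ⊔ f₁.Y) hF₂fin hF₂q hx₂
  exact Free.contra hq f₁ f₂ hxF₁ hcF₁ hx₂ h0 rfl hcC hcx hxD hcD hg hgD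
    (fun i => Subgroup.mem_sup_right (f₁.el_mem hxF₁ hcF₁ (hg i))) ρ hρ hd (by omega)

end Pool.Agent.Lib.MP_b9166b_al.Aq
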