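import Pool.Agent.Lib.MP_b9166b_al.Rg.Prime

/-!
# MP_b9166b_al, PRIME POWER, regular case: elementary abelian groups of automorphisms

`U` is an elementary abelian `r`-group of automorphisms of the finite abelian group `V` of
exponent `q ≠ r`, and `g ∈ U`.

Proof of `exists_dual`. Let `W = {v | ∏ i < r, g ^ i v = 1}`, an `U`-invariant subgroup of `V`. It
is not trivial: there is `v` with `g v ≠ v`, and `g v * v⁻¹ ∈ W` (telescoping product, `g ^ r = 1`).
An element of `W` fixed by `g` satisfies `v ^ r = 1`, so it is `1`. Choose `D ≤ U` of maximal order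
such that some `v ≠ 1` in `W` is fixed by `D`. Then `g ∉ D`. Let `δ ∈ U`, `δ ∉ D`, `u ∈ U`, and
suppose that `u ≠ d δ ^ i` for all `i` and all `d ∈ D`. Then no `δ ^ i u ^ j` with
`0 ≤ i, j < r`, not both `0`, lies in `D`. By `Rg.exists_fixed` (for the action of `δ`, `u` on the
vector space over `ZMod q` of the elements of `W` fixed by `D`) one of them fixes a `v ≠ 1` in `W`
which is fixed by `D`: this contradicts the maximality of `D`.

Proof of `norm_triv`. `w = ∏ i < r, δ ^ i v` is fixed by `D`, by `δ` (as `δ ^ r = 1`), so by `g`.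
The product `∏ i < r, g ^ i w` is `1` (apply `hvg` and that `g` and `δ` commute) and also
`w ^ r`. So `w = 1`, as also `w ^ q = 1`.
-/

set_option autoImplicit false

namespace Pool.Agent.Lib.MP_b9166b_al.Aq

/-- `Rg.exists_fixed` with iterates -/
private theorem Dq_fix0 {F W : Type} [Field F] [AddCommGroup W] [Module F W] [Nontrivial W]
    {r : ℕ} (hr : 2 ≤ r) (hr0 : (r : F) ≠ 0) (A B : Module.End F W)
    (hab : ∀ w, A (B w) = B (A w)) (ha : ∀ w, A^[r] w = w) (hb : ∀ w, B^[r] w = w) :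
    ∃ i j : ℕ, i < r ∧ j < r ∧ ¬ (i = 0 ∧ j = 0) ∧ ∃ w : W, w ≠ 0 ∧ A^[i] (B^[j] w) = w := by
  have hpow : ∀ (c : Module.End F W) (i : ℕ) (w : W), (c ^ i) w = c^[i] w := by
    intro c i
    induction i with
    | zero => intro w; rfl
    | succ i ih =>
      intro w
      rw [pow_succ, Module.End.mul_apply, Function.iterate_succ_apply, ← ih]
  obtain ⟨i, j, hi, hj, hij, hk⟩ :=
    Rg.exists_fixed (F := F) (W := W) hr hr0
    (a := A) (b := B)
    (LinearMap.ext fun x => hab x)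
    (LinearMap.ext fun x => (hpow A r x).trans (ha x))
    (LinearMap.ext fun x => (hpow B r x).trans (hb x))
  obtain ⟨x, hx, hx0⟩ := (Submodule.ne_bot_iff _).1 hk
  refine ⟨i, j, hi, hj, hij, x, hx0, ?_⟩
  rw [LinearMap.mem_ker, LinearMap.sub_apply, Module.End.one_apply, sub_eq_zero,
    Module.End.mul_apply] at hx
  rw [← hpow, ← hpow]
  exact hx.symm

/-- multiplicative form of `Rg.exists_fixed` -/
private theorem Dq_fix {W : Type} [CommGroup W] [Nontrivial W] {q r : ℕ} (hq : q.Prime)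
    (hr : r.Prime) (hrq : r ≠ q) (hW : ∀ w : W, w ^ q = 1) (a b : W →* W)
    (hab : ∀ w, a (b w) = b (a w)) (ha : ∀ w, a^[r] w = w) (hb : ∀ w, b^[r] w = w) :
    ∃ i j : ℕ, i < r ∧ j < r ∧ ¬ (i = 0 ∧ j = 0) ∧ ∃ w : W, w ≠ 1 ∧ a^[i] (b^[j] w) = w := by
  have hfq : Fact q.Prime := ⟨hq⟩
  have hmod : Module (ZMod q) (Additive W) := AddCommGroup.zmodModule (fun x => hW x.toMul)
  have hr0 : (r : ZMod q) ≠ 0 := by
    rw [Ne, ZMod.natCast_eq_zero_iff]
    intro h
    exact hrq ((Nat.prime_dvd_prime_iff_eq hq hr).1 h).symm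
  have hnt : Nontrivial (Additive W) := inferInstance
  have h := Dq_fix0 (F := ZMod q) (W := Additive W) hr.two_le hr0
    ((MonoidHom.toAdditive a).toZModLinearMap q) ((MonoidHom.toAdditive b).toZModLinearMap q)
    (fun w => congrArg Additive.ofMul (hab w.toMul))
    (fun w => congrArg Additive.ofMul (ha w.toMul))
    (fun w => congrArg Additive.ofMul (hb w.toMul))
  obtain ⟨i, j, hi, hj, hij, x, hx0, hx⟩ := h
  exact ⟨i, j, hi, hj, hij, x.toMul, hx0, congrArg Additive.toMul hx⟩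

/-- `v = 1` if `v ^ r = 1` and `v ^ q = 1` -/
private theorem Dq_one {V : Type} [CommGroup V] {q r : ℕ} (hq : q.Prime) (hr : r.Prime)
    (hrq : r ≠ q) {v : V} (h1 : v ^ r = 1) (h2 : v ^ q = 1) : v = 1 := by
  have h3 := (Nat.coprime_primes hr hq).2 hrq
  have h4 := Nat.dvd_gcd (orderOf_dvd_of_pow_eq_one h1) (orderOf_dvd_of_pow_eq_one h2)
  rw [h3] at h4
  exact orderOf_eq_one_iff.1 (Nat.dvd_one.1 h4)

theorem exists_dual {V : Type} [CommGroup V] [Finite V] {q r : ℕ} (hq : q.Prime) (hr : r.Prime)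
    (hrq : r ≠ q) (hV : ∀ v : V, v ^ q = 1) {U : Subgroup (MulAut V)} (hU : ∀ u ∈ U, u ^ r = 1)
    (hc : ∀ u ∈ U, ∀ u' ∈ U, Commute u u') {g : MulAut V} (hg : g ∈ U) (hg1 : g ≠ 1) :
    ∃ D : Subgroup (MulAut V), D ≤ U ∧ g ∉ D ∧
      (∃ v : V, v ≠ 1 ∧ (∀ d ∈ D, d v = v) ∧ ∏ i ∈ Finset.range r, (g ^ i) v = 1) ∧
      ∀ δ ∈ U, δ ∉ D → ∀ u ∈ U, ∃ (i : ℕ) (d : MulAut V), d ∈ D ∧ u = d * δ ^ i := by
  classical
  have hcm : ∀ u ∈ U, ∀ u' ∈ U, ∀ v : V, u (u' v) = u' (u v) := by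
    intro u hu u' hu' v
    have h1 := DFunLike.congr_fun (hc u hu u' hu') v
    exact h1
  -- the norm commutes with the elements of `U`
  have hnorm : ∀ u ∈ U, ∀ v : V, ∏ i ∈ Finset.range r, (g ^ i) (u v) =
      u (∏ i ∈ Finset.range r, (g ^ i) v) := by
    intro u hu v
    rw [map_prod]
    exact Finset.prod_congr rfl fun i _ => hcm _ (U.pow_mem hg i) _ hu v
  obtain ⟨S, hS⟩ : ∃ S : Set (Subgroup (MulAut V)), S = {D | D ≤ U ∧ ∃ v : V, v ≠ 1 ∧
      (∀ d ∈ D, d v = v) ∧ ∏ i ∈ Finset.range r, (g ^ i) v = 1} := ⟨_, rfl⟩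
  have hbot : (⊥ : Subgroup (MulAut V)) ∈ S := by
    rw [hS]
    refine ⟨bot_le, ?_⟩
    obtain ⟨v, hv⟩ : ∃ v, g v ≠ v := by
      by_contra hcon
      push Not at hcon
      exact hg1 (MulEquiv.ext hcon)
    refine ⟨g v / v, fun h => hv (div_eq_one.1 h), ?_, ?_⟩
    · intro d hd
      rw [Subgroup.mem_bot.1 hd]
      rfl
    · have h1 : ∀ i ∈ Finset.range r, (g ^ i) (g v / v) = (g ^ (i + 1)) v / (g ^ i) v := by
        intro i _
        rw [map_div, pow_succ, MulAut.mul_apply]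
      rw [Finset.prod_congr rfl h1, Finset.prod_range_div (fun i => (g ^ i) v), hU g hg, pow_zero,
        div_self']
  obtain ⟨D, -, hDm⟩ := (Set.toFinite S).exists_le_maximal hbot
  have hDS := hDm.prop
  rw [hS] at hDS
  obtain ⟨hDU, v, hv1, hvD, hvg⟩ := hDS
  have hgD : g ∉ D := by
    intro h
    have h1 : ∀ i ∈ Finset.range r, (g ^ i) v = v := fun i _ => hvD _ (D.pow_mem h i)
    rw [Finset.prod_congr rfl h1, Finset.prod_const, Finset.card_range] at hvg
    exact hv1 (Dq_one hq hr hrq hvg (hV v))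
  refine ⟨D, hDU, hgD, ⟨v, hv1, hvD, hvg⟩, fun δ hδ hδD u hu => ?_⟩
  by_contra hcon
  push Not at hcon
  -- no mixed product is in `D`
  have hmix : ∀ i j : ℕ, i < r → j < r → ¬ (i = 0 ∧ j = 0) → δ ^ i * u ^ j ∉ D := by
    intro i j hi hj hij hm
    by_cases hj0 : j = 0
    · have hi0 : i ≠ 0 := fun h => hij ⟨h, hj0⟩
      rw [hj0, pow_zero, mul_one] at hm
      have hcop : Nat.Coprime i r := by
        rw [Nat.coprime_comm, Nat.Prime.coprime_iff_not_dvd hr]
        exact fun h => absurd (Nat.le_of_dvd (Nat.pos_of_ne_zero hi0) h) (not_le.2 hi)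
      obtain ⟨k, hk⟩ := Nat.exists_mul_mod_eq_one_of_coprime hcop hr.one_lt
      apply hδD
      have h1 := D.pow_mem hm k
      rw [← pow_mul, ← Nat.div_add_mod (i * k) r, hk.2, pow_add, pow_mul, hU δ hδ, one_pow,
        one_mul, pow_one] at h1
      exact h1
    · have hcop : Nat.Coprime j r := by
        rw [Nat.coprime_comm, Nat.Prime.coprime_iff_not_dvd hr]
        exact fun h => absurd (Nat.le_of_dvd (Nat.pos_of_ne_zero hj0) h) (not_le.2 hj)
      obtain ⟨k, hk⟩ := Nat.exists_mul_mod_eq_one_of_coprime hcop hr.one_lt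
      have h1 := D.pow_mem hm k
      have h2 : (u ^ j) ^ k = u := by
        rw [← pow_mul, ← Nat.div_add_mod (j * k) r, hk.2, pow_add, pow_mul, hU u hu, one_pow,
          one_mul, pow_one]
      have hcomm : Commute (δ ^ i) (u ^ j) := hc _ (U.pow_mem hδ i) _ (U.pow_mem hu j)
      rw [hcomm.mul_pow, h2, ← pow_mul] at h1
      refine hcon ((r - 1) * (i * k)) _ h1 ?_
      have h3 : δ ^ (i * k) * δ ^ ((r - 1) * (i * k)) = 1 := by
        rw [← pow_add, show i * k + (r - 1) * (i * k) = (r - 1 + 1) * (i * k) by ring,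
          Nat.sub_add_cancel hr.one_lt.le, pow_mul, hU δ hδ, one_pow]
      have h4 : Commute (δ ^ (i * k)) u := hc _ (U.pow_mem hδ _) _ hu
      rw [h4.eq, mul_assoc, h3, mul_one]
  -- the subgroup of the elements fixed by `D` of norm one
  let W : Subgroup V :=
    { carrier := {w | (∀ d ∈ D, d w = w) ∧ ∏ i ∈ Finset.range r, (g ^ i) w = 1}
      one_mem' := ⟨fun d _ => map_one d, by simp⟩
      mul_mem' := by
        rintro x y ⟨hx, hx'⟩ ⟨hy, hy'⟩
        refine ⟨fun d hd => by rw [map_mul, hx d hd, hy d hd], ?_⟩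
        simp only [map_mul, Finset.prod_mul_distrib, hx', hy', mul_one]
      inv_mem' := by
        rintro x ⟨hx, hx'⟩
        refine ⟨fun d hd => by rw [map_inv, hx d hd], ?_⟩
        simp only [map_inv, Finset.prod_inv_distrib, hx', inv_one] }
  have hWm : ∀ w, w ∈ W ↔ (∀ d ∈ D, d w = w) ∧ ∏ i ∈ Finset.range r, (g ^ i) w = 1 :=
    fun w => Iff.rfl
  have hWU : ∀ s ∈ U, ∀ w ∈ W, s w ∈ W := by
    intro s hs w hw
    rw [hWm] at hw ⊢
    refine ⟨fun d hd => ?_, ?_⟩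
    · rw [hcm d (hDU hd) s hs, hw.1 d hd]
    · rw [hnorm s hs, hw.2, map_one]
  have hnt : Nontrivial W := ⟨⟨⟨v, hvD, hvg⟩, 1, fun h => hv1 (congrArg Subtype.val h)⟩⟩
  obtain ⟨ρ, hρ⟩ : ∃ ρ : ∀ s, s ∈ U → (W →* W), ∀ s (hs : s ∈ U) (w : W),
      ((ρ s hs w : W) : V) = s (w : V) :=
    ⟨fun s hs => (s.toMonoidHom.comp W.subtype).codRestrict W fun w => hWU s hs w w.2,
      fun _ _ _ => rfl⟩
  have hit : ∀ s (hs : s ∈ U) (i : ℕ) (w : W), (((ρ s hs)^[i] w : W) : V) = (s ^ i) (w : V) := by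
    intro s hs i
    induction i with
    | zero => intro w; rfl
    | succ i ih =>
      intro w
      rw [Function.iterate_succ_apply, ih, hρ, pow_succ, MulAut.mul_apply]
  obtain ⟨i, j, hi, hj, hij, w, hw1, hw⟩ := Dq_fix (W := W) hq hr hrq
    (fun w => Subtype.ext (hV w)) (ρ δ hδ) (ρ u hu)
    (fun w => Subtype.ext (by rw [hρ, hρ, hρ, hρ]; exact hcm δ hδ u hu w))
    (fun w => Subtype.ext (by rw [hit, hU δ hδ]; rfl))
    (fun w => Subtype.ext (by rw [hit, hU u hu]; rfl))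
  have hw2 : (δ ^ i * u ^ j) (w : V) = w := by
    have h1 := congrArg Subtype.val hw
    rw [hit, hit] at h1
    exact h1
  have hw3 := (hWm _).1 w.2
  have hD' : D ⊔ Subgroup.zpowers (δ ^ i * u ^ j) ∈ S := by
    rw [hS]
    refine ⟨sup_le hDU ?_, (w : V), fun h => hw1 (Subtype.ext h), ?_, hw3.2⟩
    · rw [Subgroup.zpowers_le]
      exact U.mul_mem (U.pow_mem hδ i) (U.pow_mem hu j)
    · have h1 : D ⊔ Subgroup.zpowers (δ ^ i * u ^ j) ≤
          MulAction.stabilizer (MulAut V) (w : V) := by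
        refine sup_le (fun d hd => MulAction.mem_stabilizer_iff.2 (hw3.1 d hd)) ?_
        rw [Subgroup.zpowers_le]
        exact MulAction.mem_stabilizer_iff.2 hw2
      exact fun d hd => MulAction.mem_stabilizer_iff.1 (h1 hd)
  have h5 := hDm.le_of_ge hD' le_sup_left
  exact hmix i j hi hj hij (h5 (Subgroup.mem_sup_right (Subgroup.mem_zpowers _)))

theorem norm_triv {V : Type} [CommGroup V] {q r : ℕ} (hq : q.Prime) (hr : r.Prime)
    (hrq : r ≠ q) (hV : ∀ v : V, v ^ q = 1) {U : Subgroup (MulAut V)} (hU : ∀ u ∈ U, u ^ r = 1)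
    (hc : ∀ u ∈ U, ∀ u' ∈ U, Commute u u') {g : MulAut V} (hg : g ∈ U)
    {D : Subgroup (MulAut V)} (hD : D ≤ U) {v : V} (hvD : ∀ d ∈ D, d v = v)
    (hvg : ∏ i ∈ Finset.range r, (g ^ i) v = 1) {δ : MulAut V} (hδ : δ ∈ U)
    (hspan : ∀ u ∈ U, ∃ (i : ℕ) (d : MulAut V), d ∈ D ∧ u = d * δ ^ i) :
    ∏ i ∈ Finset.range r, (δ ^ i) v = 1 := by
  have hcm : ∀ u ∈ U, ∀ u' ∈ U, ∀ v : V, u (u' v) = u' (u v) := by
    intro u hu u' hu' v
    exact DFunLike.congr_fun (hc u hu u' hu') v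
  obtain ⟨w, hw⟩ : ∃ w, w = ∏ i ∈ Finset.range r, (δ ^ i) v := ⟨_, rfl⟩
  rw [← hw]
  have hwD : ∀ d ∈ D, d w = w := by
    intro d hd
    rw [hw, map_prod]
    refine Finset.prod_congr rfl fun i _ => ?_
    rw [hcm d (hD hd) _ (U.pow_mem hδ i), hvD d hd]
  have hwδ : δ w = w := by
    have h1 : δ w / w = 1 := by
      rw [hw, map_prod, ← Finset.prod_div_distrib]
      have h2 : ∀ i ∈ Finset.range r, δ ((δ ^ i) v) / (δ ^ i) v =
          (δ ^ (i + 1)) v / (δ ^ i) v := by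
        intro i _
        rw [pow_succ', MulAut.mul_apply]
      rw [Finset.prod_congr rfl h2, Finset.prod_range_div (fun i => (δ ^ i) v), hU δ hδ, pow_zero,
        div_self']
    exact div_eq_one.1 h1
  have hwδi : ∀ i : ℕ, (δ ^ i) w = w := by
    intro i
    induction i with
    | zero => rfl
    | succ i ih => rw [pow_succ, MulAut.mul_apply, hwδ, ih]
  have hwg : ∀ i : ℕ, (g ^ i) w = w := by
    intro i
    obtain ⟨k, d, hd, h1⟩ := hspan (g ^ i) (U.pow_mem hg i)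
    rw [h1, MulAut.mul_apply, hwδi, hwD d hd]
  have h1 : ∏ i ∈ Finset.range r, (g ^ i) w = w ^ r := by
    rw [Finset.prod_congr rfl fun i _ => hwg i, Finset.prod_const, Finset.card_range]
  have h2 : ∏ i ∈ Finset.range r, (g ^ i) w = 1 := by
    have h3 : ∀ i ∈ Finset.range r, (g ^ i) w = ∏ j ∈ Finset.range r, (δ ^ j) ((g ^ i) v) := by
      intro i _
      rw [hw, map_prod]
      exact Finset.prod_congr rfl fun j _ => hcm _ (U.pow_mem hg i) _ (U.pow_mem hδ j) v
    rw [Finset.prod_congr rfl h3, Finset.prod_comm]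
    refine Finset.prod_eq_one fun j _ => ?_
    rw [← map_prod, hvg, map_one]
  exact Dq_one hq hr hrq (h1.symm.trans h2) (hV w)

end Pool.Agent.Lib.MP_b9166b_al.Aq
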