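import Pool.Agent.Lib.MP_b9166b_al.Aq.Tq

/-!
# MP_b9166b_al, PRIME POWER, regular case: a good vector

Proof. For `h ≠ 1` let `N h u = ∏ i < r h, ρ (ε h ^ i) u`, an endomorphism of `V`. The `N h`
commute, `N h v = v ^ (r h)` by `h3`, and `N h (fV h v) = 1` by `h4`. Let `N` be the product of the
`N h` over all `h ≠ 1`. Then `N v` is a power of `v` with exponent prime to `q`, so `N v ≠ 1`, and
`N (fV h v) = 1` for `h ≠ 1`. Write `V` additively, a vector space over `ZMod q`; a linear form `g`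
with `g (N v) = 1` exists. Take `χ u = g (N u)`. The first part of `Good` is `h1` and `h2`.
-/

set_option autoImplicit false

namespace Pool.Agent.Lib.MP_b9166b_al.Aq

open Equiv Equiv.Perm Rg

section lin

variable {V : Type} [CommGroup V]

/-- an automorphism of `V` as an additive endomorphism -/
def GoodOf_T (a : MulAut V) : AddMonoid.End (Additive V) := MonoidHom.toAdditive a.toMonoidHom

theorem GoodOf_mul {A : Type} [AddCommGroup A] (f g : AddMonoid.End A) (x : A) :
    (f * g) x = f (g x) := rfl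

theorem GoodOf_T_pow (a : MulAut V) (i : ℕ) (u : V) :
    (GoodOf_T a ^ i) (Additive.ofMul u) = Additive.ofMul ((a ^ i) u) := by
  induction i with
  | zero => rfl
  | succ i ih =>
    rw [pow_succ', GoodOf_mul, ih, pow_succ', MulAut.mul_apply]
    rfl

theorem GoodOf_T_comm {a b : MulAut V} (h : Commute a b) : Commute (GoodOf_T a) (GoodOf_T b) := by
  refine AddMonoidHom.ext fun x => ?_
  have h1 : (a * b) x.toMul = (b * a) x.toMul := by rw [h.eq]
  exact congrArg Additive.ofMul h1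

/-- the norm -/
def GoodOf_N (a : MulAut V) (n : ℕ) : AddMonoid.End (Additive V) :=
  ∑ i ∈ Finset.range n, GoodOf_T a ^ i

theorem GoodOf_N_apply (a : MulAut V) (n : ℕ) (u : V) :
    GoodOf_N a n (Additive.ofMul u) = Additive.ofMul (∏ i ∈ Finset.range n, (a ^ i) u) := by
  induction n with
  | zero => rfl
  | succ n ih =>
    have h1 : GoodOf_N a (n + 1) = GoodOf_N a n + GoodOf_T a ^ n := Finset.sum_range_succ _ _
    have h2 : (GoodOf_N a n + GoodOf_T a ^ n) (Additive.ofMul u) =
        GoodOf_N a n (Additive.ofMul u) + (GoodOf_T a ^ n) (Additive.ofMul u) := rfl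
    rw [h1, h2, ih, GoodOf_T_pow, Finset.prod_range_succ, ofMul_mul]

theorem GoodOf_N_comm {a b : MulAut V} (h : Commute a b) (m n : ℕ) :
    Commute (GoodOf_N a m) (GoodOf_N b n) := by
  refine Commute.sum_left _ _ _ fun i _ => Commute.sum_right _ _ _ fun j _ => ?_
  exact (GoodOf_T_comm h).pow_pow i j

theorem GoodOf_form' {A : Type} [AddCommGroup A] {q : ℕ} [Fact q.Prime] [Module (ZMod q) A]
    {w : A} (hw : w ≠ 0) : ∃ f : A →+ ZMod q, f w = 1 := by
  obtain ⟨g, hg⟩ : ∃ g : A →ₗ[ZMod q] ZMod q, g w ≠ 0 := by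
    by_contra hcon
    exact hw ((Module.forall_dual_apply_eq_zero_iff (ZMod q) _).1 fun g => not_not.1 fun h =>
      hcon ⟨g, h⟩)
  refine ⟨((g w)⁻¹ • g).toAddMonoidHom, ?_⟩
  change (g w)⁻¹ * g w = 1
  exact inv_mul_cancel₀ hg

/-- a linear form which is `1` at a given nonzero vector -/
theorem GoodOf_form {A : Type} [AddCommGroup A] {q : ℕ} (hq : q.Prime) (hexp : ∀ x : A, q • x = 0)
    {w : A} (hw : w ≠ 0) : ∃ f : A →+ ZMod q, f w = 1 :=
  @GoodOf_form' A _ q ⟨hq⟩ (AddCommGroup.zmodModule hexp) w hw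

end lin

variable {Γ L : Type} [Group Γ] [Group L] [Fintype Γ] [DecidableEq Γ] {k : ℕ}

theorem Vp.good_of {q : ℕ} (hq : q.Prime) {c : Cov Γ L k} {V : Type} [CommGroup V] [Finite V]
    (S : Vp q c V) {v : V} (hv : v ≠ 1) (δ ε : Γ → L) (r : Γ → ℕ)
    (hr : ∀ h, h ≠ 1 → (r h).Coprime q)
    (h1 : ∀ h, h ≠ 1 → S.ρ (δ h) (S.fV h v) = S.fV h v)
    (h2 : ∀ h, h ≠ 1 → ∏ i ∈ Finset.range (r h), S.ρ (δ h ^ i) v = 1)
    (h3 : ∀ h, h ≠ 1 → S.ρ (ε h) v = v)
    (h4 : ∀ h, h ≠ 1 → ∏ i ∈ Finset.range (r h), S.ρ (ε h ^ i) (S.fV h v) = 1)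
    (h5 : ∀ h h', h ≠ 1 → h' ≠ 1 → Commute (S.ρ (ε h)) (S.ρ (ε h'))) : S.Good := by
  classical
  have hqF : Fact q.Prime := ⟨hq⟩
  refine ⟨v, fun h hh => ⟨δ h, r h, hr h hh, h1 h hh, h2 h hh⟩, ?_⟩
  have hexp : ∀ x : Additive V, q • x = 0 := fun x =>
    congrArg Additive.ofMul (S.exp x.toMul)
  let N : Γ → AddMonoid.End (Additive V) := fun h => GoodOf_N (S.ρ (ε h)) (r h)
  have hNv : ∀ h, h ≠ 1 → N h (Additive.ofMul v) = (r h) • Additive.ofMul v := by
    intro h hh
    have hp : ∀ i : ℕ, (S.ρ (ε h) ^ i) v = v := by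
      intro i
      induction i with
      | zero => rfl
      | succ i ih => rw [pow_succ', MulAut.mul_apply, ih, h3 h hh]
    change GoodOf_N (S.ρ (ε h)) (r h) (Additive.ofMul v) = _
    rw [GoodOf_N_apply, Finset.prod_congr rfl fun i _ => hp i, Finset.prod_const,
      Finset.card_range]
    rfl
  have hN0 : ∀ h, h ≠ 1 → N h (Additive.ofMul (S.fV h v)) = 0 := by
    intro h hh
    change GoodOf_N (S.ρ (ε h)) (r h) (Additive.ofMul (S.fV h v)) = _
    rw [GoodOf_N_apply]
    have h6 : ∏ i ∈ Finset.range (r h), (S.ρ (ε h) ^ i) (S.fV h v) = 1 := by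
      rw [← h4 h hh]
      exact Finset.prod_congr rfl fun i _ => by rw [map_pow]
    rw [h6]
    rfl
  -- the product of the norms
  have key : ∀ l : List Γ, (∀ h ∈ l, h ≠ 1) →
      ((l.map N).prod (Additive.ofMul v) = (l.map r).prod • Additive.ofMul v) ∧
      ∀ h ∈ l, (l.map N).prod (Additive.ofMul (S.fV h v)) = 0 := by
    intro l
    induction l with
    | nil =>
      intro _
      refine ⟨?_, fun h hh => absurd hh (List.not_mem_nil)⟩
      rw [List.map_nil, List.prod_nil, List.map_nil, List.prod_nil, one_smul]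
      rfl
    | cons a l ih =>
      intro hl
      have hl' : ∀ h ∈ l, h ≠ 1 := fun h hh => hl h (List.mem_cons_of_mem a hh)
      have ha : a ≠ 1 := hl a List.mem_cons_self
      obtain ⟨i1, i2⟩ := ih hl'
      have hcomm : Commute (N a) (l.map N).prod := by
        refine Commute.list_prod_right _ _ fun x hx => ?_
        obtain ⟨b, hb, rfl⟩ := List.mem_map.1 hx
        exact GoodOf_N_comm (h5 a b ha (hl' b hb)) _ _
      rw [List.map_cons, List.prod_cons, List.map_cons, List.prod_cons]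
      constructor
      · rw [GoodOf_mul, i1, map_nsmul, hNv a ha, ← mul_smul, mul_comm]
      · intro h hh
        by_cases hhl : h ∈ l
        · rw [GoodOf_mul, i2 h hhl, map_zero]
        · have hha : h = a := by
            rcases List.mem_cons.1 hh with h7 | h7
            · exact h7
            · exact absurd h7 hhl
          subst hha
          rw [hcomm.eq, GoodOf_mul, hN0 h ha, map_zero]
  let l : List Γ := (Finset.univ.filter fun h : Γ => h ≠ 1).toList
  have hl : ∀ h, h ∈ l ↔ h ≠ 1 := by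
    intro h
    rw [Finset.mem_toList, Finset.mem_filter]
    exact ⟨fun h => h.2, fun h => ⟨Finset.mem_univ _, h⟩⟩
  obtain ⟨k1, k2⟩ := key l fun h hh => (hl h).1 hh
  set P := (l.map N).prod with hP
  have hcop : ((l.map r).prod).Coprime q := by
    refine Nat.Coprime.symm (Nat.coprime_list_prod_right_iff.2 fun n hn => ?_)
    obtain ⟨h, hh, rfl⟩ := List.mem_map.1 hn
    exact (hr h ((hl h).1 hh)).symm
  have hPv : P (Additive.ofMul v) ≠ 0 := by
    rw [k1]
    intro h0
    have h6 : v ^ (l.map r).prod = 1 := congrArg Additive.toMul h0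
    have h7 : orderOf v ∣ (l.map r).prod := orderOf_dvd_of_pow_eq_one h6
    have h8 : orderOf v ∣ q := orderOf_dvd_of_pow_eq_one (S.exp v)
    have h9 : orderOf v ∣ 1 := by
      rw [← Nat.Coprime.gcd_eq_one hcop]
      exact Nat.dvd_gcd h7 h8
    exact hv (orderOf_eq_one_iff.1 (Nat.dvd_one.1 h9))
  obtain ⟨g, hg⟩ := GoodOf_form hq hexp hPv
  refine ⟨fun u => g (P (Additive.ofMul u)), ?_, hg, ?_⟩
  · intro a b
    change g (P (Additive.ofMul (a * b))) = _
    rw [ofMul_mul, map_add, map_add]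
  · intro h hh
    change g (P (Additive.ofMul (S.fV h v))) = 0
    rw [k2 h ((hl h).2 hh), map_zero]

end Pool.Agent.Lib.MP_b9166b_al.Aq
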