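import Pool.Agent.Lib.MP_b9166b_al.Aq.RegPt
import Pool.Agent.Lib.MP_b9166b_al.Aq.GoodOf
import Pool.Agent.Lib.MP_b9166b_al.Aq.Dq

/-!
# MP_b9166b_al, PRIME POWER, regular case: good vectors from an abelian normal subgroup

Proof. Let `A = ρ.range`, a perfect group; `U` is normalized by `A` and by the `fV h`.
* A noncentral element `u` of `U` of minimal order has order a power of a prime `r` (if two primes
  `r`, `r'` divide the order of `u` then `u ^ r`, `u ^ r'` are central, and so is `u`). `r ≠ q` by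
  `hcop`, and `u ^ r` is central. So `U₁ = {x ∈ U | x ^ r = 1}` contains
  `a * u * a⁻¹ * u⁻¹` for `a ∈ A`.
* `U₁` is not central in `A`: else `a ↦ a * u * a⁻¹ * u⁻¹` is a homomorphism from `A` to the
  commutative group `U₁`, so it is trivial, and `u` is central.
* So there are `u ∈ U₁` and `a ∈ A` with `g = a * u * a⁻¹ * u⁻¹ ≠ 1`, `g ∈ U₁`. Take `D` from
  `exists_dual` for `U₁`, and `v₀` (fixed by `D`, norm under `g` trivial).
* `A` does not normalize `D`: if it does then, as `U₁ = D ⟨δ⟩` for any `δ ∈ U₁ ∖ D`, the group `A`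
  acts on the cyclic group `U₁ / D` of order `r`, by an abelian quotient of the perfect group `A`, so
  trivially, and `g ∈ D`. (The orbit: let `X = Subgroup (MulAut V)`, `L` acting by conjugation with
  `ρ g`, `Γ` acting by conjugation with `fV h`.)
* By `reg_pt` there is `g₁ ∈ L` such that the conjugate `D'` of `D` under `ρ g₁` is not normalized
  by `fV h` for `h ≠ 1`. Let `g'`, `v` be the images of `g`, `v₀` under `ρ g₁`. Then `D' ≤ U₁`,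
  `D'`, `g'`, `v` have the properties of `exists_dual` for `U₁`.
* For `h ≠ 1` the group `fV h D' (fV h)⁻¹ ≠ D'` has the same order as `D'`. Apply `Vp.good_of` with
  `r h = r`, `δ h` a preimage in `L` of an element of `fV h D' (fV h)⁻¹ ∖ D'` and `ε h` a preimage
  of an element of `D' ∖ fV h D' (fV h)⁻¹`. For `h2` use `norm_triv` for `D'`, `g'`, `v`, for `h4`
  use `norm_triv` for the conjugates of `D'`, `g'` by `fV h` and `fV h v`.
-/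

set_option autoImplicit false

namespace Pool.Agent.Lib.MP_b9166b_al.Aq

open Equiv Equiv.Perm Rg

open scoped commutatorElement

/-! ## General lemmas -/

/-- a homomorphism with commuting values is trivial on a perfect group -/
private theorem Ga_triv {L G : Type} [Group L] [Group G] (hperf : commutator L = ⊤) (F : L →* G)
    (h : ∀ a b, Commute (F a) (F b)) (l : L) : F l = 1 := by
  have h1 : commutator L ≤ F.ker := by
    rw [commutator_def, Subgroup.commutator_le]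
    intro a _ b _
    rw [MonoidHom.mem_ker, map_commutatorElement, commutatorElement_eq_one_iff_commute]
    exact h a b
  rw [hperf] at h1
  exact h1 (Subgroup.mem_top l)

/-- the elements of exponent `r` of a commutative subgroup -/
private def gom {G : Type} [Group G] (U : Subgroup G) (hc : ∀ u ∈ U, ∀ u' ∈ U, Commute u u')
    (r : ℕ) : Subgroup G where
  carrier := {x | x ∈ U ∧ x ^ r = 1}
  one_mem' := ⟨U.one_mem, one_pow r⟩
  mul_mem' := fun {a b} ha hb =>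
    ⟨U.mul_mem ha.1 hb.1, by rw [(hc a ha.1 b hb.1).mul_pow, ha.2, hb.2, one_mul]⟩
  inv_mem' := fun {a} ha => ⟨U.inv_mem ha.1, by rw [inv_pow, ha.2, inv_one]⟩

private theorem mem_gom {G : Type} [Group G] {U : Subgroup G}
    {hc : ∀ u ∈ U, ∀ u' ∈ U, Commute u u'} {r : ℕ} {x : G} :
    x ∈ gom U hc r ↔ x ∈ U ∧ x ^ r = 1 := Iff.rfl

private theorem gom_conj {G : Type} [Group G] {U : Subgroup G}
    {hc : ∀ u ∈ U, ∀ u' ∈ U, Commute u u'} {r : ℕ} {s : G} (hs : ∀ u ∈ U, s * u * s⁻¹ ∈ U)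
    {x : G} (hx : x ∈ gom U hc r) : s * x * s⁻¹ ∈ gom U hc r := by
  rw [mem_gom] at hx ⊢
  refine ⟨hs x hx.1, ?_⟩
  rw [conj_pow, hx.2, mul_one, mul_inv_cancel]

/-- a noncentral element with central `r`-th power -/
private theorem Ga_min {L G : Type} [Group L] [Group G] [Finite G] (ρ : L →* G) (U : Subgroup G)
    (n : ℕ) : ∀ u ∈ U, orderOf u = n → (∃ l, ¬ Commute u (ρ l)) →
    ∃ r : ℕ, r.Prime ∧ r ∣ Nat.card U ∧ ∃ u' ∈ U, (∃ l, ¬ Commute u' (ρ l)) ∧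
      ∀ l, Commute (u' ^ r) (ρ l) := by
  induction n using Nat.strong_induction_on with
  | _ n ih =>
    intro u hu hn hnc
    have hn1 : n ≠ 1 := by
      intro h
      rw [h, orderOf_eq_one_iff] at hn
      obtain ⟨l, hl⟩ := hnc
      apply hl
      rw [hn]
      exact Commute.one_left _
    obtain ⟨r, hr, hrn⟩ := Nat.exists_prime_and_dvd hn1
    by_cases hcen : ∀ l, Commute (u ^ r) (ρ l)
    · refine ⟨r, hr, ?_, u, hu, hnc, hcen⟩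
      rw [← hn] at hrn
      exact hrn.trans (Subgroup.orderOf_dvd_natCard U hu)
    · push Not at hcen
      have hn0 : 0 < n := by
        rw [← hn]
        exact orderOf_pos u
      refine ih (n / r) (Nat.div_lt_self hn0 hr.one_lt) (u ^ r) (U.pow_mem hu r) ?_ hcen
      rw [orderOf_pow_of_dvd hr.ne_zero (by rw [hn]; exact hrn), hn]

/-- a nontrivial commutator of order `r` -/
private theorem Ga_r {L G : Type} [Group L] [Group G] [Finite G] (hperf : commutator L = ⊤)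
    (ρ : L →* G) (U : Subgroup G) (hc : ∀ u ∈ U, ∀ u' ∈ U, Commute u u')
    (hA : ∀ l, ∀ u ∈ U, ρ l * u * (ρ l)⁻¹ ∈ U) (hnc : ∃ u ∈ U, ∃ l, ¬ Commute u (ρ l)) :
    ∃ r : ℕ, r.Prime ∧ r ∣ Nat.card U ∧ ∃ u ∈ gom U hc r, ∃ l,
      ρ l * u * (ρ l)⁻¹ * u⁻¹ ≠ 1 := by
  obtain ⟨u₀, hu₀, hnc₀⟩ := hnc
  obtain ⟨r, hr, hrU, u, hu, hnu, hcu⟩ := Ga_min ρ U _ u₀ hu₀ rfl hnc₀
  refine ⟨r, hr, hrU, ?_⟩
  by_contra hcon
  push Not at hcon
  have hmem : ∀ l, ρ l * u * (ρ l)⁻¹ * u⁻¹ ∈ gom U hc r := by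
    intro l
    rw [mem_gom]
    refine ⟨U.mul_mem (hA l u hu) (U.inv_mem hu), ?_⟩
    have h1 : Commute (ρ l * u * (ρ l)⁻¹) u⁻¹ := hc _ (hA l u hu) _ (U.inv_mem hu)
    rw [h1.mul_pow, conj_pow, ← (hcu l).eq, mul_inv_cancel_right, inv_pow, mul_inv_cancel]
  have hcen : ∀ l, ∀ x ∈ gom U hc r, ρ l * x = x * ρ l := by
    intro l x hx
    have h1 := hcon x hx l
    rw [mul_inv_eq_one, mul_inv_eq_iff_eq_mul] at h1
    exact h1
  let F : L →* G := {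
    toFun := fun l => ρ l * u * (ρ l)⁻¹ * u⁻¹
    map_one' := by
      rw [map_one, one_mul, inv_one, mul_one, mul_inv_cancel]
    map_mul' := by
      intro a b
      have h1 : ρ (a * b) * u * (ρ (a * b))⁻¹ * u⁻¹ =
          ρ a * (ρ b * u * (ρ b)⁻¹ * u⁻¹) * u * (ρ a)⁻¹ * u⁻¹ := by
        rw [map_mul]
        group
      rw [h1, hcen a _ (hmem b)]
      have h2 : ∀ x y : G, Commute x y → y * ρ a * u * (ρ a)⁻¹ * u⁻¹ = y * x →
          y * ρ a * u * (ρ a)⁻¹ * u⁻¹ = x * y := by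
        intro x y h3 h4
        rw [h4, h3.eq]
      apply h2
      · exact hc _ (hmem a).1 _ (hmem b).1
      · simp only [mul_assoc] }
  obtain ⟨l, hl⟩ := hnu
  apply hl
  have h1 : F l = 1 := Ga_triv hperf F (fun a b => hc _ (hmem a).1 _ (hmem b).1) l
  change ρ l * u * (ρ l)⁻¹ * u⁻¹ = 1 at h1
  rw [mul_inv_eq_one, mul_inv_eq_iff_eq_mul] at h1
  exact h1.symm

/-- a perfect group acts trivially on a cyclic section -/
private theorem Ga_cyc {L G : Type} [Group L] [Group G] (hperf : commutator L = ⊤)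
    (ρ : L →* G) {U D : Subgroup G} (hDU : D ≤ U) (hc : ∀ u ∈ U, ∀ u' ∈ U, Commute u u')
    (hA : ∀ l, ∀ u ∈ U, ρ l * u * (ρ l)⁻¹ ∈ U) (hD : ∀ l, ∀ d ∈ D, ρ l * d * (ρ l)⁻¹ ∈ D)
    {δ : G} (hδ : δ ∈ U) (hspan : ∀ u ∈ U, ∃ (i : ℕ) (d : G), d ∈ D ∧ u = d * δ ^ i) (l : L)
    {u : G} (hu : u ∈ U) : ρ l * u * (ρ l)⁻¹ * u⁻¹ ∈ D := by
  have hn : ∀ l, ∃ (n : ℕ) (d : G), d ∈ D ∧ ρ l * δ * (ρ l)⁻¹ = d * δ ^ n :=
    fun l => hspan _ (hA l δ hδ)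
  choose n e he hne using hn
  have hab : ∀ a b : L, ∃ d ∈ D,
      ρ (a * b) * δ * (ρ (a * b))⁻¹ = d * δ ^ (n a * n b) := by
    intro a b
    refine ⟨ρ a * e b * (ρ a)⁻¹ * e a ^ n b, D.mul_mem (hD a _ (he b)) (D.pow_mem (he a) _), ?_⟩
    have h1 : ρ (a * b) * δ * (ρ (a * b))⁻¹ =
        ρ a * (ρ b * δ * (ρ b)⁻¹) * (ρ a)⁻¹ := by
      rw [map_mul]
      group
    have h2 : Commute (e a) (δ ^ n a) := hc _ (hDU (he a)) _ (U.pow_mem hδ _)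
    calc ρ (a * b) * δ * (ρ (a * b))⁻¹ = ρ a * (e b * δ ^ n b) * (ρ a)⁻¹ := by rw [h1, hne b]
      _ = ρ a * e b * (ρ a)⁻¹ * (ρ a * δ ^ n b * (ρ a)⁻¹) := by group
      _ = ρ a * e b * (ρ a)⁻¹ * (ρ a * δ * (ρ a)⁻¹) ^ n b := by rw [conj_pow]
      _ = ρ a * e b * (ρ a)⁻¹ * e a ^ n b * δ ^ (n a * n b) := by
        rw [hne a, h2.mul_pow, ← pow_mul, ← mul_assoc]
  let C : Subgroup L := {
    carrier := {l | ρ l * δ * (ρ l)⁻¹ * δ⁻¹ ∈ D}
    one_mem' := by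
      change ρ 1 * δ * (ρ 1)⁻¹ * δ⁻¹ ∈ D
      rw [map_one, one_mul, inv_one, mul_one, mul_inv_cancel]
      exact D.one_mem
    mul_mem' := by
      intro a b ha hb
      change ρ a * δ * (ρ a)⁻¹ * δ⁻¹ ∈ D at ha
      change ρ b * δ * (ρ b)⁻¹ * δ⁻¹ ∈ D at hb
      change ρ (a * b) * δ * (ρ (a * b))⁻¹ * δ⁻¹ ∈ D
      have h1 : ρ (a * b) * δ * (ρ (a * b))⁻¹ * δ⁻¹ =
          ρ a * (ρ b * δ * (ρ b)⁻¹ * δ⁻¹) * (ρ a)⁻¹ * (ρ a * δ * (ρ a)⁻¹ * δ⁻¹) := by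
        rw [map_mul]
        group
      rw [h1]
      exact D.mul_mem (hD a _ hb) ha
    inv_mem' := by
      intro a ha
      change ρ a * δ * (ρ a)⁻¹ * δ⁻¹ ∈ D at ha
      change ρ a⁻¹ * δ * (ρ a⁻¹)⁻¹ * δ⁻¹ ∈ D
      have h1 : ρ a⁻¹ * δ * (ρ a⁻¹)⁻¹ * δ⁻¹ =
          (ρ a⁻¹ * (ρ a * δ * (ρ a)⁻¹ * δ⁻¹) * (ρ a⁻¹)⁻¹)⁻¹ := by
        rw [map_inv]
        group
      rw [h1]
      exact D.inv_mem (hD a⁻¹ _ ha) }
  have hC : ∀ l, ρ l * δ * (ρ l)⁻¹ * δ⁻¹ ∈ D := by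
    have h1 : commutator L ≤ C := by
      rw [commutator_def, Subgroup.commutator_le]
      intro a _ b _
      change ρ ⁅a, b⁆ * δ * (ρ ⁅a, b⁆)⁻¹ * δ⁻¹ ∈ D
      obtain ⟨d, hd, hd'⟩ := hab a⁻¹ b⁻¹
      obtain ⟨d₂, hd₂, hd₂'⟩ := hab b⁻¹ a⁻¹
      rw [mul_comm (n b⁻¹)] at hd₂'
      have h2 : ρ ⁅a, b⁆ * δ * (ρ ⁅a, b⁆)⁻¹ =
          ρ (a * b) * (ρ (a⁻¹ * b⁻¹) * δ * (ρ (a⁻¹ * b⁻¹))⁻¹) * (ρ (a * b))⁻¹ := by
        have h3 : ⁅a, b⁆ = a * b * (a⁻¹ * b⁻¹) := by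
          rw [commutatorElement_def]
          group
        rw [h3, map_mul ρ (a * b)]
        group
      have h4 : ρ (a⁻¹ * b⁻¹) * δ * (ρ (a⁻¹ * b⁻¹))⁻¹ =
          d * d₂⁻¹ * ((ρ (a * b))⁻¹ * δ * ρ (a * b)) := by
        have h5 : (ρ (a * b))⁻¹ * δ * ρ (a * b) = ρ (b⁻¹ * a⁻¹) * δ * (ρ (b⁻¹ * a⁻¹))⁻¹ := by
          rw [← mul_inv_rev a b, map_inv, inv_inv]
        rw [h5, hd₂', hd']
        group
      rw [h2, h4]
      have h6 : ρ (a * b) * (d * d₂⁻¹ * ((ρ (a * b))⁻¹ * δ * ρ (a * b))) * (ρ (a * b))⁻¹ * δ⁻¹ =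
          ρ (a * b) * (d * d₂⁻¹) * (ρ (a * b))⁻¹ := by
        group
      rw [h6]
      exact hD _ _ (D.mul_mem hd (D.inv_mem hd₂))
    rw [hperf] at h1
    exact fun l => h1 (Subgroup.mem_top l)
  obtain ⟨i, d, hd, rfl⟩ := hspan u hu
  have h1 : Commute (ρ l * δ * (ρ l)⁻¹ * δ⁻¹) δ := hc _ (hDU (hC l)) _ hδ
  have h2 : ρ l * (d * δ ^ i) * (ρ l)⁻¹ * (d * δ ^ i)⁻¹ =
      ρ l * d * (ρ l)⁻¹ * (ρ l * δ * (ρ l)⁻¹ * δ⁻¹) ^ i * d⁻¹ := by
    calc ρ l * (d * δ ^ i) * (ρ l)⁻¹ * (d * δ ^ i)⁻¹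
        = ρ l * d * (ρ l)⁻¹ * (ρ l * δ ^ i * (ρ l)⁻¹) * (δ ^ i)⁻¹ * d⁻¹ := by group
      _ = ρ l * d * (ρ l)⁻¹ * ((ρ l * δ * (ρ l)⁻¹ * δ⁻¹) * δ) ^ i * (δ ^ i)⁻¹ * d⁻¹ := by
        rw [inv_mul_cancel_right, conj_pow]
      _ = ρ l * d * (ρ l)⁻¹ * (ρ l * δ * (ρ l)⁻¹ * δ⁻¹) ^ i * d⁻¹ := by
        rw [h1.mul_pow, ← mul_assoc _ _ (δ ^ i), mul_inv_cancel_right]
  rw [h2]
  exact D.mul_mem (D.mul_mem (hD l d hd) (D.pow_mem (hC l) i)) (D.inv_mem hd)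

/-- conjugation of subgroups -/
private def cjg {G : Type} [Group G] : G →* Perm (Subgroup G) :=
  MonoidHom.toHomPerm
    { toFun := fun g D => D.map (MulAut.conj g).toMonoidHom
      map_one' := by
        funext D
        rw [map_one]
        exact Subgroup.map_id D
      map_mul' := fun g g' => by
        funext D
        rw [map_mul]
        exact (Subgroup.map_map D (MulAut.conj g).toMonoidHom (MulAut.conj g').toMonoidHom).symm }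

private theorem mem_cjg {G : Type} [Group G] {g : G} {D : Subgroup G} {x : G} :
    x ∈ cjg g D ↔ g⁻¹ * x * g ∈ D := by
  have h1 : cjg g D = D.map (MulAut.conj g).toMonoidHom := rfl
  rw [h1, Subgroup.mem_map]
  constructor
  · rintro ⟨y, hy, rfl⟩
    have h2 : g⁻¹ * ((MulAut.conj g).toMonoidHom y) * g = y := by
      change g⁻¹ * (g * y * g⁻¹) * g = y
      group
    rwa [h2]
  · intro h
    refine ⟨_, h, ?_⟩
    change g * (g⁻¹ * x * g) * g⁻¹ = x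
    group

private theorem card_cjg {G : Type} [Group G] (g : G) (D : Subgroup G) :
    Nat.card (cjg g D) = Nat.card D :=
  Subgroup.card_map_of_injective (MulAut.conj g).injective

/-- the properties of `exists_dual` -/
private structure Gdu {V : Type} [CommGroup V] (r : ℕ) (U D : Subgroup (MulAut V))
    (g : MulAut V) (v : V) : Prop where
  le : D ≤ U
  mem : g ∈ U
  fix : ∀ d ∈ D, d v = v
  nrm : ∏ i ∈ Finset.range r, (g ^ i) v = 1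
  span : ∀ δ ∈ U, δ ∉ D → ∀ u ∈ U, ∃ (i : ℕ) (d : MulAut V), d ∈ D ∧ u = d * δ ^ i

private theorem Gdu.conj {V : Type} [CommGroup V] {r : ℕ} {U D : Subgroup (MulAut V)}
    {g : MulAut V} {v : V} (h : Gdu r U D g v) {s : MulAut V} (hs : ∀ u ∈ U, s * u * s⁻¹ ∈ U)
    (hs' : ∀ u ∈ U, s⁻¹ * u * s ∈ U) : Gdu r U (cjg s D) (s * g * s⁻¹) (s v) where
  le := fun x hx => by
    have h1 := hs _ (h.le (mem_cjg.1 hx))
    have h2 : s * (s⁻¹ * x * s) * s⁻¹ = x := by group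
    rwa [h2] at h1
  mem := hs g h.mem
  fix := fun d hd => by
    have h1 := h.fix _ (mem_cjg.1 hd)
    have h2 : s ((s⁻¹ * d * s) v) = d (s v) := by
      change s (s⁻¹ (d (s v))) = d (s v)
      exact MulEquiv.apply_symm_apply s _
    rw [← h2, h1]
  nrm := by
    have h1 : ∀ i ∈ Finset.range r, ((s * g * s⁻¹) ^ i) (s v) = s ((g ^ i) v) := by
      intro i _
      rw [conj_pow]
      change s ((g ^ i) (s⁻¹ (s v))) = _
      congr 2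
      exact MulEquiv.symm_apply_apply s v
    rw [Finset.prod_congr rfl h1, ← map_prod, h.nrm, map_one]
  span := fun δ hδ hδD u hu => by
    obtain ⟨i, d, hd, hid⟩ := h.span _ (hs' δ hδ) (fun h1 => hδD (mem_cjg.2 h1)) _ (hs' u hu)
    refine ⟨i, s * d * s⁻¹, mem_cjg.2 ?_, ?_⟩
    · have h1 : s⁻¹ * (s * d * s⁻¹) * s = d := by group
      rwa [h1]
    · have h1 : u = s * (s⁻¹ * u * s) * s⁻¹ := by group
      have h2 : (s⁻¹ * δ * s) ^ i = s⁻¹ * δ ^ i * s := by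
        have h3 := conj_pow (i := i) (a := s⁻¹) (b := δ)
        rwa [inv_inv] at h3
      rw [h1, hid, h2]
      group

variable {Γ L : Type} [Group Γ] [Group L] [Fintype Γ] [DecidableEq Γ] {k : ℕ}

theorem Vp.good_abelian [Finite L] {q : ℕ} (hq : q.Prime) {c : Cov Γ L k}
    (hperf : commutator L = ⊤) (hQN : QNil q c.π.ker) (hk : kb Γ ≤ k)
    {V : Type} [CommGroup V] [Finite V] (S : Vp q c V) (U : Subgroup (MulAut V))
    (hU : U ≤ c.π.ker.map S.ρ) (hc : ∀ u ∈ U, ∀ u' ∈ U, Commute u u')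
    (hA : ∀ g, ∀ u ∈ U, S.ρ g * u * (S.ρ g)⁻¹ ∈ U)
    (hΓ : ∀ h, ∀ u ∈ U, S.fV h * u * (S.fV h)⁻¹ ∈ U)
    (hnc : ∃ u ∈ U, ∃ g, ¬ Commute u (S.ρ g)) : S.Good := by
  classical
  have hfin : Finite (MulAut V) :=
    Finite.of_injective (fun s : MulAut V => (s : V → V)) DFunLike.coe_injective
  obtain ⟨r, hr, hrU, u, hu, l, hl⟩ := Ga_r hperf S.ρ U hc hA hnc
  have hrc : r.Coprime q :=
    Nat.Coprime.coprime_dvd_left (hrU.trans (Subgroup.card_dvd_of_le hU)) S.cop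
  have hrq : r ≠ q := fun h => by
    rw [h, Nat.coprime_self] at hrc
    exact hq.one_lt.ne' hrc
  obtain ⟨U₁, hU₁⟩ : ∃ U₁, U₁ = gom U hc r := ⟨_, rfl⟩
  have hU₁U : ∀ x ∈ U₁, x ∈ U := fun x hx => by
    rw [hU₁] at hx
    exact hx.1
  have hU₁r : ∀ x ∈ U₁, x ^ r = 1 := fun x hx => by
    rw [hU₁] at hx
    exact hx.2
  have hc₁ : ∀ x ∈ U₁, ∀ y ∈ U₁, Commute x y := fun x hx y hy => hc x (hU₁U x hx) y (hU₁U y hy)
  have hA₁ : ∀ g, ∀ x ∈ U₁, S.ρ g * x * (S.ρ g)⁻¹ ∈ U₁ := by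
    intro g x hx
    rw [hU₁] at hx ⊢
    exact gom_conj (hA g) hx
  have hA₁' : ∀ g, ∀ x ∈ U₁, (S.ρ g)⁻¹ * x * S.ρ g ∈ U₁ := by
    intro g x hx
    have h1 := hA₁ g⁻¹ x hx
    rwa [map_inv, inv_inv] at h1
  have hΓ₁ : ∀ h, ∀ x ∈ U₁, S.fV h * x * (S.fV h)⁻¹ ∈ U₁ := by
    intro g x hx
    rw [hU₁] at hx ⊢
    exact gom_conj (hΓ g) hx
  have hΓ₁' : ∀ h, ∀ x ∈ U₁, (S.fV h)⁻¹ * x * S.fV h ∈ U₁ := by
    intro g x hx
    have h1 := hΓ₁ g⁻¹ x hx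
    rwa [map_inv, inv_inv] at h1
  rw [← hU₁] at hu
  have hgU : S.ρ l * u * (S.ρ l)⁻¹ * u⁻¹ ∈ U₁ := U₁.mul_mem (hA₁ l u hu) (U₁.inv_mem hu)
  obtain ⟨D, hDU, hgD, ⟨v₀, hv₀, hDv₀, hgv₀⟩, hspan⟩ :=
    exists_dual hq hr hrq S.exp hU₁r hc₁ hgU hl
  have hdu : Gdu r U₁ D (S.ρ l * u * (S.ρ l)⁻¹ * u⁻¹) v₀ := ⟨hDU, hgU, hDv₀, hgv₀, hspan⟩
  -- a conjugate of `D` with trivial stabilizer
  obtain ⟨g₁, hg₁⟩ := reg_pt hq c hperf hQN hk (cjg.comp S.ρ) (cjg.comp S.fV) (x₀ := D)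
    (fun h g => by
      rw [MonoidHom.comp_apply, S.compat, map_mul, map_mul, map_inv]
      rfl)
    (by
      by_contra hcon
      push Not at hcon
      apply hgD
      refine Ga_cyc hperf S.ρ hDU hc₁ hA₁ ?_ hgU (hspan _ hgU hgD) l hu
      intro g d hd
      have h1 : cjg (S.ρ g) D = D := hcon g
      rw [← h1, mem_cjg]
      have h2 : (S.ρ g)⁻¹ * (S.ρ g * d * (S.ρ g)⁻¹) * S.ρ g = d := by group
      rwa [h2])
  have hdu₁ := hdu.conj (hA₁ g₁) (hA₁' g₁)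
  obtain ⟨D', hD'⟩ : ∃ D', D' = cjg (S.ρ g₁) D := ⟨_, rfl⟩
  obtain ⟨g', hg'⟩ : ∃ g', g' = S.ρ g₁ * (S.ρ l * u * (S.ρ l)⁻¹ * u⁻¹) * (S.ρ g₁)⁻¹ := ⟨_, rfl⟩
  obtain ⟨v, hv⟩ : ∃ v, v = S.ρ g₁ v₀ := ⟨_, rfl⟩
  rw [← hD', ← hg', ← hv] at hdu₁
  have hv1 : v ≠ 1 := by
    rw [hv]
    intro h
    exact hv₀ ((MulEquiv.map_eq_one_iff _).1 h)
  have hne : ∀ h, h ≠ 1 → cjg (S.fV h) D' ≠ D' := by
    intro h hh h1
    apply hh
    apply hg₁
    rw [hD'] at h1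
    exact h1
  have hdu₂ : ∀ h, Gdu r U₁ (cjg (S.fV h) D') (S.fV h * g' * (S.fV h)⁻¹) (S.fV h v) :=
    fun h => hdu₁.conj (hΓ₁ h) (hΓ₁' h)
  have hlift : ∀ x ∈ U₁, ∃ y, S.ρ y = x := by
    intro x hx
    obtain ⟨y, -, hy⟩ := hU (hU₁U x hx)
    exact ⟨y, hy⟩
  have hδ : ∀ h, ∃ y : L, h ≠ 1 → S.ρ y ∈ cjg (S.fV h) D' ∧ S.ρ y ∉ D' := by
    intro h
    by_cases hh : h = 1
    · exact ⟨1, fun h' => absurd hh h'⟩
    · obtain ⟨x, hx, hx'⟩ : ∃ x ∈ cjg (S.fV h) D', x ∉ D' := by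
        by_contra hcon
        push Not at hcon
        exact hne h hh (Subgroup.eq_of_le_of_card_ge hcon (card_cjg _ _).ge)
      obtain ⟨y, rfl⟩ := hlift x ((hdu₂ h).le hx)
      exact ⟨y, fun _ => ⟨hx, hx'⟩⟩
  have hε : ∀ h, ∃ y : L, S.ρ y ∈ D' ∧ (h ≠ 1 → S.ρ y ∉ cjg (S.fV h) D') := by
    intro h
    by_cases hh : h = 1
    · refine ⟨1, ?_, fun h' => absurd hh h'⟩
      rw [map_one]
      exact D'.one_mem
    · obtain ⟨x, hx, hx'⟩ : ∃ x ∈ D', x ∉ cjg (S.fV h) D' := by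
        by_contra hcon
        push Not at hcon
        exact hne h hh (Subgroup.eq_of_le_of_card_ge hcon (card_cjg _ _).le).symm
      obtain ⟨y, rfl⟩ := hlift x (hdu₁.le hx)
      exact ⟨y, hx, fun _ => hx'⟩
  choose δ hδ using hδ
  choose ε hε hε' using hε
  refine S.good_of hq hv1 δ ε (fun _ => r) (fun _ _ => hrc) ?_ ?_ ?_ ?_ ?_
  · intro h hh
    exact (hdu₂ h).fix _ (hδ h hh).1
  · intro h hh
    have hm : S.ρ (δ h) ∈ U₁ := (hdu₂ h).le (hδ h hh).1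
    have h1 := norm_triv hq hr hrq S.exp hU₁r hc₁ hdu₁.mem hdu₁.le hdu₁.fix hdu₁.nrm hm
      (hdu₁.span _ hm (hδ h hh).2)
    simp only [map_pow]
    exact h1
  · intro h hh
    exact hdu₁.fix _ (hε h)
  · intro h hh
    have hm : S.ρ (ε h) ∈ U₁ := hdu₁.le (hε h)
    have h1 := norm_triv hq hr hrq S.exp hU₁r hc₁ (hdu₂ h).mem (hdu₂ h).le (hdu₂ h).fix
      (hdu₂ h).nrm hm ((hdu₂ h).span _ hm (hε' h hh))
    simp only [map_pow]
    exact h1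
  · intro h h' _ _
    exact hc₁ _ (hdu₁.le (hε h)) _ (hdu₁.le (hε h'))

end Pool.Agent.Lib.MP_b9166b_al.Aq
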