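import Mathlib

/-!
# MP_b9166b_al, PRIME POWER, regular case: a linear lemma

`V` is a finite abelian group of exponent `q`, `r ≠ q` a prime, `W` a subgroup of `V` invariant
under the automorphisms `y h`, `n h`, `z h` (`h : T`). The `y h` commute, `y h ^ r = 1`, `n h`
commutes with `y h'` for `h' ≠ h`, and `n h * y h * (n h)⁻¹ = z h * y h`, where `z h` is of order
`r`, commutes with everything, and has no fixed points `≠ 1` in `W`. Then for `h₀ : T` there is
`v ∈ W`, `v ≠ 1`, fixed by `y h` for all `h ≠ h₀`, whose norm under `y h₀` is trivial.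

Proof. Let `W'` be a subgroup of `W`, `≠ ⊥`, invariant under `y h`, `n h`, `z h` (one `h`). Then
`W'` contains `w ≠ 1` fixed by `y h`: write `W'` additively, a vector space over `ZMod q`, and let
`P u = ∑ i < r, y h ^ i u`. The element `P u` is fixed by `y h`. Now
`∑ i < r, (n h) ^ i P ((n h)⁻¹ ^ i u) = ∑ j < r, ∑ i < r, (z h) ^ (i j) (y h) ^ j u = r • u`, since
`∑ i < r, (z h) ^ (i j) u' = 0` for `u' ∈ W` and `0 < j < r` (it is fixed by `(z h) ^ j`, and `z h`
is a power of `(z h) ^ j`). So some `P ((n h)⁻¹ ^ i u)` is not `0` if `u ≠ 0`.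
For a finite set `T'` not containing `h₀` let `W' T'` be the group of the elements of `W` fixed by
all `y h`, `h ∈ T'`. It is invariant under `y h`, `n h`, `z h` for `h ∉ T'`. By induction on `T'` it is
not trivial. Let `W'` be the one for `T' =` all elements `≠ h₀`. If `y h₀` acts trivially on it
then so does `n h₀ * y h₀ * (n h₀)⁻¹ = z h₀ * y h₀`, so `z h₀`, a contradiction. So there is
`w ∈ W'` with `y h₀ w ≠ w`, and `v = y h₀ w * w⁻¹` has the required properties.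
-/

set_option autoImplicit false

namespace Pool.Agent.Lib.MP_b9166b_al.Aq

/-- a finite group which is invariant under `n` is invariant under the inverse of `n` -/
private theorem ex_inv {V : Type} [CommGroup V] [Finite V] (W : Subgroup V) (n : MulAut V)
    (hn : ∀ w ∈ W, n w ∈ W) : ∀ w ∈ W, n⁻¹ w ∈ W := by
  intro w hw
  let f : W → W := fun w => ⟨n w, hn w w.2⟩
  have hf : Function.Injective f := by
    intro a b hab
    exact Subtype.ext (n.injective (congrArg Subtype.val hab))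
  obtain ⟨w', hw'⟩ := (Finite.injective_iff_surjective.1 hf) ⟨w, hw⟩
  have h1 : n w' = w := congrArg Subtype.val hw'
  rw [← h1, MulAut.inv_apply_self]
  exact w'.2

private theorem ex_pow {V : Type} [CommGroup V] (W : Subgroup V) (n : MulAut V)
    (hn : ∀ w ∈ W, n w ∈ W) (i : ℕ) : ∀ w ∈ W, (n ^ i) w ∈ W := by
  induction i with
  | zero =>
    intro w hw
    exact hw
  | succ i ih =>
    intro w hw
    rw [pow_succ', MulAut.mul_apply]
    exact hn _ (ih w hw)

/-- the norm is fixed -/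
private theorem ex_fix {V : Type} [CommGroup V] {r : ℕ} (y : MulAut V) (hy : y ^ r = 1) (u : V) :
    y (∏ i ∈ Finset.range r, (y ^ i) u) = ∏ i ∈ Finset.range r, (y ^ i) u := by
  rw [map_prod]
  have h1 : ∀ i ∈ Finset.range r, y ((y ^ i) u) = (y ^ (i + 1)) u := by
    intro i _
    rw [pow_succ', MulAut.mul_apply]
  rw [Finset.prod_congr rfl h1]
  have h2 := Finset.prod_range_succ' (fun i => (y ^ i) u) r
  rw [Finset.prod_range_succ, hy, pow_zero] at h2
  exact (mul_right_cancel h2).symm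

/-- fixed points of one of the automorphisms -/
private theorem ex_one {V : Type} [CommGroup V] [Finite V] {q r : ℕ} (hq : q.Prime)
    (hr : r.Prime) (hrq : r ≠ q) (hV : ∀ v : V, v ^ q = 1) (W : Subgroup V)
    (y n z : MulAut V) (hWy : ∀ w ∈ W, y w ∈ W) (hWn : ∀ w ∈ W, n w ∈ W)
    (hWz : ∀ w ∈ W, z w ∈ W) (hyr : y ^ r = 1) (hzr : z ^ r = 1)
    (hnyz : n * y * n⁻¹ = z * y) (hzy : Commute z y)
    (hzn : Commute z n) (hzW : ∀ w ∈ W, z w = w → w = 1)
    (hW1 : ∃ w ∈ W, w ≠ 1) : ∃ w ∈ W, w ≠ 1 ∧ y w = w := by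
  obtain ⟨u, hu, hu1⟩ := hW1
  by_contra hc
  push Not at hc
  have hP : ∀ w ∈ W, ∏ i ∈ Finset.range r, (y ^ i) w = 1 := by
    intro w hw
    by_contra h1
    exact hc _ (W.prod_mem fun i _ => ex_pow W y hWy i w hw) h1 (ex_fix y hyr w)
  -- conjugation
  have hconj : ∀ i : ℕ, n ^ i * y * (n ^ i)⁻¹ = z ^ i * y := by
    intro i
    induction i with
    | zero => simp
    | succ i ih =>
      have h1 : n ^ (i + 1) * y * (n ^ (i + 1))⁻¹ = n * (n ^ i * y * (n ^ i)⁻¹) * n⁻¹ := by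
        rw [pow_succ']
        group
      have h2 : n * z ^ i = z ^ i * n := (hzn.symm.pow_right i).eq
      rw [h1, ih, ← mul_assoc, h2, mul_assoc (z ^ i), mul_assoc (z ^ i), hnyz, ← mul_assoc,
        ← pow_succ]
  have hconj2 : ∀ i j : ℕ, n ^ i * y ^ j * (n ^ i)⁻¹ = z ^ (i * j) * y ^ j := by
    intro i j
    have h1 : n ^ i * y ^ j * (n ^ i)⁻¹ = (n ^ i * y * (n ^ i)⁻¹) ^ j := (conj_pow ..).symm
    rw [h1, hconj, (hzy.pow_left i).mul_pow, ← pow_mul]
  -- the double product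
  have h1 : ∏ i ∈ Finset.range r, ∏ j ∈ Finset.range r, (z ^ (i * j)) ((y ^ j) u) = 1 := by
    refine Finset.prod_eq_one fun i _ => ?_
    have h2 : ∀ j ∈ Finset.range r, (z ^ (i * j)) ((y ^ j) u) =
        (n ^ i) ((y ^ j) ((n ^ i)⁻¹ u)) := by
      intro j _
      rw [← MulAut.mul_apply, ← hconj2]
      rfl
    rw [Finset.prod_congr rfl h2, ← map_prod, hP, map_one]
    rw [← inv_pow]
    exact ex_pow W _ (ex_inv W n hWn) i u hu
  rw [Finset.prod_comm] at h1
  have h3 : ∀ j ∈ Finset.range r, j ≠ 0 →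
      ∏ i ∈ Finset.range r, (z ^ (i * j)) ((y ^ j) u) = 1 := by
    intro j hj hj0
    rw [Finset.mem_range] at hj
    have hmem : ∏ i ∈ Finset.range r, (z ^ (i * j)) ((y ^ j) u) ∈ W :=
      W.prod_mem fun i _ => ex_pow W z hWz _ _ (ex_pow W y hWy j u hu)
    refine hzW _ hmem ?_
    have h4 : ∀ i ∈ Finset.range r, (z ^ (i * j)) ((y ^ j) u) = ((z ^ j) ^ i) ((y ^ j) u) := by
      intro i _
      rw [← pow_mul, mul_comm]
    rw [Finset.prod_congr rfl h4]
    have hzj : (z ^ j) ^ r = 1 := by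
      rw [← pow_mul, mul_comm, pow_mul, hzr, one_pow]
    set N := ∏ i ∈ Finset.range r, ((z ^ j) ^ i) ((y ^ j) u)
    have h5 : (z ^ j) N = N := ex_fix (z ^ j) hzj _
    have h6 : ∀ k : ℕ, ((z ^ j) ^ k) N = N := by
      intro k
      induction k with
      | zero => rfl
      | succ k ih => rw [pow_succ', MulAut.mul_apply, ih, h5]
    have hco : Nat.Coprime j r :=
      ((Nat.Prime.coprime_iff_not_dvd hr).2 fun h => absurd (Nat.le_of_dvd (Nat.pos_of_ne_zero hj0) h)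
        (not_le.2 hj)).symm
    obtain ⟨k, -, hk⟩ := Nat.exists_mul_mod_eq_one_of_coprime hco hr.one_lt
    have h7 : (z ^ j) ^ k = z := by
      rw [← pow_mul, ← Nat.div_add_mod (j * k) r, hk, pow_add, pow_mul, hzr, one_pow, one_mul,
        pow_one]
    have h8 := h6 k
    rw [h7] at h8
    exact h8
  have h9 := Finset.prod_eq_single_of_mem (f := fun j => ∏ i ∈ Finset.range r,
    (z ^ (i * j)) ((y ^ j) u)) 0 (Finset.mem_range.2 hr.pos) h3
  rw [h1] at h9
  have h10 : u ^ r = 1 := by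
    have h11 : ∏ i ∈ Finset.range r, (z ^ (i * 0)) ((y ^ 0) u) = u ^ r := by
      simp
    rw [← h11]
    exact h9.symm
  have h12 : u ^ Nat.gcd r q = 1 := by
    exact pow_gcd_eq_one.2 ⟨h10, hV u⟩
  rw [(Nat.coprime_primes hr hq).2 hrq, pow_one] at h12
  exact hu1 h12

theorem exists_v {V T : Type} [CommGroup V] [Finite V] [Finite T] {q r : ℕ} (hq : q.Prime)
    (hr : r.Prime) (hrq : r ≠ q) (hV : ∀ v : V, v ^ q = 1) (W : Subgroup V)
    (y n z : T → MulAut V) (hWy : ∀ h, ∀ w ∈ W, y h w ∈ W) (hWn : ∀ h, ∀ w ∈ W, n h w ∈ W)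
    (hWz : ∀ h, ∀ w ∈ W, z h w ∈ W) (hyr : ∀ h, y h ^ r = 1) (hzr : ∀ h, z h ^ r = 1)
    (hyy : ∀ h h', Commute (y h) (y h')) (hny : ∀ h h', h ≠ h' → Commute (n h) (y h'))
    (hnyz : ∀ h, n h * y h * (n h)⁻¹ = z h * y h) (hzy : ∀ h h', Commute (z h) (y h'))
    (hzn : ∀ h h', Commute (z h) (n h')) (hzW : ∀ h, ∀ w ∈ W, z h w = w → w = 1)
    (hW1 : ∃ w ∈ W, w ≠ 1) (h₀ : T) :
    ∃ v ∈ W, v ≠ 1 ∧ (∀ h, h ≠ h₀ → y h v = v) ∧ ∏ i ∈ Finset.range r, (y h₀ ^ i) v = 1 := by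
  classical
  have := Fintype.ofFinite T
  have hcm : ∀ (f g : MulAut V), Commute f g → ∀ v, f (g v) = g (f v) := by
    intro f g hfg v
    rw [← MulAut.mul_apply, hfg.eq, MulAut.mul_apply]
  -- the fixed points
  let F : Finset T → Subgroup V := fun S =>
    { carrier := {w | w ∈ W ∧ ∀ h ∈ S, y h w = w}
      one_mem' := ⟨W.one_mem, fun h _ => map_one _⟩
      mul_mem' := fun {a b} ha hb => ⟨W.mul_mem ha.1 hb.1, fun h hh => by
        rw [map_mul, ha.2 h hh, hb.2 h hh]⟩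
      inv_mem' := fun {a} ha => ⟨W.inv_mem ha.1, fun h hh => by
        rw [map_inv, ha.2 h hh]⟩ }
  have hFm : ∀ S w, w ∈ F S ↔ w ∈ W ∧ ∀ h ∈ S, y h w = w := fun S w => Iff.rfl
  have hFy : ∀ S h, ∀ w ∈ F S, y h w ∈ F S := by
    intro S h w hw
    refine ⟨hWy h w hw.1, fun h' hh' => ?_⟩
    rw [hcm _ _ (hyy h' h), hw.2 h' hh']
  have hFz : ∀ S h, ∀ w ∈ F S, z h w ∈ F S := by
    intro S h w hw
    refine ⟨hWz h w hw.1, fun h' hh' => ?_⟩
    rw [hcm _ _ (hzy h h').symm, hw.2 h' hh']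
  have hFn : ∀ S h, h ∉ S → ∀ w ∈ F S, n h w ∈ F S := by
    intro S h hS w hw
    refine ⟨hWn h w hw.1, fun h' hh' => ?_⟩
    have hne : h ≠ h' := by
      rintro rfl
      exact hS hh'
    rw [hcm _ _ (hny h h' hne).symm, hw.2 h' hh']
  have hF1 : ∀ S, ∃ w ∈ F S, w ≠ 1 := by
    intro S
    induction S using Finset.induction_on with
    | empty =>
      obtain ⟨w, hw, hw1⟩ := hW1
      exact ⟨w, ⟨hw, fun h hh => absurd hh (Finset.notMem_empty h)⟩, hw1⟩
    | insert h S hS ih =>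
      obtain ⟨w, hw, hw1, hwy⟩ := ex_one hq hr hrq hV (F S) (y h) (n h) (z h) (hFy S h)
        (hFn S h hS) (hFz S h) (hyr h) (hzr h) (hnyz h) (hzy h h) (hzn h h)
        (fun w hw => hzW h w hw.1) ih
      refine ⟨w, ⟨hw.1, fun h' hh' => ?_⟩, hw1⟩
      rcases Finset.mem_insert.1 hh' with rfl | h1
      · exact hwy
      · exact hw.2 h' h1
  set S₀ : Finset T := Finset.univ.erase h₀
  have hS₀ : h₀ ∉ S₀ := Finset.notMem_erase _ _
  have hex : ∃ w ∈ F S₀, y h₀ w ≠ w := by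
    by_contra hc
    push Not at hc
    obtain ⟨w, hw, hw1⟩ := hF1 S₀
    have h1 : (n h₀)⁻¹ w ∈ F S₀ := ex_inv (F S₀) (n h₀) (hFn S₀ h₀ hS₀) w hw
    have h2 : (n h₀ * y h₀ * (n h₀)⁻¹) w = w := by
      rw [MulAut.mul_apply, MulAut.mul_apply, hc _ h1, MulAut.apply_inv_self]
    rw [hnyz, MulAut.mul_apply, hc w hw] at h2
    exact hw1 (hzW h₀ w hw.1 h2)
  obtain ⟨w, hw, hwy⟩ := hex
  refine ⟨y h₀ w * w⁻¹, W.mul_mem (hWy h₀ w hw.1) (W.inv_mem hw.1), ?_, ?_, ?_⟩
  · rw [Ne, mul_inv_eq_one]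
    exact hwy
  · intro h hh
    have h1 : y h w = w := hw.2 h (Finset.mem_erase.2 ⟨hh, Finset.mem_univ h⟩)
    rw [map_mul, map_inv, hcm _ _ (hyy h h₀), h1]
  · have h1 : ∀ i ∈ Finset.range r, (y h₀ ^ i) (y h₀ w * w⁻¹) =
        (y h₀ ^ (i + 1)) w / (y h₀ ^ i) w := by
      intro i _
      rw [map_mul, map_inv, pow_succ, MulAut.mul_apply, div_eq_mul_inv]
    rw [Finset.prod_congr rfl h1, Finset.prod_range_div (fun i => (y h₀ ^ i) w), hyr, pow_zero,
      div_self']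

end Pool.Agent.Lib.MP_b9166b_al.Aq
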