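import Pool.Agent.Lib.MP_b9166b_al.Aq.GeA
import Pool.Agent.Lib.MP_b9166b_al.Aq.Ex
import Pool.Agent.Lib.MP_b9166b_al.Aq.GoodOf
import Pool.Agent.Lib.MP_b9166b_al.Aq.Dq

/-!
# MP_b9166b_al, PRIME POWER, regular case: good vectors in the extra special case

Proof. Take `r`, `y`, `n`, `z₀` from `Vp.exists_extra`. Let `z h = fV h * z₀ * (fV h)⁻¹` and
`Z₁` the subgroup generated by the `z h`; it is contained in `ρ.range`, its elements commute with
`ρ.range`, satisfy `x ^ r = 1`, and it is normalized by the `fV h`. Take `D` and `v₀` from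
`exists_dual` for `Z₁` and `z₀`. Let
`W = {v | (∀ d ∈ D, d v = v) ∧ ∏ i < r, z₀ ^ i v = 1}`, a subgroup of `V` invariant under
`ρ.range`, not trivial. Let `T = {h // fV h D (fV h)⁻¹ = D}`, a subgroup of `Γ`,
`y h = ρ (c.φ h y)`, `n h = ρ (c.φ h n)`. If `h ∈ T` then `z h ∉ D` (as `z₀ ∉ D`); an element of `W`
fixed by `z h` is fixed by `D ⟨z h⟩ = Z₁`, so by `z₀`, and it is `1` since its norm under `z₀` is
its `r`-th power. Apply `exists_v` with `h₀ = 1`: this gives `v ∈ W`. Apply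
`Vp.good_of` with `r h = r` and
* for `h ∈ T`: `δ h = y`, `ε h = c.φ h y`. Indeed `ρ y (fV h v) = fV h (ρ (c.φ h⁻¹ y) v) = fV h v`, as
  `h⁻¹ ∈ T`, and `∏ i, ρ (ε h ^ i) (fV h v) = fV h (∏ i, ρ (y ^ i) v) = 1`.
* for `h ∉ T`: `δ h` a preimage of an element of `fV h D (fV h)⁻¹ ∖ D`, `ε h` a preimage of an
  element of `D ∖ fV h D (fV h)⁻¹` (the two groups have the same order); use `norm_triv` for
  `D`, `z₀`, `v` and for the conjugates of `D`, `z₀` by `fV h` and `fV h v`.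
All `ρ (ε h)` commute.
-/

set_option autoImplicit false

namespace Pool.Agent.Lib.MP_b9166b_al.Aq

open Equiv Equiv.Perm Rg

variable {Γ L : Type} [Group Γ] [Group L] [Fintype Γ] [DecidableEq Γ] {k : ℕ}

theorem Vp.good_extra [Finite L] {q : ℕ} (hq : q.Prime) {c : Cov Γ L k}
    (hperf : commutator L = ⊤) (hk : 38 ≤ k)
    {V : Type} [CommGroup V] [Finite V] (S : Vp q c V) (hker : ∀ g, S.ρ g = 1 → c.π g = 1)
    (hab : ∀ U : Subgroup (MulAut V), U ≤ c.π.ker.map S.ρ → (∀ u ∈ U, ∀ u' ∈ U, Commute u u') →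
      (∀ g, ∀ u ∈ U, S.ρ g * u * (S.ρ g)⁻¹ ∈ U) → (∀ h, ∀ u ∈ U, S.fV h * u * (S.fV h)⁻¹ ∈ U) →
      ∀ u ∈ U, ∀ g, Commute u (S.ρ g))
    (hnc : ∃ n, c.π n = 1 ∧ ∃ g, ¬ Commute (S.ρ n) (S.ρ g)) : S.Good := by
  classical
  obtain ⟨r, y, n, z₀, hr, hrq, hz1, hzr, hzN, hzc, hzhc, hyr, hyy, hny, hnyh⟩ :=
    S.exists_extra hq hperf hk hker hab hnc
  obtain ⟨g₀, -, hg₀⟩ := Subgroup.mem_map.1 hzN
  obtain ⟨z, hz⟩ : ∃ z : Γ → MulAut V, ∀ h, z h = S.fV h * z₀ * (S.fV h)⁻¹ := ⟨_, fun h => rfl⟩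
  have hzρ : ∀ h, z h = S.ρ (c.φ h g₀) := by
    intro h
    rw [hz, S.compat, hg₀]
  set Z₁ : Subgroup (MulAut V) := Subgroup.closure (Set.range z) with hZ₁
  have hZle : ∀ x ∈ Z₁, ∃ g, S.ρ g = x := by
    intro x hx
    have h1 : Z₁ ≤ S.ρ.range := by
      rw [hZ₁, Subgroup.closure_le]
      rintro _ ⟨h, rfl⟩
      exact ⟨_, (hzρ h).symm⟩
    exact h1 hx
  have hZc : ∀ x ∈ Z₁, ∀ g, Commute x (S.ρ g) := by
    intro x hx g
    have h1 : Z₁ ≤ Subgroup.centralizer ({S.ρ g} : Set (MulAut V)) := by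
      rw [hZ₁, Subgroup.closure_le]
      rintro _ ⟨h, rfl⟩
      rw [SetLike.mem_coe, Subgroup.mem_centralizer_singleton_iff, hz]
      exact (hzhc h g).eq
    exact Subgroup.mem_centralizer_singleton_iff.1 (h1 hx)
  have hZZ : ∀ u ∈ Z₁, ∀ u' ∈ Z₁, Commute u u' := by
    intro u hu u' hu'
    obtain ⟨g, rfl⟩ := hZle u' hu'
    exact hZc u hu g
  have hzhr : ∀ h, z h ^ r = 1 := by
    intro h
    rw [hz, conj_pow, hzr, mul_one, mul_inv_cancel]
  have hZr : ∀ u ∈ Z₁, u ^ r = 1 := by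
    intro u hu
    induction hu using Subgroup.closure_induction with
    | mem x hx =>
      obtain ⟨h, rfl⟩ := hx
      exact hzhr h
    | one => exact one_pow r
    | mul a b ha hb iha ihb => rw [(hZZ a ha b hb).mul_pow, iha, ihb, one_mul]
    | inv a ha iha => rw [inv_pow, iha, inv_one]
  have hZn : ∀ h, ∀ u ∈ Z₁, S.fV h * u * (S.fV h)⁻¹ ∈ Z₁ := by
    intro h u hu
    induction hu using Subgroup.closure_induction with
    | mem x hx =>
      obtain ⟨h', rfl⟩ := hx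
      have h1 : S.fV h * z h' * (S.fV h)⁻¹ = z (h * h') := by
        rw [hz, hz, map_mul, mul_inv_rev]
        group
      rw [h1]
      exact Subgroup.subset_closure ⟨_, rfl⟩
    | one =>
      rw [mul_one, mul_inv_cancel]
      exact Z₁.one_mem
    | mul a b ha hb iha ihb =>
      have h1 : S.fV h * (a * b) * (S.fV h)⁻¹ =
          (S.fV h * a * (S.fV h)⁻¹) * (S.fV h * b * (S.fV h)⁻¹) := by group
      rw [h1]
      exact Z₁.mul_mem iha ihb
    | inv a ha iha =>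
      have h1 : S.fV h * a⁻¹ * (S.fV h)⁻¹ = (S.fV h * a * (S.fV h)⁻¹)⁻¹ := by group
      rw [h1]
      exact Z₁.inv_mem iha
  have hz01 : z 1 = z₀ := by
    rw [hz, map_one, one_mul, inv_one, mul_one]
  have hz0 : z₀ ∈ Z₁ := by
    rw [← hz01]
    exact Subgroup.subset_closure ⟨_, rfl⟩
  obtain ⟨D, hDle, hgD, ⟨v₀, hv₀, hv₀D, hv₀z⟩, hspan⟩ :=
    exists_dual hq hr hrq S.exp hZr hZZ hz0 hz1
  -- the subgroup `W`
  let W : Subgroup V :=
    { carrier := {v | (∀ d ∈ D, d v = v) ∧ ∏ i ∈ Finset.range r, (z₀ ^ i) v = 1}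
      one_mem' := ⟨fun d _ => map_one d, Finset.prod_eq_one fun i _ => map_one _⟩
      mul_mem' := fun {a b} ha hb => ⟨fun d hd => by rw [map_mul, ha.1 d hd, hb.1 d hd], by
        have h1 : ∏ i ∈ Finset.range r, (z₀ ^ i) (a * b) =
            (∏ i ∈ Finset.range r, (z₀ ^ i) a) * ∏ i ∈ Finset.range r, (z₀ ^ i) b := by
          rw [← Finset.prod_mul_distrib]
          exact Finset.prod_congr rfl fun i _ => map_mul _ _ _
        rw [h1, ha.2, hb.2, one_mul]⟩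
      inv_mem' := fun {a} ha => ⟨fun d hd => by rw [map_inv, ha.1 d hd], by
        have h1 : ∏ i ∈ Finset.range r, (z₀ ^ i) a⁻¹ = (∏ i ∈ Finset.range r, (z₀ ^ i) a)⁻¹ := by
          rw [← Finset.prod_inv_distrib]
          exact Finset.prod_congr rfl fun i _ => map_inv _ _
        rw [h1, ha.2, inv_one]⟩ }
  have hcm : ∀ f g : MulAut V, Commute f g → ∀ v, f (g v) = g (f v) := by
    intro f g hfg v
    rw [← MulAut.mul_apply, hfg.eq, MulAut.mul_apply]
  have hWρ : ∀ g, ∀ w ∈ W, S.ρ g w ∈ W := by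
    intro g w hw
    refine ⟨fun d hd => ?_, ?_⟩
    · rw [hcm _ _ (hZc d (hDle hd) g), hw.1 d hd]
    · have h1 : ∏ i ∈ Finset.range r, (z₀ ^ i) (S.ρ g w) =
          S.ρ g (∏ i ∈ Finset.range r, (z₀ ^ i) w) := by
        rw [map_prod]
        exact Finset.prod_congr rfl fun i _ => hcm _ _ ((hzc g).pow_left i) w
      rw [h1, hw.2, map_one]
  have hWn : ∀ e ∈ Z₁, e ∉ D → ∀ w ∈ W, ∏ i ∈ Finset.range r, (e ^ i) w = 1 := by
    intro e he heD w hw
    exact norm_triv hq hr hrq S.exp hZr hZZ hz0 hDle hw.1 hw.2 he (hspan e he heD)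
  -- the stabilizer of `D`
  obtain ⟨P, hP⟩ : ∃ P : Γ → Prop, ∀ h, P h ↔ ∀ d ∈ D, S.fV h * d * (S.fV h)⁻¹ ∈ D :=
    ⟨_, fun h => Iff.rfl⟩
  have hfinM : Finite (MulAut V) := Finite.of_injective (fun f : MulAut V => (f : V → V))
    DFunLike.coe_injective
  have hPinv : ∀ h, P h → P h⁻¹ := by
    intro h h1
    rw [hP] at h1 ⊢
    let f : D → D := fun d => ⟨S.fV h * d * (S.fV h)⁻¹, h1 d d.2⟩
    have hf : Function.Injective f := by
      intro a b hab'
      have h2 : S.fV h * a * (S.fV h)⁻¹ = S.fV h * b * (S.fV h)⁻¹ := congrArg Subtype.val hab'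
      exact Subtype.ext (mul_left_cancel (mul_right_cancel h2))
    intro d hd
    obtain ⟨d', hd'⟩ := (Finite.injective_iff_surjective.1 hf) ⟨d, hd⟩
    have h2 : S.fV h * d' * (S.fV h)⁻¹ = d := congrArg Subtype.val hd'
    have h3 : S.fV h⁻¹ * d * (S.fV h⁻¹)⁻¹ = d' := by
      rw [← h2, map_inv]
      group
    rw [h3]
    exact d'.2
  have hP1 : P 1 := by
    rw [hP]
    intro d hd
    rw [map_one, one_mul, inv_one, mul_one]
    exact hd
  have hcj : ∀ h h' : Γ, ∀ g, S.ρ (c.φ h' g) =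
      S.fV h * S.ρ (c.φ (h⁻¹ * h') g) * (S.fV h)⁻¹ := by
    intro h h' g
    rw [S.compat, S.compat, map_mul, map_inv]
    group
  have hconjc : ∀ (f a b : MulAut V), Commute a b → Commute (f * a * f⁻¹) (f * b * f⁻¹) := by
    intro f a b hcab
    change f * a * f⁻¹ * (f * b * f⁻¹) = f * b * f⁻¹ * (f * a * f⁻¹)
    have h1 : f * a * f⁻¹ * (f * b * f⁻¹) = f * (a * b) * f⁻¹ := by group
    rw [h1, hcab.eq]
    group
  have hyyh : ∀ h h', Commute (S.ρ (c.φ h y)) (S.ρ (c.φ h' y)) := by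
    intro h h'
    rw [hcj h h', S.compat h y]
    exact hconjc _ _ _ (hyy _)
  have hnyhh : ∀ h h', h ≠ h' → Commute (S.ρ (c.φ h n)) (S.ρ (c.φ h' y)) := by
    intro h h' hne
    rw [hcj h h', S.compat h n]
    refine hconjc _ _ _ (hnyh _ fun h1 => hne ?_)
    rwa [inv_mul_eq_one] at h1
  -- the vector `v`
  obtain ⟨v, hvW, hv1, hvy, hvn⟩ := exists_v (T := {h : Γ // P h}) hq hr hrq S.exp W
    (fun h => S.ρ (c.φ h.1 y)) (fun h => S.ρ (c.φ h.1 n)) (fun h => z h.1)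
    (fun h => hWρ _) (fun h => hWρ _) (fun h => by
      rw [hzρ]
      exact hWρ _)
    (fun h => by rw [S.compat, conj_pow, hyr, mul_one, mul_inv_cancel])
    (fun h => hzhr _) (fun h h' => hyyh _ _)
    (fun h h' hne => hnyhh _ _ fun h1 => hne (Subtype.ext h1))
    (fun h => by
      rw [S.compat, S.compat, hz]
      have h1 : S.fV h.1 * S.ρ n * (S.fV h.1)⁻¹ * (S.fV h.1 * S.ρ y * (S.fV h.1)⁻¹) *
          (S.fV h.1 * S.ρ n * (S.fV h.1)⁻¹)⁻¹ =
          S.fV h.1 * (S.ρ n * S.ρ y * (S.ρ n)⁻¹) * (S.fV h.1)⁻¹ := by group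
      rw [h1, hny]
      group)
    (fun h h' => by
      rw [hz]
      exact hzhc _ _)
    (fun h h' => by
      rw [hz]
      exact hzhc _ _)
    (fun h w hw hzw => by
      have h1 : z h.1 ∉ D := by
        intro h2
        apply hgD
        have h3 := (hP _).1 (hPinv _ h.2) _ h2
        have h4 : S.fV h.1⁻¹ * z h.1 * (S.fV h.1⁻¹)⁻¹ = z₀ := by
          rw [hz, map_inv]
          group
        rwa [h4] at h3
      obtain ⟨i, d, hd, h2⟩ := hspan _ (Subgroup.subset_closure ⟨h.1, rfl⟩) h1 z₀ hz0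
      have h3 : ∀ i : ℕ, (z h.1 ^ i) w = w := by
        intro i
        induction i with
        | zero => rfl
        | succ i ih => rw [pow_succ', MulAut.mul_apply, ih, hzw]
      have h4 : z₀ w = w := by
        rw [h2, MulAut.mul_apply, h3, hw.1 d hd]
      have h5 : ∀ i : ℕ, (z₀ ^ i) w = w := by
        intro i
        induction i with
        | zero => rfl
        | succ i ih => rw [pow_succ', MulAut.mul_apply, ih, h4]
      have h6 := hw.2
      rw [Finset.prod_congr rfl fun i _ => h5 i, Finset.prod_const, Finset.card_range] at h6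
      have h7 : w ^ Nat.gcd r q = 1 := pow_gcd_eq_one.2 ⟨h6, S.exp w⟩
      rwa [(Nat.coprime_primes hr hq).2 hrq, pow_one] at h7)
    ⟨v₀, ⟨hv₀D, hv₀z⟩, hv₀⟩ ⟨1, hP1⟩
  have hvn' : ∏ i ∈ Finset.range r, (S.ρ y ^ i) v = 1 := by
    have h1 : S.ρ (c.φ 1 y) = S.ρ y := by
      rw [map_one, MulAut.one_apply]
    rw [← h1]
    exact hvn
  have hfe : ∀ (h : Γ) (e : MulAut V) (g : L), S.ρ g = S.fV h * e * (S.fV h)⁻¹ →
      ∏ i ∈ Finset.range r, (e ^ i) v = 1 →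
      ∏ i ∈ Finset.range r, S.ρ (g ^ i) (S.fV h v) = 1 := by
    intro h e g hge he
    have h1 : ∀ i ∈ Finset.range r, S.ρ (g ^ i) (S.fV h v) = S.fV h ((e ^ i) v) := by
      intro i _
      rw [map_pow, hge, conj_pow, MulAut.mul_apply, MulAut.mul_apply, MulAut.inv_apply_self]
    rw [Finset.prod_congr rfl h1, ← map_prod, he, map_one]
  have hex : ∀ h : Γ, ∃ δ ε : L, h ≠ 1 → (S.ρ δ (S.fV h v) = S.fV h v ∧
      ∏ i ∈ Finset.range r, S.ρ (δ ^ i) v = 1 ∧ S.ρ ε v = v ∧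
      ∏ i ∈ Finset.range r, S.ρ (ε ^ i) (S.fV h v) = 1 ∧ (ε = c.φ h y ∨ S.ρ ε ∈ Z₁)) := by
    intro h
    by_cases hT : P h
    · refine ⟨y, c.φ h y, fun hne => ⟨?_, ?_, ?_, ?_, Or.inl rfl⟩⟩
      · have h1 : S.ρ y = S.fV h * S.ρ (c.φ h⁻¹ y) * (S.fV h)⁻¹ := by
          rw [S.compat, map_inv]
          group
        have h2 : S.ρ (c.φ h⁻¹ y) v = v := hvy ⟨h⁻¹, hPinv h hT⟩ fun h3 =>
          hne (inv_eq_one.1 (congrArg Subtype.val h3))
        rw [h1, MulAut.mul_apply, MulAut.mul_apply, MulAut.inv_apply_self, h2]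
      · rw [Finset.prod_congr rfl fun i _ => by rw [map_pow]]
        exact hvn'
      · exact hvy ⟨h, hT⟩ fun h3 => hne (congrArg Subtype.val h3)
      · exact hfe h (S.ρ y) _ (S.compat h y) hvn'
    · have hT' : ¬ P h⁻¹ := fun h1 => hT (by simpa using hPinv _ h1)
      rw [hP] at hT hT'
      push Not at hT hT'
      obtain ⟨d, hd, h1⟩ := hT
      obtain ⟨d', hd', h2⟩ := hT'
      have h3 : S.fV h * d * (S.fV h)⁻¹ ∈ Z₁ := hZn h d (hDle hd)
      have h4 : S.fV h⁻¹ * d' * (S.fV h⁻¹)⁻¹ ∈ Z₁ := hZn h⁻¹ d' (hDle hd')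
      obtain ⟨δ, hδ⟩ := hZle _ h3
      obtain ⟨ε, hε⟩ := hZle _ (hDle hd')
      refine ⟨δ, ε, fun hne => ⟨?_, ?_, ?_, ?_, Or.inr ?_⟩⟩
      · rw [hδ, MulAut.mul_apply, MulAut.mul_apply, MulAut.inv_apply_self, hvW.1 d hd]
      · rw [Finset.prod_congr rfl fun i _ => by rw [map_pow, hδ]]
        exact hWn _ h3 h1 v hvW
      · rw [hε]
        exact hvW.1 d' hd'
      · refine hfe h _ ε ?_ (hWn _ h4 h2 v hvW)
        rw [hε, map_inv]
        group
      · rw [hε]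
        exact hDle hd'
  choose δ ε hδε using hex
  refine S.good_of hq hv1 δ ε (fun _ => r) (fun h _ => (Nat.coprime_primes hr hq).2 hrq)
    (fun h hne => (hδε h hne).1) (fun h hne => (hδε h hne).2.1)
    (fun h hne => (hδε h hne).2.2.1) (fun h hne => (hδε h hne).2.2.2.1) ?_
  intro h h' hne hne'
  rcases (hδε h hne).2.2.2.2 with h1 | h1
  · rcases (hδε h' hne').2.2.2.2 with h2 | h2
    · rw [h1, h2]
      exact hyyh h h'
    · exact (hZc _ h2 _).symm
  · exact hZc _ h1 _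

end Pool.Agent.Lib.MP_b9166b_al.Aq
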