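import Pool.Agent.Lib.MP_b9166b_al.Rg.BlkM

/-!
# MP_b9166b_al, PRIME POWER: a perfect group with a noncentral nilpotent kernel

`A` is a finite perfect group with a homomorphism `π` onto the alternating group of `Ω`, whose
kernel is nilpotent and not central. The group `M₀` of the elements of prime order `r` in the
centre of the image of the kernel in `A ⧸ center A` is a module for the alternating group; the
elements of `M₀` provided by a system of blocks are lifted to `A`.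
-/

set_option autoImplicit false

namespace Pool.Agent.Lib.MP_b9166b_al.Aq.Qc

open Equiv Equiv.Perm Rg

open scoped IsMulCommutative

variable {A Ω : Type} [Group A] (π : A →* Perm Ω)

/-- the image of the kernel in the quotient by the centre -/
def Pb : Subgroup (A ⧸ Subgroup.center A) := π.ker.map (QuotientGroup.mk' _)

/-- the elements of order `r` in the centre of the image of the kernel -/
def M₀ (r : ℕ) : Subgroup (A ⧸ Subgroup.center A) where
  carrier := {x | x ∈ Pb π ∧ (∀ y ∈ Pb π, y * x = x * y) ∧ x ^ r = 1}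
  one_mem' := ⟨(Pb π).one_mem, fun y _ => by rw [mul_one, one_mul], one_pow r⟩
  mul_mem' := by
    rintro a b ⟨ha, ha', ha''⟩ ⟨hb, hb', hb''⟩
    refine ⟨(Pb π).mul_mem ha hb, fun y hy => ?_, ?_⟩
    · rw [← mul_assoc, ha' y hy, mul_assoc, hb' y hy, mul_assoc]
    · have h : Commute a b := hb' a ha
      rw [h.mul_pow, ha'', hb'', one_mul]
  inv_mem' := by
    rintro a ⟨ha, ha', ha''⟩
    refine ⟨(Pb π).inv_mem ha, fun y hy => ?_, ?_⟩
    · have h : Commute y a := ha' y hy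
      exact h.inv_right.eq
    · rw [inv_pow, ha'', inv_one]

variable {π}

theorem Pb_normal : (Pb π).Normal :=
  Subgroup.Normal.map inferInstance _ (QuotientGroup.mk'_surjective _)

theorem M₀_normal (r : ℕ) : (M₀ π r).Normal := by
  refine ⟨?_⟩
  rintro x ⟨hx, hx', hx''⟩ g
  refine ⟨Pb_normal.conj_mem x hx g, fun y hy => ?_, ?_⟩
  · have h1 := hx' (g⁻¹ * y * g) (by
      have h2 := (Pb_normal (π := π)).conj_mem y hy g⁻¹
      rwa [inv_inv] at h2)
    calc y * (g * x * g⁻¹) = g * ((g⁻¹ * y * g) * x) * g⁻¹ := by group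
      _ = g * (x * (g⁻¹ * y * g)) * g⁻¹ := by rw [h1]
      _ = _ := by group
  · rw [conj_pow, hx'', mul_one, mul_inv_cancel]

theorem M₀_comm (r : ℕ) {a b : A ⧸ Subgroup.center A} (ha : a ∈ M₀ π r) (hb : b ∈ M₀ π r) :
    a * b = b * a := hb.2.1 a ha.1

variable (π) in
/-- the action on `M₀` -/
def ρL (r : ℕ) : A →* MulAut (M₀ π r) :=
  haveI := M₀_normal (π := π) r
  (MulAut.conjNormal (H := M₀ π r)).comp (QuotientGroup.mk' _)

theorem ρL_coe (r : ℕ) (g : A) (m : M₀ π r) :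
    ((ρL π r g m : M₀ π r) : A ⧸ Subgroup.center A) =
      QuotientGroup.mk' (Subgroup.center A) g * m * (QuotientGroup.mk' (Subgroup.center A) g)⁻¹ := by
  have := M₀_normal (π := π) r
  exact MulAut.conjNormal_apply _ _

variable [Fintype Ω] [DecidableEq Ω]

/-- the homomorphism to the alternating group -/
def πA (hr : π.range = alternatingGroup Ω) : A →* alternatingGroup Ω :=
  π.codRestrict (alternatingGroup Ω) fun g => by
    rw [← hr]
    exact ⟨g, rfl⟩

theorem πA_coe (hr : π.range = alternatingGroup Ω) (g : A) : (πA hr g : Perm Ω) = π g := rfl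

theorem πA_surjective (hr : π.range = alternatingGroup Ω) : Function.Surjective (πA hr) := by
  rintro ⟨σ, hσ⟩
  have hσ' := hσ
  rw [← hr] at hσ'
  obtain ⟨g, hg⟩ := hσ'
  exact ⟨g, Subtype.ext hg⟩

theorem ker_le_ρL (hr : π.range = alternatingGroup Ω) (r : ℕ) : (πA hr).ker ≤ (ρL π r).ker := by
  intro n hn
  rw [MonoidHom.mem_ker] at hn ⊢
  have h1 : n ∈ π.ker := by
    rw [MonoidHom.mem_ker, ← πA_coe hr, hn]
    rfl
  ext m
  rw [ρL_coe, MulAut.one_apply, m.2.2.1 _ ⟨n, h1, rfl⟩, mul_inv_cancel_right]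

/-- the action of the alternating group on `M₀` -/
noncomputable def ρ₀ (hr : π.range = alternatingGroup Ω) (r : ℕ) :
    alternatingGroup Ω →* MulAut (M₀ π r) :=
  (πA hr).liftOfSurjective (πA_surjective hr) ⟨ρL π r, ker_le_ρL hr r⟩

theorem ρ₀_apply (hr : π.range = alternatingGroup Ω) (r : ℕ) (g : A) :
    ρ₀ hr r (πA hr g) = ρL π r g :=
  MonoidHom.liftOfRightInverse_comp_apply _ _ _ _ _

theorem ρ₀_coe (hr : π.range = alternatingGroup Ω) (r : ℕ) {g : A} {a : alternatingGroup Ω}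
    (h : π g = a) (m : M₀ π r) :
    ((ρ₀ hr r a m : M₀ π r) : A ⧸ Subgroup.center A) =
      QuotientGroup.mk' (Subgroup.center A) g * m * (QuotientGroup.mk' (Subgroup.center A) g)⁻¹ := by
  have h1 : a = πA hr g := Subtype.ext h.symm
  rw [h1, ρ₀_apply, ρL_coe]

omit [Fintype Ω] [DecidableEq Ω] in
/-- a prime `r` for which `M₀ r` is not trivial -/
theorem exists_M₀ [Finite A] (hnil : Group.IsNilpotent π.ker)
    (hP : ¬ π.ker ≤ Subgroup.center A) : ∃ r : ℕ, r.Prime ∧ r ∣ Nat.card π.ker ∧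
      ∃ x ∈ M₀ π r, x ≠ 1 := by
  have hsur := MonoidHom.subgroupMap_surjective (QuotientGroup.mk' (Subgroup.center A)) π.ker
  have h1 : Group.IsNilpotent (Pb π) :=
    Group.nilpotent_of_surjective ((QuotientGroup.mk' (Subgroup.center A)).subgroupMap π.ker) hsur
  have h2 : Nontrivial (Pb π) := by
    rw [Subgroup.nontrivial_iff_ne_bot]
    intro h
    apply hP
    have h3 := (Subgroup.map_eq_bot_iff _).1 h
    rwa [QuotientGroup.ker_mk'] at h3
  have h3 := Group.IsNilpotent.center_ne_bot (G := Pb π)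
  have h4 : Nat.card (Subgroup.center (Pb π)) ≠ 1 := by
    intro h
    exact h3 (Subgroup.card_eq_one.1 h)
  have hp := Nat.minFac_prime h4
  have : Fact (Nat.minFac (Nat.card (Subgroup.center (Pb π)))).Prime := ⟨hp⟩
  obtain ⟨x, hx⟩ := exists_prime_orderOf_dvd_card' _ (Nat.minFac_dvd (Nat.card (Subgroup.center (Pb π))))
  refine ⟨_, hp, ?_, x.1.1, ⟨x.1.2, fun y hy => ?_, ?_⟩, ?_⟩
  · refine (Nat.minFac_dvd _).trans ((Subgroup.card_subgroup_dvd_card _).trans ?_)
    exact Subgroup.card_dvd_of_surjective _ hsur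
  · exact congrArg Subtype.val (Subgroup.mem_center_iff.1 x.2 ⟨y, hy⟩)
  · have h5 : x ^ Nat.minFac (Nat.card (Subgroup.center (Pb π))) = 1 := by
      nth_rewrite 1 [← hx]
      exact pow_orderOf_eq_one x
    exact congrArg (fun z : Subgroup.center (Pb π) => (z.1.1 : A ⧸ Subgroup.center A)) h5
  · intro h
    have h6 : x = 1 := Subtype.ext (Subtype.ext h)
    rw [h6, orderOf_one] at hx
    exact hp.one_lt.ne hx

theorem exists_nt (hr : π.range = alternatingGroup Ω) (hperf : commutator A = ⊤) {r : ℕ}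
    {x₀ : A ⧸ Subgroup.center A} (hx₀ : x₀ ∈ M₀ π r) (hx₀1 : x₀ ≠ 1) :
    ∃ (a : alternatingGroup Ω) (m : M₀ π r), ρ₀ hr r a m ≠ m := by
  by_contra hcon
  push Not at hcon
  apply hx₀1
  obtain ⟨x, rfl⟩ := QuotientGroup.mk'_surjective _ x₀
  have hq1 : ∀ x, QuotientGroup.mk' (Subgroup.center A) x = 1 ↔ x ∈ Subgroup.center A :=
    fun x => QuotientGroup.eq_one_iff x
  rw [hq1 x]
  apply center_of_comm hperf
  intro g
  rw [← hq1, map_mul, map_mul, map_mul, map_inv, map_inv, mul_inv_eq_one]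
  have h1 := congrArg Subtype.val (hcon (πA hr g) ⟨_, hx₀⟩)
  rw [ρ₀_coe hr r (g := g) rfl] at h1
  exact h1

/-- the lifted elements -/
theorem exists_elt (hr : π.range = alternatingGroup Ω) {r : ℕ} [Fact r.Prime]
    (hnt : ∃ (a : alternatingGroup Ω) (m : M₀ π r), ρ₀ hr r a m ≠ m)
    {B : Type} [Fintype B] [DecidableEq B] {s : ℕ} (Δ : Blk (alternatingGroup Ω) B s)
    (hs : 2 ≤ s) (hsr : (s : ZMod r) ≠ 0) {B₀ : Finset B}
    (hcard : B₀.card + 3 ≤ Fintype.card B) {b₀ : B} (hb₀ : b₀ ∉ B₀) :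
    ∃ w : A, π w = 1 ∧ (∀ n : A, π n = 1 → w * n * w⁻¹ * n⁻¹ ∈ Subgroup.center A) ∧
      w ^ r ∈ Subgroup.center A ∧
      (∀ b ∈ B₀, ∀ δ : A, π δ = (Δ.e b : Perm Ω) → δ * w * δ⁻¹ * w⁻¹ ∈ Subgroup.center A) ∧
      (∀ δ : A, π δ = (Δ.e b₀ : Perm Ω) →
        (List.map (fun i => δ ^ i * w * (δ ^ i)⁻¹) (List.range s)).prod ∈ Subgroup.center A) ∧
      ∀ δ : A, π δ = (Δ.e b₀ : Perm Ω) → ∀ n : ℕ,
        δ * w ^ n * δ⁻¹ * (w ^ n)⁻¹ ∈ Subgroup.center A → r ∣ n := by
  let q : A →* A ⧸ Subgroup.center A := QuotientGroup.mk' _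
  have hq1 : ∀ x, q x = 1 ↔ x ∈ Subgroup.center A := fun x => QuotientGroup.eq_one_iff x
  have hcomm : IsMulCommutative (M₀ π r) :=
    ⟨⟨fun a b => Subtype.ext (M₀_comm r a.2 b.2)⟩⟩
  obtain ⟨m, hfix, hnorm, χ, hadd, hχm, hχu⟩ := Δ.exists_char hs hsr
    (fun m : M₀ π r => Subtype.ext m.2.2.2) (ρ₀ hr r) hnt hcard hb₀
  obtain ⟨w, hw, hwm⟩ := m.2.1
  change q w = m.1 at hwm
  have hχpow : ∀ n : ℕ, χ (m ^ n) = n := by
    intro n
    have hχ1 : χ 1 = 0 := by
      have h := hadd 1 1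
      rw [mul_one] at h
      exact left_eq_add.1 h
    induction n with
    | zero => rw [pow_zero, hχ1, Nat.cast_zero]
    | succ n ih => rw [pow_succ, hadd, ih, hχm, Nat.cast_add, Nat.cast_one]
  refine ⟨w, hw, ?_, ?_, ?_, ?_, ?_⟩
  · intro n hn
    rw [← hq1, map_mul, map_mul, map_mul, map_inv, map_inv, hwm, ← m.2.2.1 (q n) ⟨n, hn, rfl⟩]
    group
  · rw [← hq1, map_pow, hwm]
    exact m.2.2.2
  · intro b hb δ hδ
    have h1 := congrArg Subtype.val (hfix b hb)
    rw [ρ₀_coe hr r hδ] at h1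
    rw [← hq1, map_mul, map_mul, map_mul, map_inv, map_inv, hwm, mul_inv_eq_one]
    exact h1
  · intro δ hδ
    have hprod : ∀ n : ℕ, q ((List.map (fun i => δ ^ i * w * (δ ^ i)⁻¹) (List.range n)).prod) =
        ((∏ i ∈ Finset.range n, ρ₀ hr r (Δ.e b₀ ^ i) m : M₀ π r) : A ⧸ Subgroup.center A) := by
      intro n
      induction n with
      | zero => simp
      | succ n ih =>
        rw [List.range_succ, List.map_append, List.prod_append, map_mul, ih,
          Finset.prod_range_succ, Subgroup.coe_mul]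
        congr 1
        have h1 : π (δ ^ n) = ((Δ.e b₀ ^ n : alternatingGroup Ω) : Perm Ω) := by
          rw [map_pow, hδ]
          rfl
        rw [ρ₀_coe hr r h1, ← hwm, List.map_singleton, List.prod_singleton, map_mul, map_mul,
          map_inv]
    rw [← hq1, hprod s, hnorm]
    rfl
  · intro δ hδ n hn
    rw [← hq1, map_mul, map_mul, map_mul, map_inv, map_inv, map_pow, hwm, mul_inv_eq_one] at hn
    have h1 : ρ₀ hr r (Δ.e b₀) (m ^ n) = m ^ n := by
      apply Subtype.ext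
      rw [ρ₀_coe hr r hδ]
      exact hn
    have h2 := hχu _ h1
    rw [hχpow, ZMod.natCast_eq_zero_iff] at h2
    exact h2

end Pool.Agent.Lib.MP_b9166b_al.Aq.Qc
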