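import Pool.Agent.Lib.MP_b9166b_al.Aq.RkA
import Pool.Agent.Lib.MP_b9166b_al.Aq.BlC
import Pool.Agent.Lib.MP_b9166b_al.Aq.RkC1

/-!
# MP_b9166b_al, PRIME POWER: an operator with small commutator, noncentral case

The same as in `RkB`, but the kernel of `π` acts by a nilpotent group of order prime to `p` which
is not central.

Proof. Let `A = ρ.range`, a perfect group, and `N = π.ker.map ρ`, a nilpotent normal subgroup of
order prime to `p`; `N` is not contained in the centre `Z` of `A`. By `hker`, `π` factors through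
`A`. Work in `A ⧸ Z` and let `Nb ≠ 1` be the image of `N`, let `r` be a prime divisor of the order
of the centre of `Nb` (so `r ≠ p`) and `M₀` the group of the elements `x` of `Nb` which commute
with `Nb` and satisfy `x ^ r = 1` (compare `Rg.CovB`, `Rg.CovC`: `Cov.M₀`, `Cov.exists_M₀`,
`Cov.ρ₀`, `Cov.modular`). `A` acts on `M₀` by conjugation, `N` trivially, so the alternating group
acts on `M₀`, nontrivially: else `Rg.center_of_comm` shows that the preimages of the elements of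
`M₀` are central in `A`.

Let `s ∈ {2, 3}` be a prime `≠ r`, `κ = Fin (2 t + 1) ⊕ Bool`, restrict `c` to
`Conf θ ι (Kq κ s)` (`Conf.comap`) and let `Δ = c.dq a h5`, a system of blocks indexed by `c.Bq`.
For `i : Fin (2 t + 1)` apply `Blk.exists_char` with `b₀ = c.bq a (inl i)` and `B₀` = all blocks
except `b₀` and the two spare blocks `c.bq a (inr false)`, `c.bq a (inr true)`: this gives
`m i ∈ M₀`, fixed by `Δ.e b` for `b ∈ B₀`, with norm `1` under `Δ.e b₀` and `m i ≠ 1`. Let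
`w i ∈ N` be a preimage of `m i`. Then
* `w i` commutes with `w j` for `j ≠ i`: by `Rg.comm_of_norm` in the group `A`, with `δ` a preimage
  in `A` of `Δ.e (c.bq a (inl i))`, `u = w j`, and the numbers `s` and `r`;
* `w i` commutes with `fM (w j) fM⁻¹` for all `j`: the same `δ` commutes with it modulo `Z`, since
  `Δ.e (c.actq f⁻¹ (c.bq a (inl i)))` fixes `m j`: this block is none of the blocks
  `c.bq a (inl j)`, `c.bq a (inr _)` by `c.actq_bq` and `f ∉ c.A a`.
Apply `rank_lemma` with the prime `r`. For `hind` let `H` be the group of the elements of `A`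
which commute with `δ` modulo `Z` (`Rg.kc`), `δ` a preimage of `Δ.e (c.bq a (inl i))`. It contains
`fM (w j) fM⁻¹` for all `j` and `w j` for `j ≠ i`. If it contains
`(fM (w i) fM⁻¹ (w i)⁻¹) ^ n` then `(m i) ^ n` is fixed by `Δ.e (c.bq a (inl i))`, so its norm is
`(m i) ^ (n s)`; it is also `1`, so `r` divides `n s`, and `r` divides `n`.
-/

set_option autoImplicit false

namespace Pool.Agent.Lib.MP_b9166b_al.Aq

open Equiv Equiv.Perm An Rg

/-- conjugation by an element which normalizes a subgroup -/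
def conjOn {G : Type} [Group G] (H : Subgroup G) (g : G) (h1 : ∀ x ∈ H, g * x * g⁻¹ ∈ H)
    (h2 : ∀ x ∈ H, g⁻¹ * x * g ∈ H) : H ≃* H where
  toFun x := ⟨g * x * g⁻¹, h1 x x.2⟩
  invFun x := ⟨g⁻¹ * x * g, h2 x x.2⟩
  left_inv x := by
    apply Subtype.ext
    change g⁻¹ * (g * x * g⁻¹) * g = x
    group
  right_inv x := by
    apply Subtype.ext
    change g * (g⁻¹ * x * g) * g⁻¹ = x
    group
  map_mul' x y := by
    apply Subtype.ext
    change g * (x * y) * g⁻¹ = g * x * g⁻¹ * (g * y * g⁻¹)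
    group

theorem mem_center_equiv {G : Type} [Group G] (e : G ≃* G) {z : G} (hz : z ∈ Subgroup.center G) :
    e z ∈ Subgroup.center G := by
  rw [Subgroup.mem_center_iff] at hz ⊢
  intro g
  have h1 := congrArg e (hz (e.symm g))
  rwa [map_mul, map_mul, MulEquiv.apply_symm_apply] at h1

/-- the main step: an abstract perfect group `A` of operators -/
theorem rk_aux {A F Ω ι M : Type} [Group A] [Finite A] [Group F] [Fintype Ω] [DecidableEq Ω]
    [CommGroup M] [Finite M] {π : A →* Perm Ω} {θ : F →* Perm Ω} {p : ℕ} [Fact p.Prime]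
    (hr : π.range = alternatingGroup Ω) (hperf : commutator A = ⊤) (hM : ∀ m : M, m ^ p = 1)
    (σ : A →* MulAut M) (hσ : Function.Injective σ) (hnil : Group.IsNilpotent π.ker)
    (hcop : (Nat.card π.ker).Coprime p) (hnc : ¬ π.ker ≤ Subgroup.center A)
    {f : F} (Φ : A ≃* A) (he : ∀ g, π (Φ g) = θ f * π g * (θ f)⁻¹) {fM : MulAut M}
    (hc : ∀ g, σ (Φ g) = fM * σ g * fM⁻¹) {m t : ℕ} (c₀ : Conf θ ι (Fin m)) {a : ι}
    (hfa : f ∉ c₀.A a) (hm : (2 * t + 3) * 9 + 2 ≤ m) :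
    p ^ t * Nat.card {m : M // fM m = m} < Nat.card M := by
  classical
  obtain ⟨r, hrp, hrdvd, x₀, hx₀, hx₀1⟩ := Qc.exists_M₀ hnil hnc
  have hrF : Fact r.Prime := ⟨hrp⟩
  have hrp' : r ≠ p := by
    rintro rfl
    have h1 := Nat.dvd_gcd hrdvd (dvd_refl r)
    rw [hcop] at h1
    exact hrp.one_lt.ne' (Nat.dvd_one.1 h1)
  have hnt := Qc.exists_nt hr hperf hx₀ hx₀1
  -- the prime `s`
  obtain ⟨s, hs, hs3, hsr⟩ : ∃ s : ℕ, s.Prime ∧ s ≤ 3 ∧ s ≠ r := by
    by_cases h : r = 2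
    · exact ⟨3, Nat.prime_three, le_rfl, by omega⟩
    · exact ⟨2, Nat.prime_two, by norm_num, fun h' => h h'.symm⟩
  have hsF : Fact s.Prime := ⟨hs⟩
  have hcopsr : Nat.Coprime s r := (Nat.coprime_primes hs hrp).2 hsr
  have hsK : (s : ZMod r) ≠ 0 := by
    rw [Ne, ZMod.natCast_eq_zero_iff]
    intro h
    exact hsr ((Nat.prime_dvd_prime_iff_eq hrp hs).1 h).symm
  -- the configuration
  obtain ⟨κ⟩ : Nonempty (Kq (Fin (2 * t + 1) ⊕ Bool) s ↪ Fin m) := by
    apply Function.Embedding.nonempty_of_card_le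
    rw [Fintype.card_sum, Fintype.card_prod, Fintype.card_prod, Fintype.card_sum, ZMod.card,
      Fintype.card_fin, Fintype.card_fin, Fintype.card_bool]
    have h1 : s * s ≤ 3 * 3 := Nat.mul_le_mul hs3 hs3
    have h2 : (2 * t + 3) * (s * s) ≤ (2 * t + 3) * 9 := Nat.mul_le_mul_left _ h1
    have h3 : 2 * t + 1 + 2 = 2 * t + 3 := by omega
    rw [h3]
    omega
  let c : Conf θ ι (Kq (Fin (2 * t + 1) ⊕ Bool) s) := c₀.comap (Equiv.refl ι) κ
  have hfa' : f⁻¹ ∉ c.A a := fun h => hfa ((c₀.A a).inv_mem_iff.1 h)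
  have h5 : 5 ≤ Nat.card Ω := by
    have hinj : Function.Injective (c₀.p a) := by
      intro i j h
      have h1 : θ 1 (c₀.p a i) = c₀.p a j := by rw [map_one, Perm.one_apply, h]
      exact (c₀.sep _ _ _ _ _ h1).2
    have h1 := Nat.card_le_card_of_injective _ hinj
    rw [Nat.card_eq_fintype_card, Fintype.card_fin] at h1
    omega
  have : Fintype c.Bq := Fintype.ofFinite _
  let Δ : Blk (alternatingGroup Ω) c.Bq s := c.dq a h5
  -- the blocks
  let b : Fin (2 * t + 1) → c.Bq := fun i => c.bq a (Sum.inl i)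
  let B₀ : Fin (2 * t + 1) → Finset c.Bq := fun i =>
    ({b i, c.bq a (Sum.inr false), c.bq a (Sum.inr true)} : Finset c.Bq)ᶜ
  have hB₀ : ∀ i, (B₀ i).card + 3 ≤ Fintype.card c.Bq := by
    intro i
    have h1 : ({b i, c.bq a (Sum.inr false), c.bq a (Sum.inr true)} : Finset c.Bq).card = 3 := by
      rw [Finset.card_eq_three]
      refine ⟨_, _, _, fun h => ?_, fun h => ?_, fun h => ?_, rfl⟩
      · exact absurd (c.bq_inj h).2 (by simp)
      · exact absurd (c.bq_inj h).2 (by simp)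
      · exact absurd (c.bq_inj h).2 (by simp)
    have h2 := Finset.card_add_card_compl
      ({b i, c.bq a (Sum.inr false), c.bq a (Sum.inr true)} : Finset c.Bq)
    rw [h1] at h2
    change (({b i, c.bq a (Sum.inr false), c.bq a (Sum.inr true)} : Finset c.Bq)ᶜ).card + 3 ≤ _
    omega
  have hmem : ∀ i (β : c.Bq), β ≠ b i → β ≠ c.bq a (Sum.inr false) → β ≠ c.bq a (Sum.inr true) →
      β ∈ B₀ i := by
    intro i β h1 h2 h3
    change β ∈ ({b i, c.bq a (Sum.inr false), c.bq a (Sum.inr true)} : Finset c.Bq)ᶜ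
    rw [Finset.mem_compl, Finset.mem_insert, Finset.mem_insert, Finset.mem_singleton]
    tauto
  have hb₀ : ∀ i, b i ∉ B₀ i := by
    intro i h
    change b i ∈ ({b i, c.bq a (Sum.inr false), c.bq a (Sum.inr true)} : Finset c.Bq)ᶜ at h
    rw [Finset.mem_compl] at h
    exact h (Finset.mem_insert_self _ _)
  have hne : ∀ i j, i ≠ j → b i ∈ B₀ j := by
    intro i j hij
    refine hmem _ _ (fun h => ?_) (fun h => ?_) (fun h => ?_)
    · exact hij (Sum.inl_injective (c.bq_inj h).2)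
    · exact absurd (c.bq_inj h).2 (by simp)
    · exact absurd (c.bq_inj h).2 (by simp)
  have hact : ∀ i j, c.actq f⁻¹ (b i) ∈ B₀ j := fun i j =>
    hmem _ _ (fun h => hfa' (c.actq_bq h).2.2) (fun h => hfa' (c.actq_bq h).2.2)
      (fun h => hfa' (c.actq_bq h).2.2)
  -- the elements
  choose w hwπ hwN hwr hwB hwn hwd using fun i =>
    Qc.exists_elt hr hnt Δ hs.two_le hsK (hB₀ i) (hb₀ i)
  have hlift : ∀ β : c.Bq, ∃ δ : A, π δ = (Δ.e β : Perm Ω) := by
    intro β
    have h1 : (Δ.e β : Perm Ω) ∈ π.range := by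
      rw [hr]
      exact (Δ.e β).2
    exact h1
  choose δ hδ using hlift
  -- commutation modulo the centre
  have hδw : ∀ i j, i ≠ j → δ (b i) * w j * (δ (b i))⁻¹ * (w j)⁻¹ ∈ Subgroup.center A :=
    fun i j hij => hwB j _ (hne i j hij) _ (hδ _)
  have hδΦ : ∀ i j, δ (b i) * Φ (w j) * (δ (b i))⁻¹ * (Φ (w j))⁻¹ ∈ Subgroup.center A := by
    intro i j
    have h1 : π (Φ.symm (δ (b i))) = (Δ.e (c.actq f⁻¹ (b i)) : Perm Ω) := by
      have h2 := he (Φ.symm (δ (b i)))
      rw [MulEquiv.apply_symm_apply, hδ] at h2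
      have h3 := c.dq_act a h5 f⁻¹ (b i)
      change θ f⁻¹ * (Δ.e (b i) : Perm Ω) * (θ f⁻¹)⁻¹ = (Δ.e (c.actq f⁻¹ (b i)) : Perm Ω) at h3
      rw [← h3, h2, map_inv]
      group
    have h4 := mem_center_equiv Φ (hwB j _ (hact i j) _ h1)
    rwa [map_mul, map_mul, map_mul, map_inv, map_inv, MulEquiv.apply_symm_apply] at h4
  have hπΦ : ∀ j, π (Φ (w j)) = 1 := by
    intro j
    rw [he, hwπ, mul_one, mul_inv_cancel]
  have hcw : ∀ i j, Commute (w i) (w j) := by
    intro i j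
    by_cases hij : i = j
    · rw [hij]
    · exact comm_of_norm hcopsr (hwN i _ (hwπ j)) (hδw i j hij) (hwn i _ (hδ _)) (hwr i)
  have hcΦ : ∀ i j, Commute (w i) (Φ (w j)) := fun i j =>
    comm_of_norm hcopsr (hwN i _ (hπΦ j)) (hδΦ i j) (hwn i _ (hδ _)) (hwr i)
  refine rank_lemma hM fM hrp hrp' (fun i => σ (w i)) (fun i j => (hcw i j).map σ)
    (fun i j => ?_) (fun i => ?_)
  · rw [← hc]
    exact (hcΦ i j).map σ
  · -- the elements which commute with `δ` modulo the centre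
    have hkc : ∀ x : A, δ (b i) * x * (δ (b i))⁻¹ * x⁻¹ ∈ Subgroup.center A → x ∈ kc (δ (b i)) := by
      intro x hx
      change x * δ (b i) * x⁻¹ * (δ (b i))⁻¹ ∈ Subgroup.center A
      have h1 : x * δ (b i) * x⁻¹ * (δ (b i))⁻¹ = (δ (b i) * x * (δ (b i))⁻¹ * x⁻¹)⁻¹ := by
        group
      rw [h1]
      exact Subgroup.inv_mem _ hx
    have hkc' : ∀ x : A, x ∈ kc (δ (b i)) → δ (b i) * x * (δ (b i))⁻¹ * x⁻¹ ∈ Subgroup.center A := by
      intro x hx
      change x * δ (b i) * x⁻¹ * (δ (b i))⁻¹ ∈ Subgroup.center A at hx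
      have h1 : δ (b i) * x * (δ (b i))⁻¹ * x⁻¹ = (x * δ (b i) * x⁻¹ * (δ (b i))⁻¹)⁻¹ := by
        group
      rw [h1]
      exact Subgroup.inv_mem _ hx
    refine ⟨(kc (δ (b i))).map σ, fun j hj => ?_, fun n hn => ?_⟩
    · refine ⟨Φ (w j) * (w j)⁻¹, ?_, ?_⟩
      · exact Subgroup.mul_mem _ (hkc _ (hδΦ i j)) (Subgroup.inv_mem _ (hkc _ (hδw i j (Ne.symm hj))))
      · rw [map_mul, map_inv, hc]
    · obtain ⟨x, hx, hxn⟩ := hn
      have h1 : x = (Φ (w i) * (w i)⁻¹) ^ n := by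
        apply hσ
        rw [hxn, map_pow, map_mul, map_inv, hc]
      have h2 : x = Φ (w i) ^ n * (w i ^ n)⁻¹ := by
        rw [h1, ((hcΦ i i).symm.inv_right).mul_pow, inv_pow]
      have h3 : w i ^ n ∈ kc (δ (b i)) := by
        have h4 : w i ^ n = x⁻¹ * Φ (w i) ^ n := by
          rw [h2]
          group
        rw [h4]
        exact Subgroup.mul_mem _ (Subgroup.inv_mem _ hx) (Subgroup.pow_mem _ (hkc _ (hδΦ i i)) n)
      exact hwd i _ (hδ _) n (hkc' _ h3)

variable {L F Ω ι M : Type} [Group L] [Finite L] [Group F] [Finite F] [Finite ι] [Fintype Ω]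
  [DecidableEq Ω] [CommGroup M] [Finite M] {π : L →* Perm Ω} {θ : F →* Perm Ω} {p : ℕ}
  [Fact p.Prime] {ρ : L →* MulAut M}

theorem rk_noncentral (hr : π.range = alternatingGroup Ω) (hperf : commutator L = ⊤)
    (hM : ∀ m : M, m ^ p = 1) (hker : ∀ g, ρ g = 1 → π g = 1)
    (hnil : Group.IsNilpotent (π.ker.map ρ)) (hcop : (Nat.card (π.ker.map ρ)).Coprime p)
    (hnc : ∃ n, π n = 1 ∧ ∃ g, ¬ Commute (ρ n) (ρ g))
    {f : F} {φf : MulAut L} (he : ∀ g, π (φf g) = θ f * π g * (θ f)⁻¹) {fM : MulAut M}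
    (hc : ∀ g, ρ (φf g) = fM * ρ g * fM⁻¹) {m t : ℕ} (c : Conf θ ι (Fin m)) {a : ι}
    (hfa : f ∉ c.A a) (hm : (2 * t + 3) * 9 + 2 ≤ m) :
    p ^ t * Nat.card {m : M // fM m = m} < Nat.card M := by
  have hsur : Function.Surjective ρ.rangeRestrict := ρ.rangeRestrict_surjective
  have hkl : ρ.rangeRestrict.ker ≤ π.ker := by
    intro g hg
    rw [MonoidHom.ker_rangeRestrict] at hg
    exact hker g hg
  let π' : ρ.range →* Perm Ω := ρ.rangeRestrict.liftOfSurjective hsur ⟨π, hkl⟩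
  have hπ' : ∀ g, π' (ρ.rangeRestrict g) = π g := fun g =>
    MonoidHom.liftOfRightInverse_comp_apply _ _ _ _ _
  have hr' : π'.range = alternatingGroup Ω := by
    rw [← hr]
    ext x
    constructor
    · rintro ⟨y, rfl⟩
      obtain ⟨g, rfl⟩ := hsur y
      exact ⟨g, (hπ' g).symm⟩
    · rintro ⟨g, rfl⟩
      exact ⟨ρ.rangeRestrict g, hπ' g⟩
  have hperf' : commutator ρ.range = ⊤ := by
    have h1 := map_commutator_eq (f := ρ.rangeRestrict)
    rw [hperf, ← MonoidHom.range_eq_map, MonoidHom.range_eq_top.2 hsur] at h1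
    rw [commutator_def]
    exact h1.symm
  -- the kernel
  have hk1 : ∀ x : ρ.range, π' x = 1 → (x : MulAut M) ∈ π.ker.map ρ := by
    intro x hx
    obtain ⟨g, rfl⟩ := hsur x
    rw [hπ'] at hx
    exact ⟨g, hx, rfl⟩
  let j : π'.ker →* π.ker.map ρ := {
    toFun := fun x => ⟨x.1.1, hk1 x.1 x.2⟩
    map_one' := rfl
    map_mul' := fun _ _ => rfl }
  have hj : Function.Injective j := by
    intro x y h
    have h1 : (j x).1 = (j y).1 := by rw [h]
    exact Subtype.ext (Subtype.ext h1)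
  have hnil' : Group.IsNilpotent π'.ker :=
    Subgroup.isNilpotent_of_ker_le_center j (by
      rw [(MonoidHom.ker_eq_bot_iff j).2 hj]
      exact bot_le)
  have hcop' : (Nat.card π'.ker).Coprime p :=
    Nat.Coprime.coprime_dvd_left (Subgroup.card_dvd_of_injective j hj) hcop
  have hnc' : ¬ π'.ker ≤ Subgroup.center ρ.range := by
    intro h
    obtain ⟨n, hn, g, hg⟩ := hnc
    apply hg
    have h1 : ρ.rangeRestrict n ∈ π'.ker := by
      rw [MonoidHom.mem_ker, hπ', hn]
    have h2 := Subgroup.mem_center_iff.1 (h h1) (ρ.rangeRestrict g)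
    exact (congrArg Subtype.val h2).symm
  -- the automorphism
  let Φ : ρ.range ≃* ρ.range := conjOn ρ.range fM
    (by
      rintro _ ⟨g, rfl⟩
      exact ⟨φf g, hc g⟩)
    (by
      rintro _ ⟨g, rfl⟩
      refine ⟨φf.symm g, ?_⟩
      have h1 := hc (φf.symm g)
      rw [MulEquiv.apply_symm_apply] at h1
      rw [h1]
      group)
  have hΦ : ∀ g, Φ (ρ.rangeRestrict g) = ρ.rangeRestrict (φf g) := fun g =>
    Subtype.ext (hc g).symm
  refine rk_aux hr' hperf' hM ρ.range.subtype (Subgroup.subtype_injective _) hnil' hcop' hnc' Φ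
    (f := f) (fun x => ?_) (fM := fM) (fun x => rfl) c hfa hm
  obtain ⟨g, rfl⟩ := hsur x
  rw [hΦ, hπ', hπ', he]

end Pool.Agent.Lib.MP_b9166b_al.Aq
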