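import Pool.Agent.Lib.MP_b9166b_al.Aq.RkB
import Pool.Agent.Lib.MP_b9166b_al.Aq.RkC

/-!
# MP_b9166b_al, PRIME POWER: an operator with small commutator

`ker_le`: if `ρ.ker` is not contained in `π.ker`, then `π` maps it onto the alternating group
(simple, at least five points), so `ρ.range = π.ker.map ρ` is nilpotent and perfect, hence
trivial.
-/

set_option autoImplicit false

namespace Pool.Agent.Lib.MP_b9166b_al.Aq

open Equiv Equiv.Perm An

theorem ker_le {L H Ω : Type} [Group L] [Group H] [Fintype Ω] [DecidableEq Ω] {π : L →* Perm Ω}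
    {ρ : L →* H} (hr : π.range = alternatingGroup Ω) (hperf : commutator L = ⊤)
    (h5 : 5 ≤ Nat.card Ω) (hnt : ∃ g, ρ g ≠ 1) (hnil : Group.IsNilpotent (π.ker.map ρ)) :
    ∀ g, ρ g = 1 → π g = 1 := by
  by_contra hcon
  push Not at hcon
  obtain ⟨g₀, h1, h2⟩ := hcon
  have hs : IsSimpleGroup (alternatingGroup Ω) := alternatingGroup.isSimpleGroup h5
  have hn : ((ρ.ker.map π).subgroupOf (alternatingGroup Ω)).Normal := by
    refine ⟨fun x hx y => ?_⟩
    obtain ⟨k, hk, hkx⟩ := Subgroup.mem_subgroupOf.1 hx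
    have hy : (y : Perm Ω) ∈ π.range := by
      rw [hr]
      exact y.2
    obtain ⟨l, hl⟩ := hy
    refine Subgroup.mem_subgroupOf.2 ⟨l * k * l⁻¹, (MonoidHom.normal_ker ρ).conj_mem k hk l, ?_⟩
    rw [map_mul, map_mul, map_inv, hl, hkx]
    rfl
  have hall : ∀ g, ∃ k, ρ k = 1 ∧ π k = π g := by
    rcases hn.eq_bot_or_eq_top with h | h
    · exfalso
      have h3 : π g₀ ∈ alternatingGroup Ω := by
        rw [← hr]
        exact ⟨g₀, rfl⟩
      have h4 : (⟨π g₀, h3⟩ : alternatingGroup Ω) ∈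
          (ρ.ker.map π).subgroupOf (alternatingGroup Ω) :=
        Subgroup.mem_subgroupOf.2 ⟨g₀, h1, rfl⟩
      rw [h, Subgroup.mem_bot] at h4
      exact h2 (congrArg Subtype.val h4)
    · intro g
      have h3 : π g ∈ alternatingGroup Ω := by
        rw [← hr]
        exact ⟨g, rfl⟩
      have h4 : (⟨π g, h3⟩ : alternatingGroup Ω) ∈
          (ρ.ker.map π).subgroupOf (alternatingGroup Ω) := by
        rw [h]
        exact Subgroup.mem_top _
      obtain ⟨k, hk, hkg⟩ := Subgroup.mem_subgroupOf.1 h4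
      exact ⟨k, hk, hkg⟩
  have hK : π.ker.map ρ = (⊤ : Subgroup L).map ρ := by
    refine le_antisymm (Subgroup.map_mono le_top) ?_
    rintro _ ⟨g, -, rfl⟩
    obtain ⟨k, hk1, hk2⟩ := hall g
    refine ⟨g * k⁻¹, ?_, by rw [map_mul, map_inv, hk1, inv_one, mul_one]⟩
    change π (g * k⁻¹) = 1
    rw [map_mul, map_inv, hk2, mul_inv_cancel]
  have hp : ⁅π.ker.map ρ, π.ker.map ρ⁆ = π.ker.map ρ := by
    rw [hK, ← Subgroup.map_commutator, ← commutator_def, hperf]
  have hp' : commutator (π.ker.map ρ) = ⊤ := by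
    apply Subgroup.map_injective (π.ker.map ρ).subtype_injective
    rw [Subgroup.map_subtype_commutator, hp, ← MonoidHom.range_eq_map, Subgroup.range_subtype]
  obtain ⟨g, hg⟩ := hnt
  have hnon : Nontrivial (π.ker.map ρ) := by
    have h3 : ρ g ∈ π.ker.map ρ := by
      rw [hK]
      exact ⟨g, Subgroup.mem_top g, rfl⟩
    exact ⟨⟨⟨ρ g, h3⟩, 1, fun h => hg (congrArg Subtype.val h)⟩⟩
  have hsol : Group.IsSolvable (π.ker.map ρ) := IsNilpotent.to_isSolvable
  exact (Group.IsSolvable.commutator_lt_top_of_nontrivial (π.ker.map ρ)).ne hp'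

variable {L F Ω ι M : Type} [Group L] [Finite L] [Group F] [Finite F] [Finite ι] [Fintype Ω]
  [DecidableEq Ω] [CommGroup M] [Finite M] {π : L →* Perm Ω} {θ : F →* Perm Ω} {p : ℕ}
  [Fact p.Prime] {ρ : L →* MulAut M}

theorem rk (hr : π.range = alternatingGroup Ω) (hperf : commutator L = ⊤)
    (hM : ∀ m : M, m ^ p = 1) (hnt : ∃ g, ρ g ≠ 1)
    (hnil : Group.IsNilpotent (π.ker.map ρ)) (hcop : (Nat.card (π.ker.map ρ)).Coprime p)
    {f : F} {φf : MulAut L} (he : ∀ g, π (φf g) = θ f * π g * (θ f)⁻¹) {fM : MulAut M}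
    (hc : ∀ g, ρ (φf g) = fM * ρ g * fM⁻¹) {m t : ℕ} (c : Conf θ ι (Fin m)) {a : ι}
    (hfa : f ∉ c.A a) (hm : (2 * t + 3) * 9 + 2 ≤ m) :
    p ^ t * Nat.card {m : M // fM m = m} < Nat.card M := by
  have h5 : 5 ≤ Nat.card Ω := by
    have hinj : Function.Injective (c.p a) := by
      intro i j h
      have h1 : θ 1 (c.p a i) = c.p a j := by rw [map_one, Perm.one_apply, h]
      exact (c.sep _ _ _ _ _ h1).2
    have h1 := Nat.card_le_card_of_injective _ hinj
    rw [Nat.card_eq_fintype_card, Fintype.card_fin] at h1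
    omega
  have hker := ker_le hr hperf h5 hnt hnil
  by_cases hcen : ∀ n, π n = 1 → ∀ g, Commute (ρ n) (ρ g)
  · exact rk_central hr hM hker hcen he hc c hfa (by omega)
  · push Not at hcen
    exact rk_noncentral hr hperf hM hker hnil hcop hcen he hc c hfa hm

end Pool.Agent.Lib.MP_b9166b_al.Aq
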