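import Mathlib

/-!
# MP_b9166b_al, PRIME POWER, regular case: lifting of commuting elements

Proof. Let `T` be the subgroup generated by `R` and the elements `φ h y`, an invariant subgroup.
`T / R` is commutative and a `q`-group (generated by commuting elements of `q`-power order). The
number of the Sylow `q`-subgroups of `T` is `≡ 1` modulo `q`, so the `q`-group `Γ` fixes one of
them, `P`. As the order of `R` is prime to `q`, `P ∩ R = 1`, and `P R = T`. So `P` is isomorphic
to `T / R`, hence commutative. Write `y = y' x` with `y' ∈ P`, `x ∈ R` (`R` is normal). Then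
`φ h y' ∈ P` for all `h`.
-/

set_option autoImplicit false

namespace Pool.Agent.Lib.MP_b9166b_al.Aq

open scoped Pointwise

/-- A set of commuting elements of `q`-power order generates a commutative `q`-group. -/
private theorem LQ_clo {Q : Type} [Group Q] {q : ℕ} {S : Set Q}
    (hc : ∀ x ∈ S, ∀ y ∈ S, x * y = y * x) (hq : ∀ x ∈ S, ∃ k : ℕ, x ^ (q ^ k) = 1) :
    (∀ x ∈ Subgroup.closure S, ∀ y ∈ Subgroup.closure S, x * y = y * x) ∧
      ∀ x ∈ Subgroup.closure S, ∃ k : ℕ, x ^ (q ^ k) = 1 := by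
  have h1 : ∀ x ∈ Subgroup.closure S, ∀ y ∈ Subgroup.closure S, x * y = y * x := by
    have h2 : Subgroup.closure S ≤ Subgroup.centralizer (Subgroup.centralizer S : Set Q) :=
      Subgroup.closure_le_centralizer_centralizer S
    have h3 : Subgroup.closure S ≤ Subgroup.centralizer S := by
      rw [Subgroup.closure_le]
      intro x hx
      refine Subgroup.mem_centralizer_iff.2 fun y hy => ?_
      exact hc y hy x hx
    intro x hx y hy
    exact Subgroup.mem_centralizer_iff.1 (h2 hy) x (h3 hx)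
  refine ⟨h1, fun x hx => ?_⟩
  induction hx using Subgroup.closure_induction with
  | mem x hx => exact hq x hx
  | one => exact ⟨0, one_pow _⟩
  | mul x y hx hy ihx ihy =>
    obtain ⟨k, hk⟩ := ihx
    obtain ⟨l, hl⟩ := ihy
    refine ⟨k + l, ?_⟩
    have h4 : Commute x y := h1 x hx y hy
    rw [h4.mul_pow, pow_add, pow_mul, hk, one_pow, mul_comm (q ^ k), pow_mul, hl, one_pow, one_mul]
  | inv x hx ih =>
    obtain ⟨k, hk⟩ := ih
    exact ⟨k, by rw [inv_pow, hk, inv_one]⟩

/-- lifting through a normal subgroup of order prime to `q` -/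
theorem lift_comm {L Γ : Type} [Group L] [Finite L] [Group Γ] [Finite Γ] {q : ℕ} (hq : q.Prime)
    (hΓ : IsPGroup q Γ) (φ : Γ →* MulAut L) (R : Subgroup L) (hR : R.Normal)
    (hRφ : ∀ h, ∀ x ∈ R, φ h x ∈ R) (hRq : (Nat.card R).Coprime q) (y : L)
    (hy : ∀ h h', φ h y * φ h' y * (φ h y)⁻¹ * (φ h' y)⁻¹ ∈ R) {j : ℕ} (hyq : y ^ (q ^ j) ∈ R) :
    ∃ y' : L, y⁻¹ * y' ∈ R ∧ ∀ h, Commute y' (φ h y') := by
  classical
  have : Fact q.Prime := ⟨hq⟩
  obtain ⟨S, hS⟩ : ∃ S : Set (L ⧸ R), S = Set.range fun h : Γ => (QuotientGroup.mk (φ h y) : L ⧸ R) :=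
    ⟨_, rfl⟩
  obtain ⟨hc, ho⟩ := LQ_clo (q := q) (S := S) (by
    rw [hS]
    rintro _ ⟨h, rfl⟩ _ ⟨h', rfl⟩
    have h1 := (QuotientGroup.eq_one_iff (N := R) _).2 (hy h h')
    rw [QuotientGroup.mk_mul, QuotientGroup.mk_mul, QuotientGroup.mk_inv, QuotientGroup.mk_mul,
      QuotientGroup.mk_inv, mul_inv_eq_one, mul_inv_eq_iff_eq_mul] at h1
    exact h1) (by
    rw [hS]
    rintro _ ⟨h, rfl⟩
    refine ⟨j, ?_⟩
    have h1 := (QuotientGroup.eq_one_iff (N := R) _).2 (hRφ h _ hyq)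
    rw [map_pow, QuotientGroup.mk_pow] at h1
    exact h1)
  obtain ⟨T', hT'⟩ : ∃ T' : Subgroup (L ⧸ R), T' = Subgroup.closure S := ⟨_, rfl⟩
  rw [← hT'] at hc ho
  obtain ⟨T, hT⟩ : ∃ T : Subgroup L, T = T'.comap (QuotientGroup.mk' R) := ⟨_, rfl⟩
  have hmT : ∀ x, x ∈ T ↔ (QuotientGroup.mk x : L ⧸ R) ∈ T' := by
    intro x
    rw [hT]
    rfl
  have hinvT : ∀ (h : Γ) (x : L), x ∈ T → φ h x ∈ T := by
    intro h x hx
    rw [hmT] at hx ⊢
    have h1 : T' ≤ T'.comap (QuotientGroup.map R R (φ h).toMonoidHom fun x hx => hRφ h x hx) := by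
      conv_lhs => rw [hT']
      rw [Subgroup.closure_le, hS]
      rintro _ ⟨h', rfl⟩
      change (QuotientGroup.mk (φ h (φ h' y)) : L ⧸ R) ∈ T'
      rw [hT', hS]
      refine Subgroup.subset_closure ⟨h * h', ?_⟩
      change (QuotientGroup.mk (φ (h * h') y) : L ⧸ R) = _
      rw [map_mul]
      rfl
    exact h1 hx
  have hRT : R ≤ T := by
    intro x hx
    rw [hmT, (QuotientGroup.eq_one_iff (N := R) x).2 hx]
    exact one_mem _
  let act : MulDistribMulAction Γ T :=
    { smul := fun h t => ⟨φ h t, hinvT h t t.2⟩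
      one_smul := fun t => Subtype.ext (by
        change φ 1 (t : L) = t
        rw [map_one]
        rfl)
      mul_smul := fun h h' t => Subtype.ext (by
        change φ (h * h') (t : L) = φ h (φ h' t)
        rw [map_mul]
        rfl)
      smul_mul := fun h s t => Subtype.ext (map_mul (φ h) (s : L) (t : L))
      smul_one := fun h => Subtype.ext (map_one (φ h)) }
  have hsm : ∀ (h : Γ) (t : T), ((h • t : T) : L) = φ h (t : L) := fun _ _ => rfl
  -- the quotient map on `T`
  obtain ⟨ψ, hψ⟩ : ∃ ψ : T →* L ⧸ R, ∀ t, ψ t = (QuotientGroup.mk (t : L) : L ⧸ R) :=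
    ⟨(QuotientGroup.mk' R).comp T.subtype, fun _ => rfl⟩
  have hker : ψ.ker = R.subgroupOf T := by
    ext t
    rw [MonoidHom.mem_ker, hψ, Subgroup.mem_subgroupOf, QuotientGroup.eq_one_iff]
  have hran : ψ.range = T' := by
    ext z
    constructor
    · rintro ⟨t, rfl⟩
      rw [hψ]
      exact (hmT _).1 t.2
    · intro hz
      obtain ⟨x, rfl⟩ := QuotientGroup.mk_surjective z
      exact ⟨⟨x, (hmT x).2 hz⟩, hψ _⟩
  have hfinQ : Finite (L ⧸ R) := inferInstance
  have hT'q : IsPGroup q T' := by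
    rintro ⟨x, hx⟩
    obtain ⟨k, hk⟩ := ho x hx
    exact ⟨k, Subtype.ext hk⟩
  obtain ⟨k, hk⟩ := (IsPGroup.iff_card (p := q)).1 hT'q
  have hcR : Nat.card (R.subgroupOf T) = Nat.card R :=
    Nat.card_congr (Subgroup.subgroupOfEquivOfLe hRT).toEquiv
  have hcT : Nat.card T = q ^ k * Nat.card R := by
    rw [Subgroup.card_eq_card_quotient_mul_card_subgroup ψ.ker,
      Nat.card_congr (QuotientGroup.quotientKerEquivRange ψ).toEquiv, hran, hk, hker, hcR]
  -- an invariant Sylow subgroup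
  obtain ⟨P, hP⟩ := hΓ.nonempty_fixed_point_of_prime_not_dvd_card (Sylow q T) (by
    intro h1
    have h2 := card_sylow_modEq_one q T
    have h3 : Nat.card (Sylow q T) ≡ 0 [MOD q] := (Nat.modEq_zero_iff_dvd).2 h1
    have h4 := (h2.symm.trans h3)
    have h5 := (Nat.modEq_zero_iff_dvd).1 h4
    exact hq.one_lt.ne' (Nat.dvd_one.1 h5))
  have hPinv : ∀ (h : Γ) (t : T), t ∈ P → h • t ∈ P := by
    intro h t ht
    have h1 : h • P = P := hP h
    have h2 : (h • (P : Subgroup T)) = (P : Subgroup T) :=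
      congrArg (fun Q : Sylow q T => (Q : Subgroup T)) h1
    have h3 := Subgroup.smul_mem_pointwise_smul t h (P : Subgroup T) ht
    rw [h2] at h3
    exact h3
  have hcP : Nat.card (P : Subgroup T) = q ^ k := by
    have h1 := P.card_eq_multiplicity
    rw [h1, hcT]
    congr 1
    rw [Nat.factorization_mul (pow_ne_zero _ hq.ne_zero) Nat.card_pos.ne', Finsupp.add_apply,
      hq.factorization_pow, Finsupp.single_eq_same, Nat.factorization_eq_zero_of_not_dvd, add_zero]
    intro h2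
    exact (Nat.Prime.coprime_iff_not_dvd hq).1 hRq.symm h2
  have hcompl : Subgroup.IsComplement' (P : Subgroup T) (R.subgroupOf T) := by
    refine Subgroup.isComplement'_of_coprime ?_ ?_
    · rw [hcP, hcR, hcT]
    · rw [hcP, hcR]
      exact (hRq.pow_right k).symm
  have hyT : y ∈ T := by
    rw [hmT, hT', hS]
    refine Subgroup.subset_closure ⟨1, ?_⟩
    change (QuotientGroup.mk (φ 1 y) : L ⧸ R) = _
    rw [map_one]
    rfl
  obtain ⟨⟨⟨y', hy'⟩, ⟨x, hx⟩⟩, hyx, -⟩ := hcompl.existsUnique ⟨y, hyT⟩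
  simp only at hyx
  have hx' : (x : L) ∈ R := Subgroup.mem_subgroupOf.1 hx
  refine ⟨y', ?_, fun h => ?_⟩
  · have h1 : y = (y' : L) * (x : L) := congrArg Subtype.val hyx.symm
    rw [h1, mul_inv_rev, mul_assoc, inv_mul_cancel, mul_one]
    exact inv_mem hx'
  · have h1 : y' * (h • y') * y'⁻¹ * (h • y')⁻¹ ∈ (P : Subgroup T) ⊓ R.subgroupOf T := by
      have h2 := hPinv h y' hy'
      refine ⟨(P : Subgroup T).mul_mem ((P : Subgroup T).mul_mem ((P : Subgroup T).mul_mem hy' h2)
        ((P : Subgroup T).inv_mem hy')) ((P : Subgroup T).inv_mem h2), ?_⟩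
      change _ ∈ R.subgroupOf T
      rw [← hker, MonoidHom.mem_ker, map_mul, map_mul, map_mul, map_inv, map_inv, mul_inv_eq_one,
        mul_inv_eq_iff_eq_mul]
      refine hc _ ?_ _ ?_
      · rw [← hran]
        exact ⟨_, rfl⟩
      · rw [← hran]
        exact ⟨_, rfl⟩
    rw [hcompl.disjoint.eq_bot, Subgroup.mem_bot, mul_inv_eq_one, mul_inv_eq_iff_eq_mul] at h1
    have h3 := congrArg Subtype.val h1
    exact h3

end Pool.Agent.Lib.MP_b9166b_al.Aq
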