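import Pool.Agent.Lib.MP_b9166b_al.Aq.Tq
import Pool.Agent.Lib.MP_b9166b_al.Aq.LQ

/-!
# MP_b9166b_al, PRIME POWER, regular case: the target if the `q`-elements of the kernel are central

Proof. Let `N = c.π.ker` and `Q` the group of the `q`-elements of `N` (`QNil.exists_Q`), which is
contained in the centre of `L`; `Q` has index prime to `q` in `N`. By the theorem of Schur and
Zassenhaus `Q` has a complement `C` in `N`, and `N = Q × C`. Let `e` be the order of the group `R₀`
of `QNil.exists_Q`; then `C` is the set `R` of the `x ∈ N` with `x ^ e = 1` (`x = z c`,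
`x ^ e = z ^ e`). So `R` is a normal subgroup of `L`, invariant under `c.φ h`, of order prime to
`q`, and `N = Q R`. As `Q` is central, `⁅N, L⁆ ≤ R`.

On `ZMod q × Bool × Bool` (`4 q` points) let `α (i, false, d) = (i + 1, false, d)`,
`α (i, true, d) = (i, true, d)`, `β (i, b, d) = (i, !b, d)`. Both are even, and `γ = [α, β]`
satisfies `γ (i, false, d) = (i + 1, false, d)`, `γ (i, true, d) = (i - 1, true, d)`, `γ ^ q = 1`.
Choose an embedding of these points in `Fin k` (`4 q ≤ k`) and let `em` be the embedding in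
`Γ × Fin k` with first component `1`, `v`, `w` preimages under `c.π` of the images of `α`, `β`
under `viaEmbeddingHom em`, `y₁ = cm v w`. As in `Rg.Cov.central`, `y₁` commutes modulo `R` with
`c.φ h y₁` (the kernel is central modulo `R`), and so do `c.φ h y₁` and `c.φ h' y₁`. Let
`m` be a natural number, `m ≡ 1` modulo `q`, and a multiple of the part prime to `q` of the order
of `y₁`. Then `y₂ = y₁ ^ m` has `q`-power order and the same image under `c.π`. Apply `lift_comm`
to `y₂`: this gives `y`, with the same image under `c.π` as `R ≤ N`. The group `X` and `χ` are the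
ones in `Rg.Cov.central`, with `P i = em (i, false, false)`, `i : ZMod q`.
-/

set_option autoImplicit false

namespace Pool.Agent.Lib.MP_b9166b_al.Aq

open Equiv Equiv.Perm Rg

variable {Γ L : Type} [Group Γ] [Group L] [Finite L] [Fintype Γ] [DecidableEq Γ] {k : ℕ}

/-- a power which is a homomorphism -/
private theorem tc_pow {N : Type} [Group N] [Finite N] (e : ℕ) (a b : N) :
    (a * b) ^ ((Subgroup.center N).index * e) =
      a ^ ((Subgroup.center N).index * e) * b ^ ((Subgroup.center N).index * e) := by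
  have h1 : (a * b) ^ (Subgroup.center N).index =
      a ^ (Subgroup.center N).index * b ^ (Subgroup.center N).index :=
    congrArg Subtype.val (map_mul (MonoidHom.transferCenterPow N) a b)
  have h2 : a ^ (Subgroup.center N).index ∈ Subgroup.center N :=
    (MonoidHom.transferCenterPow N a).2
  have h3 : Commute (a ^ (Subgroup.center N).index) (b ^ (Subgroup.center N).index) :=
    (Subgroup.mem_center_iff.1 h2 _).symm
  rw [pow_mul, pow_mul, pow_mul, h1, h3.mul_pow]

/-- the complement of the `q`-elements -/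
private theorem tc_exists_R {L : Type} [Group L] [Finite L] {q : ℕ} (hq : q.Prime)
    {N : Subgroup L} (hNn : N.Normal) (hN : QNil q N)
    (hcen : ∀ x ∈ N, (∃ j : ℕ, x ^ (q ^ j) = 1) → x ∈ Subgroup.center L) :
    ∃ (e : ℕ) (R : Subgroup L), e.Coprime q ∧ (∀ x, x ∈ R ↔ x ∈ N ∧ x ^ e = 1) ∧
      (Nat.card R).Coprime q ∧ (∀ x ∈ N, ∃ j : ℕ, (x ^ e) ^ (q ^ j) = 1) ∧
      ∀ x ∈ N, ∀ g, x * g * x⁻¹ * g⁻¹ ∈ R := by
  obtain ⟨Q, hQ, R₀, iR, jR, f, -, hcop, hf⟩ := hN.exists_Q hq
  set e : ℕ := (Subgroup.center N).index * Nat.card R₀ with he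
  have hle : f.ker ≤ Subgroup.center N := by
    intro x hx
    have h1 : (x : L) ∈ Q := (hf x).1 hx
    have h2 := hcen x x.2 ((hQ x).1 h1).2
    rw [Subgroup.mem_center_iff] at h2 ⊢
    intro g
    exact Subtype.ext (h2 g)
  have hidx : ((Subgroup.center N).index).Coprime q := by
    refine Nat.Coprime.coprime_dvd_left ?_ hcop
    refine (Subgroup.index_dvd_of_le hle).trans ?_
    rw [Subgroup.index_ker]
    exact Subgroup.card_subgroup_dvd_card _
  have heq : e.Coprime q := Nat.Coprime.mul_left hidx hcop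
  have hpw : ∀ a ∈ N, ∀ b ∈ N, (a * b) ^ e = a ^ e * b ^ e := by
    intro a ha b hb
    exact congrArg Subtype.val (tc_pow (Nat.card R₀) (⟨a, ha⟩ : N) ⟨b, hb⟩)
  have hQe : ∀ x ∈ N, x ^ e ∈ Q := by
    intro x hx
    have h1 : f (⟨x, hx⟩ ^ e) = 1 := by
      rw [map_pow, he, mul_comm, pow_mul, pow_card_eq_one', one_pow]
    exact (hf _).1 h1
  let R : Subgroup L := {
    carrier := {x | x ∈ N ∧ x ^ e = 1}
    one_mem' := ⟨N.one_mem, one_pow e⟩
    mul_mem' := by
      rintro a b ⟨ha, ha'⟩ ⟨hb, hb'⟩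
      exact ⟨N.mul_mem ha hb, by rw [hpw a ha b hb, ha', hb', one_mul]⟩
    inv_mem' := by
      rintro a ⟨ha, ha'⟩
      exact ⟨N.inv_mem ha, by rw [inv_pow, ha', inv_one]⟩ }
  refine ⟨e, R, heq, fun x => Iff.rfl, ?_, fun x hx => ((hQ _).1 (hQe x hx)).2, ?_⟩
  · rw [Nat.coprime_comm, hq.coprime_iff_not_dvd]
    intro hdvd
    have : Fact q.Prime := ⟨hq⟩
    obtain ⟨x, hx⟩ := exists_prime_orderOf_dvd_card' (G := R) q hdvd
    have h1 : (x : L) ^ e = 1 := x.2.2
    have h2 : x ^ e = 1 := Subtype.ext (by simpa using h1)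
    have h3 : q ∣ e := by
      rw [← hx]
      exact orderOf_dvd_of_pow_eq_one h2
    exact (hq.coprime_iff_not_dvd.1 heq.symm) h3
  · intro x hx g
    have h1 : g * x⁻¹ * g⁻¹ ∈ N := hNn.conj_mem _ (N.inv_mem hx) g
    have h2 : x * g * x⁻¹ * g⁻¹ = x * (g * x⁻¹ * g⁻¹) := by group
    have h3 : x ^ e ∈ Subgroup.center L := hcen _ (N.pow_mem hx e) ((hQ _).1 (hQe x hx)).2
    rw [h2]
    refine ⟨N.mul_mem hx h1, ?_⟩
    rw [hpw x hx _ h1, conj_pow, inv_pow]
    have h4 := Subgroup.mem_center_iff.1 h3 g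
    calc x ^ e * (g * (x ^ e)⁻¹ * g⁻¹) = (x ^ e * g) * (x ^ e)⁻¹ * g⁻¹ := by group
      _ = (g * x ^ e) * (x ^ e)⁻¹ * g⁻¹ := by rw [h4]
      _ = 1 := by group

/-- an element which commutes with `v` and `w` up to central elements commutes with `[v, w]` -/
private theorem tc_comm {G : Type} [Group G] {g v w z z' : G} (hz : z ∈ Subgroup.center G)
    (hz' : z' ∈ Subgroup.center G) (h1 : g * v * g⁻¹ = z * v) (h2 : g * w * g⁻¹ = z' * w) :
    Commute (cm v w) g := by
  have h3 : g * cm v w * g⁻¹ = cm v w := by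
    have h4 : g * cm v w * g⁻¹ = cm (g * v * g⁻¹) (g * w * g⁻¹) := by
      rw [cm, cm]
      group
    rw [h4, h1, h2, cm, cm]
    have hzc : ∀ g, z * g = g * z := fun g => (Subgroup.mem_center_iff.1 hz g).symm
    have hzc' : ∀ g, z' * g = g * z' := fun g => (Subgroup.mem_center_iff.1 hz' g).symm
    rw [mul_inv_rev, mul_inv_rev]
    calc z * v * (z' * w) * (v⁻¹ * z⁻¹) * (w⁻¹ * z'⁻¹)
        = z * (v * z' * w * v⁻¹) * z⁻¹ * w⁻¹ * z'⁻¹ := by group
      _ = (v * z' * w * v⁻¹) * z * z⁻¹ * w⁻¹ * z'⁻¹ := by rw [hzc]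
      _ = v * (z' * (w * v⁻¹ * w⁻¹)) * z'⁻¹ := by group
      _ = v * ((w * v⁻¹ * w⁻¹) * z') * z'⁻¹ := by rw [hzc']
      _ = v * w * v⁻¹ * w⁻¹ := by group
  exact (mul_inv_eq_iff_eq_mul.1 h3).symm

section Points

variable {q : ℕ}

/-- rotation of the points `(false, i)` -/
private def tcA (q : ℕ) : Perm (Bool × ZMod q) :=
  Equiv.prodCongrRight fun b => cond b (Equiv.refl _) (Equiv.addRight 1)

/-- exchange of `(false, i)` and `(true, i)` -/
private def tcB (q : ℕ) : Perm (Bool × ZMod q) :=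
  Equiv.prodCongr Equiv.boolNot (Equiv.refl _)

private theorem tcA_false (i : ZMod q) : tcA q (false, i) = (false, i + 1) := rfl

private theorem tcA_true (i : ZMod q) : tcA q (true, i) = (true, i) := rfl

private theorem tcB_apply (b : Bool) (i : ZMod q) : tcB q (b, i) = (!b, i) := rfl

private theorem tcA_inv_false (i : ZMod q) : (tcA q)⁻¹ (false, i) = (false, i - 1) := by
  rw [Perm.inv_eq_iff_eq, tcA_false, sub_add_cancel]

private theorem tcA_inv_true (i : ZMod q) : (tcA q)⁻¹ (true, i) = (true, i) := by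
  rw [Perm.inv_eq_iff_eq, tcA_true]

private theorem tcB_inv (b : Bool) (i : ZMod q) : (tcB q)⁻¹ (b, i) = (!b, i) := by
  rw [Perm.inv_eq_iff_eq, tcB_apply, Bool.not_not]

/-- two copies -/
private def tcD (σ : Perm (Bool × ZMod q)) : Perm (Bool × (Bool × ZMod q)) :=
  Equiv.prodCongrRight fun _ => σ

private theorem tcD_apply (σ : Perm (Bool × ZMod q)) (d : Bool) (x : Bool × ZMod q) :
    tcD σ (d, x) = (d, σ x) := rfl

private theorem tcD_inv (σ : Perm (Bool × ZMod q)) (d : Bool) (x : Bool × ZMod q) :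
    (tcD σ)⁻¹ (d, x) = (d, σ⁻¹ x) := by
  rw [Perm.inv_eq_iff_eq, tcD_apply, ← Perm.mul_apply, mul_inv_cancel, Perm.one_apply]

private theorem sign_tcD [NeZero q] (σ : Perm (Bool × ZMod q)) : sign (tcD σ) = 1 := by
  rw [tcD, sign_prodCongrRight, Finset.prod_const, Finset.card_univ, Fintype.card_bool,
    Int.units_sq]

/-- the commutator -/
private def tcG (q : ℕ) : Perm (Bool × (Bool × ZMod q)) := cm (tcD (tcA q)) (tcD (tcB q))

private theorem tcG_false (d : Bool) (i : ZMod q) :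
    tcG q (d, (false, i)) = (d, (false, i + 1)) := by
  rw [tcG, cm, Perm.mul_apply, Perm.mul_apply, Perm.mul_apply, tcD_inv, tcD_inv, tcB_inv,
    Bool.not_false, tcA_inv_true, tcD_apply, tcD_apply, tcB_apply, Bool.not_true, tcA_false]

private theorem tcG_true (d : Bool) (i : ZMod q) :
    tcG q (d, (true, i)) = (d, (true, i - 1)) := by
  rw [tcG, cm, Perm.mul_apply, Perm.mul_apply, Perm.mul_apply, tcD_inv, tcD_inv, tcB_inv,
    Bool.not_true, tcA_inv_false, tcD_apply, tcD_apply, tcB_apply, Bool.not_false, tcA_true]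

private theorem tcG_pow : tcG q ^ q = 1 := by
  have h1 : ∀ (n : ℕ) (d : Bool) (i : ZMod q), (tcG q ^ n) (d, (false, i)) =
      (d, (false, i + n)) := by
    intro n d i
    induction n with
    | zero => simp
    | succ n ih =>
      rw [pow_succ', Perm.mul_apply, ih, tcG_false]
      push_cast
      rw [add_assoc]
  have h2 : ∀ (n : ℕ) (d : Bool) (i : ZMod q), (tcG q ^ n) (d, (true, i)) =
      (d, (true, i - n)) := by
    intro n d i
    induction n with
    | zero => simp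
    | succ n ih =>
      rw [pow_succ', Perm.mul_apply, ih, tcG_true]
      push_cast
      rw [sub_sub]
  apply Equiv.ext
  rintro ⟨d, b, i⟩
  cases b
  · rw [h1, ZMod.natCast_self, add_zero, Perm.one_apply]
  · rw [h2, ZMod.natCast_self, sub_zero, Perm.one_apply]

/-- the embedding in one regular orbit -/
private def tcE {Γ : Type} [Group Γ] {k : ℕ} (κ : (Bool × (Bool × ZMod q)) ↪ Fin k) :
    (Bool × (Bool × ZMod q)) ↪ Γ × Fin k :=
  ⟨fun x => (1, κ x), fun _ _ h => κ.injective (congrArg Prod.snd h)⟩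

end Points

theorem target_central {q : ℕ} (hq : q.Prime) (c : Cov Γ L k) (hΓ : IsPGroup q Γ)
    (hQN : QNil q c.π.ker)
    (hcen : ∀ x ∈ c.π.ker, (∃ j : ℕ, x ^ (q ^ j) = 1) → x ∈ Subgroup.center L)
    (hk : 4 * q ≤ k) : TargetQ q c := by
  have : Fact q.Prime := ⟨hq⟩
  have hNn : c.π.ker.Normal := inferInstance
  obtain ⟨e, R, heq, hR, hRq, hNe, hNR⟩ := tc_exists_R hq hNn hQN hcen
  have hRn : R.Normal := by
    refine ⟨fun x hx g => ?_⟩
    rw [hR] at hx ⊢
    refine ⟨hNn.conj_mem x hx.1 g, ?_⟩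
    rw [conj_pow, hx.2, mul_one, mul_inv_cancel]
  have hRφ : ∀ h, ∀ x ∈ R, c.φ h x ∈ R := by
    intro h x hx
    rw [hR] at hx ⊢
    refine ⟨c.ker_inv h hx.1, ?_⟩
    rw [← map_pow, hx.2, map_one]
  have hRN : ∀ x ∈ R, c.π x = 1 := fun x hx => ((hR x).1 hx).1
  -- the points
  have hcard : Fintype.card (Bool × (Bool × ZMod q)) ≤ Fintype.card (Fin k) := by
    rw [Fintype.card_prod, Fintype.card_prod, Fintype.card_bool, ZMod.card, Fintype.card_fin]
    omega
  obtain ⟨κ⟩ := Function.Embedding.nonempty_of_card_le hcard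
  set em : (Bool × (Bool × ZMod q)) ↪ Γ × Fin k := tcE κ with hem
  have hvia : ∀ (d : Perm (Bool × (Bool × ZMod q))) (x : Γ × Fin k), x.1 ≠ 1 →
      viaEmbeddingHom em d x = x := by
    intro d x hx
    apply via_apply_of_notMem
    intro i hi
    apply hx
    rw [← hi]
    rfl
  have hcv : ∀ (d : Perm (Bool × (Bool × ZMod q))) {σ : Perm (Γ × Fin k)},
      (∀ x : Γ × Fin k, x.1 = 1 → σ x = x) → Commute σ (viaEmbeddingHom em d) := by
    intro d σ hσ
    apply Perm.Disjoint.commute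
    intro x
    by_cases h : x.1 = 1
    · exact Or.inl (hσ x h)
    · exact Or.inr (hvia d x h)
  obtain ⟨v, hv⟩ := c.exists_lift (σ := viaEmbeddingHom em (tcD (tcA q)))
    (by rw [sign_via, sign_tcD])
  obtain ⟨w, hw⟩ := c.exists_lift (σ := viaEmbeddingHom em (tcD (tcB q)))
    (by rw [sign_via, sign_tcD])
  set y₁ : L := cm v w with hy₁
  have hπ₁ : c.π y₁ = viaEmbeddingHom em (tcG q) := by
    rw [hy₁, cm, tcG, cm]
    simp only [map_mul, map_inv, hv, hw]
  -- the power
  obtain ⟨u, -, hu⟩ := Nat.exists_mul_mod_eq_one_of_coprime heq hq.one_lt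
  have hGm : tcG q ^ (e * u) = tcG q := by
    rw [← Nat.div_add_mod (e * u) q, hu, pow_add, pow_mul, tcG_pow, one_pow, one_mul, pow_one]
  set y₂ : L := y₁ ^ (e * u) with hy₂
  have hπ₂ : c.π y₂ = viaEmbeddingHom em (tcG q) := by
    rw [hy₂, map_pow, hπ₁, ← map_pow, hGm]
  have hfix₀ : ∀ (g : L) (d : Perm (Bool × (Bool × ZMod q))), c.π g = viaEmbeddingHom em d →
      ∀ h : Γ, h ≠ 1 → ∀ x : Γ × Fin k, x.1 = 1 → c.π (c.φ h g) x = x := by
    rintro g d hg h hh ⟨a, i⟩ ha
    change a = 1 at ha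
    subst ha
    rw [c.equi, Perm.mul_apply, Perm.mul_apply, tr_inv_apply, hg, hvia, tr_apply,
      mul_inv_cancel_left]
    rw [mul_one]
    exact inv_ne_one.2 hh
  -- the elements commute modulo `R`
  have hcen' : ∀ x ∈ c.π.ker, QuotientGroup.mk' R x ∈ Subgroup.center (L ⧸ R) := by
    intro x hx
    rw [Subgroup.mem_center_iff]
    intro g
    obtain ⟨g, rfl⟩ := QuotientGroup.mk'_surjective R g
    have h1 : QuotientGroup.mk' R (x * g * x⁻¹ * g⁻¹) = 1 :=
      (QuotientGroup.eq_one_iff _).2 (hNR x hx g)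
    rw [map_mul, map_mul, map_mul, map_inv, map_inv, mul_inv_eq_one, mul_inv_eq_iff_eq_mul] at h1
    exact h1.symm
  have hc₁ : ∀ h : Γ, Commute (QuotientGroup.mk' R y₁) (QuotientGroup.mk' R (c.φ h y₁)) := by
    intro h
    by_cases hh : h = 1
    · subst hh
      rw [map_one, MulAut.one_apply]
    · have hz : ∀ x : L, Commute (c.π (c.φ h y₁)) (c.π x) →
          ∃ z ∈ Subgroup.center (L ⧸ R), QuotientGroup.mk' R (c.φ h y₁) * QuotientGroup.mk' R x *
            (QuotientGroup.mk' R (c.φ h y₁))⁻¹ = z * QuotientGroup.mk' R x := by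
        intro x hx
        refine ⟨QuotientGroup.mk' R (c.φ h y₁ * x * (c.φ h y₁)⁻¹ * x⁻¹), hcen' _ ?_, ?_⟩
        · rw [MonoidHom.mem_ker, map_mul, map_mul, map_mul, map_inv, map_inv, hx.eq]
          group
        · rw [map_mul, map_mul, map_mul, map_inv, map_inv]
          group
      obtain ⟨z, hz1, hz2⟩ := hz v (by
        rw [hv]
        exact hcv _ (hfix₀ y₁ _ hπ₁ h hh))
      obtain ⟨z', hz1', hz2'⟩ := hz w (by
        rw [hw]
        exact hcv _ (hfix₀ y₁ _ hπ₁ h hh))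
      have h1 := tc_comm hz1 hz1' hz2 hz2'
      have h2 : QuotientGroup.mk' R y₁ = cm (QuotientGroup.mk' R v) (QuotientGroup.mk' R w) := by
        rw [hy₁, cm, cm, map_mul, map_mul, map_mul, map_inv, map_inv]
      rw [h2]
      exact h1
  have hc₂ : ∀ h : Γ, y₂ * c.φ h y₂ * y₂⁻¹ * (c.φ h y₂)⁻¹ ∈ R := by
    intro h
    rw [← QuotientGroup.eq_one_iff]
    change QuotientGroup.mk' R (y₂ * c.φ h y₂ * y₂⁻¹ * (c.φ h y₂)⁻¹) = 1
    have h1 := (hc₁ h).pow_pow (e * u) (e * u)
    rw [← map_pow, ← map_pow, ← map_pow] at h1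
    have h2 : QuotientGroup.mk' R y₂ * QuotientGroup.mk' R (c.φ h y₂) =
        QuotientGroup.mk' R (c.φ h y₂) * QuotientGroup.mk' R y₂ := h1
    rw [map_mul, map_mul, map_mul, map_inv, map_inv, h2]
    group
  have hc₃ : ∀ h h' : Γ, c.φ h y₂ * c.φ h' y₂ * (c.φ h y₂)⁻¹ * (c.φ h' y₂)⁻¹ ∈ R := by
    intro h h'
    have h1 := hRφ h _ (hc₂ (h⁻¹ * h'))
    have h2 : c.φ h (c.φ (h⁻¹ * h') y₂) = c.φ h' y₂ := by
      rw [← MulAut.mul_apply, ← map_mul, mul_inv_cancel_left]
    rwa [map_mul, map_mul, map_mul, map_inv, map_inv, h2] at h1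
  -- the order of `y₂`
  have hord : ∃ j : ℕ, y₂ ^ (q ^ j) ∈ R := by
    have h1 : y₁ ^ q ∈ c.π.ker := by
      rw [MonoidHom.mem_ker, map_pow, hπ₁, ← map_pow, tcG_pow, map_one]
    obtain ⟨j, hj⟩ := hNe _ h1
    refine ⟨j + 1, ?_⟩
    have h2 : y₂ ^ (q ^ (j + 1)) = (((y₁ ^ q) ^ e) ^ (q ^ j)) ^ u := by
      rw [hy₂, ← pow_mul, ← pow_mul, ← pow_mul, ← pow_mul]
      congr 1
      ring
    rw [h2, hj, one_pow]
    exact R.one_mem
  obtain ⟨j, hj⟩ := hord
  obtain ⟨y, hy, hycomm⟩ := lift_comm hq hΓ c.φ R hRn hRφ hRq y₂ hc₃ hj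
  have hπy : c.π y = viaEmbeddingHom em (tcG q) := by
    have h1 := hRN _ hy
    rw [map_mul, map_inv, inv_mul_eq_one] at h1
    rw [← h1, hπ₂]
  -- the subgroup and the function
  let P : ZMod q → Γ × Fin k := fun i => em (false, (false, i))
  have hPinj : Function.Injective P := by
    intro i j h
    have h1 := em.injective h
    exact congrArg (fun x : Bool × (Bool × ZMod q) => x.2.2) h1
  let X : Subgroup L := {
    carrier := {u | ∃ e : ZMod q, ∀ i, c.π u (P i) = P (i + e)}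
    one_mem' := ⟨0, fun i => by rw [map_one, Perm.one_apply, add_zero]⟩
    mul_mem' := by
      rintro a b ⟨e, he⟩ ⟨e', he'⟩
      exact ⟨e' + e, fun i => by rw [map_mul, Perm.mul_apply, he', he, add_assoc]⟩
    inv_mem' := by
      rintro a ⟨e, he⟩
      refine ⟨-e, fun i => ?_⟩
      rw [map_inv, Perm.inv_eq_iff_eq, he, neg_add_cancel_right] }
  classical
  let χ : L → ZMod q := fun u => if h : ∃ e : ZMod q, ∀ i, c.π u (P i) = P (i + e) then
    h.choose else 0
  have hχ : ∀ (u : L) (e : ZMod q), (∀ i, c.π u (P i) = P (i + e)) → χ u = e := by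
    intro u e he
    have h : ∃ e : ZMod q, ∀ i, c.π u (P i) = P (i + e) := ⟨e, he⟩
    have h1 : χ u = h.choose := dif_pos h
    have h2 := h.choose_spec 0
    rw [he, zero_add, zero_add] at h2
    rw [h1]
    exact (hPinj h2).symm
  have hyX : ∀ i, c.π y (P i) = P (i + 1) := by
    intro i
    rw [hπy]
    change viaEmbeddingHom em (tcG q) (em (false, (false, i))) = em (false, (false, i + 1))
    rw [via_apply, tcG_false]
  have hhX : ∀ h : Γ, h ≠ 1 → ∀ i, c.π (c.φ h y) (P i) = P (i + 0) := by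
    intro h hh i
    rw [hfix₀ y _ hπy h hh _ rfl, add_zero]
  refine ⟨X, χ, y, ?_, ?_, hycomm, hχ y 1 hyX, fun h hh => hχ _ 0 (hhX h hh)⟩
  · rintro a ⟨e, he⟩ b ⟨e', he'⟩
    rw [hχ a e he, hχ b e' he']
    apply hχ
    intro i
    rw [map_mul, Perm.mul_apply, he', he, add_assoc, add_comm e']
  · intro h
    by_cases hh : h = 1
    · subst hh
      rw [map_one, MulAut.one_apply]
      exact ⟨1, hyX⟩
    · exact ⟨0, hhX h hh⟩

end Pool.Agent.Lib.MP_b9166b_al.Aq
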