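import Pool.Agent.Lib.MP_b9166b_al.Aq.Tq

/-!
# MP_b9166b_al, PRIME POWER, regular case: the target from a good vector

Proof. Imitate `Rg.CovB` and `Rg.CovC` (`Cov.M₀`, `Cov.exists_M₀`, the end of `Cov.modular`). Let
`Q` be the group of the `q`-elements of `c.π.ker` (`QNil.exists_Q`), a normal subgroup of `L`, and
`Qb` its image in `L ⧸ center L`, a `q`-group which is not trivial by `hnc`. Let `V` be the group
of the `x ∈ Qb` which commute with `Qb` and satisfy `x ^ q = 1`. It is normal, not trivial (the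
centre of a finite `q`-group `≠ 1` is not trivial) and preserved by the automorphisms `c.ψ h`
induced by `c.φ h`. `L` acts on `V` by conjugation: this is `ρ`, and `fV h` is induced by `c.φ h`.
* `nt`: if `L` acts trivially on `V` then `Rg.center_of_comm` shows that the preimages of the
  elements of `V` are central in `L`, so `V` is trivial.
* `nil` and `cop`: `QNil.map`, as `Q` acts trivially on `V`.
Let `v` be a good vector of this `Vp q c V`, and `y ∈ L` a preimage of `v`. Let `X` be the preimage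
of `V` in `L`, and `χ` (for `TargetQ`) the composition of the map to `V` and `χ` (from `Good`).
`y` commutes with `c.φ h y` by `Rg.comm_of_norm` with `u = c.φ h y`, `δ` and `s` from `Good`
(`h ≠ 1`), and `p = q`.
-/

set_option autoImplicit false

namespace Pool.Agent.Lib.MP_b9166b_al.Aq

open Equiv Equiv.Perm Rg

open scoped IsMulCommutative

variable {Γ L : Type} [Group Γ] [Group L] [Fintype Γ] [DecidableEq Γ] {k : ℕ}

/-- the elements of order `q` in the centre of the image of `Q` modulo the centre -/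
def Mq (q : ℕ) (Q : Subgroup L) : Subgroup (L ⧸ Subgroup.center L) where
  carrier := {x | x ∈ Q.map (QuotientGroup.mk' (Subgroup.center L)) ∧
    (∀ r ∈ Q.map (QuotientGroup.mk' (Subgroup.center L)), r * x = x * r) ∧ x ^ q = 1}
  one_mem' := ⟨Subgroup.one_mem _, fun r _ => by rw [mul_one, one_mul], one_pow q⟩
  mul_mem' := by
    rintro a b ⟨ha, ha', ha''⟩ ⟨hb, hb', hb''⟩
    refine ⟨Subgroup.mul_mem _ ha hb, fun r hr => ?_, ?_⟩
    · rw [← mul_assoc, ha' r hr, mul_assoc, hb' r hr, mul_assoc]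
    · have h : Commute a b := hb' a ha
      rw [h.mul_pow, ha'', hb'', one_mul]
  inv_mem' := by
    rintro a ⟨ha, ha', ha''⟩
    refine ⟨Subgroup.inv_mem _ ha, fun r hr => ?_, ?_⟩
    · have h : Commute r a := ha' r hr
      exact h.inv_right.eq
    · rw [inv_pow, ha'', inv_one]

theorem Mq_normal (q : ℕ) {Q : Subgroup L} (hQ : Q.Normal) : (Mq q Q).Normal := by
  have hn : (Q.map (QuotientGroup.mk' (Subgroup.center L))).Normal :=
    Subgroup.Normal.map hQ _ (QuotientGroup.mk'_surjective _)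
  refine ⟨?_⟩
  rintro x ⟨hx, hx', hx''⟩ g
  refine ⟨hn.conj_mem x hx g, fun r hr => ?_, ?_⟩
  · have h1 := hx' (g⁻¹ * r * g) (by
      have h2 := hn.conj_mem r hr g⁻¹
      rwa [inv_inv] at h2)
    calc r * (g * x * g⁻¹) = g * ((g⁻¹ * r * g) * x) * g⁻¹ := by group
      _ = g * (x * (g⁻¹ * r * g)) * g⁻¹ := by rw [h1]
      _ = _ := by group
  · rw [conj_pow, hx'', mul_one, mul_inv_cancel]

theorem Mq_comm (q : ℕ) (Q : Subgroup L) : IsMulCommutative (Mq q Q) :=
  ⟨⟨fun a b => Subtype.ext (b.2.2.1 a.1 a.2.1)⟩⟩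

theorem ψ_map (c : Cov Γ L k) {Q : Subgroup L} (hQφ : ∀ h, ∀ x ∈ Q, c.φ h x ∈ Q) (h : Γ)
    {x : L ⧸ Subgroup.center L} (hx : x ∈ Q.map (QuotientGroup.mk' (Subgroup.center L))) :
    c.ψ h x ∈ Q.map (QuotientGroup.mk' (Subgroup.center L)) := by
  obtain ⟨n, hn, rfl⟩ := hx
  rw [c.ψ_mk]
  exact ⟨_, hQφ h n hn, rfl⟩

theorem ψ_Mq (c : Cov Γ L k) (q : ℕ) {Q : Subgroup L} (hQφ : ∀ h, ∀ x ∈ Q, c.φ h x ∈ Q) (h : Γ)
    {x : L ⧸ Subgroup.center L} (hx : x ∈ Mq q Q) : c.ψ h x ∈ Mq q Q := by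
  refine ⟨ψ_map c hQφ h hx.1, fun r hr => ?_, ?_⟩
  · have h1 := hx.2.1 (c.ψ h⁻¹ r) (ψ_map c hQφ h⁻¹ hr)
    have h2 := congrArg (c.ψ h) h1
    rwa [map_mul, map_mul, c.ψ_ψ, mul_inv_cancel, c.ψ_one] at h2
  · rw [← map_pow, hx.2.2, map_one]

/-- the action of `L` on `Mq` -/
def ρq (q : ℕ) {Q : Subgroup L} (hQ : Q.Normal) : L →* MulAut (Mq q Q) :=
  haveI := Mq_normal q hQ
  (MulAut.conjNormal (H := Mq q Q)).comp (QuotientGroup.mk' _)

theorem ρq_coe (q : ℕ) {Q : Subgroup L} (hQ : Q.Normal) (g : L) (m : Mq q Q) :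
    ((ρq q hQ g m : Mq q Q) : L ⧸ Subgroup.center L) =
      QuotientGroup.mk' (Subgroup.center L) g * m * (QuotientGroup.mk' (Subgroup.center L) g)⁻¹ := by
  have := Mq_normal q hQ
  exact MulAut.conjNormal_apply _ _

/-- the action of `Γ` on `Mq` -/
def fq (c : Cov Γ L k) (q : ℕ) {Q : Subgroup L} (hQφ : ∀ h, ∀ x ∈ Q, c.φ h x ∈ Q) :
    Γ →* MulAut (Mq q Q) where
  toFun h :=
    { toFun := fun m => ⟨c.ψ h m, ψ_Mq c q hQφ h m.2⟩
      invFun := fun m => ⟨c.ψ h⁻¹ m, ψ_Mq c q hQφ h⁻¹ m.2⟩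
      left_inv := fun m => Subtype.ext (by
        change c.ψ h⁻¹ (c.ψ h m) = m
        rw [c.ψ_ψ, inv_mul_cancel, c.ψ_one])
      right_inv := fun m => Subtype.ext (by
        change c.ψ h (c.ψ h⁻¹ m) = m
        rw [c.ψ_ψ, mul_inv_cancel, c.ψ_one])
      map_mul' := fun m m' => Subtype.ext (by
        change c.ψ h (m * m' : L ⧸ Subgroup.center L) = c.ψ h m * c.ψ h m'
        rw [map_mul]) }
  map_one' := by
    ext m
    exact c.ψ_one m
  map_mul' h h' := by
    ext m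
    exact (c.ψ_ψ h h' m).symm

theorem fq_coe (c : Cov Γ L k) (q : ℕ) {Q : Subgroup L} (hQφ : ∀ h, ∀ x ∈ Q, c.φ h x ∈ Q) (h : Γ)
    (m : Mq q Q) : ((fq c q hQφ h m : Mq q Q) : L ⧸ Subgroup.center L) = c.ψ h m := rfl

theorem exists_Mq [Finite L] {q : ℕ} (hq : q.Prime) {Q : Subgroup L}
    (hQ : ∀ x ∈ Q, ∃ j : ℕ, x ^ (q ^ j) = 1) (hnc : ∃ x ∈ Q, x ∉ Subgroup.center L) :
    ∃ x ∈ Mq q Q, x ≠ 1 := by
  have hqF : Fact q.Prime := ⟨hq⟩
  obtain ⟨P, hPdef⟩ : ∃ P, P = Q.map (QuotientGroup.mk' (Subgroup.center L)) := ⟨_, rfl⟩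
  have hP : IsPGroup q P := by
    rintro ⟨x, hx⟩
    rw [hPdef] at hx
    obtain ⟨y, hy, rfl⟩ := hx
    obtain ⟨j, hj⟩ := hQ y hy
    refine ⟨j, Subtype.ext ?_⟩
    change (QuotientGroup.mk' (Subgroup.center L) y) ^ (q ^ j) = 1
    rw [← map_pow, hj, map_one]
  have hnt : Nontrivial P := by
    obtain ⟨x, hx, hxc⟩ := hnc
    refine ⟨⟨⟨QuotientGroup.mk' _ x, by rw [hPdef]; exact ⟨x, hx, rfl⟩⟩, 1, fun h => hxc ?_⟩⟩
    exact (QuotientGroup.eq_one_iff x).1 (congrArg Subtype.val h)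
  have hc : Nontrivial (Subgroup.center P) := hP.center_nontrivial
  obtain ⟨z, hz⟩ := exists_ne (1 : Subgroup.center P)
  have hz' : (z : P) ≠ 1 := fun h => hz (Subtype.ext h)
  classical
  have hex : ∃ j : ℕ, (z : P) ^ (q ^ j) = 1 := hP z
  obtain ⟨j, hj, hmin⟩ : ∃ j : ℕ, (z : P) ^ (q ^ j) = 1 ∧ ∀ i < j, (z : P) ^ (q ^ i) ≠ 1 :=
    ⟨Nat.find hex, Nat.find_spec hex, fun i hi => Nat.find_min hex hi⟩
  obtain ⟨i, rfl⟩ : ∃ i, j = i + 1 := by
    rcases j with _ | i
    · rw [pow_zero, pow_one] at hj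
      exact absurd hj hz'
    · exact ⟨i, rfl⟩
  refine ⟨((z : P) ^ (q ^ i) : P), ⟨?_, ?_, ?_⟩, ?_⟩
  · rw [← hPdef]
    exact Subtype.property _
  · intro r hr
    rw [← hPdef] at hr
    have h1 : (z : P) ^ (q ^ i) ∈ Subgroup.center P := Subgroup.pow_mem _ z.2 _
    exact congrArg Subtype.val (Subgroup.mem_center_iff.1 h1 ⟨r, hr⟩)
  · have h1 : ((z : P) ^ (q ^ i)) ^ q = 1 := by
      rw [← pow_mul, ← pow_succ, hj]
    exact congrArg Subtype.val h1
  · intro h
    exact hmin i (Nat.lt_succ_self i) (Subtype.ext h)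

theorem target_noncentral [Finite L] {q : ℕ} (hq : q.Prime) (c : Cov Γ L k)
    (hperf : commutator L = ⊤) (hQN : QNil q c.π.ker)
    (hnc : ∃ x ∈ c.π.ker, (∃ j : ℕ, x ^ (q ^ j) = 1) ∧ x ∉ Subgroup.center L)
    (hgood : ∀ (V : Type) [CommGroup V] [Finite V] (S : Vp q c V), S.Good) : TargetQ q c := by
  obtain ⟨Q, hQ, -⟩ := hQN.exists_Q hq
  have hQn : Q.Normal := by
    refine ⟨fun x hx g => ?_⟩
    obtain ⟨hx1, j, hj⟩ := (hQ x).1 hx
    refine (hQ _).2 ⟨c.π.normal_ker.conj_mem x hx1 g, j, ?_⟩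
    rw [conj_pow, hj, mul_one, mul_inv_cancel]
  have hQφ : ∀ h, ∀ x ∈ Q, c.φ h x ∈ Q := by
    intro h x hx
    obtain ⟨hx1, j, hj⟩ := (hQ x).1 hx
    refine (hQ _).2 ⟨c.ker_inv h hx1, j, ?_⟩
    rw [← map_pow, hj, map_one]
  obtain ⟨x₀, hx₀, hx₀1⟩ : ∃ x ∈ Mq q Q, x ≠ 1 := by
    refine exists_Mq hq (fun x hx => ((hQ x).1 hx).2) ?_
    obtain ⟨x, hx, hj, hxc⟩ := hnc
    exact ⟨x, (hQ x).2 ⟨hx, hj⟩, hxc⟩
  have hq1 : ∀ x, QuotientGroup.mk' (Subgroup.center L) x = 1 ↔ x ∈ Subgroup.center L :=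
    fun x => QuotientGroup.eq_one_iff x
  have hcomm : IsMulCommutative (Mq q Q) := Mq_comm q Q
  have hρQ : ∀ x ∈ Q, ρq q hQn x = 1 := by
    intro x hx
    ext m
    rw [ρq_coe, MulAut.one_apply, m.2.2.1 _ ⟨x, hx, rfl⟩, mul_inv_cancel_right]
  have hmap := hQN.map hq (ρq q hQn) fun x hx hj => hρQ x ((hQ x).2 ⟨hx, hj⟩)
  let S : Vp q c (Mq q Q) :=
    { ρ := ρq q hQn
      fV := fq c q hQφ
      exp := fun v => Subtype.ext v.2.2.2
      compat := by
        intro h g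
        ext m
        rw [← map_inv, MulAut.mul_apply, MulAut.mul_apply, fq_coe, ρq_coe, ρq_coe, fq_coe,
          map_mul, map_mul, map_inv, c.ψ_ψ, c.ψ_mk, mul_inv_cancel, c.ψ_one]
      nt := by
        by_contra hcon
        push Not at hcon
        apply hx₀1
        obtain ⟨x, rfl⟩ := QuotientGroup.mk'_surjective _ x₀
        rw [hq1 x]
        apply center_of_comm hperf
        intro g
        rw [← hq1, map_mul, map_mul, map_mul, map_inv, map_inv, mul_inv_eq_one]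
        have h1 := congrArg Subtype.val (congrArg (fun f : MulAut (Mq q Q) => f ⟨_, hx₀⟩) (hcon g))
        change ((ρq q hQn g ⟨_, hx₀⟩ : Mq q Q) : L ⧸ Subgroup.center L) = _ at h1
        rw [ρq_coe] at h1
        exact h1
      nil := hmap.1
      cop := hmap.2 }
  obtain ⟨v, hv, χ, hadd, hχv, hχh⟩ := hgood (Mq q Q) S
  obtain ⟨y, hy⟩ := QuotientGroup.mk'_surjective (Subgroup.center L) v.1
  have hyh : ∀ h, QuotientGroup.mk' (Subgroup.center L) (c.φ h y) =
      ((S.fV h v : Mq q Q) : L ⧸ Subgroup.center L) := by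
    intro h
    change _ = c.ψ h (v : L ⧸ Subgroup.center L)
    rw [← hy, c.ψ_mk]
  have hyM : ∀ h, QuotientGroup.mk' (Subgroup.center L) (c.φ h y) ∈ Mq q Q := by
    intro h
    rw [hyh]
    exact Subtype.property _
  have hy1 : QuotientGroup.mk' (Subgroup.center L) y ∈ Mq q Q := by
    rw [hy]
    exact v.2
  classical
  let χL : L → ZMod q := fun x =>
    if h : QuotientGroup.mk' (Subgroup.center L) x ∈ Mq q Q then χ ⟨_, h⟩ else 0
  have hχL : ∀ x (h : QuotientGroup.mk' (Subgroup.center L) x ∈ Mq q Q), χL x = χ ⟨_, h⟩ :=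
    fun x h => dif_pos h
  refine ⟨(Mq q Q).comap (QuotientGroup.mk' _), χL, y, ?_, fun h => hyM h, ?_, ?_, ?_⟩
  · intro a ha b hb
    have hab : QuotientGroup.mk' (Subgroup.center L) (a * b) ∈ Mq q Q := by
      rw [map_mul]
      exact (Mq q Q).mul_mem ha hb
    rw [hχL a ha, hχL b hb, hχL _ hab, ← hadd]
    congr 1
  · intro h
    by_cases hh : h = 1
    · subst hh
      rw [map_one, MulAut.one_apply]
    · obtain ⟨δ, s, hs, hδ, hprod⟩ := hv h hh
      have hnorm : ∀ n : ℕ, QuotientGroup.mk' (Subgroup.center L)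
          ((List.map (fun i => δ ^ i * y * (δ ^ i)⁻¹) (List.range n)).prod) =
          ((∏ i ∈ Finset.range n, S.ρ (δ ^ i) v : Mq q Q) : L ⧸ Subgroup.center L) := by
        intro n
        induction n with
        | zero => simp
        | succ n ih =>
          rw [List.range_succ, List.map_append, List.prod_append, map_mul, ih,
            Finset.prod_range_succ, Subgroup.coe_mul]
          congr 1
          change _ = ((ρq q hQn (δ ^ n) v : Mq q Q) : L ⧸ Subgroup.center L)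
          rw [ρq_coe, ← hy, List.map_singleton, List.prod_singleton, map_mul, map_mul, map_inv]
      have hδu : QuotientGroup.mk' (Subgroup.center L) δ *
          QuotientGroup.mk' (Subgroup.center L) (c.φ h y) *
          (QuotientGroup.mk' (Subgroup.center L) δ)⁻¹ =
          QuotientGroup.mk' (Subgroup.center L) (c.φ h y) := by
        have h1 := congrArg Subtype.val hδ
        change ((ρq q hQn δ (S.fV h v) : Mq q Q) : L ⧸ Subgroup.center L) = _ at h1
        rw [ρq_coe, ← hyh] at h1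
        exact h1
      refine comm_of_norm (δ := δ) (s := s) (p := q) hs ?_ ?_ ?_ ?_
      · have h1 := (hyM h).2.1 _ hy1.1
        rw [← hq1, map_mul, map_mul, map_mul, map_inv, map_inv, h1]
        group
      · rw [← hq1, map_mul, map_mul, map_mul, map_inv, map_inv, hδu, mul_inv_cancel]
      · rw [← hq1, hnorm s, hprod]
        rfl
      · rw [← hq1, map_pow]
        exact hy1.2.2
  · rw [hχL y hy1, ← hχv]
    congr 1
    exact Subtype.ext hy
  · intro h hh
    rw [hχL _ (hyM h), ← hχh h hh]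
    congr 1
    exact Subtype.ext (hyh h)

end Pool.Agent.Lib.MP_b9166b_al.Aq
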