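import Pool.Agent.Lib.MP_b9166b_al.Aq.Gc
import Pool.Agent.Lib.MP_b9166b_al.Aq.Ga
import Pool.Agent.Lib.MP_b9166b_al.Aq.GeB
import Pool.Agent.Lib.MP_b9166b_al.Aq.Rk
import Pool.Agent.Lib.MP_b9166b_al.Aq.Tg
import Pool.Agent.Lib.MP_b9166b_al.Aq.Tc

/-!
# MP_b9166b_al, PRIME POWER, regular case: covers with many regular orbits have free elements
-/

set_option autoImplicit false

namespace Pool.Agent.Lib.MP_b9166b_al.Aq

open Equiv Equiv.Perm Rg

variable {Γ L : Type} [Group Γ] [Group L] [Fintype Γ] [DecidableEq Γ] {k : ℕ}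

theorem Vp.good [Finite L] {q : ℕ} (hq : q.Prime) {c : Cov Γ L k} (hperf : commutator L = ⊤)
    (hQN : QNil q c.π.ker) (hk : kb Γ ≤ k) (hk' : 300 ≤ k) {V : Type} [CommGroup V] [Finite V]
    (S : Vp q c V) : S.Good := by
  have h5 : 5 ≤ Nat.card (Γ × Fin k) := by
    rw [Nat.card_prod, Nat.card_eq_fintype_card (α := Fin k), Fintype.card_fin]
    have h1 : 1 ≤ Nat.card Γ := Nat.card_pos
    nlinarith
  have hker : ∀ g, S.ρ g = 1 → c.π g = 1 := ker_le c.range hperf h5 S.nt S.nil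
  by_cases hcen : ∀ n, c.π n = 1 → ∀ g, Commute (S.ρ n) (S.ρ g)
  · exact S.good_central hq hperf hk' hcen
  · push Not at hcen
    by_cases hab : ∀ U : Subgroup (MulAut V), U ≤ c.π.ker.map S.ρ →
        (∀ u ∈ U, ∀ u' ∈ U, Commute u u') →
        (∀ g, ∀ u ∈ U, S.ρ g * u * (S.ρ g)⁻¹ ∈ U) →
        (∀ h, ∀ u ∈ U, S.fV h * u * (S.fV h)⁻¹ ∈ U) → ∀ u ∈ U, ∀ g, Commute u (S.ρ g)
    · exact S.good_extra hq hperf (by omega) hker hab hcen
    · push Not at hab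
      obtain ⟨U, h1, h2, h3, h4, u, hu, g, hg⟩ := hab
      exact S.good_abelian hq hperf hQN hk U h1 h2 h3 h4 ⟨u, hu, g, hg⟩

/-- the bound for `k` -/
noncomputable def kq (q : ℕ) (Γ : Type) [Group Γ] : ℕ := kb Γ + 300 + 4 * q

theorem target [Finite L] {q : ℕ} (hq : q.Prime) (hΓ : IsPGroup q Γ) (c : Cov Γ L k)
    (hperf : commutator L = ⊤) (hQN : QNil q c.π.ker) (hk : kq q Γ ≤ k) : TargetQ q c := by
  unfold kq at hk
  by_cases hcen : ∀ x ∈ c.π.ker, (∃ j : ℕ, x ^ (q ^ j) = 1) → x ∈ Subgroup.center L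
  · exact target_central hq c hΓ hQN hcen (by omega)
  · push Not at hcen
    exact target_noncentral hq c hperf hQN hcen fun V _ _ S =>
      S.good hq hperf hQN (by omega) (by omega)

end Pool.Agent.Lib.MP_b9166b_al.Aq
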