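import Pool.Agent.Lib.MP_b9166b_al.Aq.Rq
import Pool.Agent.Lib.MP_b9166b_al.Aq.Good
import Pool.Agent.Lib.MP_b9166b_al.Rg.Reg

/-!
# MP_b9166b_al, PRIME POWER, regular case: free elements

Proof. As `Rg.Rc.cov` and `Rg.Rc.exists_free` (Rg/Reg.lean), with `target` instead of
`Cov.central` and `Cov.modular`, and `Rg.free_of`.
-/

set_option autoImplicit false

namespace Pool.Agent.Lib.MP_b9166b_al.Aq

open Equiv Equiv.Perm Rg

/-- the abstract cover -/
def Rq.cov {G : Type} [Group G] {q : ℕ} {F : Subgroup G} [Fintype F] [DecidableEq F] {k : ℕ}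
    (r : Rq q F k) : Cov F r.L k where
  φ :=
    { toFun := fun h =>
        { toFun := fun g => ⟨h * g * (h : G)⁻¹, r.norm h h.2 g g.2⟩
          invFun := fun g => ⟨(h : G)⁻¹ * g * h, by
            have h1 := r.norm (h : G)⁻¹ (F.inv_mem h.2) g g.2
            rwa [inv_inv] at h1⟩
          left_inv := fun g => by
            apply Subtype.ext
            change (h : G)⁻¹ * (h * g * (h : G)⁻¹) * h = g
            group
          right_inv := fun g => by
            apply Subtype.ext
            change (h : G) * ((h : G)⁻¹ * g * h) * (h : G)⁻¹ = g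
            group
          map_mul' := fun a b => by
            apply Subtype.ext
            change (h : G) * (a * b) * (h : G)⁻¹ = (h * a * (h : G)⁻¹) * (h * b * (h : G)⁻¹)
            group }
      map_one' := by
        ext g
        change ((1 : F) : G) * g * ((1 : F) : G)⁻¹ = g
        simp
      map_mul' := fun a b => by
        ext g
        change ((a * b : F) : G) * g * ((a * b : F) : G)⁻¹ = a * (b * g * (b : G)⁻¹) * (a : G)⁻¹
        rw [Subgroup.coe_mul]
        group }
  π := r.π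
  range := r.range
  equi := fun h g => r.equi h g

theorem Rq.cov_φ {G : Type} [Group G] {q : ℕ} {F : Subgroup G} [Fintype F] [DecidableEq F] {k : ℕ}
    (r : Rq q F k) (h : F) (g : r.L) : ((r.cov.φ h g : r.L) : G) = h * g * (h : G)⁻¹ :=
  rfl

theorem Rq.exists_free {G : Type} [Group G] {q : ℕ} (hq : q.Prime) {F : Subgroup G} [Fintype F]
    [DecidableEq F] (hF : IsPGroup q F) {k : ℕ} (hk : kq q F ≤ k) (r : Rq q F k) :
    Nonempty (Free q F) := by
  have := r.fin
  obtain ⟨X, χ, y, hadd, hX, hc, hχ, h0⟩ := target hq hF r.cov r.perf r.qnil hk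
  classical
  let χ' : G → ZMod q := fun g => if h : g ∈ r.L then χ ⟨g, h⟩ else 0
  have hχ' : ∀ g : r.L, χ' g = χ g := fun g => dif_pos g.2
  have hfin : Finite (X.map r.L.subtype) := by
    have hle : X.map r.L.subtype ≤ r.L := Subgroup.map_subtype_le _
    exact Finite.of_injective (Subgroup.inclusion hle) (Subgroup.inclusion_injective hle)
  refine free_of hq (X.map r.L.subtype) χ' ?_ (y : G) ?_ ?_ ?_ ?_
  · rintro _ ⟨a, ha, rfl⟩ _ ⟨b, hb, rfl⟩
    rw [← map_mul]
    change χ' (a * b : r.L) = χ' a + χ' b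
    rw [hχ', hχ', hχ']
    exact hadd a ha b hb
  · intro h hh
    exact ⟨r.cov.φ ⟨h, hh⟩ y, hX ⟨h, hh⟩, rfl⟩
  · intro h hh
    exact congrArg Subtype.val (hc ⟨h, hh⟩).eq
  · rw [hχ', hχ]
  · intro h hh hne
    have h1 := hχ' (r.cov.φ ⟨h, hh⟩ y)
    rw [Rq.cov_φ, h0 ⟨h, hh⟩ (fun h2 => hne (congrArg Subtype.val h2))] at h1
    exact h1

end Pool.Agent.Lib.MP_b9166b_al.Aq
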