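import Pool.Agent.Lib.MP_b9166b_al.Aq.RqA
import Pool.Agent.Lib.MP_b9166b_al.Aq.RqB
import Pool.Agent.Lib.MP_b9166b_al.Aq.NfR
import Pool.Agent.Lib.MP_b9166b_al.Aq.Large

/-!
# MP_b9166b_al, PRIME POWER, regular case

Proof. `no_finLin_q` with `exists_large`. For `hfree` let `F` be given, `k = kq q F`, and `F' ≥ F`
with `k * Nat.card F ≤ Nat.card F'` (`exists_large`). `hR` for `F'` gives `c` and `w`. There are
`t i ∈ F'`, `i < k`, with `t i * (t j)⁻¹ ∉ F` for `i ≠ j` (right cosets of `F` in `F'`). As in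
`Rg.regAlt_free` (Rg/RegB.lean) the map `(a, i) ↦ c.p (a * t i) w` is an embedding
`F × Fin k ↪ Fin c.n` as in `exists_rq`. Apply `exists_rq` and `Rq.exists_free`.
-/

set_option autoImplicit false

namespace Pool.Agent.Lib.MP_b9166b_al.Aq

open Equiv Equiv.Perm Rg

/-- representatives of different right cosets of `F` in a finite group `F'` -/
theorem exists_reps_in {G : Type} [Group G] {F F' : Subgroup G} [Finite F'] (hle : F ≤ F') {k : ℕ}
    (hk : k * Nat.card F ≤ Nat.card F') :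
    ∃ t : Fin k → G, (∀ i, t i ∈ F') ∧ ∀ i j, i ≠ j → t i * (t j)⁻¹ ∉ F := by
  have hfin : Finite (F' ⧸ F.subgroupOf F') := inferInstance
  have hcard : k ≤ Nat.card (F' ⧸ F.subgroupOf F') := by
    have h1 := (F.subgroupOf F').card_eq_card_quotient_mul_card_subgroup
    have h2 : Nat.card (F.subgroupOf F') = Nat.card F :=
      Nat.card_congr (Subgroup.subgroupOfEquivOfLe hle).toEquiv
    have h3 : Finite F := Finite.of_injective _ (Subgroup.inclusion_injective hle)
    rw [h2] at h1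
    rw [h1] at hk
    exact Nat.le_of_mul_le_mul_right hk Nat.card_pos
  obtain ⟨e⟩ : Nonempty (Fin k ↪ F' ⧸ F.subgroupOf F') := by
    have := Fintype.ofFinite (F' ⧸ F.subgroupOf F')
    apply Function.Embedding.nonempty_of_card_le
    rwa [Fintype.card_fin, ← Nat.card_eq_fintype_card]
  refine ⟨fun i => ((Quotient.out (e i) : F') : G)⁻¹, fun i => F'.inv_mem (Quotient.out (e i)).2,
    fun i j hij h => hij ?_⟩
  rw [inv_inv] at h
  have h3 : (QuotientGroup.mk (Quotient.out (e i)) : F' ⧸ F.subgroupOf F') =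
      QuotientGroup.mk (Quotient.out (e j)) := QuotientGroup.eq.2 (Subgroup.mem_subgroupOf.2 h)
  rw [QuotientGroup.out_eq', QuotientGroup.out_eq'] at h3
  exact e.injective h3

theorem case_R {G : Type} [Group G] (hs : IsSimpleGroup G) (hG : ¬ FinPerm G)
    (hcov : ∀ S : Finset G, ∃ c : Cv G, c.Cov S) {q : ℕ} (hq : q.Prime) {x : G} {j : ℕ}
    (hx : x ^ (q ^ j) = 1)
    (hR : ∀ F : Subgroup G, Finite F → IsPGroup q F → x ∈ F →
      ∃ c : Cv G, F ≤ c.H ∧ ∃ w : Fin c.n, ∀ h ∈ F, c.p h w = w → h = 1) :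
    ¬ FinLin (Subgroup.centralizer ({x} : Set G)) := by
  classical
  refine no_finLin_q hq hx (fun D hD hDq k => exists_large hs hG hcov hq D hD hDq k) ?_
  intro F hF hFq hxF
  have := Fintype.ofFinite F
  obtain ⟨F', hF'fin, hF'q, hle, hcard⟩ :=
    exists_large hs hG hcov hq F hF hFq (kq q F * Nat.card F)
  obtain ⟨c, hc, w, hw⟩ := hR F' hF'fin hF'q (hle hxF)
  obtain ⟨t, ht, htF⟩ := exists_reps_in hle hcard
  have hinj : ∀ a ∈ F', ∀ b ∈ F', c.p a w = c.p b w → a = b := by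
    intro a ha b hb hab
    have h1 : c.p (b⁻¹ * a) w = w := by
      rw [c.p_mul (hc (F'.inv_mem hb)) (hc ha), c.p_inv (hc hb), Perm.mul_apply, hab,
        Perm.inv_eq_iff_eq]
    exact (inv_mul_eq_one.1 (hw _ (F'.mul_mem (F'.inv_mem hb) ha) h1)).symm
  let ι : F × Fin (kq q F) ↪ Fin c.n := ⟨fun x => c.p (x.1 * t x.2) w, by
    rintro ⟨a, i⟩ ⟨b, l⟩ hab
    have h1 : (a : G) * t i = b * t l :=
      hinj _ (F'.mul_mem (hle a.2) (ht i)) _ (F'.mul_mem (hle b.2) (ht l)) hab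
    have h2 : t i * (t l)⁻¹ = (a : G)⁻¹ * b := by
      rw [mul_inv_eq_iff_eq_mul, mul_assoc, ← h1, inv_mul_cancel_left]
    have h3 : i = l := by
      by_contra hij
      apply htF i l hij
      rw [h2]
      exact F.mul_mem (F.inv_mem a.2) b.2
    subst h3
    have h4 : a = b := Subtype.ext (mul_right_cancel h1)
    rw [h4]⟩
  have hk : 5 ≤ kq q F := by
    unfold kq
    omega
  obtain ⟨r⟩ := exists_rq hq hFq hk c (hle.trans hc) ι (by
    rintro h ⟨a, i⟩
    change c.π ⟨h, hc (hle h.2)⟩ (c.p (a * t i) w) = c.p ((h * a : F) * t i) w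
    rw [← c.p_mem (hc (hle h.2)), ← Perm.mul_apply,
      ← c.p_mul (hc (hle h.2)) (hc (F'.mul_mem (hle a.2) (ht i))), ← mul_assoc]
    rfl)
  exact Rq.exists_free hq hFq le_rfl r

end Pool.Agent.Lib.MP_b9166b_al.Aq
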