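import Pool.Agent.Lib.MP_b9166b_al.Aq.CoreU
import Pool.Agent.Lib.MP_b9166b_al.Aq.Natural
import Pool.Agent.Lib.MP_b9166b_al.An.Nat

/-!
# MP_b9166b_al, PRIME POWER: the good covers for a `q`-group without regular orbits

Proof of `exists_cls`. This is the proof of `An.no_centralizer` and `An.exists_Pb` (An/Main.lean) up
to `hGood`, with `Aq.Cv` instead of `An.Cv` and with the core `U` instead of `c.H`.
* Define `Pmul F b` as `Pb` in An/Main.lean (with `Aq.thc`) and prove `exists_Pmul` (the same proof, from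
  `growth`). Let `b` be minimal with `Pmul F b`; `b ≠ 0`, `b ≠ 1` by `hNR`, so `b = b' + 1` with
  `0 < b'`, and there are `S₁`, `μ` such that no cover of `S₁` has `b'` stabilizers of
  multiplicity `μ` with trivial intersection.
* With `m = Sy.Bd (Nat.card F) b' (Nat.card (Subgroup F) * μ + 1)` let `P c` be: there are
  `hF : F ≤ c.H` and `A : Fin (b' + 1) → Subgroup F` with
  `∀ a, Mult (thc c hF) (A a) ((b' + 1) * m)` and trivial intersection. Enlarge `S₁` by the elements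
  of `F` (so `F ≤ c'.H` follows from `c'.Cov S₁`).
* `nat`: as `nat2_of` in An/Nat.lean: the system `Sy (Lr U) F (Fin c.n) (Fin c'.n)` of the core
  (as `An.sysOf`; `perf` by `res_perfect`, `range` by `map_res`), `conf_of_mult` for the
  configuration and `Sy.natural` with `hQ = Core.qnil`.
-/

set_option autoImplicit false

namespace Pool.Agent.Lib.MP_b9166b_al.Aq

open Equiv Equiv.Perm An

variable {G : Type} [Group G]

/-! ### The system of the core -/

section sys

variable {U F Ω Ω' : Type} [Group U] [Finite U] [Group F] [Fintype Ω] [DecidableEq Ω]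

/-- the system of the perfect residual -/
def syOf (π : U →* Perm Ω) (hr : π.range = alternatingGroup Ω) (h5 : 5 ≤ Fintype.card Ω)
    (π' : U →* Perm Ω') (i : F →* U) : Sy (Lr U) F Ω Ω' where
  φ := haveI := Lr_normal U
    (MulAut.conjNormal (H := Lr U)).comp i
  π := π.comp (Lr U).subtype
  θ := π.comp i
  a := π'.comp (Lr U).subtype
  b := π'.comp i
  range := by
    have h1 : (Lr U).map π = alternatingGroup Ω :=
      map_res π (K := ⊤) (by rw [← MonoidHom.range_eq_map, hr]) (perfect_range h5)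
    rw [← h1]
    ext σ
    constructor
    · rintro ⟨g, rfl⟩
      exact ⟨g, g.2, rfl⟩
    · rintro ⟨g, hg, rfl⟩
      exact ⟨⟨g, hg⟩, rfl⟩
  perf := by
    apply Subgroup.map_injective (Lr U).subtype_injective
    rw [commutator_def, Subgroup.map_commutator, ← MonoidHom.range_eq_map,
      Subgroup.range_subtype]
    exact res_perfect _
  eqπ h g := by
    have := Lr_normal U
    change π ((MulAut.conjNormal (i h) g : Lr U) : U) = π (i h) * π g * (π (i h))⁻¹
    rw [MulAut.conjNormal_apply, map_mul, map_mul, map_inv]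
  eqa h g := by
    have := Lr_normal U
    change π' ((MulAut.conjNormal (i h) g : Lr U) : U) = π' (i h) * π' g * (π' (i h))⁻¹
    rw [MulAut.conjNormal_apply, map_mul, map_mul, map_inv]

/-- natural type for covers -/
theorem nat2_core [Finite F] {π : U →* Perm Ω} (hr : π.range = alternatingGroup Ω) {q : ℕ}
    (hq : q.Prime) (hQ : QNil q (π.comp (Lr U).subtype).ker) (h5 : 5 ≤ Fintype.card Ω)
    (π' : U →* Perm Ω') (i : F →* U) {b m μ : ℕ} (hb : 0 < b)
    (c : Conf (π.comp i) (Fin (b + 1)) (Fin m))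
    (hm : Sy.Bd (Nat.card F) b (Nat.card (Subgroup F) * μ + 1) ≤ m)
    (hNR : ∀ ψ, ∃ h, h ≠ 1 ∧ (π'.comp i) h ψ = ψ)
    (hNM : ¬ ∃ A : Fin b → Subgroup F, (∀ a, Mult (π'.comp i) (A a) μ) ∧
      ∀ f, (∀ a, f ∈ A a) → f = 1) : Nat2 π π' := by
  intro ψ
  by_cases hmv : ∀ g ∈ Lr U, π' g ψ = ψ
  · exact Or.inl hmv
  right
  push Not at hmv
  rcases (syOf π hr h5 π' i).natural hq hQ hb c hm hNR hNM ψ with h | ⟨ω, h1, h2⟩
  · obtain ⟨g, hg, hgψ⟩ := hmv
    exact absurd (h ⟨g, hg⟩) hgψ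
  · refine ⟨ω, hmv, ?_, fun g hg hgψ => h2 ⟨g, hg⟩ hgψ⟩
    intro g hg
    have h3 : (stb (π.comp (Lr U).subtype) ω).map (Lr U).subtype = Lr U ⊓ fixs π {ω}ᶜ := by
      ext x
      constructor
      · rintro ⟨y, hy, rfl⟩
        refine ⟨y.2, fun α hα => ?_⟩
        have h4 : α = ω := by simpa using hα
        rw [h4]
        exact hy
      · rintro ⟨hx1, hx2⟩
        exact ⟨⟨x, hx1⟩, hx2 ω (by simp), rfl⟩
    rw [Vr, ← h3, res_map _ (Lr U).subtype_injective] at hg
    obtain ⟨y, hy, rfl⟩ := hg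
    exact h1 y hy

end sys

/-! ### Stabilizers of large multiplicity -/

/-- `b` stabilizers of large multiplicity with trivial intersection -/
def Pmul (F : Subgroup G) (b : ℕ) : Prop :=
  ∀ (S : Finset G) (m : ℕ), ∃ c : Cv G, c.Cov S ∧ ∃ hF : F ≤ c.H, ∃ A : Fin b → Subgroup F,
    (∀ a, Mult (thc c hF) (A a) m) ∧ ∀ f, (∀ a, f ∈ A a) → f = 1

/-- large multiplicities exist -/
theorem exists_Pmul (hcov : ∀ S : Finset G, ∃ c : Cv G, c.Cov S)
    (hgrow : ∀ z : G, z ≠ 1 → ∀ m : ℕ, ∃ S : Finset G, ∀ c : Cv G, c.Cov S →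
      m < (c.p z).support.card) (F : Subgroup G) [Finite F] : ∃ b, Pmul F b := by
  classical
  have := Fintype.ofFinite F
  let e := Fintype.equivFin {f : F // f ≠ 1}
  refine ⟨Fintype.card {f : F // f ≠ 1}, fun S m => ?_⟩
  set M := Nat.card (Subgroup F) * m + 1 with hM
  choose Sf hSf using fun f : {f : F // f ≠ 1} => hgrow (f.1 : G)
    (fun h => f.2 (Subtype.ext h)) (M * Nat.card F)
  obtain ⟨c, hc⟩ := hcov (S ∪ (Set.toFinite (F : Set G)).toFinset ∪ Finset.univ.biUnion Sf)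
  have hF : F ≤ c.H := by
    intro g hg
    apply hc.mem
    simp only [Finset.mem_union, Set.Finite.mem_toFinset, SetLike.mem_coe]
    exact Or.inl (Or.inr hg)
  have hmult : ∀ f : {f : F // f ≠ 1}, ∃ A : Subgroup F, Mult (thc c hF) A m ∧ f.1 ∉ A := by
    intro f
    have h1 := hSf f c (hc.mono (by
      intro g hg
      rw [Finset.mem_union]
      exact Or.inr (Finset.mem_biUnion.2 ⟨f, Finset.mem_univ _, hg⟩)))
    obtain ⟨O, hO, hO'⟩ := exists_orbits (thc c hF) _ M h1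
    have e' : Fin M ≃ O := Fintype.equivOfCardEq (by rw [Fintype.card_fin, Fintype.card_coe, hO])
    choose y hy hy' using fun i : Fin M => hO' (e' i) (e' i).2
    obtain ⟨i, hi⟩ := exists_mult (thc c hF) (μ := m) y (by
      intro i j g h
      have h2 : cls (thc c hF) (y i) = cls (thc c hF) (y j) := by
        rw [← h, cls_apply]
      rw [hy', hy'] at h2
      exact e'.injective (Subtype.ext h2)) (by omega) (by omega)
    refine ⟨_, hi, fun h2 => ?_⟩
    have h3 := hy i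
    rw [mem_support] at h3
    apply h3
    rw [c.p_mem (hF f.1.2)]
    exact h2
  choose A hA hA' using hmult
  refine ⟨c, hc.mono (by
    intro g hg
    simp only [Finset.mem_union]
    exact Or.inl (Or.inl hg)), hF, fun a => A (e.symm a), fun a => hA _, ?_⟩
  intro f hf
  by_contra hne
  have h1 : f ∈ A (e.symm (e ⟨f, hne⟩)) := hf (e ⟨f, hne⟩)
  rw [Equiv.symm_apply_apply] at h1
  exact hA' ⟨f, hne⟩ h1

/-- a class of covers for the `q`-group `F`, of natural type for all covers of `S₁` -/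
structure Cls (q : ℕ) (F : Subgroup G) (P : Cv G → Prop) (S₁ : Finset G) : Prop where
  ex : ∀ S : Finset G, ∃ c, P c ∧ c.Cov S
  le : ∀ c, P c → F ≤ c.H
  big : ∀ c, P c → 6 ≤ c.n
  nat : ∀ c, P c → ∀ (U : Subgroup G) (hU : Core q c F U) (c' : Cv G), c'.Cov S₁ →
    ∀ hU' : U ≤ c'.H, Nat2 (thc c hU.le) (thc c' hU')

theorem exists_cls (hs : IsSimpleGroup G) (hG : ¬ FinPerm G)
    (hcov : ∀ S : Finset G, ∃ c : Cv G, c.Cov S) {q : ℕ} (hq : q.Prime) (F : Subgroup G)
    [Finite F] (hFq : IsPGroup q F)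
    (hNR : ∀ (c : Cv G) (hF : F ≤ c.H) (ω : Fin c.n), ∃ h : F, h ≠ 1 ∧ thc c hF h ω = ω) :
    ∃ (P : Cv G → Prop) (S₁ : Finset G), Cls q F P S₁ := by
  classical
  have hgrow : ∀ z : G, z ≠ 1 → ∀ m : ℕ, ∃ S : Finset G, ∀ c : Cv G, c.Cov S →
      m < (c.p z).support.card := fun z hz m => growth hs hG hz m
  obtain ⟨z₀, hz₀⟩ := exists_ne (1 : G)
  obtain ⟨b, hb, hbmin⟩ : ∃ b, Pmul F b ∧ ∀ b' < b, ¬ Pmul F b' :=
    ⟨_, Nat.find_spec (exists_Pmul hcov hgrow F), fun b' h => Nat.find_min _ h⟩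
  have hb0 : b ≠ 0 := by
    rintro rfl
    obtain ⟨S, hS⟩ := hgrow z₀ hz₀ 0
    obtain ⟨c, hc, hF, A, -, htriv⟩ := hb S 1
    have h1 := hS c hc
    obtain ⟨ω, hω⟩ := Finset.card_pos.1 h1
    obtain ⟨h, hh, -⟩ := hNR c hF ω
    exact hh (htriv h fun a => a.elim0)
  have hb1 : b ≠ 1 := by
    rintro rfl
    obtain ⟨c, hc, hF, A, hA, htriv⟩ := hb ∅ 1
    obtain ⟨p, hp, -⟩ := hA 0
    obtain ⟨h, hh, hh'⟩ := hNR c hF (p 0)
    apply hh
    apply htriv
    intro a
    rw [Subsingleton.elim a 0]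
    exact (hp 0 h).1 hh'
  obtain ⟨b, rfl⟩ : ∃ b', b = b' + 1 := ⟨b - 1, by omega⟩
  have hbpos : 0 < b := by omega
  have h1 := hbmin b (by omega)
  unfold Pmul at h1
  push Not at h1
  obtain ⟨S₁, μ, hμ⟩ := h1
  set m := Sy.Bd (Nat.card F) b (Nat.card (Subgroup F) * μ + 1) with hm
  have h10 : 10 ≤ m := by
    rw [hm, Sy.Bd]
    omega
  have hbig : ∀ c : Cv G, (∃ hF : F ≤ c.H, ∃ A : Fin (b + 1) → Subgroup F,
      (∀ a, Mult (thc c hF) (A a) ((b + 1) * m)) ∧ ∀ f, (∀ a, f ∈ A a) → f = 1) →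
      6 ≤ c.n := by
    rintro c ⟨hF, A, hA, -⟩
    obtain ⟨p, -, hp⟩ := hA 0
    have hinj : Function.Injective p := by
      intro i j h
      apply hp i j 1
      rw [map_one, Perm.one_apply, h]
    have h2 := Fintype.card_le_of_injective p hinj
    rw [Fintype.card_fin, Fintype.card_fin] at h2
    have h3 : 1 * m ≤ (b + 1) * m := Nat.mul_le_mul_right _ (by omega)
    omega
  refine ⟨fun c => ∃ hF : F ≤ c.H, ∃ A : Fin (b + 1) → Subgroup F,
    (∀ a, Mult (thc c hF) (A a) ((b + 1) * m)) ∧ ∀ f, (∀ a, f ∈ A a) → f = 1, S₁, ?_, ?_,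
    hbig, ?_⟩
  · intro S
    obtain ⟨c, hc, hF, A, hA, htriv⟩ := hb S ((b + 1) * m)
    exact ⟨c, ⟨hF, A, hA, htriv⟩, hc⟩
  · rintro c ⟨hF, -⟩
    exact hF
  · intro c hc U hU c' hc' hU'
    obtain ⟨hF, A, hA, htriv⟩ := id hc
    obtain ⟨cf⟩ := conf_of_mult A hA htriv
    have h6 := hbig c hc
    have hfin : Finite U := Finite.of_injective (Subgroup.inclusion hU.le)
      (Subgroup.inclusion_injective hU.le)
    refine nat2_core hU.range hq hU.qnil (by rw [Fintype.card_fin]; omega) (thc c' hU')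
      (Subgroup.inclusion hU.FU) hbpos cf le_rfl (μ := μ) ?_ ?_
    · intro ψ
      exact hNR c' (hU.FU.trans hU') ψ
    · rintro ⟨A', hA', htriv'⟩
      obtain ⟨f, hf, hf1⟩ := hμ c' hc' (hU.FU.trans hU') A' hA'
      exact hf1 (htriv' f hf)

end Pool.Agent.Lib.MP_b9166b_al.Aq
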