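import Pool.Agent.Lib.MP_b9166b_al.Aq.QN

/-!
# MP_b9166b_al, PRIME POWER: minimal invariant subgroups (Frattini)

`F` is a finite `q`-group which acts on the finite group `L`, and `L` is the only `F`-invariant
subgroup of `L` which has the same image as `L` under `π`. The image is perfect. Then `L` is
perfect, and the kernel of `π` has a normal Sylow `q`-subgroup with nilpotent quotient.

Proof.
* `commutator L` is invariant under automorphisms and has the image
  `⁅π.range, π.range⁆ = π.range`. So it is `⊤` by minimality.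
* Let `N` be the kernel. `F` is a `q`-group, and the number of the Sylow `q`-subgroups of `N` is
  `≡ 1` modulo `q`, so `F` fixes one of them, `P`. By the argument of Frattini the normalizer of
  `P` in `L` has the image `π.range`, and it is `F`-invariant. So it is `⊤`, and `P` is normal.
* Let `r ≠ q` be a prime and consider `N / P`, whose order is prime to `q`. The number of its Sylow
  `r`-subgroups divides `|N / P|`, so it is prime to `q`, and `F` fixes one of them. Again its
  normalizer in `L / P` has the same image, the preimage in `L` is `F`-invariant, so it is `⊤`. So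
  all Sylow subgroups of `N / P` are normal, and `N / P` is nilpotent.
-/

set_option autoImplicit false

open scoped Pointwise

namespace Pool.Agent.Lib.MP_b9166b_al.Aq

/-- the restriction of an action to an invariant subgroup -/
def fratRes {L F : Type} [Group L] [Group F] (φ : F →* MulAut L) (N : Subgroup L)
    (hN : ∀ h, ∀ g ∈ N, φ h g ∈ N) : F →* MulAut N where
  toFun h :=
    { toFun := fun x => ⟨φ h x, hN h x x.2⟩
      invFun := fun x => ⟨φ h⁻¹ x, hN h⁻¹ x x.2⟩
      left_inv := fun x => by
        apply Subtype.ext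
        change φ h⁻¹ (φ h x) = x
        rw [← MulAut.mul_apply, ← map_mul, inv_mul_cancel, map_one, MulAut.one_apply]
      right_inv := fun x => by
        apply Subtype.ext
        change φ h (φ h⁻¹ x) = x
        rw [← MulAut.mul_apply, ← map_mul, mul_inv_cancel, map_one, MulAut.one_apply]
      map_mul' := fun x y => by
        apply Subtype.ext
        change φ h (x * y) = φ h x * φ h y
        rw [map_mul] }
  map_one' := by
    ext x
    change φ 1 (x : L) = x
    rw [map_one, MulAut.one_apply]
  map_mul' := fun a b => by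
    ext x
    change φ (a * b) (x : L) = φ a (φ b x)
    rw [map_mul, MulAut.mul_apply]

/-- an invariant Sylow subgroup of the kernel is normal -/
theorem frat_sylow {L F P : Type} [Group L] [Finite L] [Group F] [Finite F] [Group P] {q : ℕ}
    (hq : q.Prime) (hF : IsPGroup q F) (φ : F →* MulAut L) (π : L →* P)
    (hk : ∀ h g, π g = 1 → π (φ h g) = 1)
    (hmin : ∀ M : Subgroup L, (∀ h, ∀ g ∈ M, φ h g ∈ M) → M.map π = π.range → M = ⊤)
    (r : ℕ) [Fact r.Prime] (hr : ¬ q ∣ Nat.card (Sylow r π.ker)) :
    ∃ S : Sylow r π.ker, ((S : Subgroup π.ker).map π.ker.subtype).Normal ∧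
      ∀ h, ∀ x ∈ (S : Subgroup π.ker).map π.ker.subtype,
        φ h x ∈ (S : Subgroup π.ker).map π.ker.subtype := by
  have : Fact q.Prime := ⟨hq⟩
  have hN : ∀ h, ∀ g ∈ π.ker, φ h g ∈ π.ker := fun h g hg => hk h g hg
  let : MulAction F (Sylow r π.ker) := MulAction.compHom (Sylow r π.ker) (fratRes φ π.ker hN)
  obtain ⟨S, hS⟩ := hF.nonempty_fixed_point_of_prime_not_dvd_card (Sylow r π.ker) hr
  have hfix : ∀ h, (fratRes φ π.ker hN h) • (S : Subgroup π.ker) = (S : Subgroup π.ker) := by
    intro h
    have h1 : (fratRes φ π.ker hN h) • S = S := hS h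
    have h2 := congrArg (fun T : Sylow r π.ker => (T : Subgroup π.ker)) h1
    exact h2
  have hinv : ∀ h, ∀ x ∈ (S : Subgroup π.ker).map π.ker.subtype,
      φ h x ∈ (S : Subgroup π.ker).map π.ker.subtype := by
    rintro h _ ⟨x, hx, rfl⟩
    refine ⟨fratRes φ π.ker hN h x, ?_, rfl⟩
    rw [← hfix h]
    exact Subgroup.smul_mem_pointwise_smul x _ _ hx
  have hiff : ∀ h x, x ∈ (S : Subgroup π.ker).map π.ker.subtype ↔
      φ h x ∈ (S : Subgroup π.ker).map π.ker.subtype := by
    intro h x
    refine ⟨hinv h x, fun hx => ?_⟩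
    have h1 := hinv h⁻¹ _ hx
    rwa [← MulAut.mul_apply, ← map_mul, inv_mul_cancel, map_one, MulAut.one_apply] at h1
  have htop := Sylow.normalizer_sup_eq_top S
  have hM : Subgroup.normalizer (((S : Subgroup π.ker).map π.ker.subtype : Subgroup L) : Set L) =
      ⊤ := by
    refine hmin _ ?_ ?_
    · intro h g hg
      rw [Subgroup.mem_normalizer_iff] at hg ⊢
      intro x
      have h0 : φ h (φ h⁻¹ x) = x := by
        rw [← MulAut.mul_apply, ← map_mul, mul_inv_cancel, map_one, MulAut.one_apply]
      have h1 := hg (φ h⁻¹ x)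
      rw [hiff h (φ h⁻¹ x), hiff h (g * φ h⁻¹ x * g⁻¹), map_mul (φ h), map_mul (φ h),
        map_inv (φ h), h0] at h1
      exact h1
    · have h1 := congrArg (Subgroup.map π) htop
      rw [Subgroup.map_sup] at h1
      have h2 : π.ker.map π = ⊥ := by
        rw [Subgroup.map_eq_bot_iff]
      rw [h2, sup_bot_eq, ← MonoidHom.range_eq_map] at h1
      exact h1
  refine ⟨S, Subgroup.normalizer_eq_top_iff.1 hM, hinv⟩

/-- the action on the quotient by an invariant normal subgroup -/
noncomputable def fratQuo {L F : Type} [Group L] [Group F] (φ : F →* MulAut L) (Q : Subgroup L)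
    [Q.Normal] (hQ : ∀ h, ∀ g ∈ Q, φ h g ∈ Q) : F →* MulAut (L ⧸ Q) where
  toFun h := QuotientGroup.congr Q Q (φ h) (by
    apply le_antisymm
    · rintro _ ⟨x, hx, rfl⟩
      exact hQ h x hx
    · intro x hx
      refine ⟨φ h⁻¹ x, hQ h⁻¹ x hx, ?_⟩
      change φ h (φ h⁻¹ x) = x
      rw [← MulAut.mul_apply, ← map_mul, mul_inv_cancel, map_one, MulAut.one_apply])
  map_one' := by
    apply MulEquiv.ext
    intro x
    obtain ⟨x, rfl⟩ := QuotientGroup.mk_surjective x
    change (QuotientGroup.mk (φ 1 x) : L ⧸ Q) = QuotientGroup.mk x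
    rw [map_one, MulAut.one_apply]
  map_mul' := fun a b => by
    apply MulEquiv.ext
    intro x
    obtain ⟨x, rfl⟩ := QuotientGroup.mk_surjective x
    change (QuotientGroup.mk (φ (a * b) x) : L ⧸ Q) = QuotientGroup.mk (φ a (φ b x))
    rw [map_mul, MulAut.mul_apply]

theorem fratQuo_mk {L F : Type} [Group L] [Group F] (φ : F →* MulAut L) (Q : Subgroup L)
    [Q.Normal] (hQ : ∀ h, ∀ g ∈ Q, φ h g ∈ Q) (h : F) (x : L) :
    fratQuo φ Q hQ h (QuotientGroup.mk x) = QuotientGroup.mk (φ h x) := rfl

theorem frattini {L F P : Type} [Group L] [Finite L] [Group F] [Finite F] [Group P] {q : ℕ}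
    (hq : q.Prime) (hF : IsPGroup q F) (φ : F →* MulAut L) (π : L →* P)
    (hr : ⁅π.range, π.range⁆ = π.range) (hk : ∀ h g, π g = 1 → π (φ h g) = 1)
    (hmin : ∀ M : Subgroup L, (∀ h, ∀ g ∈ M, φ h g ∈ M) → M.map π = π.range → M = ⊤) :
    commutator L = ⊤ ∧ QNil q π.ker := by
  have : Fact q.Prime := ⟨hq⟩
  constructor
  · refine hmin _ ?_ ?_
    · intro h g hg
      have h1 : (commutator L).map (φ h).toMonoidHom = commutator L :=
        Subgroup.characteristic_iff_map_eq.1 inferInstance (φ h)
      rw [← h1]
      exact ⟨g, hg, rfl⟩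
    · rw [commutator_def, Subgroup.map_commutator, ← MonoidHom.range_eq_map, hr]
  · -- the normal Sylow `q`-subgroup
    obtain ⟨S, hSn, hSi⟩ := frat_sylow hq hF φ π hk hmin q (not_dvd_card_sylow q π.ker)
    obtain ⟨Q, hQ⟩ : ∃ Q : Subgroup L, Q = (S : Subgroup π.ker).map π.ker.subtype := ⟨_, rfl⟩
    rw [← hQ] at hSn hSi
    have hQN : ∀ x ∈ Q, π x = 1 := by
      rw [hQ]
      rintro _ ⟨x, _, rfl⟩
      exact x.2
    -- the quotient
    let π' : L ⧸ Q →* P := QuotientGroup.lift Q π hQN
    have hπ' : ∀ x : L, π' (QuotientGroup.mk x) = π x := fun x => rfl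
    have hk' : ∀ h g, π' g = 1 → π' (fratQuo φ Q hSi h g) = 1 := by
      intro h g
      obtain ⟨g, rfl⟩ := QuotientGroup.mk_surjective g
      rw [fratQuo_mk, hπ', hπ']
      exact hk h g
    have hmin' : ∀ M : Subgroup (L ⧸ Q), (∀ h, ∀ g ∈ M, fratQuo φ Q hSi h g ∈ M) →
        M.map π' = π'.range → M = ⊤ := by
      intro M hM hM'
      have h1 : M.comap (QuotientGroup.mk' Q) = ⊤ := by
        refine hmin _ ?_ ?_
        · intro h g hg
          exact hM h _ hg
        · have h2 : π = π'.comp (QuotientGroup.mk' Q) := rfl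
          have h3 : (M.comap (QuotientGroup.mk' Q)).map (QuotientGroup.mk' Q) = M :=
            Subgroup.map_comap_eq_self_of_surjective (QuotientGroup.mk'_surjective Q) M
          have h4 : π'.range = π.range := by
            ext y
            constructor
            · rintro ⟨x, rfl⟩
              obtain ⟨x, rfl⟩ := QuotientGroup.mk_surjective x
              exact ⟨x, rfl⟩
            · rintro ⟨x, rfl⟩
              exact ⟨QuotientGroup.mk x, rfl⟩
          rw [← h4, ← hM']
          conv_lhs => rw [h2]
          rw [← Subgroup.map_map, h3]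
      rw [eq_top_iff]
      intro y _
      obtain ⟨y, rfl⟩ := QuotientGroup.mk_surjective y
      have h2 : y ∈ M.comap (QuotientGroup.mk' Q) := by
        rw [h1]
        exact Subgroup.mem_top y
      exact h2
    -- the homomorphism to the kernel of `π'`
    let f : π.ker →* π'.ker :=
      ((QuotientGroup.mk' Q).comp π.ker.subtype).codRestrict π'.ker (fun x => by
        change π' (QuotientGroup.mk (x : L)) = 1
        rw [hπ']
        exact x.2)
    have hf : ∀ x, f x = 1 ↔ x ∈ (S : Subgroup π.ker) := by
      intro x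
      have h1 : f x = 1 ↔ (QuotientGroup.mk (x : L) : L ⧸ Q) = 1 := by
        rw [Subtype.ext_iff]
        rfl
      rw [h1, QuotientGroup.eq_one_iff, hQ]
      constructor
      · rintro ⟨y, hy, hxy⟩
        have : y = x := Subtype.ext hxy
        rwa [← this]
      · intro hx
        exact ⟨x, hx, rfl⟩
    have hker : f.ker = (S : Subgroup π.ker) := by
      ext x
      rw [MonoidHom.mem_ker, hf]
    have hfs : Function.Surjective f := by
      rintro ⟨y, hy⟩
      obtain ⟨y, rfl⟩ := QuotientGroup.mk_surjective y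
      have hy' : π y = 1 := hy
      exact ⟨⟨y, hy'⟩, rfl⟩
    have hcard : Nat.card π'.ker = (S : Subgroup π.ker).index := by
      rw [← hker, Subgroup.index_ker, MonoidHom.range_eq_top.2 hfs, Subgroup.card_top]
    have hcop : ¬ q ∣ Nat.card π'.ker := by
      rw [hcard]
      exact S.not_dvd_index
    refine ⟨π'.ker, inferInstance, inferInstance, f, ?_, ?_, ?_⟩
    · refine (Group.isNilpotent_of_finite_tfae.out 0 3 rfl rfl).2 ?_
      intro r hr' T
      have hd : ¬ q ∣ Nat.card (Sylow r π'.ker) := fun h =>
        hcop ((h.trans T.card_dvd_index).trans (Subgroup.index_dvd_card _))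
      obtain ⟨S', hS', -⟩ := frat_sylow hq hF (fratQuo φ Q hSi) π' hk' hmin' r hd
      have hn : (S' : Subgroup π'.ker).Normal := by
        have h1 := hS'.comap π'.ker.subtype
        rwa [Subgroup.comap_map_eq_self_of_injective (Subgroup.subtype_injective _)] at h1
      have := Sylow.unique_of_normal S' hn
      have h2 : T = S' := Subsingleton.elim _ _
      rw [h2]
      exact hn
    · exact ((Nat.Prime.coprime_iff_not_dvd hq).2 hcop).symm
    · rw [hker]
      exact S.2

end Pool.Agent.Lib.MP_b9166b_al.Aq
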