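import Pool.Agent.Lib.MP_b9166b_al.Aq.Cv
import Pool.Agent.Lib.MP_b9166b_al.Aq.Frat
import Pool.Agent.Lib.MP_b9166b_al.An.Lvl

/-!
# MP_b9166b_al, PRIME POWER: the core of a cover for a `q`-group of operators

`Core q c F U`: the subgroup `U` of `c.H` contains `F`, maps onto the alternating group, and the
kernel on its perfect residual is an extension of a `q`-group by a nilpotent group of order prime
to `q`.

Proof of `exists_core`. `c.H` is finite. Among the subgroups `L` of `c.H` normalized by `F` whose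
image under `c.π` is the alternating group choose one of minimal order, and apply `frattini` to
`L`, with `F` acting by conjugation (the alternating group of at least five points is perfect,
`perfect_range`). So `L` is perfect and the kernel on `L` is `QNil`. Let `U = L ⊔ F`. `L` is
normal in `U`, and `U / L` is a homomorphic image of the `q`-group `F`, so it is solvable. Hence the
perfect residual of `U` is contained in `L` (`res_perfect`, and a perfect subgroup of a solvable
group is trivial). Use `QNil.comap`.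
-/

set_option autoImplicit false

namespace Pool.Agent.Lib.MP_b9166b_al.Aq

open Equiv Equiv.Perm An

variable {G : Type} [Group G]

/-- the homomorphism of a subgroup of `H` -/
def thc (c : Cv G) {F : Subgroup G} (hF : F ≤ c.H) : F →* Perm (Fin c.n) :=
  c.π.comp (Subgroup.inclusion hF)

/-- the core of a cover -/
structure Core (q : ℕ) (c : Cv G) (F U : Subgroup G) : Prop where
  le : U ≤ c.H
  FU : F ≤ U
  range : (thc c le).range = alternatingGroup (Fin c.n)
  qnil : QNil q ((thc c le).comp (Lr U).subtype).ker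

/-- a perfect subgroup of a solvable group is trivial -/
theorem coreU_perfect {Q : Type} [Group Q] [Group.IsSolvable Q] {K : Subgroup Q} (hK : ⁅K, K⁆ = K) :
    K = ⊥ := by
  have h1 : ∀ n, K ≤ derivedSeries Q n := by
    intro n
    induction n with
    | zero => exact le_top
    | succ n ih =>
      rw [derivedSeries_succ, ← hK]
      exact Subgroup.commutator_mono ih ih
  obtain ⟨n, hn⟩ := Group.IsSolvable.solvable (G := Q)
  rw [eq_bot_iff, ← hn]
  exact h1 n

/-- the perfect residual of the product of `L` and a `q`-group which normalizes `L` -/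
theorem coreU_res {q : ℕ} (hq : q.Prime) {L F : Subgroup G} (hF : IsPGroup q F)
    (hn : F ≤ Subgroup.normalizer (L : Set G)) [Finite F] :
    ∀ x ∈ Lr ↥(L ⊔ F), (x : G) ∈ L := by
  have : Fact q.Prime := ⟨hq⟩
  have hU : L ⊔ F ≤ Subgroup.normalizer (L : Set G) := sup_le Subgroup.le_normalizer hn
  have hN : (L.subgroupOf (L ⊔ F)).Normal := by
    refine ⟨fun x hx g => ?_⟩
    rw [Subgroup.mem_subgroupOf] at hx ⊢
    exact (Subgroup.mem_normalizer_iff.1 (hU g.2) x).1 hx
  let g : F →* ↥(L ⊔ F) ⧸ L.subgroupOf (L ⊔ F) :=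
    (QuotientGroup.mk' (L.subgroupOf (L ⊔ F))).comp
      (Subgroup.inclusion (le_sup_right : F ≤ L ⊔ F))
  have hg : Function.Surjective g := by
    have h1 : L ⊔ F ≤ (g.range.comap (QuotientGroup.mk' (L.subgroupOf (L ⊔ F)))).map
        (L ⊔ F).subtype := by
      refine sup_le ?_ ?_
      · intro x hx
        refine ⟨⟨x, (le_sup_left : L ≤ L ⊔ F) hx⟩, ?_, rfl⟩
        have h2 : (QuotientGroup.mk' (L.subgroupOf (L ⊔ F)))
            ⟨x, (le_sup_left : L ≤ L ⊔ F) hx⟩ = 1 := by
          rw [QuotientGroup.mk'_apply, QuotientGroup.eq_one_iff, Subgroup.mem_subgroupOf]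
          exact hx
        change (QuotientGroup.mk' (L.subgroupOf (L ⊔ F))) _ ∈ g.range
        rw [h2]
        exact one_mem _
      · intro x hx
        exact ⟨⟨x, (le_sup_right : F ≤ L ⊔ F) hx⟩, ⟨⟨x, hx⟩, rfl⟩, rfl⟩
    intro y
    obtain ⟨u, rfl⟩ := QuotientGroup.mk_surjective y
    obtain ⟨v, hv, hvu⟩ := h1 u.2
    have h3 : v = u := Subtype.ext hvu
    rw [h3] at hv
    exact hv
  have hp : IsPGroup q (↥(L ⊔ F) ⧸ L.subgroupOf (L ⊔ F)) := hF.of_surjective g hg
  have hfin : Finite (↥(L ⊔ F) ⧸ L.subgroupOf (L ⊔ F)) := Finite.of_surjective g hg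
  have hnil : Group.IsNilpotent (↥(L ⊔ F) ⧸ L.subgroupOf (L ⊔ F)) := hp.isNilpotent
  have hsol : Group.IsSolvable (↥(L ⊔ F) ⧸ L.subgroupOf (L ⊔ F)) := inferInstance
  intro x hx
  have hK : (Lr ↥(L ⊔ F)).map (QuotientGroup.mk' (L.subgroupOf (L ⊔ F))) = ⊥ := by
    apply coreU_perfect
    rw [← Subgroup.map_commutator]
    congr 1
    exact res_perfect _
  have h1 : (QuotientGroup.mk' (L.subgroupOf (L ⊔ F))) x ∈
      (Lr ↥(L ⊔ F)).map (QuotientGroup.mk' (L.subgroupOf (L ⊔ F))) := ⟨x, hx, rfl⟩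
  rw [hK, Subgroup.mem_bot, QuotientGroup.mk'_apply, QuotientGroup.eq_one_iff,
    Subgroup.mem_subgroupOf] at h1
  exact h1

theorem exists_core {q : ℕ} (hq : q.Prime) (c : Cv G) {F : Subgroup G} (hF : F ≤ c.H)
    (hFq : IsPGroup q F) (h5 : 5 ≤ c.n) : ∃ U : Subgroup G, Core q c F U := by
  have hFfin : Finite F := Finite.of_injective _ (Subgroup.inclusion_injective hF)
  -- the action of `F` on `c.H`
  let ψ : F →* MulAut c.H := MulAut.conj.comp (Subgroup.inclusion hF)
  have hψ : ∀ (h : F) (x : c.H), ((ψ h x : c.H) : G) = h * x * (h : G)⁻¹ := fun h x => rfl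
  have hψπ : ∀ (h : F) (x : c.H), c.π (ψ h x) =
      c.π (Subgroup.inclusion hF h) * c.π x * (c.π (Subgroup.inclusion hF h))⁻¹ := by
    intro h x
    rw [← map_inv, ← map_mul, ← map_mul]
    rfl
  -- the minimal subgroup
  obtain ⟨L, ⟨hL1, hL2⟩, hmin⟩ :=
    (Set.toFinite {L : Subgroup c.H | (∀ h, ∀ g ∈ L, ψ h g ∈ L) ∧
      L.map c.π = alternatingGroup (Fin c.n)}).exists_minimal
      ⟨⊤, fun _ _ _ => Subgroup.mem_top _, by rw [← MonoidHom.range_eq_map, c.range]⟩
  have hrange : (c.π.comp L.subtype).range = alternatingGroup (Fin c.n) := by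
    rw [MonoidHom.range_comp, Subgroup.range_subtype, hL2]
  obtain ⟨-, hQ⟩ := frattini hq hFq (fratRes ψ L hL1) (c.π.comp L.subtype)
    (by rw [hrange]; exact perfect_range (by rw [Fintype.card_fin]; exact h5))
    (by
      intro h g hg
      change c.π (ψ h g) = 1
      have hg' : c.π g = 1 := hg
      rw [hψπ, hg', mul_one, mul_inv_cancel])
    (by
      intro M hM hM'
      have h1 : M.map L.subtype ≤ L := by
        rintro _ ⟨x, -, rfl⟩
        exact x.2
      have h2 : L ≤ M.map L.subtype := by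
        refine hmin ⟨?_, ?_⟩ h1
        · rintro h _ ⟨x, hx, rfl⟩
          exact ⟨_, hM h x hx, rfl⟩
        · rw [Subgroup.map_map, hM', hrange]
      rw [eq_top_iff]
      intro x _
      obtain ⟨y, hy, hyx⟩ := h2 x.2
      have h3 : y = x := Subtype.ext hyx
      rwa [← h3])
  obtain ⟨L1, hL1d⟩ : ∃ L1 : Subgroup G, L1 = L.map c.H.subtype := ⟨_, rfl⟩
  have hL1H : L1 ≤ c.H := by
    rw [hL1d]
    rintro _ ⟨x, -, rfl⟩
    exact x.2
  have hL1m : ∀ (x : G) (hx : x ∈ c.H), x ∈ L1 ↔ (⟨x, hx⟩ : c.H) ∈ L := by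
    intro x hx
    rw [hL1d]
    constructor
    · rintro ⟨y, hy, hyx⟩
      have h3 : y = ⟨x, hx⟩ := Subtype.ext hyx
      rwa [← h3]
    · intro h
      exact ⟨⟨x, hx⟩, h, rfl⟩
  have hconj : ∀ h ∈ F, ∀ x ∈ L1, h * x * h⁻¹ ∈ L1 := by
    intro h hh x hx
    have h1 := hL1 ⟨h, hh⟩ ⟨x, hL1H hx⟩ ((hL1m x (hL1H hx)).1 hx)
    exact (hL1m _ (ψ ⟨h, hh⟩ ⟨x, hL1H hx⟩).2).2 h1
  have hn : F ≤ Subgroup.normalizer (L1 : Set G) := by
    intro h hh
    rw [Subgroup.mem_normalizer_iff]
    intro x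
    refine ⟨hconj h hh x, fun hx => ?_⟩
    have h1 := hconj h⁻¹ (F.inv_mem hh) _ hx
    have h2 : h⁻¹ * (h * x * h⁻¹) * h⁻¹⁻¹ = x := by group
    rwa [h2] at h1
  have hres := coreU_res hq hFq hn
  have hle : L1 ⊔ F ≤ c.H := sup_le hL1H hF
  refine ⟨L1 ⊔ F, hle, le_sup_right, ?_, ?_⟩
  · apply le_antisymm
    · rintro _ ⟨x, rfl⟩
      rw [← c.range]
      exact ⟨_, rfl⟩
    · intro σ hσ
      rw [← hL2] at hσ
      obtain ⟨x, hx, rfl⟩ := hσ
      exact ⟨⟨x, (le_sup_left : L1 ≤ L1 ⊔ F) ((hL1m _ x.2).2 hx)⟩, rfl⟩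
  · let f : ((thc c hle).comp (Lr ↥(L1 ⊔ F)).subtype).ker →* (c.π.comp L.subtype).ker :=
      { toFun := fun x => ⟨⟨⟨((x : Lr ↥(L1 ⊔ F)) : ↥(L1 ⊔ F)), hle x.1.1.2⟩,
          (hL1m _ _).1 (hres _ x.1.2)⟩, x.2⟩
        map_one' := rfl
        map_mul' := fun _ _ => rfl }
    refine hQ.comap f ?_
    intro x y hxy
    have h1 := congrArg (fun z : (c.π.comp L.subtype).ker => (((z : L) : c.H) : G)) hxy
    exact Subtype.ext (Subtype.ext (Subtype.ext h1))

end Pool.Agent.Lib.MP_b9166b_al.Aq
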