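import Pool.Agent.Lib.MP_b9166b_al.Aq.Cls
import Pool.Agent.Lib.MP_b9166b_al.An.Fib

/-!
# MP_b9166b_al, PRIME POWER: large fibres

Proof. As `An.exists_fib` (An/Fib.lean). Let `Δ` be a set of five points of `Fin c.n`,
`v ∈ Vr (thc c hU.le) Δ`, `v ≠ 1` (`An.exists_order`), and let `S` be the union of `S₁`,
`c.toFinset` and the set of `hgrow` for `v` and `5 * m`. Use `Cv.le_of_cov` for the injectivity and
`An.card_fib`.
-/

set_option autoImplicit false

namespace Pool.Agent.Lib.MP_b9166b_al.Aq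

open Equiv Equiv.Perm An

variable {G : Type} [Group G]

theorem exists_fibq {q : ℕ} {F : Subgroup G} {P : Cv G → Prop} {S₁ : Finset G}
    (hP : Cls q F P S₁)
    (hgrow : ∀ z : G, z ≠ 1 → ∀ m : ℕ, ∃ S : Finset G, ∀ c : Cv G, c.Cov S →
      m < (c.p z).support.card) {c : Cv G} (hc : P c) {U : Subgroup G} (hU : Core q c F U)
    (ω : Fin c.n) (m : ℕ) :
    ∃ S : Finset G, ∀ c' : Cv G, c'.Cov S → ∃ hU' : U ≤ c'.H, Function.Injective (thc c' hU') ∧
      Nat2 (thc c hU.le) (thc c' hU') ∧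
      m ≤ Nat.card {ψ // Ov (thc c hU.le) (thc c' hU') ψ ω} := by
  classical
  have hfin : Finite U :=
    Finite.of_injective (Subgroup.inclusion hU.le) (Subgroup.inclusion_injective hU.le)
  have h6 : 6 ≤ Fintype.card (Fin c.n) := by
    rw [Fintype.card_fin]
    exact hP.big c hc
  obtain ⟨Δ, -, hΔ⟩ := Finset.exists_subset_card_eq (s := (Finset.univ : Finset (Fin c.n)))
    (n := 5) (by rw [Finset.card_univ]; omega)
  obtain ⟨v, hv, -, hv1⟩ := exists_order hU.range hΔ.ge Nat.prime_two (Or.inl rfl)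
  obtain ⟨S, hS⟩ := hgrow (v : G) (fun h => hv1 (Subtype.ext h)) (5 * m)
  refine ⟨S ∪ (S₁ ∪ c.toFinset), fun c' hcov => ?_⟩
  obtain ⟨hle, hinj⟩ := c.le_of_cov ((hcov.mono Finset.subset_union_right).mono
    Finset.subset_union_right)
  have hU' : U ≤ c'.H := hU.le.trans hle
  have hnat := hP.nat c hc U hU c' ((hcov.mono Finset.subset_union_right).mono
    Finset.subset_union_left) hU'
  refine ⟨hU', ?_, hnat, ?_⟩
  · have h1 : thc c' hU' = (c'.π.comp (Subgroup.inclusion hle)).comp (Subgroup.inclusion hU.le) :=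
      rfl
    rw [h1]
    exact hinj.comp (Subgroup.inclusion_injective hU.le)
  · have h1 := hS c' (hcov.mono Finset.subset_union_left)
    have h2 := card_fib hnat hU.range h6 hv ω
    rw [hΔ] at h2
    have h3 : c'.p (v : G) = thc c' hU' v := c'.p_mem (hU' v.2)
    rw [h3] at h1
    omega

end Pool.Agent.Lib.MP_b9166b_al.Aq
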