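import Mathlib

/-!
# MP_b9166b_al, PRIME POWER: the module of an elementary abelian section

Proof. `M` is the image of `N₁` in `L ⧸ R`, a commutative normal subgroup, and `ρ g` is the
conjugation by `g` (`MulAut.conjNormal`). `κ n` is the image of `n`.
-/

set_option autoImplicit false

namespace Pool.Agent.Lib.MP_b9166b_al.Aq

theorem exists_mod {L : Type} [Group L] [Finite L] (N₁ R : Subgroup L) (hN : N₁.Normal)
    (hR : R.Normal) (hRN : R ≤ N₁) {p : ℕ} (hpow : ∀ n ∈ N₁, n ^ p ∈ R)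
    (hcomm : ∀ n ∈ N₁, ∀ n' ∈ N₁, n * n' * n⁻¹ * n'⁻¹ ∈ R) :
    ∃ (M : Type) (_ : CommGroup M) (_ : Finite M) (ρ : L →* MulAut M) (κ : N₁ →* M),
      Function.Surjective κ ∧ (∀ n : N₁, κ n = 1 ↔ (n : L) ∈ R) ∧ (∀ m : M, m ^ p = 1) ∧
      (∀ (g : L) (n : N₁), ρ g (κ n) = κ ⟨g * n * g⁻¹, hN.conj_mem n n.2 g⟩) ∧
      ∀ f : MulAut L, (∀ x, x ∈ N₁ ↔ f x ∈ N₁) → (∀ x, x ∈ R ↔ f x ∈ R) →
        ∃ fM : MulAut M, (∀ (n : N₁) (hn : f n ∈ N₁), fM (κ n) = κ ⟨f n, hn⟩) ∧
          ∀ g, ρ (f g) = fM * ρ g * fM⁻¹ := by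
  have hn : (N₁.map (QuotientGroup.mk' R)).Normal :=
    hN.map _ (QuotientGroup.mk'_surjective R)
  let κ : N₁ →* N₁.map (QuotientGroup.mk' R) := (QuotientGroup.mk' R).subgroupMap N₁
  have hκs : Function.Surjective κ := MonoidHom.subgroupMap_surjective _ _
  have hκ1 : ∀ n : N₁, κ n = 1 ↔ (n : L) ∈ R := by
    intro n
    rw [← QuotientGroup.eq_one_iff (N := R) (n : L)]
    exact ⟨fun h => congrArg Subtype.val h, fun h => Subtype.ext h⟩
  have hmc : ∀ a b : N₁.map (QuotientGroup.mk' R), a * b = b * a := by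
    intro a b
    obtain ⟨n, rfl⟩ := hκs a
    obtain ⟨n', rfl⟩ := hκs b
    have h1 : κ (n * n' * n⁻¹ * n'⁻¹) = 1 := (hκ1 _).2 (hcomm n n.2 n' n'.2)
    rw [map_mul, map_mul, map_mul, map_inv, map_inv, mul_inv_eq_one, mul_inv_eq_iff_eq_mul] at h1
    exact h1
  let ρ : L →* MulAut (N₁.map (QuotientGroup.mk' R)) :=
    (MulAut.conjNormal (H := N₁.map (QuotientGroup.mk' R))).comp (QuotientGroup.mk' R)
  refine ⟨N₁.map (QuotientGroup.mk' R),
    { (inferInstance : Group (N₁.map (QuotientGroup.mk' R))) with mul_comm := hmc },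
    inferInstance, ρ, κ, hκs, hκ1, ?_, ?_, ?_⟩
  · intro m
    obtain ⟨n, rfl⟩ := hκs m
    have h1 : κ (n ^ p) = 1 := (hκ1 _).2 (hpow n n.2)
    rw [map_pow] at h1
    exact h1
  · intro g n
    refine Subtype.ext ?_
    change ((MulAut.conjNormal (QuotientGroup.mk' R g) (κ n) :
      N₁.map (QuotientGroup.mk' R)) : L ⧸ R) = QuotientGroup.mk' R (g * n * g⁻¹)
    rw [MulAut.conjNormal_apply, map_mul, map_mul, map_inv]
    rfl
  · intro f hf1 hf2
    have he : R.map (f : L →* L) = R := by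
      ext x
      constructor
      · rintro ⟨y, hy, rfl⟩
        exact (hf2 y).1 hy
      · intro hx
        exact ⟨f.symm x, (hf2 _).2 (by rw [MulEquiv.apply_symm_apply]; exact hx),
          MulEquiv.apply_symm_apply f x⟩
    let fb : (L ⧸ R) ≃* (L ⧸ R) := QuotientGroup.congr R R f he
    have hfb : ∀ x : L, fb (QuotientGroup.mk' R x) = QuotientGroup.mk' R (f x) := fun x => rfl
    have h1 : ∀ m ∈ N₁.map (QuotientGroup.mk' R), fb m ∈ N₁.map (QuotientGroup.mk' R) := by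
      rintro _ ⟨n, hn, rfl⟩
      exact ⟨f n, (hf1 n).1 hn, rfl⟩
    have h2 : ∀ m ∈ N₁.map (QuotientGroup.mk' R), fb.symm m ∈ N₁.map (QuotientGroup.mk' R) := by
      rintro _ ⟨n, hn, rfl⟩
      refine ⟨f.symm n, (hf1 _).2 (by rw [MulEquiv.apply_symm_apply]; exact hn), ?_⟩
      rw [MulEquiv.eq_symm_apply, hfb, MulEquiv.apply_symm_apply]
    let fM : N₁.map (QuotientGroup.mk' R) ≃* N₁.map (QuotientGroup.mk' R) :=
      { toFun := fun m => ⟨fb m, h1 m m.2⟩
        invFun := fun m => ⟨fb.symm m, h2 m m.2⟩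
        left_inv := fun m => Subtype.ext (fb.symm_apply_apply m)
        right_inv := fun m => Subtype.ext (fb.apply_symm_apply m)
        map_mul' := fun a b => Subtype.ext (map_mul fb (a : L ⧸ R) b) }
    refine ⟨fM, ?_, ?_⟩
    · intro n hn
      exact Subtype.ext (hfb n)
    · intro g
      refine MulEquiv.ext fun m => Subtype.ext ?_
      change ((MulAut.conjNormal (QuotientGroup.mk' R (f g)) m :
        N₁.map (QuotientGroup.mk' R)) : L ⧸ R) =
        fb ((MulAut.conjNormal (QuotientGroup.mk' R g) (fM.symm m) :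
          N₁.map (QuotientGroup.mk' R)) : L ⧸ R)
      rw [MulAut.conjNormal_apply, MulAut.conjNormal_apply, map_mul, map_mul, map_inv, hfb]
      have h3 : fb ((fM.symm m : N₁.map (QuotientGroup.mk' R)) : L ⧸ R) = m :=
        fb.apply_symm_apply m
      rw [h3]

end Pool.Agent.Lib.MP_b9166b_al.Aq
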