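import Pool.Agent.Lib.MP_b9166b_al.Aq.GamA
import Pool.Agent.Lib.MP_b9166b_al.Aq.Mod
import Pool.Agent.Lib.MP_b9166b_al.Aq.Rk

/-!
# MP_b9166b_al, PRIME POWER: counting the points of an orbit with nontrivial stabilizers

Proof of `gamma_aux`. Suppose that for every `n ∈ N₁` there is `h ≠ 1` with
`S.b h (S.a n ψ) = S.a n ψ`. Let `R = S.Qk N₁ ψ p`, and let `M`, `ρ`, `κ` be as in `exists_mod`
(for `N₁`, `R`). By `not_central`, `ρ` is not trivial.
* Let `h` fix a point `S.a n ψ`, `n ∈ N₁`. Then `S.φ h` preserves `R` by `Qk_φ` (for `h` and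
  `h⁻¹`) and induces `fM` on `M`.
* If `h` fixes `S.a n ψ` and `S.a n' ψ` then `n'⁻¹ * S.φ h (n' * n⁻¹) * n` lies in `N₁` and fixes
  `ψ`, so it lies in `R`, and `fM (κ (n' n⁻¹)) = κ (n' n⁻¹)` (`M` is commutative). So for each
  `h ≠ 1` the classes `κ n` of the `n` with `S.b h (S.a n ψ) = S.a n ψ` lie in a coset of the
  group of the fixed points of `fM`, and their number `c h` satisfies
  `Nat.card F * c h < Nat.card M`, by `rk` with `t = Nat.card F` (`Nat.card F ≤ p ^ Nat.card F`);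
  here `h ∉ c.A a` for some `a` by `c.triv`.
* Summing over `h ≠ 1`, all classes of `M` are counted, a contradiction.
-/

set_option autoImplicit false

namespace Pool.Agent.Lib.MP_b9166b_al.Aq

open Equiv Equiv.Perm An

namespace Sy

variable {L F Ω Ω' ι : Type} [Group L] [Group F] [Fintype Ω] [DecidableEq Ω] (S : Sy L F Ω Ω')

theorem gamma_aux [Finite L] [Finite F] [Finite ι] {m : ℕ} (c : Conf S.θ ι (Fin m))
    (hm : (2 * Nat.card F + 3) * 9 + 2 ≤ m) {N₁ : Subgroup L} (hN : N₁.Normal)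
    (hφ : ∀ h, ∀ x ∈ N₁, S.φ h x ∈ N₁) {ψ : Ω'}
    (hD : ∀ g, ∃ g', S.a g' ψ = ψ ∧ g'⁻¹ * g ∈ N₁) {p : ℕ} [Fact p.Prime] {n₀ : L}
    (hn₀ : n₀ ∈ N₁) (hn₀Q : n₀ ∉ S.Qk N₁ ψ p)
    (hρ : ∀ (H : Type) [Group H] (ρ : L →* H), (∀ x ∈ N₁, ρ x = 1) →
      Group.IsNilpotent (S.π.ker.map ρ) ∧ (Nat.card (S.π.ker.map ρ)).Coprime p) :
    ∃ n ∈ N₁, ∀ h, S.b h (S.a n ψ) = S.a n ψ → h = 1 := by
  classical
  by_contra hcon
  push Not at hcon
  have hRn : (S.Qk N₁ ψ p).Normal := S.Qk_normal p hN hD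
  obtain ⟨M, iM, fMn, ρ, κ, hκ, hκ1, hM, hρκ, hf⟩ := exists_mod N₁ (S.Qk N₁ ψ p) hN hRn
    (S.Qk_le N₁ ψ p) (fun n hn => S.Fp_le_Qk N₁ ψ p (pow_mem_Fp p hn))
    (fun n hn n' hn' => S.Fp_le_Qk N₁ ψ p (comm_mem_Fp p hn hn'))
  -- the representation is not trivial
  have hnt : ∃ g, ρ g ≠ 1 := by
    by_contra htriv
    push Not at htriv
    obtain ⟨g, n, hn, hgn⟩ := S.not_central p hD hn₀ hn₀Q
    apply hgn
    have h1 := hρκ g ⟨n, hn⟩
    rw [htriv g, MulAut.one_apply] at h1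
    have h2 : g * n * g⁻¹ * n⁻¹ ∈ S.Qk N₁ ψ p := by
      have h3 : κ (⟨g * n * g⁻¹, hN.conj_mem n hn g⟩ * (⟨n, hn⟩ : N₁)⁻¹) = 1 := by
        rw [map_mul, ← h1, map_inv, mul_inv_cancel]
      exact (hκ1 _).1 h3
    have h4 := (QuotientGroup.eq_one_iff (N := S.Qk N₁ ψ p) (g * n * g⁻¹ * n⁻¹)).2 h2
    change (QuotientGroup.mk' (S.Qk N₁ ψ p)) (g * n * g⁻¹ * n⁻¹) = 1 at h4
    rw [map_mul, map_mul, map_mul, map_inv, map_inv, mul_inv_eq_one, mul_inv_eq_iff_eq_mul] at h4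
    exact h4
  have hker : ∀ x ∈ N₁, ρ x = 1 := by
    intro x hx
    ext y
    obtain ⟨n, rfl⟩ := hκ y
    rw [hρκ, MulAut.one_apply]
    have h1 : (⟨x * n * x⁻¹, hN.conj_mem n n.2 x⟩ : N₁) = ⟨x, hx⟩ * n * (⟨x, hx⟩ : N₁)⁻¹ := rfl
    rw [h1, map_mul, map_mul, map_inv, mul_comm (κ ⟨x, hx⟩), mul_inv_cancel_right]
  obtain ⟨hnil, hcop⟩ := hρ (MulAut M) ρ hker
  have hMpos : 0 < Nat.card M := Nat.card_pos
  have hFpos : 0 < Nat.card F := Nat.card_pos
  -- the classes of the points fixed by `h`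
  let C : F → Set M := fun h => {y | ∃ n : N₁, κ n = y ∧ S.b h (S.a n ψ) = S.a n ψ}
  have hC : ∀ h, h ≠ 1 → Nat.card F * Nat.card (C h) ≤ Nat.card M := by
    intro h hh
    rcases Set.eq_empty_or_nonempty (C h) with he | ⟨y₁, n₁, hy₁, hn₁⟩
    · have hemp : IsEmpty (C h) := Set.isEmpty_coe_sort.2 he
      have h0 : Nat.card (C h) = 0 := Nat.card_of_isEmpty
      rw [h0, mul_zero]
      exact Nat.zero_le _
    · have hinv : S.b h⁻¹ (S.a n₁ ψ) = S.a n₁ ψ := by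
        rw [map_inv, Perm.inv_eq_iff_eq, hn₁]
      have hN1 : ∀ x, x ∈ N₁ ↔ S.φ h x ∈ N₁ := by
        intro x
        refine ⟨hφ h x, fun hx => ?_⟩
        have h1 := hφ h⁻¹ _ hx
        rwa [map_inv, MulAut.inv_apply_self] at h1
      have hR1 : ∀ x, x ∈ S.Qk N₁ ψ p ↔ S.φ h x ∈ S.Qk N₁ ψ p := by
        intro x
        refine ⟨S.Qk_φ p hN hφ hD hn₁, fun hx => ?_⟩
        have h1 := S.Qk_φ p hN hφ hD hinv hx
        rwa [map_inv, MulAut.inv_apply_self] at h1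
      obtain ⟨fM, hfM, hfc⟩ := hf (S.φ h) hN1 hR1
      obtain ⟨a, ha⟩ : ∃ a, h ∉ c.A a := by
        by_contra hall
        push Not at hall
        exact hh (c.triv h hall)
      have hrk := rk (t := Nat.card F) S.range S.perf hM hnt hnil hcop (S.eqπ h) hfc c ha hm
      have hle : Nat.card (C h) ≤ Nat.card {y : M // fM y = y} := by
        refine Nat.card_le_card_of_injective
          (fun y : C h => (⟨(y : M) * (κ n₁)⁻¹, ?_⟩ : {y : M // fM y = y})) ?_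
        · obtain ⟨y, n, rfl, hn⟩ := y
          change fM (κ n * (κ n₁)⁻¹) = κ n * (κ n₁)⁻¹
          have h1 : κ n * (κ n₁)⁻¹ = κ (n * n₁⁻¹) := by rw [map_mul, map_inv]
          have h2 : S.φ h ((n * n₁⁻¹ : N₁) : L) ∈ N₁ := hφ h _ (n * n₁⁻¹).2
          rw [h1, hfM (n * n₁⁻¹) h2]
          have h3 : (n : L)⁻¹ * S.φ h ((n : L) * (n₁ : L)⁻¹) * n₁ ∈ S.Qk N₁ ψ p := by
            apply S.Bk_le_Qk N₁ ψ p
            refine ⟨N₁.mul_mem (N₁.mul_mem (N₁.inv_mem n.2) h2) n₁.2, ?_⟩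
            change S.a ((n : L)⁻¹ * S.φ h ((n : L) * (n₁ : L)⁻¹) * n₁) ψ = ψ
            rw [map_mul, map_mul, S.eqa, map_mul, map_inv, map_inv]
            simp only [Perm.mul_apply]
            have h5 : (S.b h)⁻¹ (S.a n₁ ψ) = S.a n₁ ψ := by
              rw [Perm.inv_eq_iff_eq, hn₁]
            have h6 : (S.a n₁)⁻¹ (S.a n₁ ψ) = ψ := by rw [Perm.inv_eq_iff_eq]
            have h7 : (S.a n)⁻¹ (S.a n ψ) = ψ := by rw [Perm.inv_eq_iff_eq]
            rw [h5, h6, hn, h7]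
          have h4 : κ (n⁻¹ * ⟨S.φ h ((n * n₁⁻¹ : N₁) : L), h2⟩ * n₁) = 1 := (hκ1 _).2 h3
          rw [map_mul, map_mul, map_inv, mul_assoc, inv_mul_eq_one] at h4
          rw [map_mul, map_inv, h4, mul_inv_cancel_right]
        · intro y z hyz
          have h1 := congrArg (fun w : {y : M // fM y = y} => (w : M)) hyz
          exact Subtype.ext (mul_right_cancel h1)
      calc Nat.card F * Nat.card (C h)
          ≤ p ^ Nat.card F * Nat.card {y : M // fM y = y} :=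
            Nat.mul_le_mul (Nat.lt_pow_self (Fact.out : p.Prime).one_lt).le hle
        _ ≤ Nat.card M := hrk.le
  -- all classes are counted
  have : Fintype F := Fintype.ofFinite F
  have hcov : Nat.card M ≤ ∑ h ∈ Finset.univ.erase (1 : F), Nat.card (C h) := by
    have : Fintype M := Fintype.ofFinite M
    have h1 : (Finset.univ : Finset M) ⊆
        (Finset.univ.erase (1 : F)).biUnion fun h => (C h).toFinset := by
      intro y _
      obtain ⟨n, rfl⟩ := hκ y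
      obtain ⟨h, hh, hh1⟩ := hcon n n.2
      rw [Finset.mem_biUnion]
      exact ⟨h, Finset.mem_erase.2 ⟨hh1, Finset.mem_univ _⟩, Set.mem_toFinset.2 ⟨n, rfl, hh⟩⟩
    have h2 := (Finset.card_le_card h1).trans Finset.card_biUnion_le
    rw [Finset.card_univ, ← Nat.card_eq_fintype_card] at h2
    refine h2.trans (Finset.sum_le_sum fun h _ => ?_)
    rw [Set.toFinset_card, Nat.card_eq_fintype_card]
  have h1 : Nat.card F * Nat.card M ≤ (Nat.card F - 1) * Nat.card M := by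
    calc Nat.card F * Nat.card M
        ≤ Nat.card F * ∑ h ∈ Finset.univ.erase (1 : F), Nat.card (C h) :=
          Nat.mul_le_mul_left _ hcov
      _ = ∑ h ∈ Finset.univ.erase (1 : F), Nat.card F * Nat.card (C h) := Finset.mul_sum ..
      _ ≤ ∑ _h ∈ Finset.univ.erase (1 : F), Nat.card M :=
          Finset.sum_le_sum fun h hh => hC h (Finset.mem_erase.1 hh).1
      _ = (Nat.card F - 1) * Nat.card M := by
          rw [Finset.sum_const, Finset.card_erase_of_mem (Finset.mem_univ _), Finset.card_univ,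
            ← Nat.card_eq_fintype_card, smul_eq_mul]
  have h2 := Nat.le_of_mul_le_mul_right h1 hMpos
  omega

end Sy

end Pool.Agent.Lib.MP_b9166b_al.Aq
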