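import Mathlib

/-!
# MP_b9166b_al, PRIME POWER: groups with a normal Sylow subgroup and nilpotent quotient

`QNil q N`: the `q`-elements of the finite group `N` form a normal subgroup with nilpotent quotient
of order prime to `q`.
-/

set_option autoImplicit false

namespace Pool.Agent.Lib.MP_b9166b_al.Aq

/-- `N` is an extension of a `q`-group by a nilpotent group of order prime to `q` -/
def QNil (q : ℕ) (N : Type) [Group N] : Prop :=
  ∃ (R : Type) (_ : Group R) (_ : Finite R) (f : N →* R), Group.IsNilpotent R ∧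
    (Nat.card R).Coprime q ∧ IsPGroup q f.ker

variable {q : ℕ}

/-- subgroups -/
theorem QNil.comap {N N' : Type} [Group N] [Group N'] (h : QNil q N) (f : N' →* N)
    (hf : Function.Injective f) : QNil q N' := by
  obtain ⟨R, iR, jR, g, hR, hc, hg⟩ := h
  refine ⟨R, iR, jR, g.comp f, hR, hc, ?_⟩
  rintro ⟨x, hx⟩
  obtain ⟨k, hk⟩ := hg ⟨f x, hx⟩
  refine ⟨k, Subtype.ext (hf ?_)⟩
  have h1 := congrArg Subtype.val hk
  simpa using h1

/-- nilpotent groups of order prime to `q` -/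
theorem QNil.of_nilpotent {N : Type} [Group N] [Finite N] (hn : Group.IsNilpotent N)
    (hc : (Nat.card N).Coprime q) : QNil q N := by
  refine ⟨N, inferInstance, inferInstance, MonoidHom.id N, hn, hc, ?_⟩
  rintro ⟨x, hx⟩
  refine ⟨0, ?_⟩
  rw [pow_zero, pow_one]
  exact Subtype.ext hx

/-- a `q`-element is trivial in a group of order prime to `q` -/
theorem qn_eq_one {R : Type} [Group R] (hc : (Nat.card R).Coprime q) {r : R} {k : ℕ}
    (h : r ^ (q ^ k) = 1) : r = 1 := by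
  have h1 : orderOf r ∣ q ^ k := orderOf_dvd_of_pow_eq_one h
  have h2 : orderOf r ∣ Nat.card R := orderOf_dvd_natCard r
  have h3 : orderOf r ∣ 1 := by
    have h4 : (Nat.card R).Coprime (q ^ k) := Nat.Coprime.pow_right k hc
    rw [← Nat.Coprime.gcd_eq_one h4]
    exact Nat.dvd_gcd h2 h1
  rw [← orderOf_eq_one_iff]
  exact Nat.dvd_one.1 h3

/-- the subgroup of the `q`-elements; it is the kernel of a homomorphism to a nilpotent group of
order prime to `q` -/
theorem QNil.exists_Q {L : Type} [Group L] {N : Subgroup L} (h : QNil q N) (hq : q.Prime) :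
    ∃ Q : Subgroup L, (∀ x, x ∈ Q ↔ x ∈ N ∧ ∃ k : ℕ, x ^ (q ^ k) = 1) ∧
      ∃ (R : Type) (_ : Group R) (_ : Finite R) (f : N →* R), Group.IsNilpotent R ∧
        (Nat.card R).Coprime q ∧ ∀ x : N, f x = 1 ↔ (x : L) ∈ Q := by
  obtain ⟨R, iR, jR, g, hR, hc, hg⟩ := h
  refine ⟨g.ker.map N.subtype, fun x => ⟨?_, ?_⟩, R, iR, jR, g, hR, hc, fun x => ⟨fun hx => ?_, ?_⟩⟩
  · rintro ⟨y, hy, rfl⟩
    refine ⟨y.2, ?_⟩
    obtain ⟨k, hk⟩ := hg ⟨y, hy⟩
    refine ⟨k, ?_⟩
    have h1 := congrArg (fun z : g.ker => ((z : N) : L)) hk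
    simpa using h1
  · rintro ⟨hx, k, hk⟩
    refine ⟨⟨x, hx⟩, ?_, rfl⟩
    have h1 : g ⟨x, hx⟩ ^ (q ^ k) = 1 := by
      rw [← map_pow]
      have h2 : (⟨x, hx⟩ : N) ^ (q ^ k) = 1 := Subtype.ext (by simpa using hk)
      rw [h2, map_one]
    exact qn_eq_one hc h1
  · exact ⟨x, hx, rfl⟩
  · rintro ⟨y, hy, hyx⟩
    have h1 : y = x := Subtype.ext hyx
    rw [← h1]
    exact hy

/-- the image under a homomorphism which is trivial on the `q`-elements -/
theorem QNil.map {L H : Type} [Group L] [Group H] {N : Subgroup L} (h : QNil q N) (hq : q.Prime)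
    (ρ : L →* H) (hρ : ∀ x ∈ N, (∃ k : ℕ, x ^ (q ^ k) = 1) → ρ x = 1) :
    Group.IsNilpotent (N.map ρ) ∧ (Nat.card (N.map ρ)).Coprime q := by
  obtain ⟨R, iR, jR, g, hR, hc, hg⟩ := h
  have hker : g.rangeRestrict.ker ≤ (ρ.subgroupMap N).ker := by
    intro x hx
    rw [MonoidHom.ker_rangeRestrict] at hx
    obtain ⟨k, hk⟩ := hg ⟨x, hx⟩
    have h1 := congrArg (fun z : g.ker => ((z : N) : L)) hk
    refine Subtype.ext (hρ x x.2 ⟨k, ?_⟩)
    simpa using h1
  let s : g.range →* N.map ρ := g.rangeRestrict.liftOfSurjective g.rangeRestrict_surjective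
    ⟨ρ.subgroupMap N, hker⟩
  have hs : Function.Surjective s := by
    intro y
    obtain ⟨x, rfl⟩ := ρ.subgroupMap_surjective N y
    exact ⟨g.rangeRestrict x, MonoidHom.liftOfRightInverse_comp_apply _ _ _ _ x⟩
  constructor
  · exact Group.nilpotent_of_surjective s hs
  · refine Nat.Coprime.coprime_dvd_left ?_ hc
    exact (Subgroup.card_dvd_of_surjective s hs).trans (Subgroup.card_subgroup_dvd_card g.range)

end Pool.Agent.Lib.MP_b9166b_al.Aq
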