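import Pool.Agent.Lib.MP_b9166b_al.Aq.GamB
import Pool.Agent.Lib.MP_b9166b_al.Aq.QN
import Pool.Agent.Lib.MP_b9166b_al.An.GamA

/-!
# MP_b9166b_al, PRIME POWER: a point with trivial stabilizer if the kernel moves `ψ`

Proof of `gamma`. Let `N = S.π.ker`, `D` the stabilizer of `ψ`, `B = N ⊓ D`; `B ≠ N`, else
`D = ⊤`. Let `Q` be the group of the `q`-elements of `N` (`QNil.exists_Q`), invariant under
conjugation and under `S.φ h`, and `f : N →* R₀` the homomorphism with kernel `Q`.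
* Case `B ⊔ Q ≠ N`. The image of `B` in the nilpotent group `f.range` is a proper subgroup. By
  `An.exists_prime_quot` there are a prime `p` and a proper subgroup of `f.range` which contains
  the image of `B`, the `p`-th powers and the commutators. Its preimage contains
  `S.Qk N ψ p`, so this group is not `N`. Apply `gamma_aux` with `N₁ = N`; `S.π.ker.map ρ = ⊥`.
* Case `B ⊔ Q = N`. Then `hD` holds for `N₁ = Q`, and `Q ⊓ D ≠ Q`, else `B = N`. Apply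
  `An.exists_prime_quot` to the `q`-group `Q` and `Q ⊓ D`. The prime is `q`: if `n ∈ Q` is not in
  the subgroup `R` but `n ^ p ∈ R` and `p ≠ q`, then `n` is a power of `n ^ p`. Apply `gamma_aux`
  with `N₁ = Q`, `p = q`, and `QNil.map`.
-/

set_option autoImplicit false

namespace Pool.Agent.Lib.MP_b9166b_al.Aq

open Equiv Equiv.Perm An

namespace Sy

variable {L F Ω Ω' ι : Type} [Group L] [Group F] [Fintype Ω] [DecidableEq Ω] (S : Sy L F Ω Ω')

/-- if the stabilizer of `ψ` covers the alternating group and is not the whole group then some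
conjugate of `ψ` under the kernel has trivial stabilizer in `F` -/
theorem gamma [Finite L] [Finite F] [Finite ι] {q : ℕ} (hq : q.Prime) (hQ : QNil q S.π.ker)
    {m : ℕ} (c : Conf S.θ ι (Fin m)) (hm : (2 * Nat.card F + 3) * 9 + 2 ≤ m) {ψ : Ω'}
    (hD : ∀ g, ∃ g', S.a g' ψ = ψ ∧ S.π g' = S.π g) (hmove : ∃ g, S.a g ψ ≠ ψ) :
    ∃ n, S.π n = 1 ∧ ∀ h, S.b h (S.a n ψ) = S.a n ψ → h = 1 := by
  have hNφ : ∀ h, ∀ x ∈ S.π.ker, S.φ h x ∈ S.π.ker := by
    intro h x hx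
    rw [MonoidHom.mem_ker, S.eqπ, MonoidHom.mem_ker.1 hx, mul_one, mul_inv_cancel]
  have hNn : (S.π.ker).Normal := inferInstance
  -- an element of the kernel which moves `ψ`
  obtain ⟨n₁, hn₁, hn₁ψ⟩ : ∃ n ∈ S.π.ker, S.a n ψ ≠ ψ := by
    obtain ⟨g, hg⟩ := hmove
    obtain ⟨d, hd, hdg⟩ := hD g
    refine ⟨d⁻¹ * g, ?_, fun h1 => hg ?_⟩
    · rw [MonoidHom.mem_ker, map_mul, map_inv, hdg, inv_mul_cancel]
    · have h2 : S.a (d * (d⁻¹ * g)) ψ = ψ := by
        rw [map_mul, Perm.mul_apply, h1, hd]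
      rwa [mul_inv_cancel_left] at h2
  obtain ⟨Q, hQm, R₀, iR, jR, f, hRn, hRc, hfQ⟩ := hQ.exists_Q hq
  by_cases hcase : ∀ n ∈ S.π.ker, ∃ b ∈ S.π.ker, S.a b ψ = ψ ∧ b⁻¹ * n ∈ Q
  · -- the group of the `q`-elements
    have hQn : Q.Normal := by
      refine ⟨fun x hx g => ?_⟩
      obtain ⟨h1, k, hk⟩ := (hQm x).1 hx
      refine (hQm _).2 ⟨hNn.conj_mem x h1 g, k, ?_⟩
      rw [conj_pow, hk, mul_one, mul_inv_cancel]
    have hQφ : ∀ h, ∀ x ∈ Q, S.φ h x ∈ Q := by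
      intro h x hx
      obtain ⟨h1, k, hk⟩ := (hQm x).1 hx
      refine (hQm _).2 ⟨hNφ h x h1, k, ?_⟩
      rw [← map_pow, hk, map_one]
    have hDQ : ∀ g, ∃ g', S.a g' ψ = ψ ∧ g'⁻¹ * g ∈ Q := by
      intro g
      obtain ⟨d, hd, hdg⟩ := hD g
      obtain ⟨b, -, hb, hbQ⟩ := hcase (d⁻¹ * g) (by
        rw [MonoidHom.mem_ker, map_mul, map_inv, hdg, inv_mul_cancel])
      refine ⟨d * b, ?_, ?_⟩
      · rw [map_mul, Perm.mul_apply, hb, hd]
      · rwa [mul_inv_rev, mul_assoc]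
    obtain ⟨b₁, -, hb₁, hb₁Q⟩ := hcase n₁ hn₁
    have hB : (stb S.a ψ).subgroupOf Q ≠ ⊤ := by
      intro h
      have h1 : (⟨b₁⁻¹ * n₁, hb₁Q⟩ : Q) ∈ (stb S.a ψ).subgroupOf Q := by
        rw [h]
        exact Subgroup.mem_top _
      have h2 : b₁⁻¹ * n₁ ∈ stb S.a ψ := h1
      have h3 : b₁ ∈ stb S.a ψ := hb₁
      have h4 := (stb S.a ψ).mul_mem h3 h2
      rw [mul_inv_cancel_left] at h4
      exact hn₁ψ h4
    have hqF : Fact q.Prime := ⟨hq⟩
    have hQp : IsPGroup q Q := by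
      rintro ⟨x, hx⟩
      obtain ⟨-, k, hk⟩ := (hQm x).1 hx
      exact ⟨k, Subtype.ext hk⟩
    obtain ⟨p, hp, R, hR, hBR, hpow, hcomm⟩ := exists_prime_quot hQp.isNilpotent hB
    obtain ⟨r, hr⟩ : ∃ r : Q, r ∉ R := by
      by_contra h
      push Not at h
      exact hR ((Subgroup.eq_top_iff' R).2 h)
    have hpq : p = q := by
      by_contra hne
      obtain ⟨k, hk⟩ := hQp r
      have h1 : orderOf r ∣ q ^ k := orderOf_dvd_of_pow_eq_one hk
      have h2 : Nat.Coprime p (orderOf r) :=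
        Nat.Coprime.coprime_dvd_right h1
          (Nat.Coprime.pow_right k ((Nat.coprime_primes hp hq).2 hne))
      obtain ⟨m, hm⟩ := exists_pow_eq_self_of_coprime h2
      apply hr
      rw [← hm]
      exact R.pow_mem (hpow r) m
    subst hpq
    have hle : S.Qk Q ψ p ≤ R.map Q.subtype := by
      refine sup_le ?_ (Fp_le p (fun n hn => ?_) fun n hn n' hn' => ?_)
      · intro x hx
        exact ⟨⟨x, hx.1⟩, hBR hx.2, rfl⟩
      · exact ⟨⟨n, hn⟩ ^ p, hpow _, rfl⟩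
      · exact ⟨⟨n, hn⟩ * ⟨n', hn'⟩ * ⟨n, hn⟩⁻¹ * ⟨n', hn'⟩⁻¹, hcomm _ _, rfl⟩
    have hrQ : (r : L) ∉ S.Qk Q ψ p := by
      intro h
      obtain ⟨r', hr', hrr⟩ := hle h
      have h3 : r' = r := Subtype.ext hrr
      exact hr (h3 ▸ hr')
    obtain ⟨n, hn, hfree⟩ := S.gamma_aux c hm hQn hQφ hDQ (p := p) r.2 hrQ
      fun H _ ρ hρ => hQ.map hq ρ fun x hx hk => hρ x ((hQm x).2 ⟨hx, hk⟩)
    exact ⟨n, ((hQm n).1 hn).1, hfree⟩
  · -- the whole kernel
    push Not at hcase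
    obtain ⟨n₂, hn₂, hn₂b⟩ := hcase
    have hB : (((stb S.a ψ).subgroupOf S.π.ker).map f.rangeRestrict) ≠ ⊤ := by
      intro h
      have h1 : f.rangeRestrict ⟨n₂, hn₂⟩ ∈
          ((stb S.a ψ).subgroupOf S.π.ker).map f.rangeRestrict := by
        rw [h]
        exact Subgroup.mem_top _
      obtain ⟨b, hb, hbn⟩ := h1
      refine hn₂b b b.2 hb ?_
      have h2 : f b = f ⟨n₂, hn₂⟩ := congrArg Subtype.val hbn
      have h3 : f (b⁻¹ * ⟨n₂, hn₂⟩) = 1 := by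
        rw [map_mul, map_inv, h2, inv_mul_cancel]
      exact (hfQ _).1 h3
    have hnil : Group.IsNilpotent f.range := inferInstance
    obtain ⟨p, hp, R, hR, hBR, hpow, hcomm⟩ := exists_prime_quot hnil hB
    obtain ⟨r, hr⟩ : ∃ r : f.range, r ∉ R := by
      by_contra h
      push Not at h
      exact hR ((Subgroup.eq_top_iff' R).2 h)
    obtain ⟨n₀, rfl⟩ := f.rangeRestrict_surjective r
    have hpF : Fact p.Prime := ⟨hp⟩
    have hle : S.Qk S.π.ker ψ p ≤ (R.comap f.rangeRestrict).map S.π.ker.subtype := by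
      refine sup_le ?_ (Fp_le p (fun n hn => ?_) fun n hn n' hn' => ?_)
      · intro x hx
        refine ⟨⟨x, hx.1⟩, hBR ⟨⟨x, hx.1⟩, hx.2, rfl⟩, rfl⟩
      · refine ⟨⟨n, hn⟩ ^ p, ?_, rfl⟩
        change f.rangeRestrict (⟨n, hn⟩ ^ p) ∈ R
        rw [map_pow]
        exact hpow _
      · refine ⟨⟨n, hn⟩ * ⟨n', hn'⟩ * ⟨n, hn⟩⁻¹ * ⟨n', hn'⟩⁻¹, ?_, rfl⟩
        change f.rangeRestrict (⟨n, hn⟩ * ⟨n', hn'⟩ * ⟨n, hn⟩⁻¹ * ⟨n', hn'⟩⁻¹) ∈ R
        rw [map_mul, map_mul, map_mul, map_inv, map_inv]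
        exact hcomm _ _
    have hrQ : (n₀ : L) ∉ S.Qk S.π.ker ψ p := by
      intro h
      obtain ⟨r', hr', hrr⟩ := hle h
      have h3 : r' = n₀ := Subtype.ext hrr
      subst h3
      exact hr hr'
    obtain ⟨n, hn, hfree⟩ := S.gamma_aux c hm hNn hNφ (fun g => by
        obtain ⟨d, hd, hdg⟩ := hD g
        refine ⟨d, hd, ?_⟩
        rw [MonoidHom.mem_ker, map_mul, map_inv, hdg, inv_mul_cancel]) (p := p) n₀.2 hrQ
      fun H _ ρ hρ => by
        have h1 : S.π.ker.map ρ = ⊥ := by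
          rw [eq_bot_iff]
          rintro _ ⟨x, hx, rfl⟩
          exact hρ x hx
        rw [h1]
        refine ⟨inferInstance, ?_⟩
        rw [Subgroup.card_bot]
        exact Nat.coprime_one_left p
    exact ⟨n, hn, hfree⟩

end Sy

end Pool.Agent.Lib.MP_b9166b_al.Aq
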