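import Pool.Agent.Lib.MP_b9166b_al.Aq.QN
import Pool.Agent.Lib.MP_b9166b_al.Rg.Reg

/-!
# MP_b9166b_al, PRIME POWER, regular case: the target

`TargetQ q`: a free element for the prime `q` (`Rg.Cov.Target` with a given prime). `Vp q c V`: the
cover `c` acts on the commutative group `V` of exponent `q`, the kernel of `c.π` by a nilpotent
group of order prime to `q`. `Good`: a vector of `V` which is good for the target.
-/

set_option autoImplicit false

namespace Pool.Agent.Lib.MP_b9166b_al.Aq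

open Equiv Equiv.Perm Rg

variable {Γ L : Type} [Group Γ] [Group L] [Fintype Γ] [DecidableEq Γ] {k : ℕ}

/-- a free element for the prime `q`, abstract form -/
def TargetQ (q : ℕ) (c : Cov Γ L k) : Prop :=
  ∃ (X : Subgroup L) (χ : L → ZMod q) (y : L),
    (∀ a ∈ X, ∀ b ∈ X, χ (a * b) = χ a + χ b) ∧ (∀ h, c.φ h y ∈ X) ∧
      (∀ h, Commute y (c.φ h y)) ∧ χ y = 1 ∧ ∀ h, h ≠ 1 → χ (c.φ h y) = 0

/-- the cover `c` acts on the commutative group `V` -/
structure Vp (q : ℕ) (c : Cov Γ L k) (V : Type) [CommGroup V] where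
  ρ : L →* MulAut V
  fV : Γ →* MulAut V
  exp : ∀ v : V, v ^ q = 1
  compat : ∀ h g, ρ (c.φ h g) = fV h * ρ g * (fV h)⁻¹
  nt : ∃ g, ρ g ≠ 1
  nil : Group.IsNilpotent (c.π.ker.map ρ)
  cop : (Nat.card (c.π.ker.map ρ)).Coprime q

/-- there is a good vector -/
def Vp.Good {q : ℕ} {c : Cov Γ L k} {V : Type} [CommGroup V] (S : Vp q c V) : Prop :=
  ∃ v : V, (∀ h, h ≠ 1 → ∃ (δ : L) (s : ℕ), s.Coprime q ∧ S.ρ δ (S.fV h v) = S.fV h v ∧
      ∏ i ∈ Finset.range s, S.ρ (δ ^ i) v = 1) ∧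
    ∃ χ : V → ZMod q, (∀ a b, χ (a * b) = χ a + χ b) ∧ χ v = 1 ∧
      ∀ h, h ≠ 1 → χ (S.fV h v) = 0

end Pool.Agent.Lib.MP_b9166b_al.Aq
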