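import Pool.Agent.Lib.MP_b9166b_al.Aq.BlkCen
import Pool.Agent.Lib.MP_b9166b_al.Aq.Tq
import Pool.Agent.Lib.MP_b9166b_al.Rg.BlkM

/-!
# MP_b9166b_al, PRIME POWER, regular case: good vectors if the kernel acts centrally

Proof. Let `s ∈ {2, 3}`, `s ≠ q`, `B = Γ × Fin 3`. As `3 s² · 2 · 5 ≤ 270 ≤ k` there is an
embedding `((Fin 3 × (ZMod s × ZMod s)) × Bool) × Fin 5 ↪ Fin k`, which gives `j` with first
component `g` for the block `(g, i)`. Take `Δ` from `exists_blk_cen` and apply `Blk.exists_char`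
(as in `Rg.Cov.modular`) to `V` with the inclusion `ρ.range →* MulAut V`,
`B₀ = (Finset.univ.erase 1) ×ˢ {0}`, `b₀ = (1, 0)`. This gives `m`, `χ`. Let `δ` be a preimage of
`Δ.e (1, 0)` in `L` (the same for all `h`). The last statement of `exists_blk_cen` with
`f = c.φ h`, `fH x = fV h * x * (fV h)⁻¹`, `υ = tr h`, `θ = tr h` shows that
`fV h * Δ.e b * (fV h)⁻¹ = Δ.e (tr h b)`. So for `h ≠ 1` the element `Δ.e (1, 0)` fixes
`fV h m`, since `Δ.e (h⁻¹, 0)` fixes `m`.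
-/

set_option autoImplicit false

namespace Pool.Agent.Lib.MP_b9166b_al.Aq

open Equiv Equiv.Perm Rg

variable {Γ L : Type} [Group Γ] [Group L] [Fintype Γ] [DecidableEq Γ] {k : ℕ}

theorem Vp.good_central {q : ℕ} (hq : q.Prime) {c : Cov Γ L k} (hperf : commutator L = ⊤)
    {V : Type} [CommGroup V] [Finite V] (S : Vp q c V) (hk : 300 ≤ k)
    (hcen : ∀ n, c.π n = 1 → ∀ g, Commute (S.ρ n) (S.ρ g)) : S.Good := by
  have hqF : Fact q.Prime := ⟨hq⟩
  -- the prime `s`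
  obtain ⟨s, hs, hsp⟩ : ∃ s : ℕ, (s = 2 ∨ s = 3) ∧ s ≠ q := by
    by_cases h : q = 2
    · exact ⟨3, Or.inr rfl, by omega⟩
    · exact ⟨2, Or.inl rfl, fun h' => h h'.symm⟩
  have hs' : s.Prime := by
    rcases hs with rfl | rfl
    · exact Nat.prime_two
    · exact Nat.prime_three
  have hsF : Fact s.Prime := ⟨hs'⟩
  have hs3 : s ≤ 3 := by omega
  have hcop : s.Coprime q := (Nat.coprime_primes hs' hq).2 hsp
  have hsK : (s : ZMod q) ≠ 0 := by
    rw [Ne, ZMod.natCast_eq_zero_iff]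
    intro h
    exact hsp ((Nat.prime_dvd_prime_iff_eq hq hs').1 h).symm
  -- the embedding
  obtain ⟨κ⟩ : Nonempty (((Fin 3 × (ZMod s × ZMod s)) × Bool) × Fin 5 ↪ Fin k) := by
    apply Function.Embedding.nonempty_of_card_le
    rw [Fintype.card_prod, Fintype.card_prod, Fintype.card_prod, Fintype.card_prod, ZMod.card,
      Fintype.card_fin, Fintype.card_fin, Fintype.card_fin, Fintype.card_bool]
    have h1 : s * s ≤ 3 * 3 := Nat.mul_le_mul hs3 hs3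
    omega
  have h5 : 5 ≤ Nat.card (Γ × Fin k) := by
    rw [Nat.card_prod, Nat.card_eq_fintype_card (α := Fin k), Fintype.card_fin]
    have h1 : 1 ≤ Nat.card Γ := Nat.card_pos
    nlinarith
  let j : (((Γ × Fin 3) × (ZMod s × ZMod s)) × Bool) × Fin 5 ↪ Γ × Fin k :=
    ⟨fun x => (x.1.1.1.1, κ (((x.1.1.1.2, x.1.1.2), x.1.2), x.2)), by
      rintro ⟨⟨⟨⟨g, i⟩, l⟩, t⟩, x⟩ ⟨⟨⟨⟨g', i'⟩, l'⟩, t'⟩, x'⟩ h
      have h1 : g = g' := congrArg Prod.fst h
      have h2 := κ.injective (congrArg Prod.snd h)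
      simp only [Prod.mk.injEq] at h2
      obtain ⟨⟨⟨h3, h4⟩, h6⟩, h7⟩ := h2
      subst h1 h3 h4 h6 h7
      rfl⟩
  obtain ⟨Δ, hΔ⟩ := exists_blk_cen (B := Γ × Fin 3) c.range hperf h5 hcen hs j
  have hnt : ∃ (a : S.ρ.range) (m : V), S.ρ.range.subtype a m ≠ m := by
    obtain ⟨g, hg⟩ := S.nt
    by_contra hcon
    push Not at hcon
    apply hg
    apply MulEquiv.ext
    intro m
    exact hcon ⟨S.ρ g, ⟨g, rfl⟩⟩ m
  let B₀ : Finset (Γ × Fin 3) := (Finset.univ.erase (1 : Γ)) ×ˢ {(0 : Fin 3)}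
  have hB₀ : B₀.card + 3 ≤ Fintype.card (Γ × Fin 3) := by
    rw [Finset.card_product, Finset.card_singleton, mul_one,
      Finset.card_erase_of_mem (Finset.mem_univ _), Finset.card_univ, Fintype.card_prod,
      Fintype.card_fin]
    have h1 : 1 ≤ Fintype.card Γ := Fintype.card_pos
    omega
  have hb₀ : ((1 : Γ), (0 : Fin 3)) ∉ B₀ := by
    intro h
    exact (Finset.mem_erase.1 (Finset.mem_product.1 h).1).1 rfl
  obtain ⟨m, hfix, hnorm, χ, hadd, hχm, hχu⟩ := Δ.exists_char hs'.two_le hsK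
    S.exp S.ρ.range.subtype hnt hB₀ hb₀
  obtain ⟨δ, hδ⟩ : ∃ δ, S.ρ δ = (Δ.e ((1 : Γ), (0 : Fin 3)) : MulAut V) := (Δ.e (1, 0)).2
  have hconj : ∀ h b, S.fV h * (Δ.e b : MulAut V) * (S.fV h)⁻¹ = (Δ.e (tr h b) : MulAut V) := by
    intro h b
    exact hΔ (c.φ h).toMonoidHom (MulAut.conj (S.fV h)).toMonoidHom (tr h) (tr h)
      (fun g => c.equi h g) (fun g => S.compat h g) (fun b l t x => rfl) b
  -- the element `Δ.e (1, 0)` fixes the conjugates
  have hfixh : ∀ h : Γ, h ≠ 1 → (Δ.e ((1 : Γ), (0 : Fin 3)) : MulAut V) (S.fV h m) =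
      S.fV h m := by
    intro h hh
    have h1 := hconj h (h⁻¹, 0)
    rw [tr_apply, mul_inv_cancel] at h1
    have h2 : (Δ.e (h⁻¹, (0 : Fin 3)) : MulAut V) m = m := hfix (h⁻¹, 0) (Finset.mem_product.2
      ⟨Finset.mem_erase.2 ⟨inv_ne_one.2 hh, Finset.mem_univ _⟩, Finset.mem_singleton_self _⟩)
    rw [← h1, MulAut.mul_apply, MulAut.mul_apply]
    have h3 : (S.fV h)⁻¹ (S.fV h m) = m := by
      rw [← MulAut.mul_apply, inv_mul_cancel, MulAut.one_apply]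
    rw [h3, h2]
  refine ⟨m, fun h hh => ⟨δ, s, hcop, ?_, ?_⟩, χ, hadd, hχm, fun h hh => hχu _ (hfixh h hh)⟩
  · rw [hδ]
    exact hfixh h hh
  · rw [← hnorm]
    refine Finset.prod_congr rfl fun i _ => ?_
    rw [map_pow, hδ]
    rfl

end Pool.Agent.Lib.MP_b9166b_al.Aq
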