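import Pool.Agent.Lib.MP_b9166b_al.Aq.GeA0

/-!
# MP_b9166b_al, PRIME POWER, regular case: the extra special case for an abstract cover
-/

set_option autoImplicit false

namespace Pool.Agent.Lib.MP_b9166b_al.Aq.Gx

open Equiv Equiv.Perm Rg Qc

variable {Γ A : Type} [Group Γ] [Group A] [Fintype Γ] [DecidableEq Γ] {k : ℕ}

section Emb

variable {s : ℕ} (κ : (Fin 4 × (ZMod s × ZMod s)) ⊕ Bool ↪ Fin k)

/-- the embedding of the blocks -/
def jb : ((Γ × Fin 4) × (ZMod s × ZMod s)) ↪ Γ × Fin k :=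
  ⟨fun x => (x.1.1, κ (Sum.inl (x.1.2, x.2))), by
    rintro ⟨⟨g, i⟩, e⟩ ⟨⟨g', i'⟩, e'⟩ h
    have h1 : g = g' := congrArg Prod.fst h
    have h2 := Sum.inl_injective (κ.injective (congrArg Prod.snd h))
    have h3 : i = i' := congrArg Prod.fst h2
    have h4 : e = e' := congrArg Prod.snd h2
    rw [h1, h3, h4]⟩

omit [Fintype Γ] [DecidableEq Γ] in
theorem jb_ne (x : (Γ × Fin 4) × (ZMod s × ZMod s)) (t : Bool) :
    jb κ x ≠ ((1 : Γ), κ (Sum.inr t)) := by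
  intro h
  have h1 := κ.injective (congrArg Prod.snd h)
  exact absurd h1 (by simp)

/-- the system of blocks of a cover -/
noncomputable def db [Fact s.Prime] (h5 : 5 ≤ Nat.card (Γ × Fin k)) :
    Blk (alternatingGroup (Γ × Fin k)) (Γ × Fin 4) s :=
  blkAlt (jb κ) (a := ((1 : Γ), κ (Sum.inr false))) (b := ((1 : Γ), κ (Sum.inr true)))
    (fun h => absurd (κ.injective (congrArg Prod.snd h)) (by simp))
    (fun x => jb_ne κ x false) (fun x => jb_ne κ x true) h5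

theorem db_e [Fact s.Prime] (h5 : 5 ≤ Nat.card (Γ × Fin k)) (b : Γ × Fin 4) :
    ((db κ h5).e b : Perm (Γ × Fin k)) = viaEmbeddingHom (jb κ) (bt (Pi.single b (1, 0))) := rfl

theorem db_tr [Fact s.Prime] (h5 : 5 ≤ Nat.card (Γ × Fin k)) (h g : Γ) (i : Fin 4) :
    tr h * ((db κ h5).e (g, i) : Perm (Γ × Fin k)) * (tr h)⁻¹ =
      ((db κ h5).e (h * g, i) : Perm (Γ × Fin k)) := by
  rw [db_e, db_e, via_conj (jb κ) (Θ := Equiv.prodCongr (tr h : Perm (Γ × Fin 4)) (Equiv.refl _))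
    (fun x => rfl), bt_perm]
  congr 2
  funext x
  rw [Function.comp_apply]
  by_cases hx : x = (h * g, i)
  · subst hx
    have h1 : (tr h : Perm (Γ × Fin 4)).symm (h * g, i) = (g, i) := by
      rw [Equiv.symm_apply_eq, tr_apply]
    rw [h1, Pi.single_eq_same, Pi.single_eq_same]
  · rw [Pi.single_eq_of_ne hx, Pi.single_eq_of_ne]
    intro h1
    apply hx
    rw [Equiv.symm_apply_eq, tr_apply] at h1
    exact h1

end Emb

theorem cov_extra [Finite A] (c : Cov Γ A k) (hperf : commutator A = ⊤) (hk : 38 ≤ k)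
    (hnil : Group.IsNilpotent c.π.ker)
    (hab : ∀ U : Subgroup A, U ≤ c.π.ker → (∀ u ∈ U, ∀ u' ∈ U, Commute u u') →
      (∀ g, ∀ u ∈ U, g * u * g⁻¹ ∈ U) → (∀ h, ∀ u ∈ U, c.φ h u ∈ U) →
      U ≤ Subgroup.center A)
    (hnc : ¬ c.π.ker ≤ Subgroup.center A) :
    ∃ (r : ℕ) (y n z₀ : A), r.Prime ∧ r ∣ Nat.card c.π.ker ∧ z₀ ≠ 1 ∧ z₀ ^ r = 1 ∧
      c.π z₀ = 1 ∧ z₀ ∈ Subgroup.center A ∧ y ^ r = 1 ∧ (∀ h, Commute y (c.φ h y)) ∧
      n * y * n⁻¹ = z₀ * y ∧ ∀ h, h ≠ 1 → Commute n (c.φ h y) := by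
  obtain ⟨r, hr, hrcard, x₀, hx₀, hx₀1⟩ := exists_M₀ (π := c.π) hnil hnc
  have : Fact r.Prime := ⟨hr⟩
  -- the prime `s`
  obtain ⟨s, hs, hs3, hsp⟩ : ∃ s : ℕ, s.Prime ∧ s ≤ 3 ∧ s ≠ r := by
    by_cases h : r = 2
    · exact ⟨3, Nat.prime_three, le_rfl, by omega⟩
    · exact ⟨2, Nat.prime_two, by norm_num, fun h' => h h'.symm⟩
  have hsF : Fact s.Prime := ⟨hs⟩
  have hcop : Nat.Coprime s r := (Nat.coprime_primes hs hr).2 hsp
  have hsK : (s : ZMod r) ≠ 0 := by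
    rw [Ne, ZMod.natCast_eq_zero_iff]
    intro h
    exact hsp ((Nat.prime_dvd_prime_iff_eq hr hs).1 h).symm
  -- the embedding
  obtain ⟨κ⟩ : Nonempty ((Fin 4 × (ZMod s × ZMod s)) ⊕ Bool ↪ Fin k) := by
    apply Function.Embedding.nonempty_of_card_le
    rw [Fintype.card_sum, Fintype.card_prod, Fintype.card_prod, ZMod.card, Fintype.card_fin,
      Fintype.card_fin, Fintype.card_bool]
    have h1 : s * s ≤ 3 * 3 := Nat.mul_le_mul hs3 hs3
    omega
  have h5 : 5 ≤ Nat.card (Γ × Fin k) := by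
    rw [Nat.card_prod, Nat.card_eq_fintype_card (α := Fin k), Fintype.card_fin]
    have h1 : 1 ≤ Nat.card Γ := Nat.card_pos
    nlinarith
  let Δ : Blk (alternatingGroup (Γ × Fin k)) (Γ × Fin 4) s := db κ h5
  -- the centre is contained in the kernel
  have hZ : ∀ z ∈ Subgroup.center A, c.π z = 1 := by
    intro z hz
    have h1 : c.πA z ∈ Subgroup.center (alternatingGroup (Γ × Fin k)) := by
      rw [Subgroup.mem_center_iff] at hz ⊢
      intro g
      obtain ⟨g, rfl⟩ := c.πA_surjective g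
      rw [← map_mul, ← map_mul, hz]
    rw [alternatingGroup.center_eq_bot (by omega), Subgroup.mem_bot] at h1
    rw [← c.πA_coe, h1]
    rfl
  -- the elements `u₁`
  let b₀ : Γ × Fin 4 := (1, 0)
  let T₃ : Finset (Γ × Fin 4) := {((1 : Γ), (0 : Fin 4)), (1, 2), (1, 3)}
  let B₀ : Finset (Γ × Fin 4) := Finset.univ \ T₃
  have hT₃ : T₃.card = 3 := by
    rw [Finset.card_eq_three]
    exact ⟨((1 : Γ), (0 : Fin 4)), (1, 2), (1, 3),
      fun h => absurd (congrArg Prod.snd h) (by change ¬ (0 : Fin 4) = 2; decide),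
      fun h => absurd (congrArg Prod.snd h) (by change ¬ (0 : Fin 4) = 3; decide),
      fun h => absurd (congrArg Prod.snd h) (by change ¬ (2 : Fin 4) = 3; decide), rfl⟩
  have hB₀ : B₀.card + 3 ≤ Fintype.card (Γ × Fin 4) := by
    rw [Finset.card_sdiff_of_subset (Finset.subset_univ _), hT₃, Finset.card_univ]
    have h1 : 3 ≤ Fintype.card (Γ × Fin 4) := by
      rw [← hT₃]
      exact Finset.card_le_univ _
    omega
  have hb₀ : b₀ ∉ B₀ := by
    intro h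
    exact (Finset.mem_sdiff.1 h).2 (Finset.mem_insert_self _ _)
  have hB₀m : ∀ b : Γ × Fin 4, (b.1 ≠ 1 ∨ b.2 = 1) → b ∈ B₀ := by
    rintro ⟨g, i⟩ hb
    rw [Finset.mem_sdiff]
    refine ⟨Finset.mem_univ _, fun h => ?_⟩
    rw [Finset.mem_insert, Finset.mem_insert, Finset.mem_singleton] at h
    have h1 : g = 1 := by
      rcases h with h | h | h <;> exact congrArg Prod.fst h
    rcases hb with hb | hb
    · exact hb h1
    · change i = 1 at hb
      subst hb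
      rcases h with h | h | h
      · exact absurd (congrArg Prod.snd h) (by change ¬ (1 : Fin 4) = 0; decide)
      · exact absurd (congrArg Prod.snd h) (by change ¬ (1 : Fin 4) = 2; decide)
      · exact absurd (congrArg Prod.snd h) (by change ¬ (1 : Fin 4) = 3; decide)
  obtain ⟨u₁, hu1, hu2, hu3, hu4, hu5, hu6⟩ := exists_elt c.range (exists_nt c.range hperf hx₀ hx₀1)
    Δ hs.two_le hsK hB₀ hb₀
  have hu₁ : Ok c.π r u₁ := ⟨hu1, hu2, hu3⟩
  have hfix₁ : ∀ b ∈ B₀, Fx c.π Δ u₁ b := hu4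
  have hnm₁ : Nm c.π Δ u₁ b₀ := hu5
  have hlift : ∀ a : alternatingGroup (Γ × Fin k), ∃ g : A, c.π g = (a : Perm (Γ × Fin k)) := by
    intro a
    have h1 : (a : Perm (Γ × Fin k)) ∈ c.π.range := by
      rw [c.range]
      exact a.2
    exact h1
  have hu₁z : u₁ ∉ Subgroup.center A := by
    intro h
    obtain ⟨δ, hδ⟩ := hlift (Δ.e b₀)
    have h1 : δ * u₁ ^ 1 * δ⁻¹ * (u₁ ^ 1)⁻¹ ∈ Subgroup.center A := by
      rw [pow_one, Subgroup.mem_center_iff.1 h δ]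
      simp
    exact hr.one_lt.ne' (Nat.dvd_one.1 (hu6 δ hδ 1 h1))
  -- the element `n'`
  obtain ⟨n', hn', hne⟩ : ∃ n', Ok c.π r n' ∧ ¬ Commute n' u₁ := by
    by_contra hcon
    push Not at hcon
    have hconj : ∀ g : A, ∀ a, c.π (MulAut.conj g a) = c.π g * c.π a * (c.π g)⁻¹ := by
      intro g a
      rw [MulAut.conj_apply, map_mul, map_mul, map_inv]
    let U₀ : Subgroup A := (M₀ c.π r).comap (QuotientGroup.mk' (Subgroup.center A))
    have hU₀ : ∀ a, a ∈ U₀ ↔ Ok c.π r a := fun a => ok_iff hZ a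
    let U : Subgroup A := U₀ ⊓ Subgroup.centralizer (U₀ : Set A)
    have hU : ∀ a, a ∈ U ↔ Ok c.π r a ∧ ∀ b, Ok c.π r b → b * a = a * b := by
      intro a
      rw [Subgroup.mem_inf, Subgroup.mem_centralizer_iff, hU₀]
      constructor
      · rintro ⟨h1, h2⟩
        exact ⟨h1, fun b hb => h2 b ((hU₀ b).2 hb)⟩
      · rintro ⟨h1, h2⟩
        exact ⟨h1, fun b hb => h2 b ((hU₀ b).1 hb)⟩
    have hmap : ∀ (τ : MulAut A) (T : Perm (Γ × Fin k)),
        (∀ a, c.π (τ a) = T * c.π a * T⁻¹) → ∀ u ∈ U, τ u ∈ U := by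
      intro τ T hτ u hu
      rw [hU] at hu ⊢
      refine ⟨hu.1.map τ T hτ, fun b hb => ?_⟩
      have h1 : Ok c.π r (τ⁻¹ b) := by
        refine hb.map τ⁻¹ T⁻¹ fun a => ?_
        have h2 := hτ (τ⁻¹ a)
        rw [← MulAut.mul_apply, mul_inv_cancel, MulAut.one_apply] at h2
        rw [h2]
        group
      have h2 := congrArg τ (hu.2 _ h1)
      rwa [map_mul, map_mul, ← MulAut.mul_apply, mul_inv_cancel, MulAut.one_apply] at h2
    apply hu₁z
    refine hab U (fun u hu => ((hU u).1 hu).1.ker) (fun u hu u' hu' => ?_) (fun g u hu => ?_)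
      (fun h u hu => ?_) ((hU u₁).2 ⟨hu₁, fun b hb => hcon b hb⟩)
    · exact ((hU u').1 hu').2 u ((hU u).1 hu).1
    · have h1 := hmap (MulAut.conj g) (c.π g) (hconj g) u hu
      rwa [MulAut.conj_apply] at h1
    · exact hmap (c.φ h) (tr h) (c.equi h) u hu
  obtain ⟨n, hn, hnfix, hnne⟩ := exists_n c.range hcop hZ hu₁ hn' hne B₀ hfix₁
  -- the element `u₂`
  obtain ⟨α, hα⟩ := perm_e Δ (Equiv.swap ((1 : Γ), (0 : Fin 4)) (1, 1))
  obtain ⟨g, hg⟩ := hlift α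
  have hαe : ∀ b, (α : Perm (Γ × Fin k)) * (Δ.e b : Perm (Γ × Fin k)) *
      (α : Perm (Γ × Fin k))⁻¹ = Δ.e (Equiv.swap ((1 : Γ), (0 : Fin 4)) (1, 1) b) :=
    fun b => congrArg Subtype.val (hα b)
  have hconj : ∀ a, c.π (MulAut.conj g a) = (α : Perm (Γ × Fin k)) * c.π a *
      (α : Perm (Γ × Fin k))⁻¹ := by
    intro a
    rw [MulAut.conj_apply, map_mul, map_mul, map_inv, hg]
  set u₂ : A := MulAut.conj g u₁ with hu₂def
  have hu₂ : Ok c.π r u₂ := hu₁.map _ _ hconj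
  have hnm₂ : Nm c.π Δ u₂ (1, 1) := by
    refine hnm₁.map _ _ hconj ?_
    rw [hαe, Equiv.swap_apply_left]
  have hfix₂ : ∀ b : Γ × Fin 4, (b.1 ≠ 1 ∨ b.2 = 0) → Fx c.π Δ u₂ b := by
    rintro ⟨a, i⟩ hb
    by_cases ha : a = 1
    · rcases hb with hb | hb
      · exact absurd ha hb
      · change i = 0 at hb
        subst ha
        subst hb
        refine (hfix₁ (1, 1) (hB₀m _ (Or.inr rfl))).map _ _ hconj ?_
        rw [hαe, Equiv.swap_apply_right]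
    · refine (hfix₁ (a, i) (hB₀m _ (Or.inl ha))).map _ _ hconj ?_
      rw [hαe, Equiv.swap_apply_of_ne_of_ne]
      · exact fun h => ha (congrArg Prod.fst h)
      · exact fun h => ha (congrArg Prod.fst h)
  -- the conjugates
  have hφ₁ : ∀ h, Ok c.π r (c.φ h u₁) := fun h => hu₁.map _ _ (c.equi h)
  have hφ₂ : ∀ h, Ok c.π r (c.φ h u₂) := fun h => hu₂.map _ _ (c.equi h)
  have hφn₁ : ∀ h, Nm c.π Δ (c.φ h u₁) (h, 0) := by
    intro h
    refine hnm₁.map _ _ (c.equi h) ?_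
    rw [db_tr, mul_one]
  have hφn₂ : ∀ h, Nm c.π Δ (c.φ h u₂) (h, 1) := by
    intro h
    refine hnm₂.map _ _ (c.equi h) ?_
    rw [db_tr, mul_one]
  -- commutation
  have h11 : ∀ h, h ≠ 1 → Commute (c.φ h u₁) u₁ := fun h hh =>
    comm_of c.range hcop (hφ₁ h) (hφn₁ h) hu₁.ker (hfix₁ _ (hB₀m _ (Or.inl hh)))
  have h21 : ∀ h, Commute (c.φ h u₂) u₁ := fun h =>
    comm_of c.range hcop (hφ₂ h) (hφn₂ h) hu₁.ker (hfix₁ _ (hB₀m _ (Or.inr rfl)))
  have h12 : ∀ h, Commute (c.φ h u₁) u₂ := fun h =>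
    comm_of c.range hcop (hφ₁ h) (hφn₁ h) hu₂.ker (hfix₂ _ (Or.inr rfl))
  have h22 : ∀ h, h ≠ 1 → Commute (c.φ h u₂) u₂ := fun h hh =>
    comm_of c.range hcop (hφ₂ h) (hφn₂ h) hu₂.ker (hfix₂ _ (Or.inl hh))
  have h1n : ∀ h, h ≠ 1 → Commute (c.φ h u₁) n := fun h hh =>
    comm_of c.range hcop (hφ₁ h) (hφn₁ h) hn.ker (hnfix _ (hB₀m _ (Or.inl hh)))
  have h2n : ∀ h, Commute (c.φ h u₂) n := fun h =>
    comm_of c.range hcop (hφ₂ h) (hφn₂ h) hn.ker (hnfix _ (hB₀m _ (Or.inr rfl)))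
  have hu12 : Commute u₂ u₁ := by
    have h1 := h21 1
    rwa [map_one, MulAut.one_apply] at h1
  have hnu2 : Commute u₂ n := by
    have h1 := h2n 1
    rwa [map_one, MulAut.one_apply] at h1
  -- the commutator
  have hz₀ : n * u₁ * n⁻¹ * u₁⁻¹ ∈ Subgroup.center A := hn.cm u₁ hu₁.ker
  refine ⟨r, u₁ * u₂⁻¹, n, n * u₁ * n⁻¹ * u₁⁻¹, hr, hrcard, ?_, ?_, hZ _ hz₀, hz₀, ?_, ?_, ?_, ?_⟩
  · intro h
    rw [mul_inv_eq_one, mul_inv_eq_iff_eq_mul] at h
    exact hnne h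
  · let N : kc u₁ := ⟨n, hz₀⟩
    have h1 : kh u₁ N ^ r = 1 := by
      rw [← map_pow]
      exact kh_eq_one_of_center hn.pw
    exact congrArg Subtype.val h1
  · rw [(hu12.symm.inv_right).mul_pow, inv_pow]
    have h1 : u₂ ^ r = u₁ ^ r := by
      rw [hu₂def, ← map_pow, MulAut.conj_apply, Subgroup.mem_center_iff.1 hu₁.pw g,
        mul_inv_cancel_right]
    rw [h1, mul_inv_cancel]
  · intro h
    by_cases hh : h = 1
    · subst hh
      rw [map_one, MulAut.one_apply]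
    · rw [map_mul, map_inv]
      have h1 : Commute (u₁ * u₂⁻¹) (c.φ h u₁) :=
        ((h11 h hh).symm.mul_left ((h12 h).symm.inv_left))
      have h2 : Commute (u₁ * u₂⁻¹) (c.φ h u₂) :=
        ((h21 h).symm.mul_left ((h22 h hh).symm.inv_left))
      exact h1.mul_right h2.inv_right
  · have h1 : n * u₂⁻¹ * n⁻¹ = u₂⁻¹ := by
      rw [mul_inv_eq_iff_eq_mul]
      exact (hnu2.inv_left).symm.eq
    calc n * (u₁ * u₂⁻¹) * n⁻¹ = (n * u₁ * n⁻¹) * (n * u₂⁻¹ * n⁻¹) := by group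
      _ = (n * u₁ * n⁻¹) * u₂⁻¹ := by rw [h1]
      _ = n * u₁ * n⁻¹ * u₁⁻¹ * (u₁ * u₂⁻¹) := by group
  · intro h hh
    rw [map_mul, map_inv]
    exact (h1n h hh).symm.mul_right ((h2n h).symm.inv_right)

end Pool.Agent.Lib.MP_b9166b_al.Aq.Gx
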