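import Pool.Agent.Lib.MP_b9166b_al.Aq.BlC
import Pool.Agent.Lib.MP_b9166b_al.Aq.Tq
import Pool.Agent.Lib.MP_b9166b_al.Rg.BlkM
import Pool.Agent.Lib.MP_b9166b_al.Aq.GeA1

/-!
# MP_b9166b_al, PRIME POWER, regular case: the elements `y`, `n`, `z` in the extra special case

Every abelian subgroup of `N = c.π.ker.map ρ` normalized by `ρ.range` and the `fV h` is central in
`A = ρ.range`, and `N` is not central in `A`.

Proof. Let `Z₀ = Z(N)` (the elements of `N` which commute with `N`). It is abelian, normalized by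
`A` and the `fV h`, so central in `A` by `hab`. `N ≠ Z₀` by `hnc`. As `N` is nilpotent, there are a
prime `r` and `x ∈ N`, `x ∉ Z₀`, `x ^ r ∈ Z₀`, `x * n * x⁻¹ * n⁻¹ ∈ Z₀` for `n ∈ N` (the centre of
`N / Z₀` is not trivial). `r ≠ q` by `S.cop`. Let `U` be the group of all such `x ∈ N` (those
with `x ^ r ∈ Z₀` and `[x, N] ≤ Z₀`; the commutator map is bilinear on `U`, `[x, x'] ^ r = 1`, and
`(x x') ^ r ∈ Z₀` since `U / Z₀` is abelian). `U` is normalized by `A` and the `fV h`.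
* If `x ∈ U` commutes with `U` then `x ∈ Z₀`: the centre of `U` is abelian and
  normalized by `A` and the `fV h`, so it is central in `A` by `hab`, in particular it commutes
  with `N`.
* By `hker` the group `A` maps onto the alternating group with kernel `N`, and the alternating group
  acts on `M₀ = U / Z₀`, a commutative group of exponent `r` (`N` acts trivially). The action is not
  trivial: otherwise `[U, A] ≤ Z₀ ≤ Z(A)`, and `A` is perfect, so `U ≤ Z(A)` (`Rg.center_of_comm`),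
  and `U ≤ Z₀`.
* Let `s ∈ {2, 3}`, `s ≠ r`, and let `cf : Conf (tr : Γ →* Perm (Γ × Fin k)) Unit (Kq (Fin 4) s)`
  be the configuration with the points `(1, κ x)`, `κ : Kq (Fin 4) s ↪ Fin k`, `A () = ⊥`, and
  `Δ = cf.dq () h5`, with the blocks `b h i = cf.actq h (cf.bq () i)` (`h : Γ`, `i : Fin 4`); these
  are all blocks, and they are different (`Conf.actq_bq`). By `Blk.exists_char` with
  `b₀ = b 1 0` and `B₀` the set of all blocks except `b 1 0`, `b 1 2`, `b 1 3` there is `u₁ ∈ U`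
  whose class in `M₀` is not trivial, fixed by `Δ.e b'` for `b' ∈ B₀`, with trivial norm under
  `Δ.e b₀`.
* As `u₁ ∉ Z₀` there is `n' ∈ U` with `[n', u₁] ≠ 1`. Replace `n'` by its norms under `Δ.e b'`
  for `b' ∈ B₀` one after another (they commute modulo `N`; the commutator with `u₁` becomes its
  `s`-th power as `Δ.e b'` fixes `u₁` modulo `Z₀`), and then by `n' ^ s` times the inverse of the norm
  of `n'` under `Δ.e b₀` (the commutator of this norm with `u₁` is the commutator of `n'` with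
  the norm of `u₁` under the inverse, so trivial). We get `n₁ ∈ U`, its class is fixed by `Δ.e b'`
  for `b' ∈ B₀`, has trivial norm under `Δ.e b₀`, and `z₀ = [n₁, u₁] ≠ 1`, `z₀ ^ r = 1`.
* `Blk.perm` for the transposition of `b 1 0` and `b 1 1` gives a `g ∈ A` whose image exchanges the
  elements `Δ.e (b 1 0)`, `Δ.e (b 1 1)` and commutes with the other `Δ.e b'`. Let
  `u₂ = g * u₁ * g⁻¹`, fixed modulo `Z₀` by `Δ.e b'` for `b'` not among `b 1 1`, `b 1 2`, `b 1 3`,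
  with trivial norm under `Δ.e (b 1 1)`. Since `u₁ ^ r ∈ Z₀` is central in `A`,
  `u₂ ^ r = u₁ ^ r`. `u₁` and `u₂` commute (`Rg.comm_of_norm`, `δ` a preimage of `Δ.e (b 1 0)`).
  Let `y = u₁ * u₂⁻¹`. Then `y ^ r = 1`.
* Conjugation with `fV h` maps `Δ.e b'` to `Δ.e (actq h b')` (`Conf.dq_act`). The element
  `n₁` commutes with `u₂` and with the conjugates of `u₁`, `u₂` by `fV h`, `h ≠ 1`, and `u₁`, `u₂`
  commute with them, by `Rg.comm_of_norm` (in the group `A` or in `L`).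
-/

set_option autoImplicit false

namespace Pool.Agent.Lib.MP_b9166b_al.Aq

open Equiv Equiv.Perm Rg

variable {Γ L : Type} [Group Γ] [Group L] [Fintype Γ] [DecidableEq Γ] {k : ℕ}

theorem Vp.exists_extra [Finite L] {q : ℕ} (hq : q.Prime) {c : Cov Γ L k}
    (hperf : commutator L = ⊤) (hk : 38 ≤ k)
    {V : Type} [CommGroup V] [Finite V] (S : Vp q c V) (hker : ∀ g, S.ρ g = 1 → c.π g = 1)
    (hab : ∀ U : Subgroup (MulAut V), U ≤ c.π.ker.map S.ρ → (∀ u ∈ U, ∀ u' ∈ U, Commute u u') →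
      (∀ g, ∀ u ∈ U, S.ρ g * u * (S.ρ g)⁻¹ ∈ U) → (∀ h, ∀ u ∈ U, S.fV h * u * (S.fV h)⁻¹ ∈ U) →
      ∀ u ∈ U, ∀ g, Commute u (S.ρ g))
    (hnc : ∃ n, c.π n = 1 ∧ ∃ g, ¬ Commute (S.ρ n) (S.ρ g)) :
    ∃ (r : ℕ) (y n : L) (z₀ : MulAut V), r.Prime ∧ r ≠ q ∧ z₀ ≠ 1 ∧ z₀ ^ r = 1 ∧
      z₀ ∈ c.π.ker.map S.ρ ∧ (∀ g, Commute z₀ (S.ρ g)) ∧
      (∀ h, ∀ g, Commute (S.fV h * z₀ * (S.fV h)⁻¹) (S.ρ g)) ∧ S.ρ y ^ r = 1 ∧
      (∀ h, Commute (S.ρ y) (S.ρ (c.φ h y))) ∧ S.ρ n * S.ρ y * (S.ρ n)⁻¹ = z₀ * S.ρ y ∧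
      ∀ h, h ≠ 1 → Commute (S.ρ n) (S.ρ (c.φ h y)) := by
  have hconj : ∀ (h : Γ) (a : MulAut V), a ∈ S.ρ.range → S.fV h * a * (S.fV h)⁻¹ ∈ S.ρ.range := by
    rintro h _ ⟨g, rfl⟩
    exact ⟨c.φ h g, S.compat h g⟩
  let cj : Γ → MulAut S.ρ.range := fun h =>
    { toFun := fun a => ⟨S.fV h * a.1 * (S.fV h)⁻¹, hconj h _ a.2⟩
      invFun := fun a => ⟨S.fV h⁻¹ * a.1 * (S.fV h⁻¹)⁻¹, hconj h⁻¹ _ a.2⟩
      left_inv := fun a => by
        apply Subtype.ext
        change S.fV h⁻¹ * (S.fV h * a.1 * (S.fV h)⁻¹) * (S.fV h⁻¹)⁻¹ = a.1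
        rw [map_inv]
        group
      right_inv := fun a => by
        apply Subtype.ext
        change S.fV h * (S.fV h⁻¹ * a.1 * (S.fV h⁻¹)⁻¹) * (S.fV h)⁻¹ = a.1
        rw [map_inv]
        group
      map_mul' := fun a b => by
        apply Subtype.ext
        change S.fV h * (a.1 * b.1) * (S.fV h)⁻¹ =
          (S.fV h * a.1 * (S.fV h)⁻¹) * (S.fV h * b.1 * (S.fV h)⁻¹)
        group }
  have hcj : ∀ h (a : S.ρ.range), ((cj h a : S.ρ.range) : MulAut V) =
      S.fV h * a.1 * (S.fV h)⁻¹ := fun h a => rfl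
  let φA : Γ →* MulAut S.ρ.range :=
    { toFun := cj
      map_one' := by
        apply MulEquiv.ext
        intro a
        apply Subtype.ext
        rw [hcj, map_one, MulAut.one_apply, inv_one, one_mul, mul_one]
      map_mul' := fun h h' => by
        apply MulEquiv.ext
        intro a
        apply Subtype.ext
        rw [MulAut.mul_apply, hcj, hcj, hcj, map_mul]
        group }
  have hφA : ∀ h g, φA h (S.ρ.rangeRestrict g) = S.ρ.rangeRestrict (c.φ h g) := by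
    intro h g
    apply Subtype.ext
    change S.fV h * S.ρ g * (S.fV h)⁻¹ = S.ρ (c.φ h g)
    rw [S.compat]
  have hsur : Function.Surjective S.ρ.rangeRestrict := S.ρ.rangeRestrict_surjective
  have hkk : S.ρ.rangeRestrict.ker ≤ c.π.ker := by
    intro g hg
    rw [MonoidHom.ker_rangeRestrict] at hg
    exact hker g hg
  let πA : S.ρ.range →* Perm (Γ × Fin k) :=
    S.ρ.rangeRestrict.liftOfSurjective hsur ⟨c.π, hkk⟩
  have hπA : ∀ g, πA (S.ρ.rangeRestrict g) = c.π g := fun g =>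
    MonoidHom.liftOfRightInverse_comp_apply _ _ _ _ _
  let cA : Cov Γ S.ρ.range k :=
    { φ := φA
      π := πA
      range := by
        rw [← c.range]
        ext σ
        constructor
        · rintro ⟨a, rfl⟩
          obtain ⟨g, rfl⟩ := hsur a
          exact ⟨g, (hπA g).symm⟩
        · rintro ⟨g, rfl⟩
          exact ⟨S.ρ.rangeRestrict g, hπA g⟩
      equi := by
        intro h a
        obtain ⟨g, rfl⟩ := hsur a
        rw [hφA, hπA, hπA, c.equi] }
  have hkerA : ∀ g, S.ρ.rangeRestrict g ∈ cA.π.ker ↔ c.π g = 1 := by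
    intro g
    rw [MonoidHom.mem_ker]
    change πA (S.ρ.rangeRestrict g) = 1 ↔ _
    rw [hπA]
  -- the hypotheses
  have hperfA : commutator S.ρ.range = ⊤ := by
    have h1 : (commutator L).map S.ρ.rangeRestrict = ⊤ := by
      rw [hperf, ← MonoidHom.range_eq_map, MonoidHom.range_eq_top]
      exact hsur
    rw [commutator_def, Subgroup.map_commutator, ← MonoidHom.range_eq_map,
      MonoidHom.range_eq_top.2 hsur] at h1
    rw [commutator_def]
    exact h1
  have hmemN : ∀ x : cA.π.ker, ((x : S.ρ.range) : MulAut V) ∈ c.π.ker.map S.ρ := by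
    rintro ⟨x, hx⟩
    obtain ⟨g, rfl⟩ := hsur x
    exact ⟨g, (hkerA g).1 hx, rfl⟩
  let e : c.π.ker.map S.ρ →* cA.π.ker :=
    { toFun := fun x => ⟨⟨x.1, by
        obtain ⟨g, -, hg⟩ := x.2
        exact ⟨g, hg⟩⟩, by
        obtain ⟨_, g, hg, rfl⟩ := x
        exact (hkerA g).2 hg⟩
      map_one' := rfl
      map_mul' := fun _ _ => rfl }
  have he : Function.Surjective e := fun x => ⟨⟨_, hmemN x⟩, rfl⟩
  have hnilA : Group.IsNilpotent cA.π.ker := by
    have := S.nil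
    exact Group.nilpotent_of_surjective e he
  have hcard : Nat.card cA.π.ker ∣ Nat.card (c.π.ker.map S.ρ) :=
    Subgroup.card_dvd_of_surjective e he
  have hcentA : ∀ a : S.ρ.range, a ∈ Subgroup.center S.ρ.range ↔
      ∀ g, Commute (a : MulAut V) (S.ρ g) := by
    intro a
    rw [Subgroup.mem_center_iff]
    constructor
    · intro h g
      exact (congrArg Subtype.val (h (S.ρ.rangeRestrict g))).symm
    · intro h g
      obtain ⟨g, rfl⟩ := hsur g
      exact Subtype.ext (h g).symm.eq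
  have habA : ∀ U : Subgroup S.ρ.range, U ≤ cA.π.ker → (∀ u ∈ U, ∀ u' ∈ U, Commute u u') →
      (∀ g, ∀ u ∈ U, g * u * g⁻¹ ∈ U) → (∀ h, ∀ u ∈ U, cA.φ h u ∈ U) →
      U ≤ Subgroup.center S.ρ.range := by
    intro U h1 h2 h3 h4 u hu
    rw [hcentA]
    refine hab (U.map S.ρ.range.subtype) ?_ ?_ ?_ ?_ u ⟨u, hu, rfl⟩
    · rintro _ ⟨x, hx, rfl⟩
      exact hmemN ⟨x, h1 hx⟩
    · rintro _ ⟨x, hx, rfl⟩ _ ⟨x', hx', rfl⟩
      exact congrArg Subtype.val (h2 x hx x' hx')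
    · rintro g _ ⟨x, hx, rfl⟩
      exact ⟨_, h3 (S.ρ.rangeRestrict g) x hx, rfl⟩
    · rintro h _ ⟨x, hx, rfl⟩
      exact ⟨_, h4 h x hx, rfl⟩
  have hncA : ¬ cA.π.ker ≤ Subgroup.center S.ρ.range := by
    intro h
    obtain ⟨n, hn, g, hng⟩ := hnc
    exact hng ((hcentA _).1 (h ((hkerA n).2 hn)) g)
  obtain ⟨r, y, n, z₀, hr, hrcard, hz1, hzr, hzk, hzc, hyr, hyy, hny, hnyh⟩ :=
    Gx.cov_extra cA hperfA hk hnilA habA hncA
  obtain ⟨y, rfl⟩ := hsur y
  obtain ⟨n, rfl⟩ := hsur n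
  have hφA' : ∀ h g, cA.φ h (S.ρ.rangeRestrict g) = S.ρ.rangeRestrict (c.φ h g) := hφA
  refine ⟨r, y, n, z₀, hr, ?_, fun h => hz1 (Subtype.ext h), congrArg Subtype.val hzr,
    hmemN ⟨z₀, hzk⟩, (hcentA z₀).1 hzc, ?_, congrArg Subtype.val hyr, ?_,
    congrArg Subtype.val hny, ?_⟩
  · intro h
    have h1 := S.cop
    have h2 : r ∣ Nat.card (c.π.ker.map S.ρ) := hrcard.trans hcard
    have h3 : r ∣ 1 := by
      rw [← Nat.Coprime.gcd_eq_one h1]
      exact Nat.dvd_gcd h2 (by rw [h])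
    exact hr.one_lt.ne' (Nat.dvd_one.1 h3)
  · intro h
    exact (hcentA (cA.φ h z₀)).1 (Gx.center_map _ hzc)
  · intro h
    have h1 := hyy h
    rw [hφA'] at h1
    exact congrArg Subtype.val h1
  · intro h hh
    have h1 := hnyh h hh
    rw [hφA'] at h1
    exact congrArg Subtype.val h1

end Pool.Agent.Lib.MP_b9166b_al.Aq
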