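import Pool.Agent.Lib.MP_b9166b_al.Aq.RkC1
import Pool.Agent.Lib.MP_b9166b_al.Rg.CovB

/-!
# MP_b9166b_al, PRIME POWER, regular case: elements of the kernel which commute modulo the centre

`Ok r u`: `u` is in the kernel, commutes with the kernel modulo the centre, `u ^ r` is central.
`Fx u b`: the elements of the block `b` fix `u` modulo the centre. `Nm u b`: the norm of `u` under
the elements of the block `b` is central.
-/

set_option autoImplicit false

namespace Pool.Agent.Lib.MP_b9166b_al.Aq.Gx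

open Equiv Equiv.Perm Rg Qc

open scoped IsMulCommutative

/-- automorphisms preserve the centre -/
theorem center_map {A : Type} [Group A] (τ : MulAut A) {x : A} (hx : x ∈ Subgroup.center A) :
    τ x ∈ Subgroup.center A := by
  rw [Subgroup.mem_center_iff] at hx ⊢
  intro g
  have h1 := congrArg τ (hx (τ.symm g))
  rwa [map_mul, map_mul, MulEquiv.apply_symm_apply] at h1

/-- permutations of the blocks -/
theorem perm_e {A B : Type} [Group A] [DecidableEq B] {s : ℕ} (Δ : Blk A B s) (θ : Perm B) :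
    ∃ α : A, ∀ b, α * Δ.e b * α⁻¹ = Δ.e (θ b) := by
  obtain ⟨α, hα⟩ := Δ.perm θ
  refine ⟨α, fun b => ?_⟩
  rw [Blk.e, hα, Blk.e]
  congr 1
  funext b'
  rw [Function.comp_apply]
  by_cases h2 : b' = θ b
  · subst h2
    rw [Equiv.symm_apply_apply, Pi.single_eq_same, Pi.single_eq_same]
  · rw [Pi.single_eq_of_ne h2, Pi.single_eq_of_ne]
    intro h3
    exact h2 (by rw [← h3, Equiv.apply_symm_apply])

variable {A Ω : Type} [Group A] (π : A →* Perm Ω)

/-- `u` is in the kernel, commutes with the kernel modulo the centre, `u ^ r` is central -/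
structure Ok (r : ℕ) (u : A) : Prop where
  ker : π u = 1
  cm : ∀ n, π n = 1 → u * n * u⁻¹ * n⁻¹ ∈ Subgroup.center A
  pw : u ^ r ∈ Subgroup.center A

variable {π}

theorem Ok.map {r : ℕ} {u : A} (h : Ok π r u) (τ : MulAut A) (T : Perm Ω)
    (hτ : ∀ a, π (τ a) = T * π a * T⁻¹) : Ok π r (τ u) := by
  refine ⟨by rw [hτ, h.ker, mul_one, mul_inv_cancel], fun n hn => ?_, ?_⟩
  · have h1 : π (τ.symm n) = 1 := by
      have h2 := hτ (τ.symm n)
      rw [MulEquiv.apply_symm_apply, hn] at h2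
      have h3 : π (τ.symm n) = T⁻¹ * (T * π (τ.symm n) * T⁻¹) * T := by group
      rw [h3, ← h2, mul_one, inv_mul_cancel]
    have h2 := center_map τ (h.cm _ h1)
    rwa [map_mul, map_mul, map_mul, map_inv, map_inv, MulEquiv.apply_symm_apply] at h2
  · rw [← map_pow]
    exact center_map τ h.pw

theorem ok_iff {r : ℕ} (hZ : ∀ z ∈ Subgroup.center A, π z = 1) (a : A) :
    QuotientGroup.mk' (Subgroup.center A) a ∈ M₀ π r ↔ Ok π r a := by
  have hq1 : ∀ x, QuotientGroup.mk' (Subgroup.center A) x = 1 ↔ x ∈ Subgroup.center A :=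
    fun x => QuotientGroup.eq_one_iff x
  constructor
  · rintro ⟨⟨n, hn, hna⟩, h2, h3⟩
    refine ⟨?_, fun m hm => ?_, ?_⟩
    · have h4 : QuotientGroup.mk' (Subgroup.center A) (n⁻¹ * a) = 1 := by
        rw [map_mul, map_inv, hna, inv_mul_cancel]
      have h5 := hZ _ ((hq1 _).1 h4)
      rw [map_mul, map_inv, MonoidHom.mem_ker.1 hn, inv_one, one_mul] at h5
      exact h5
    · rw [← hq1, map_mul, map_mul, map_mul, map_inv, map_inv, ← h2 _ ⟨m, hm, rfl⟩]
      group
    · rw [← hq1, map_pow]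
      exact h3
  · rintro ⟨h1, h2, h3⟩
    refine ⟨⟨a, h1, rfl⟩, ?_, ?_⟩
    · rintro _ ⟨m, hm, rfl⟩
      have h4 := (hq1 _).2 (h2 m hm)
      rw [map_mul, map_mul, map_mul, map_inv, map_inv, mul_inv_eq_one, mul_inv_eq_iff_eq_mul] at h4
      exact h4.symm
    · rw [← map_pow]
      exact (hq1 _).2 h3

section Blocks

variable [Fintype Ω] [DecidableEq Ω] {B : Type} [DecidableEq B] {s : ℕ}
  (Δ : Blk (alternatingGroup Ω) B s)

variable (π) in
/-- the block `b` fixes `u` modulo the centre -/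
def Fx (u : A) (b : B) : Prop :=
  ∀ δ : A, π δ = (Δ.e b : Perm Ω) → δ * u * δ⁻¹ * u⁻¹ ∈ Subgroup.center A

variable (π) in
/-- the norm of `u` under the block `b` is central -/
def Nm (u : A) (b : B) : Prop :=
  ∀ δ : A, π δ = (Δ.e b : Perm Ω) →
    (List.map (fun i => δ ^ i * u * (δ ^ i)⁻¹) (List.range s)).prod ∈ Subgroup.center A

variable {Δ}

theorem symm_e (τ : MulAut A) (T : Perm Ω) (hτ : ∀ a, π (τ a) = T * π a * T⁻¹) {b b' : B}
    (hb : T * (Δ.e b : Perm Ω) * T⁻¹ = Δ.e b') {δ : A} (hδ : π δ = (Δ.e b' : Perm Ω)) :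
    π (τ.symm δ) = (Δ.e b : Perm Ω) := by
  have h2 := hτ (τ.symm δ)
  rw [MulEquiv.apply_symm_apply, hδ, ← hb] at h2
  exact (mul_left_cancel (mul_right_cancel h2)).symm

theorem Fx.map {u : A} {b b' : B} (h : Fx π Δ u b) (τ : MulAut A) (T : Perm Ω)
    (hτ : ∀ a, π (τ a) = T * π a * T⁻¹) (hb : T * (Δ.e b : Perm Ω) * T⁻¹ = Δ.e b') :
    Fx π Δ (τ u) b' := by
  intro δ hδ
  have h2 := center_map τ (h _ (symm_e τ T hτ hb hδ))
  rwa [map_mul, map_mul, map_mul, map_inv, map_inv, MulEquiv.apply_symm_apply] at h2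

theorem Nm.map {u : A} {b b' : B} (h : Nm π Δ u b) (τ : MulAut A) (T : Perm Ω)
    (hτ : ∀ a, π (τ a) = T * π a * T⁻¹) (hb : T * (Δ.e b : Perm Ω) * T⁻¹ = Δ.e b') :
    Nm π Δ (τ u) b' := by
  intro δ hδ
  have h2 := center_map τ (h _ (symm_e τ T hτ hb hδ))
  rw [map_list_prod, List.map_map] at h2
  have h3 : (τ ∘ fun i => (τ.symm δ) ^ i * u * ((τ.symm δ) ^ i)⁻¹) =
      fun i => δ ^ i * τ u * (δ ^ i)⁻¹ := by
    funext i
    rw [Function.comp_apply, map_mul, map_mul, map_inv, map_pow, MulEquiv.apply_symm_apply]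
  rwa [h3] at h2

/-- commutation from a norm -/
theorem comm_of (hr : π.range = alternatingGroup Ω) {r : ℕ} (hsr : Nat.Coprime s r) {y u : A}
    {b : B} (hy : Ok π r y) (hn : Nm π Δ y b) (hu : π u = 1) (hf : Fx π Δ u b) : Commute y u := by
  have h1 : (Δ.e b : Perm Ω) ∈ π.range := by
    rw [hr]
    exact (Δ.e b).2
  obtain ⟨δ, hδ⟩ := h1
  exact comm_of_norm hsr (hy.cm u hu) (hf δ hδ) (hn δ hδ) hy.pw

/-- an element which does not commute with `w` and is fixed by given blocks -/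
theorem exists_n (hr : π.range = alternatingGroup Ω) {r : ℕ} (hsr : Nat.Coprime s r)
    (hZ : ∀ z ∈ Subgroup.center A, π z = 1) {w n' : A} (hw : Ok π r w) (hn' : Ok π r n')
    (hne : ¬ Commute n' w) (T : Finset B) (hT : ∀ b ∈ T, Fx π Δ w b) :
    ∃ n, Ok π r n ∧ (∀ b ∈ T, Fx π Δ n b) ∧ ¬ Commute n w := by
  classical
  let q : A →* A ⧸ Subgroup.center A := QuotientGroup.mk' _
  have hq1 : ∀ x, q x = 1 ↔ x ∈ Subgroup.center A := fun x => QuotientGroup.eq_one_iff x
  have hcomm : IsMulCommutative (M₀ π r) :=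
    ⟨⟨fun a b => Subtype.ext (M₀_comm r a.2 b.2)⟩⟩
  let U : Subgroup A := (M₀ π r).comap q
  have hUok : ∀ a, a ∈ U ↔ Ok π r a := fun a => ok_iff hZ a
  have hUk : U ≤ kc w := fun a ha => ((hUok a).1 ha).cm w hw.ker
  let f : U →* Subgroup.center A := (kh w).comp (Subgroup.inclusion hUk)
  have hf : ∀ a : U, (f a : A) = a.1 * w * a.1⁻¹ * w⁻¹ := fun a => rfl
  let p : U →* M₀ π r := q.subgroupComap (M₀ π r)
  have hp : Function.Surjective p :=
    MonoidHom.subgroupComap_surjective_of_surjective q _ (QuotientGroup.mk'_surjective _)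
  have hker : p.ker ≤ f.ker := by
    intro a ha
    have h1 : q a.1 = 1 := congrArg Subtype.val (MonoidHom.mem_ker.1 ha)
    exact kh_eq_one_of_center ((hq1 _).1 h1)
  let β : M₀ π r →* Subgroup.center A := p.liftOfSurjective hp ⟨f, hker⟩
  have hβ : ∀ a, β (p a) = f a := fun a => MonoidHom.liftOfRightInverse_comp_apply _ _ _ _ _
  have hβne : ∀ a : U, β (p a) = 1 ↔ Commute a.1 w := by
    intro a
    rw [hβ]
    constructor
    · intro h
      have h1 : a.1 * w * a.1⁻¹ * w⁻¹ = 1 := congrArg Subtype.val h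
      rw [mul_inv_eq_one, mul_inv_eq_iff_eq_mul] at h1
      exact h1
    · intro h
      apply Subtype.ext
      rw [hf, h.eq]
      simp
  have hlift : ∀ b : B, ∃ δ : A, π δ = (Δ.e b : Perm Ω) := by
    intro b
    have h1 : (Δ.e b : Perm Ω) ∈ π.range := by
      rw [hr]
      exact (Δ.e b).2
    exact h1
  have hβe : ∀ b, Fx π Δ w b → ∀ x, β (ρ₀ hr r (Δ.e b) x) = β x := by
    intro b hb x
    obtain ⟨a, rfl⟩ := hp x
    obtain ⟨δ, hδ⟩ := hlift b
    have h1 : δ * a.1 * δ⁻¹ ∈ U := by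
      have h2 : q (δ * a.1 * δ⁻¹) ∈ M₀ π r := by
        have h3 := (M₀_normal (π := π) r).conj_mem _ a.2 (q δ)
        rwa [map_mul, map_mul, map_inv]
      exact h2
    have h2 : ρ₀ hr r (Δ.e b) (p a) = p ⟨_, h1⟩ := by
      apply Subtype.ext
      rw [ρ₀_coe hr r hδ]
      change q δ * q a.1 * (q δ)⁻¹ = q (δ * a.1 * δ⁻¹)
      rw [map_mul, map_mul, map_inv]
    rw [h2, hβ, hβ]
    let D : kc w := ⟨δ, hb δ hδ⟩
    have h3 : f ⟨_, h1⟩ = kh w (D * Subgroup.inclusion hUk a * D⁻¹) := rfl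
    rw [h3, map_mul, map_mul, map_inv, mul_comm (kh w D), mul_assoc, mul_inv_cancel, mul_one]
    rfl
  have hpow : ∀ x, β x ^ r = 1 := by
    intro x
    have h1 : x ^ r = 1 := Subtype.ext x.2.2.2
    rw [← map_pow, h1, map_one]
  -- the induction
  have main : ∀ T : Finset B, (∀ b ∈ T, Fx π Δ w b) →
      ∃ m : M₀ π r, (∀ b ∈ T, ρ₀ hr r (Δ.e b) m = m) ∧ β m ≠ 1 := by
    intro T
    induction T using Finset.induction_on with
    | empty =>
      intro _
      have h1 : n' ∈ U := (hUok n').2 hn'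
      refine ⟨p ⟨n', h1⟩, by simp, fun h => hne ?_⟩
      exact (hβne ⟨n', h1⟩).1 h
    | insert b T hb ih =>
      intro hT
      obtain ⟨m, hm, hm1⟩ := ih fun b' hb' => hT b' (Finset.mem_insert_of_mem hb')
      have hbw := hT b (Finset.mem_insert_self _ _)
      have hes : Δ.e b ^ s = 1 := Δ.d_pow_s _
      refine ⟨∏ i ∈ Finset.range s, ρ₀ hr r (Δ.e b ^ i) m, ?_, ?_⟩
      · intro b' hb'
        rcases Finset.mem_insert.1 hb' with h | h
        · subst h
          rw [map_prod]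
          have h1 : ∀ i ∈ Finset.range s, ρ₀ hr r (Δ.e b') (ρ₀ hr r (Δ.e b' ^ i) m) =
              ρ₀ hr r (Δ.e b' ^ (i + 1)) m := by
            intro i _
            rw [pow_succ', map_mul, MulAut.mul_apply]
          rw [Finset.prod_congr rfl h1]
          have h2 := Finset.prod_range_succ' (fun i => ρ₀ hr r (Δ.e b' ^ i) m) s
          have h3 := Finset.prod_range_succ (fun i => ρ₀ hr r (Δ.e b' ^ i) m) s
          rw [h3] at h2
          have h4 : ρ₀ hr r (Δ.e b' ^ s) m = ρ₀ hr r (Δ.e b' ^ 0) m := by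
            rw [hes, pow_zero]
          rw [h4] at h2
          exact (mul_right_cancel h2).symm
        · rw [map_prod]
          refine Finset.prod_congr rfl fun i _ => ?_
          have h2 : Commute (Δ.e b') (Δ.e b ^ i) := (Δ.d_comm _ _).pow_right i
          rw [← MulAut.mul_apply, ← map_mul, h2.eq, map_mul, MulAut.mul_apply, hm b' h]
      · have h1 : ∀ i : ℕ, β (ρ₀ hr r (Δ.e b ^ i) m) = β m := by
          intro i
          induction i with
          | zero => rw [pow_zero, map_one, MulAut.one_apply]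
          | succ i ih => rw [pow_succ', map_mul, MulAut.mul_apply, hβe b hbw, ih]
        rw [map_prod, Finset.prod_congr rfl (fun i _ => h1 i), Finset.prod_const,
          Finset.card_range]
        intro h2
        apply hm1
        have h4 : orderOf (β m) ∣ Nat.gcd s r :=
          Nat.dvd_gcd (orderOf_dvd_of_pow_eq_one h2) (orderOf_dvd_of_pow_eq_one (hpow m))
        rw [hsr, Nat.dvd_one] at h4
        exact orderOf_eq_one_iff.1 h4
  obtain ⟨m, hm, hm1⟩ := main T hT
  obtain ⟨n, rfl⟩ := hp m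
  refine ⟨n.1, (hUok _).1 n.2, ?_, fun h => hm1 ((hβne n).2 h)⟩
  intro b hb δ hδ
  have h1 := congrArg Subtype.val (hm b hb)
  rw [ρ₀_coe hr r hδ] at h1
  rw [← hq1, map_mul, map_mul, map_mul, map_inv, map_inv, mul_inv_eq_one]
  exact h1

end Blocks

end Pool.Agent.Lib.MP_b9166b_al.Aq.Gx
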