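import Pool.Agent.Lib.MP_b9166b_al.Rg.BlkAlt
import Pool.Agent.Lib.MP_b9166b_al.Rg.Free

/-!
# MP_b9166b_al, PRIME POWER: canonical commutators in central extensions

`π : L →* Perm Ω` and `ρ : L →* H` are homomorphisms, and `ρ` maps the kernel of `π` into the
centre of the image of `ρ`. For `σ`, `τ` in the image of `π` the element
`kap σ τ = ρ (g g' g⁻¹ g'⁻¹)`, where `π g = σ`, `π g' = τ`, does not depend on the choice of `g` and
`g'`.
-/

set_option autoImplicit false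

namespace Pool.Agent.Lib.MP_b9166b_al.Aq

open Equiv Equiv.Perm

variable {L H Ω : Type} [Group L] [Group H] (π : L →* Perm Ω) (ρ : L →* H)

open Classical in
/-- the commutator of preimages -/
noncomputable def kap (σ τ : Perm Ω) : H :=
  if h : (∃ g, π g = σ) ∧ ∃ g, π g = τ then
    ρ (h.1.choose * h.2.choose * h.1.choose⁻¹ * h.2.choose⁻¹) else 1

variable {π ρ}

private theorem kap_aux {a b n m : H} (hnb : Commute n b) (hma : Commute m a)
    (hnm : Commute n m) : a * n * (b * m) * (a * n)⁻¹ * (b * m)⁻¹ = a * b * a⁻¹ * b⁻¹ := by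
  have h1 : n * (b * m) = b * m * n := (hnb.mul_right hnm).eq
  have h2 : m * a⁻¹ = a⁻¹ * m := hma.inv_right.eq
  calc a * n * (b * m) * (a * n)⁻¹ * (b * m)⁻¹
      = a * (n * (b * m)) * n⁻¹ * a⁻¹ * m⁻¹ * b⁻¹ := by group
    _ = a * b * (m * a⁻¹) * m⁻¹ * b⁻¹ := by rw [h1]; group
    _ = a * b * a⁻¹ * b⁻¹ := by rw [h2]; group

theorem kap_eq (hcen : ∀ n, π n = 1 → ∀ g, Commute (ρ n) (ρ g)) (g g' : L) :
    kap π ρ (π g) (π g') = ρ (g * g' * g⁻¹ * g'⁻¹) := by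
  have h : (∃ x, π x = π g) ∧ ∃ x, π x = π g' := ⟨⟨g, rfl⟩, ⟨g', rfl⟩⟩
  unfold kap
  rw [dif_pos h]
  have h1 := h.1.choose_spec
  have h2 := h.2.choose_spec
  set a := h.1.choose
  set b := h.2.choose
  have hn : π (g⁻¹ * a) = 1 := by rw [map_mul, map_inv, h1, inv_mul_cancel]
  have hm : π (g'⁻¹ * b) = 1 := by rw [map_mul, map_inv, h2, inv_mul_cancel]
  have ha : a = g * (g⁻¹ * a) := by group
  have hb : b = g' * (g'⁻¹ * b) := by group
  have h3 := kap_aux (hcen _ hn g') (hcen _ hm g) (hcen _ hn (g'⁻¹ * b))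
  rw [ha, hb]
  simpa only [map_mul, map_inv] using h3

theorem kap_conj (hcen : ∀ n, π n = 1 → ∀ g, Commute (ρ n) (ρ g)) {σ τ : Perm Ω}
    (hσ : σ ∈ π.range) (hτ : τ ∈ π.range) (g : L) :
    ρ g * kap π ρ σ τ * (ρ g)⁻¹ = kap π ρ (π g * σ * (π g)⁻¹) (π g * τ * (π g)⁻¹) := by
  obtain ⟨a, rfl⟩ := hσ
  obtain ⟨b, rfl⟩ := hτ
  have h1 : π g * π a * (π g)⁻¹ = π (g * a * g⁻¹) := by simp only [map_mul, map_inv]
  have h2 : π g * π b * (π g)⁻¹ = π (g * b * g⁻¹) := by simp only [map_mul, map_inv]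
  rw [h1, h2, kap_eq hcen, kap_eq hcen, ← map_inv, ← map_mul, ← map_mul]
  congr 1
  group

/-- compatible endomorphisms -/
theorem kap_map (hcen : ∀ n, π n = 1 → ∀ g, Commute (ρ n) (ρ g)) {σ τ : Perm Ω}
    (hσ : σ ∈ π.range) (hτ : τ ∈ π.range) (f : L →* L) (fH : H →* H) (υ : Perm Ω)
    (hf : ∀ g, π (f g) = υ * π g * υ⁻¹) (hfH : ∀ g, ρ (f g) = fH (ρ g)) :
    fH (kap π ρ σ τ) = kap π ρ (υ * σ * υ⁻¹) (υ * τ * υ⁻¹) := by
  obtain ⟨a, rfl⟩ := hσ
  obtain ⟨b, rfl⟩ := hτ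
  rw [← hf, ← hf, kap_eq hcen, kap_eq hcen, ← hfH]
  simp only [map_mul, map_inv]

theorem kap_comm (hcen : ∀ n, π n = 1 → ∀ g, Commute (ρ n) (ρ g)) {σ τ : Perm Ω}
    (hσ : σ ∈ π.range) (hτ : τ ∈ π.range) {g : L} (h1 : Commute (π g) σ)
    (h2 : Commute (π g) τ) : Commute (ρ g) (kap π ρ σ τ) := by
  have h := kap_conj hcen hσ hτ g
  rw [h1.eq, h2.eq, mul_inv_cancel_right, mul_inv_cancel_right] at h
  exact mul_inv_eq_iff_eq_mul.1 h

theorem exists_kap (hcen : ∀ n, π n = 1 → ∀ g, Commute (ρ n) (ρ g)) {σ τ : Perm Ω}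
    (hσ : σ ∈ π.range) (hτ : τ ∈ π.range) :
    ∃ g, π g = σ * τ * σ⁻¹ * τ⁻¹ ∧ ρ g = kap π ρ σ τ := by
  obtain ⟨a, rfl⟩ := hσ
  obtain ⟨b, rfl⟩ := hτ
  refine ⟨a * b * a⁻¹ * b⁻¹, ?_, (kap_eq hcen a b).symm⟩
  simp only [map_mul, map_inv]

/-- canonical commutators of permutations with disjoint supports commute -/
theorem kap_comm_kap (hcen : ∀ n, π n = 1 → ∀ g, Commute (ρ n) (ρ g)) {σ τ σ' τ' : Perm Ω}
    (hσ : σ ∈ π.range) (hτ : τ ∈ π.range) (hσ' : σ' ∈ π.range) (hτ' : τ' ∈ π.range)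
    (h1 : Commute σ σ') (h2 : Commute σ τ') (h3 : Commute τ σ') (h4 : Commute τ τ') :
    Commute (kap π ρ σ τ) (kap π ρ σ' τ') := by
  obtain ⟨g, hg, hg'⟩ := exists_kap hcen hσ hτ
  rw [← hg']
  refine kap_comm hcen hσ' hτ' ?_ ?_
  · rw [hg]
    exact ((h1.mul_left h3).mul_left h1.inv_left).mul_left h3.inv_left
  · rw [hg]
    exact ((h2.mul_left h4).mul_left h2.inv_left).mul_left h4.inv_left

/-- even permutations of five points with a commutator of order `s` -/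
theorem exists_five {s : ℕ} (hs : s = 2 ∨ s = 3) : ∃ α β : Perm (Fin 5), sign α = 1 ∧
    sign β = 1 ∧ (α * β * α⁻¹ * β⁻¹) ^ s = 1 ∧ α * β * α⁻¹ * β⁻¹ ≠ 1 := by
  rcases hs with rfl | rfl
  · refine ⟨swap 0 1 * swap 1 2, swap 0 1 * swap 1 3, ?_, ?_, ?_, ?_⟩
    · rw [Equiv.Perm.sign_mul, sign_swap (by decide), sign_swap (by decide)]; rfl
    · rw [Equiv.Perm.sign_mul, sign_swap (by decide), sign_swap (by decide)]; rfl
    · exact Equiv.ext fun x => by fin_cases x <;> rfl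
    · intro h
      exact absurd (congrArg (fun f : Perm (Fin 5) => f 0) h) (by decide)
  · refine ⟨swap 0 1 * swap 1 2, swap 0 3 * swap 3 4, ?_, ?_, ?_, ?_⟩
    · rw [Equiv.Perm.sign_mul, sign_swap (by decide), sign_swap (by decide)]; rfl
    · rw [Equiv.Perm.sign_mul, sign_swap (by decide), sign_swap (by decide)]; rfl
    · have h : (swap 0 1 * swap 1 2 * (swap 0 3 * swap 3 4) * (swap 0 1 * swap 1 2)⁻¹ *
          (swap 0 3 * swap 3 4)⁻¹ : Perm (Fin 5)) = swap 0 1 * swap 1 3 :=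
        Equiv.ext fun x => by fin_cases x <;> rfl
      rw [h]
      exact Equiv.ext fun x => by fin_cases x <;> rfl
    · intro h
      exact absurd (congrArg (fun f : Perm (Fin 5) => f 0) h) (by decide)

end Pool.Agent.Lib.MP_b9166b_al.Aq
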