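import Mathlib

/-!
# MP_b9166b_al, PRIME POWER: norms over a subgroup

`cj F u` is the set of the conjugates of `u` under the finite subgroup `F`. If they commute,
`nmF F u h` is their product.
-/

set_option autoImplicit false

namespace Pool.Agent.Lib.MP_b9166b_al.Aq

open Equiv

variable {U : Type} [Group U]

open Classical in
/-- the conjugates of `u` under `F` -/
noncomputable def cj (F : Subgroup U) [Finite F] (u : U) : Finset U :=
  (Set.toFinite (Set.range fun f : F => (f : U) * u * (f : U)⁻¹)).toFinset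

theorem mem_cj {F : Subgroup U} [Finite F] {u z : U} :
    z ∈ cj F u ↔ ∃ f ∈ F, f * u * f⁻¹ = z := by
  rw [cj, Set.Finite.mem_toFinset]
  constructor
  · rintro ⟨f, rfl⟩
    exact ⟨f, f.2, rfl⟩
  · rintro ⟨f, hf, rfl⟩
    exact ⟨⟨f, hf⟩, rfl⟩

/-- the product of the conjugates of `u` under `F` -/
noncomputable def nmF (F : Subgroup U) [Finite F] (u : U)
    (h : ∀ f ∈ F, ∀ f' ∈ F, Commute (f * u * f⁻¹) (f' * u * f'⁻¹)) : U :=
  (cj F u).noncommProd id (by
    intro a ha b hb _
    obtain ⟨f, hf, rfl⟩ := mem_cj.1 (Finset.mem_coe.1 ha)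
    obtain ⟨f', hf', rfl⟩ := mem_cj.1 (Finset.mem_coe.1 hb)
    exact h f hf f' hf')

variable {F : Subgroup U} [Finite F] {u : U}
  {h : ∀ f ∈ F, ∀ f' ∈ F, Commute (f * u * f⁻¹) (f' * u * f'⁻¹)}

theorem nmF_mem {S : Subgroup U} (hS : ∀ f ∈ F, f * u * f⁻¹ ∈ S) : nmF F u h ∈ S := by
  refine Subgroup.noncommProd_mem S _ ?_
  intro z hz
  obtain ⟨f, hf, rfl⟩ := mem_cj.1 hz
  exact hS f hf

theorem nmF_prod_congr {m m' : Multiset U} (hm : m = m') (h : {x | x ∈ m}.Pairwise Commute)
    (h' : {x | x ∈ m'}.Pairwise Commute) : m.noncommProd h = m'.noncommProd h' := by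
  subst hm
  rfl

/-- conjugation with an element of `F` permutes the factors -/
theorem nmF_comm {f : U} (hf : f ∈ F) : Commute (nmF F u h) f := by
  classical
  have hmap : (cj F u).map (MulAut.conj f).toEquiv.toEmbedding = cj F u := by
    ext z
    rw [Finset.mem_map]
    constructor
    · rintro ⟨y, hy, rfl⟩
      obtain ⟨g, hg, rfl⟩ := mem_cj.1 hy
      refine mem_cj.2 ⟨f * g, F.mul_mem hf hg, ?_⟩
      change f * g * u * (f * g)⁻¹ = f * (g * u * g⁻¹) * f⁻¹
      group
    · intro hz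
      obtain ⟨g, hg, rfl⟩ := mem_cj.1 hz
      refine ⟨f⁻¹ * (g * u * g⁻¹) * f, mem_cj.2 ⟨f⁻¹ * g, F.mul_mem (F.inv_mem hf) hg, ?_⟩, ?_⟩
      · group
      · change f * (f⁻¹ * (g * u * g⁻¹) * f) * f⁻¹ = g * u * g⁻¹
        group
  have hval : ((cj F u).1.map id).map (MulAut.conj f) = (cj F u).1.map id := by
    rw [Multiset.map_id]
    exact congrArg Finset.val hmap
  have h1 : MulAut.conj f (nmF F u h) = nmF F u h := by
    unfold nmF Finset.noncommProd
    rw [Multiset.map_noncommProd]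
    exact nmF_prod_congr hval _ _
  have h2 : f * nmF F u h * f⁻¹ = nmF F u h := h1
  have h3 : f * nmF F u h = nmF F u h * f := by
    calc f * nmF F u h = (f * nmF F u h * f⁻¹) * f := by group
      _ = nmF F u h * f := by rw [h2]
  exact h3.symm

theorem nmF_commute {z : U} (hz : ∀ f ∈ F, Commute z (f * u * f⁻¹)) : Commute z (nmF F u h) := by
  refine Finset.noncommProd_commute _ _ _ _ ?_
  intro y hy
  obtain ⟨f, hf, rfl⟩ := mem_cj.1 hy
  exact hz f hf

theorem nmF_pow_aux {r : ℕ} (s : Finset U) (comm : (s : Set U).Pairwise (Function.onFun Commute id))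
    (hs : ∀ z ∈ s, z ^ r = 1) : (s.noncommProd id comm) ^ r = 1 := by
  classical
  induction s using Finset.induction_on with
  | empty => rw [Finset.noncommProd_empty, one_pow]
  | insert a s ha ih =>
    rw [Finset.noncommProd_insert_of_notMem _ _ _ _ ha]
    have hc : Commute (id a) (s.noncommProd id
        (comm.mono fun _ => Finset.mem_insert_of_mem)) := by
      refine Finset.noncommProd_commute _ _ _ _ ?_
      intro x hx
      exact comm (Finset.mem_coe.2 (Finset.mem_insert_self a s))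
        (Finset.mem_coe.2 (Finset.mem_insert_of_mem hx)) (fun hax => ha (hax ▸ hx))
    rw [hc.mul_pow, id_eq, hs a (Finset.mem_insert_self a s),
      ih _ fun z hz => hs z (Finset.mem_insert_of_mem hz), one_mul]

theorem nmF_pow {r : ℕ} (hr : u ^ r = 1) : nmF F u h ^ r = 1 := by
  refine nmF_pow_aux _ _ ?_
  intro z hz
  obtain ⟨f, _, rfl⟩ := mem_cj.1 hz
  rw [conj_pow, hr, mul_one, mul_inv_cancel]

/-- the action on a point fixed by the conjugates `≠ u` -/
theorem nmF_apply {Ω : Type} (π : U →* Perm Ω) {ψ : Ω}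
    (hψ : ∀ f ∈ F, f * u * f⁻¹ ≠ u → π (f * u * f⁻¹) ψ = ψ) : π (nmF F u h) ψ = π u ψ := by
  classical
  have hu : u ∈ cj F u := mem_cj.2 ⟨1, F.one_mem, by rw [one_mul, inv_one, mul_one]⟩
  have h1 : ∀ comm, u * ((cj F u).erase u).noncommProd id comm = nmF F u h := fun comm =>
    Finset.mul_noncommProd_erase (cj F u) hu id _ comm
  have comm : (((cj F u).erase u : Finset U) : Set U).Pairwise (Function.onFun Commute id) := by
    intro a ha b hb _
    obtain ⟨f, hf, rfl⟩ := mem_cj.1 (Finset.mem_of_mem_erase (Finset.mem_coe.1 ha))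
    obtain ⟨f', hf', rfl⟩ := mem_cj.1 (Finset.mem_of_mem_erase (Finset.mem_coe.1 hb))
    exact h f hf f' hf'
  rw [← h1 comm, map_mul, Perm.mul_apply]
  have h2 : ((cj F u).erase u).noncommProd id comm ∈ (MulAction.stabilizer (Perm Ω) ψ).comap π := by
    refine Subgroup.noncommProd_mem _ _ ?_
    intro z hz
    obtain ⟨hne, hz⟩ := Finset.mem_erase.1 hz
    obtain ⟨f, hf, rfl⟩ := mem_cj.1 hz
    exact hψ f hf hne
  exact congrArg (π u) h2

end Pool.Agent.Lib.MP_b9166b_al.Aq
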