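import Pool.Agent.Lib.MP_b9166b_al.Aq.Cls
import Pool.Agent.Lib.MP_b9166b_al.Aq.So
import Pool.Agent.Lib.MP_b9166b_al.Aq.NmF
import Pool.Agent.Lib.MP_b9166b_al.An.Fib

/-!
# MP_b9166b_al, PRIME POWER: the first level

Proof. Let `N = Nat.card (Subgroup F) * (Nat.card F * (2 * q + 5))`, and choose `c` with `P c`,
`c.Cov S₂` and at least `N + B` points `ω` with `so F c ω = a`. Let `U` be a core
(`exists_core`), and `c'` with `P c'`, `c'.Cov (c.toFinset ∪ S₂ ∪ S₁)`. Then `U ≤ c'.H` and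
`thc c' hU'` is injective (`Cv.le_of_cov`), and `Nat2` holds (`Cls.nat`). By `bad_le` at least `N`
of the points satisfy `Gp F hU hU' a`. Among them `Nat.card F * (2 * q + 5)` have the same
stabilizer `A` in `F`, and among these there is a set `Δ` of `2 * q + 5` points in
different orbits of `F` (orbits have at most `Nat.card F` points).

* Choose different `p i, p' i ∈ Δ`, `i : ZMod q` (`2 * q` points), let `σ` be the permutation
  `p i ↦ p (i + 1)`, `p' i ↦ p' (i + 1)`, identity elsewhere. It is even and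
  `σ ^ q = 1`. By `exists_Vr` there is `v₀ ∈ Vr (thc c hU.le) Δ` with image `σ`. A power `v` of
  `v₀`, with exponent `≡ 1` modulo `q` and divisible by the part prime to `q` of the order of `v₀`,
  satisfies `v ^ (q ^ j) = 1`, and has the image `σ`. Let `ω₁ = p 0`, `ω₂ = p 1`.
* Work in the group `U`, with `F.subgroupOf U`. For `f ∈ F` either `f` fixes a point of `Δ`, then
  `f ∈ A`, and `f` commutes with `v` (`Nat2.commute_of_fix`, by `Gp`), or `f Δ` and `Δ` are
  disjoint (as the points of `Δ` are in different orbits), and `v` and `f v f⁻¹` commute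
  (`Nat2.commute`, `Vr_conj`). So `g = nmF F v` exists, it commutes with `F`, and `g ^ (q ^ j) = 1`.
  `g` maps `ω₁` to `ω₂` by `nmF_apply` for `thc c hU.le`: if `f v f⁻¹ ≠ v` then `ω₁` is not in
  `f Δ`, so it is fixed by `f v f⁻¹` (`Vr_fix`).
-/

set_option autoImplicit false

namespace Pool.Agent.Lib.MP_b9166b_al.Aq

open Equiv Equiv.Perm An

/-- many points contain many with the same stabilizer -/
theorem exists_same {F Ω : Type} [Group F] [Finite F] (θ : F →* Perm Ω) {M μ : ℕ}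
    (y : Fin M → Ω) (hM : Nat.card (Subgroup F) * μ ≤ M) :
    ∃ e : Fin μ ↪ Fin M, ∀ i j, stb θ (y (e i)) = stb θ (y (e j)) := by
  classical
  have := Fintype.ofFinite (Subgroup F)
  obtain ⟨A, -, hA⟩ := Finset.exists_le_card_fiber_of_mul_le_card_of_maps_to
    (s := (Finset.univ : Finset (Fin M))) (t := (Finset.univ : Finset (Subgroup F)))
    (f := fun i => stb θ (y i)) (n := μ) (fun _ _ => Finset.mem_univ _) ⟨⊤, Finset.mem_univ _⟩ (by
      rw [Finset.card_univ, Finset.card_univ, Fintype.card_fin, ← Nat.card_eq_fintype_card]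
      exact hM)
  obtain ⟨e⟩ : Nonempty (Fin μ ↪ (Finset.univ.filter fun i => stb θ (y i) = A)) := by
    apply Function.Embedding.nonempty_of_card_le
    rw [Fintype.card_fin, Fintype.card_coe]
    exact hA
  refine ⟨e.trans (Function.Embedding.subtype _), fun i j => ?_⟩
  have h1 := (Finset.mem_filter.1 (e i).2).2
  have h2 := (Finset.mem_filter.1 (e j).2).2
  exact h1.trans h2.symm

/-- an even permutation of order `q` -/
theorem exists_rot {Ω : Type} [Fintype Ω] [DecidableEq Ω] {q : ℕ} (hq : q.Prime) {Δ : Finset Ω}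
    (hΔ : 2 * q ≤ Δ.card) : ∃ (σ : Perm Ω) (ω₁ ω₂ : Ω), sign σ = 1 ∧ σ ^ q = 1 ∧
      (∀ ω ∉ Δ, σ ω = ω) ∧ ω₁ ∈ Δ ∧ ω₂ ∈ Δ ∧ ω₁ ≠ ω₂ ∧ σ ω₁ = ω₂ := by
  classical
  have : Fact q.Prime := ⟨hq⟩
  obtain ⟨e⟩ : Nonempty (Fin 2 × ZMod q ↪ {x // x ∈ Δ}) := by
    apply Function.Embedding.nonempty_of_card_le
    rw [Fintype.card_prod, Fintype.card_fin, ZMod.card, Fintype.card_coe]
    exact hΔ
  let j : Fin 2 × ZMod q ↪ Ω := e.trans (Function.Embedding.subtype _)
  have hj : ∀ x, j x ∈ Δ := fun x => (e x).2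
  let τ : Perm (ZMod q) := Equiv.addRight 1
  let h : Perm (ZMod q) →* Perm (Fin 2 × ZMod q) :=
    { toFun := fun τ => Equiv.prodCongrRight fun _ : Fin 2 => τ
      map_one' := rfl
      map_mul' := fun _ _ => rfl }
  have hτk : ∀ (k : ℕ) (x : ZMod q), (τ ^ k) x = x + k := by
    intro k
    induction k with
    | zero =>
      intro x
      rw [pow_zero, Perm.one_apply, Nat.cast_zero, add_zero]
    | succ k ih =>
      intro x
      rw [pow_succ, Perm.mul_apply, ih]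
      change x + 1 + (k : ZMod q) = x + ((k + 1 : ℕ) : ZMod q)
      push_cast
      ring
  have hτ : τ ^ q = 1 := by
    apply Equiv.ext
    intro x
    rw [hτk, ZMod.natCast_self, add_zero, Perm.one_apply]
  refine ⟨viaEmbeddingHom j (h τ), j (0, 0), j (0, 1), ?_, ?_, ?_, hj _, hj _, ?_, ?_⟩
  · rw [Rg.sign_via]
    change sign (Equiv.prodCongrRight fun _ : Fin 2 => τ) = 1
    rw [sign_prodCongrRight, Fin.prod_univ_two, Int.units_mul_self]
  · rw [← map_pow, ← map_pow, hτ, map_one, map_one]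
  · intro ω hω
    apply Rg.via_apply_of_notMem
    rintro x rfl
    exact hω (hj x)
  · intro h1
    have h2 := congrArg Prod.snd (j.injective h1)
    exact zero_ne_one h2
  · rw [Rg.via_apply]
    congr 1
    change ((0 : Fin 2), (0 : ZMod q) + 1) = (0, 1)
    rw [zero_add]

/-- a power with exponent `1` modulo `q` is a `q`-element -/
theorem exists_qpow {U : Type} [Group U] [Finite U] {q : ℕ} (hq : q.Prime) (v : U) :
    ∃ e j : ℕ, (v ^ e) ^ (q ^ j) = 1 ∧ ∀ {H : Type} [Group H] (σ : H), σ ^ q = 1 → σ ^ e = σ := by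
  obtain ⟨j, m, hm, hord⟩ := Nat.exists_eq_pow_mul_and_not_dvd (orderOf_pos v).ne' q hq.ne_one
  have hcop : m.Coprime q := ((Nat.Prime.coprime_iff_not_dvd hq).2 hm).symm
  obtain ⟨e, he0, he1⟩ := Nat.chineseRemainder hcop 0 1
  refine ⟨e, j, ?_, ?_⟩
  · rw [← pow_mul, ← orderOf_dvd_iff_pow_eq_one, hord, mul_comm e]
    exact Nat.mul_dvd_mul_left _ ((Nat.modEq_zero_iff_dvd).1 he0)
  · intro H _ σ hσ
    have h1 := pow_eq_pow_mod e hσ
    have h2 := pow_eq_pow_mod 1 hσ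
    have h3 : e % q = 1 % q := he1
    rw [h1, h3, ← h2, pow_one]

variable {G : Type} [Group G]

theorem level_A {q : ℕ} (hq : q.Prime) {F : Subgroup G} [Finite F] (hFq : IsPGroup q F)
    {P : Cv G → Prop} {S₁ : Finset G} (hP : Cls q F P S₁) {a B : ℕ} {S₂ : Finset G}
    (ha : ∀ (S : Finset G) (m : ℕ), ∃ c, P c ∧ c.Cov S ∧
        m ≤ Nat.card {ω : Fin c.n // so F c ω = a})
    (hB : ∀ c, P c → c.Cov S₂ → Nat.card {ω : Fin c.n // so F c ω < a} ≤ B) :
    ∃ (c : Cv G) (U : Subgroup G) (ω₁ ω₂ : Fin c.n) (g : G) (j : ℕ), P c ∧ Core q c F U ∧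
      so F c ω₁ = a ∧ g ∈ U ∧ (∀ f ∈ F, Commute g f) ∧ g ^ (q ^ j) = 1 ∧ c.p g ω₁ = ω₂ ∧
      ∀ f ∈ F, c.p f ω₁ ≠ ω₂ := by
  classical
  set M := Nat.card (Subgroup F) * (2 * q + 5) with hM
  obtain ⟨c, hc, -, hcnt⟩ := ha ∅ (M * Nat.card F + 1 + B)
  have hn6 := hP.big c hc
  have hF : F ≤ c.H := hP.le c hc
  obtain ⟨U, hU⟩ := exists_core hq c hF hFq (by omega)
  obtain ⟨c', hc', hcov'⟩ := hP.ex (c.toFinset ∪ S₂ ∪ S₁)
  obtain ⟨hle, hinj₀⟩ := c.le_of_cov (hcov'.mono (by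
    intro g hg
    simp only [Finset.mem_union]
    exact Or.inl (Or.inl hg)))
  have hU' : U ≤ c'.H := hU.le.trans hle
  have hUfin : Finite U :=
    Finite.of_injective (Subgroup.inclusion hU.le) (Subgroup.inclusion_injective hU.le)
  set π := thc c hU.le with hπ
  set π' := thc c' hU' with hπ'
  have hinj : Function.Injective π' := by
    have h1 : Function.Injective ((c'.π.comp (Subgroup.inclusion hle)).comp
        (Subgroup.inclusion hU.le)) := hinj₀.comp (Subgroup.inclusion_injective hU.le)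
    exact h1
  have hN : Nat2 π π' := hP.nat c hc U hU c' (hcov'.mono Finset.subset_union_right) hU'
  have h6 : 6 ≤ Fintype.card (Fin c.n) := by
    rw [Fintype.card_fin]
    exact hn6
  have hbad := bad_le hU.FU hU.le hU' hU.range hn6 hN hinj (a := a) (B := B)
    (hB c' hc' (hcov'.mono (by
      intro g hg
      simp only [Finset.mem_union]
      exact Or.inl (Or.inr hg))))
  -- many good points
  let θ : F →* Perm (Fin c.n) := thc c hF
  have hθ : ∀ f : F, c.p (f : G) = θ f := fun f => c.p_mem (hF f.2)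
  have hπp : ∀ u : U, c.p (u : G) = π u := fun u => c.p_mem (hU.le u.2)
  have hπp' : ∀ u : U, c'.p (u : G) = π' u := fun u => c'.p_mem (hU' u.2)
  let gd : Finset (Fin c.n) := Finset.univ.filter fun ω => Gp F hU.le hU' a ω
  have hgd : M * Nat.card F < gd.card := by
    have h1 : Nat.card {ω : Fin c.n // so F c ω = a} ≤
        Nat.card {ω : Fin c.n // Gp F hU.le hU' a ω ∨
          (so F c ω ≤ a ∧ ¬ Gp F hU.le hU' a ω)} := by
      refine Nat.card_le_card_of_injective (fun ω => ⟨ω.1, ?_⟩) ?_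
      · by_cases h : Gp F hU.le hU' a ω.1
        · exact Or.inl h
        · exact Or.inr ⟨ω.2.le, h⟩
      · intro ω ω' h
        have h1 := congrArg Subtype.val h
        exact Subtype.ext h1
    have h2 := card_or (fun ω : Fin c.n => Gp F hU.le hU' a ω)
      (fun ω => so F c ω ≤ a ∧ ¬ Gp F hU.le hU' a ω)
    have h3 : Nat.card {ω : Fin c.n // Gp F hU.le hU' a ω} = gd.card := by
      rw [Nat.card_eq_fintype_card, Fintype.card_subtype]
    omega
  obtain ⟨O, hO, hO'⟩ := exists_orbits θ gd M hgd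
  have e' : Fin M ≃ O := Fintype.equivOfCardEq (by rw [Fintype.card_fin, Fintype.card_coe, hO])
  choose y hy hy' using fun i : Fin M => hO' (e' i) (e' i).2
  have hyo : ∀ i j g, θ g (y i) = y j → i = j := by
    intro i j g h
    have h2 : cls θ (y i) = cls θ (y j) := by
      rw [← h, cls_apply]
    rw [hy', hy'] at h2
    exact e'.injective (Subtype.ext h2)
  obtain ⟨e, he⟩ := exists_same θ (μ := 2 * q + 5) y le_rfl
  let Δ : Finset (Fin c.n) := Finset.univ.image fun i => y (e i)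
  have hΔc : Δ.card = 2 * q + 5 := by
    rw [Finset.card_image_of_injective, Finset.card_univ, Fintype.card_fin]
    intro i j h
    apply e.injective
    apply hyo _ _ 1
    rw [map_one, Perm.one_apply]
    exact h
  have hΔ : ∀ ω, ω ∈ Δ ↔ ∃ i, y (e i) = ω := by
    intro ω
    rw [Finset.mem_image]
    constructor
    · rintro ⟨i, -, h⟩
      exact ⟨i, h⟩
    · rintro ⟨i, h⟩
      exact ⟨i, Finset.mem_univ _, h⟩
  have hΔg : ∀ ω ∈ Δ, Gp F hU.le hU' a ω := by
    intro ω hω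
    obtain ⟨i, rfl⟩ := (hΔ ω).1 hω
    exact (Finset.mem_filter.1 (hy (e i))).2
  have hΔo : ∀ ω ∈ Δ, ∀ ω' ∈ Δ, ∀ f : F, θ f ω = ω' → ω = ω' := by
    intro ω hω ω' hω' f h
    obtain ⟨i, rfl⟩ := (hΔ ω).1 hω
    obtain ⟨i', rfl⟩ := (hΔ ω').1 hω'
    rw [hyo _ _ f h]
  have hΔs : ∀ ω ∈ Δ, ∀ ω' ∈ Δ, ∀ f : F, θ f ω = ω → θ f ω' = ω' := by
    intro ω hω ω' hω' f h
    obtain ⟨i, rfl⟩ := (hΔ ω).1 hω
    obtain ⟨i', rfl⟩ := (hΔ ω').1 hω'
    have h1 : f ∈ stb θ (y (e i)) := h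
    rw [he i i'] at h1
    exact h1
  -- the dichotomy
  have hkey : ∀ f : U, (f : G) ∈ F → (∀ v ∈ Vr π (Δ : Set (Fin c.n)), Commute f v) ∨
      ∀ ω ∈ Δ, ∀ ω' ∈ Δ, π f ω ≠ ω' := by
    intro f hf
    by_cases h : ∃ ω ∈ Δ, ∃ ω' ∈ Δ, π f ω = ω'
    · left
      obtain ⟨ω, hω, ω', hω', h1⟩ := h
      have h2 : ∀ ω, θ ⟨f, hf⟩ ω = π f ω := fun ω => by rw [← hθ, ← hπp]
      have h3 : π f ω = ω := by
        rw [h1]
        exact (hΔo ω hω ω' hω' ⟨f, hf⟩ (by rw [h2, h1])).symm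
      have h4 : ∀ ω' ∈ Δ, π f ω' = ω' := by
        intro ω' hω'
        rw [← h2]
        exact hΔs ω hω ω' hω' ⟨f, hf⟩ (by rw [h2, h3])
      intro v hv
      refine hN.commute_of_fix hinj (fun ω hω => h4 ω (by simpa using hω)) ?_ hv
      intro ω hω ψ hψ
      have hω' : ω ∈ Δ := by simpa using hω
      rw [← hπp']
      apply (hΔg ω hω').2 ψ hψ f hf
      rw [hπp, h4 ω hω']
    · right
      intro ω hω ω' hω' h1
      exact h ⟨ω, hω, ω', hω', h1⟩
  -- the element `v`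
  obtain ⟨σ, ω₁, ω₂, hσ1, hσq, hσΔ, hω₁, hω₂, hne, hσω⟩ := exists_rot hq (Δ := Δ) (by omega)
  obtain ⟨v₀, hv₀, hv₀σ⟩ := exists_Vr hU.range (Δ := Δ) (by omega) hσ1 hσΔ
  obtain ⟨r, j, hr, hr'⟩ := exists_qpow hq v₀
  set v : U := v₀ ^ r with hv
  have hvΔ : v ∈ Vr π (Δ : Set (Fin c.n)) := Subgroup.pow_mem _ hv₀ r
  have hvσ : π v = σ := by
    rw [hv, map_pow, hv₀σ, hr' σ hσq]
  let F' : Subgroup U := F.subgroupOf U
  have hcj : ∀ h ∈ F', Commute v (h * v * h⁻¹) := by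
    intro h hh
    rcases hkey h hh with h1 | h1
    · have h2 : h * v * h⁻¹ = v := by rw [(h1 v hvΔ).eq, mul_inv_cancel_right]
      rw [h2]
    · refine hN.commute hU.range h6 hinj ?_ hvΔ (Vr_conj π h _ hvΔ)
      rintro _ hω ⟨ω', hω', rfl⟩
      exact h1 ω' (by simpa using hω') _ (by simpa using hω) rfl
  have hcomm : ∀ f ∈ F', ∀ f' ∈ F', Commute (f * v * f⁻¹) (f' * v * f'⁻¹) := by
    intro f hf f' hf'
    have h1 := hcj (f⁻¹ * f') (F'.mul_mem (F'.inv_mem hf) hf')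
    rw [← Commute.conj_iff f] at h1
    have h2 : f * (f⁻¹ * f' * v * (f⁻¹ * f')⁻¹) * f⁻¹ = f' * v * f'⁻¹ := by group
    rwa [h2] at h1
  set g : U := nmF F' v hcomm with hg
  refine ⟨c, U, ω₁, ω₂, g, j, hc, hU, (hΔg ω₁ hω₁).1, g.2, ?_, ?_, ?_, ?_⟩
  · intro f hf
    have h1 : Commute g (⟨f, hU.FU hf⟩ : U) := nmF_comm (F := F') hf
    have h2 := congrArg Subtype.val h1.eq
    exact h2
  · have h1 : g ^ (q ^ j) = 1 := nmF_pow hr
    have h2 := congrArg Subtype.val h1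
    exact h2
  · rw [hπp, hg, nmF_apply, hvσ, hσω]
    intro f hf hfv
    have h1 : ∀ ω ∈ Δ, ∀ ω' ∈ Δ, π f ω ≠ ω' := by
      rcases hkey f hf with h1 | h1
      · exfalso
        apply hfv
        rw [(h1 v hvΔ).eq, mul_inv_cancel_right]
      · exact h1
    apply Vr_fix (Vr_conj π f _ hvΔ)
    rintro ⟨ω, hω, h2⟩
    exact h1 ω (by simpa using hω) ω₁ hω₁ h2
  · intro f hf h1
    apply hne
    refine hΔo ω₁ hω₁ ω₂ hω₂ ⟨f, hf⟩ ?_
    rw [← hθ, h1]

end Pool.Agent.Lib.MP_b9166b_al.Aq
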