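import Pool.Agent.Lib.MP_b9166b_al.Aq.CaseR
import Pool.Agent.Lib.MP_b9166b_al.Aq.CaseN

/-!
# MP_b9166b_al, PRIME POWER: the theorem
-/

set_option autoImplicit false

namespace Pool.Agent.Lib.MP_b9166b_al.Aq

open Equiv Equiv.Perm

/-- **Main theorem**, negative form -/
theorem no_centralizer {G : Type} [Group G] (hs : IsSimpleGroup G)
    (hcov : ∀ S : Finset G, ∃ c : Cv G, c.Cov S) (hG : ¬ FinPerm G) {q : ℕ} (hq : q.Prime)
    {x : G} {j : ℕ} (hx : x ^ (q ^ j) = 1) : ¬ FinLin (Subgroup.centralizer ({x} : Set G)) := by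
  by_cases hR : ∀ F : Subgroup G, Finite F → IsPGroup q F → x ∈ F →
      ∃ c : Cv G, F ≤ c.H ∧ ∃ w : Fin c.n, ∀ h ∈ F, c.p h w = w → h = 1
  · exact case_R hs hG hcov hq hx hR
  · push Not at hR
    obtain ⟨F, hF, hFq, hxF, hN⟩ := hR
    refine case_N hs hG hcov hq F hF hFq hxF fun c hFc ω => ?_
    obtain ⟨h, hh, h1, h2⟩ := hN c hFc ω
    refine ⟨⟨h, hh⟩, fun h3 => h2 (congrArg Subtype.val h3), ?_⟩
    rw [c.p_mem (hFc hh)] at h1
    exact h1

/-- Every finite set `S` of elements of `G` lies in a finite subgroup `H` which has a homomorphism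
`π` onto an alternating group such that `π` maps no element `≠ 1` of `S` to `1`. -/
def AltType (G : Type) [Group G] : Prop :=
  ∀ S : Finset G, ∃ (H : Subgroup G) (n : ℕ) (π : H →* Perm (Fin n)),
    Finite H ∧ π.range = alternatingGroup (Fin n) ∧
      ∀ s ∈ S, ∃ hs : s ∈ H, s ≠ 1 → π ⟨s, hs⟩ ≠ 1

/-- **Main theorem**: a simple group of alternating type with an element of prime power order
whose centralizer is finitary linear is a group of finitary permutations. -/
theorem AltType.finPerm {G : Type} [Group G] (hs : IsSimpleGroup G) (hG : AltType G) {q : ℕ}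
    (hq : q.Prime) {x : G} {j : ℕ} (hxq : x ^ (q ^ j) = 1)
    (hx : FinLin (Subgroup.centralizer ({x} : Set G))) : FinPerm G := by
  by_contra h
  refine no_centralizer hs (fun S => ?_) h hq hxq hx
  obtain ⟨H, n, π, h1, h2, h3⟩ := hG S
  exact ⟨⟨H, h1, n, π, h2⟩, h3⟩

end Pool.Agent.Lib.MP_b9166b_al.Aq
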