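import Pool.Agent.Lib.MP_b9166b_al.Aq.GamC
import Pool.Agent.Lib.MP_b9166b_al.An.Pt

/-!
# MP_b9166b_al, PRIME POWER: the system of the stabilizer of a point
-/

set_option autoImplicit false

namespace Pool.Agent.Lib.MP_b9166b_al.Aq

open Equiv Equiv.Perm An

namespace Sy

variable {L F Ω Ω' : Type} [Group L] [Group F] [Fintype Ω] [DecidableEq Ω] (S : Sy L F Ω Ω')
  (ω₁ : Ω)

/-- the image of a subgroup of the stabilizer -/
theorem map_rst {D : Subgroup L} (hD : D ≤ stb S.π ω₁)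
    (h : ∀ σ : Perm Ω, sign σ = 1 → σ ω₁ = ω₁ → ∃ g ∈ D, S.π g = σ) :
    (D.subgroupOf (stb S.π ω₁)).map (rst S.π ω₁) = alternatingGroup {x : Ω // x ≠ ω₁} := by
  ext τ
  constructor
  · rintro ⟨g, -, rfl⟩
    rw [mem_alternatingGroup, sign_rst, S.sign_π]
  · intro hτ
    have h1 : ofSubtype τ ω₁ = ω₁ := ofSubtype_apply_of_not_mem τ (by simp)
    obtain ⟨g, hg, hgτ⟩ := h (ofSubtype τ) (by
      rw [sign_ofSubtype]
      exact mem_alternatingGroup.1 hτ) h1
    refine ⟨⟨g, hD hg⟩, hg, ?_⟩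
    apply Equiv.ext
    intro x
    apply Subtype.ext
    rw [rst_coe]
    change S.π g x = τ x
    rw [hgτ, ofSubtype_apply_coe]

theorem perfect_alt (h6 : 6 ≤ Fintype.card Ω) :
    ⁅alternatingGroup {x : Ω // x ≠ ω₁}, alternatingGroup {x : Ω // x ≠ ω₁}⁆ =
      alternatingGroup {x : Ω // x ≠ ω₁} := by
  apply commutator_alternatingGroup_eq_self
  rw [Nat.card_eq_fintype_card, Fintype.card_subtype_compl, Fintype.card_subtype_eq]
  omega

/-- the elements of the residual of `D` cover the alternating group of the other points -/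
theorem exists_res [Finite L] (h6 : 6 ≤ Fintype.card Ω) {D : Subgroup L} (hD : D ≤ stb S.π ω₁)
    (h : ∀ σ : Perm Ω, sign σ = 1 → σ ω₁ = ω₁ → ∃ g ∈ D, S.π g = σ) {σ : Perm Ω}
    (hσ : sign σ = 1) (hσ1 : σ ω₁ = ω₁) : ∃ g ∈ res D, S.π g = σ := by
  obtain ⟨g₀, hg₀, hgσ⟩ := h σ hσ hσ1
  obtain ⟨t, ht, htg⟩ := exists_mem_res (rst S.π ω₁) (S.map_rst ω₁ hD h) (perfect_alt ω₁ h6)
    (q := rst S.π ω₁ ⟨g₀, hD hg₀⟩) (by rw [mem_alternatingGroup, sign_rst, S.sign_π])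
  refine ⟨t, ?_, ?_⟩
  · have h1 := map_res_le (stb S.π ω₁).subtype (K := D.subgroupOf (stb S.π ω₁)) (K' := D)
      (by rw [Subgroup.subgroupOf_map_subtype]; exact inf_le_left)
    exact h1 ⟨t, ht, rfl⟩
  · rw [← hgσ]
    exact eq_of_rst S.π ω₁ htg

/-- the perfect group of the point `ω₁` -/
def Kp₁ : Subgroup L := res (stb S.π ω₁)

theorem Kp₁_le : S.Kp₁ ω₁ ≤ stb S.π ω₁ := res_le _

theorem exists_stb {σ : Perm Ω} (hσ : sign σ = 1) (hσ1 : σ ω₁ = ω₁) :
    ∃ g ∈ stb S.π ω₁, S.π g = σ := by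
  obtain ⟨g, hg⟩ := S.exists_lift hσ
  refine ⟨g, ?_, hg⟩
  rw [mem_stb, hg, hσ1]

theorem φ_Kp₁ {h : F} (hh : S.θ h ω₁ = ω₁) {k : L} (hk : k ∈ S.Kp₁ ω₁) :
    S.φ h k ∈ S.Kp₁ ω₁ := by
  refine map_res_le (S.φ h).toMonoidHom (K := stb S.π ω₁) ?_ ⟨k, hk, rfl⟩
  rintro _ ⟨g, hg, rfl⟩
  have hg' : S.π g ω₁ = ω₁ := hg
  change S.π (S.φ h g) ω₁ = ω₁
  have h1 : (S.θ h)⁻¹ ω₁ = ω₁ := by rw [Perm.inv_eq_iff_eq, hh]
  rw [S.eqπ, Perm.mul_apply, Perm.mul_apply, h1, hg', hh]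

variable {ω₁}

/-- the system of the stabilizer of `ω₁` -/
def pt [Finite L] (h6 : 6 ≤ Fintype.card Ω) {F₁ : Subgroup F} (hF₁ : F₁ ≤ stb S.θ ω₁) :
    Sy (S.Kp₁ ω₁) F₁ {x : Ω // x ≠ ω₁} Ω' where
  φ :=
    { toFun := fun h =>
        { toFun := fun k => ⟨S.φ (h : F) (k : L), S.φ_Kp₁ ω₁ (hF₁ h.2) k.2⟩
          invFun := fun k => ⟨S.φ (h : F)⁻¹ (k : L), S.φ_Kp₁ ω₁ (hF₁ (F₁.inv_mem h.2)) k.2⟩
          left_inv := fun k => by
            apply Subtype.ext
            change S.φ (h : F)⁻¹ (S.φ (h : F) (k : L)) = k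
            rw [← MulAut.mul_apply, ← map_mul, inv_mul_cancel, map_one, MulAut.one_apply]
          right_inv := fun k => by
            apply Subtype.ext
            change S.φ (h : F) (S.φ (h : F)⁻¹ (k : L)) = k
            rw [← MulAut.mul_apply, ← map_mul, mul_inv_cancel, map_one, MulAut.one_apply]
          map_mul' := fun k k' => by
            apply Subtype.ext
            exact map_mul (S.φ (h : F)) (k : L) k' }
      map_one' := by
        ext k
        change S.φ ((1 : F₁) : F) (k : L) = k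
        rw [Subgroup.coe_one, map_one, MulAut.one_apply]
      map_mul' := fun h h' => by
        ext k
        change S.φ ((h * h' : F₁) : F) (k : L) = S.φ (h : F) (S.φ (h' : F) (k : L))
        rw [Subgroup.coe_mul, map_mul, MulAut.mul_apply] }
  π := (rst S.π ω₁).comp (Subgroup.inclusion (S.Kp₁_le ω₁))
  θ := (rst S.θ ω₁).comp (Subgroup.inclusion hF₁)
  a := S.a.comp (S.Kp₁ ω₁).subtype
  b := S.b.comp F₁.subtype
  range := by
    ext τ
    constructor
    · rintro ⟨g, rfl⟩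
      rw [mem_alternatingGroup]
      exact (sign_rst S.π ω₁ _).trans (S.sign_π _)
    · intro hτ
      have h1 : ofSubtype τ ω₁ = ω₁ := ofSubtype_apply_of_not_mem τ (by simp)
      obtain ⟨g, hg, hgτ⟩ := S.exists_res ω₁ h6 le_rfl (fun σ => S.exists_stb ω₁)
        (σ := ofSubtype τ) (by
          rw [sign_ofSubtype]
          exact mem_alternatingGroup.1 hτ) h1
      refine ⟨⟨g, hg⟩, ?_⟩
      apply Equiv.ext
      intro x
      apply Subtype.ext
      change S.π g x = τ x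
      rw [hgτ, ofSubtype_apply_coe]
  perf := by
    apply Subgroup.map_injective (S.Kp₁ ω₁).subtype_injective
    rw [commutator_def, Subgroup.map_commutator, ← MonoidHom.range_eq_map,
      Subgroup.range_subtype]
    exact res_perfect _
  eqπ h g := by
    apply Equiv.ext
    intro x
    apply Subtype.ext
    have h2 : (((rst S.θ ω₁).comp (Subgroup.inclusion hF₁)) h)⁻¹ =
        ((rst S.θ ω₁).comp (Subgroup.inclusion hF₁)) h⁻¹ := (map_inv _ _).symm
    rw [h2]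
    change S.π (S.φ (h : F) (g : L)) x = S.θ h (S.π g (S.θ (h : F)⁻¹ x))
    rw [S.eqπ, map_inv]
    rfl
  eqa h g := S.eqa h g

/-- the kernel of the system of the stabilizer -/
theorem pt_ker [Finite L] (h6 : 6 ≤ Fintype.card Ω) {F₁ : Subgroup F} (hF₁ : F₁ ≤ stb S.θ ω₁)
    {q : ℕ} (hQ : QNil q S.π.ker) : QNil q (S.pt h6 hF₁).π.ker := by
  have hk : ∀ x : ((rst S.π ω₁).comp (Subgroup.inclusion (S.Kp₁_le ω₁))).ker,
      ((x : S.Kp₁ ω₁) : L) ∈ S.π.ker := by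
    intro x
    have h1 : rst S.π ω₁ (Subgroup.inclusion (S.Kp₁_le ω₁) x.1) = rst S.π ω₁ 1 := by
      rw [map_one]
      exact x.2
    have h2 := eq_of_rst S.π ω₁ h1
    rw [MonoidHom.mem_ker]
    have h3 : S.π ((Subgroup.inclusion (S.Kp₁_le ω₁) x.1 : stb S.π ω₁) : L) = 1 := by
      rw [h2, Subgroup.coe_one, map_one]
    exact h3
  let f : ((rst S.π ω₁).comp (Subgroup.inclusion (S.Kp₁_le ω₁))).ker →* S.π.ker := {
    toFun := fun x => ⟨x.1.1, hk x⟩
    map_one' := rfl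
    map_mul' := fun _ _ => rfl }
  refine hQ.comap f ?_
  intro x x' hxx
  have h1 := congrArg Subtype.val hxx
  exact Subtype.ext (Subtype.ext h1)

end Sy

end Pool.Agent.Lib.MP_b9166b_al.Aq
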