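import Pool.Agent.Lib.MP_b9166b_al.Aq.Natural
import Pool.Agent.Lib.MP_b9166b_al.Rg.CovA

/-!
# MP_b9166b_al, PRIME POWER, regular case: points with trivial stabilizer in other actions

Proof. Suppose that for every `g` some `h ≠ 1` fixes `a g x₀`. Let `X'` be the set of the `x` such
that for every `g` some `h ≠ 1` fixes `a g x`. It contains `x₀`; it is invariant under `L`, and
under `Γ`, as `a g (b h x) = b h (a (c.φ h⁻¹ g) x)`. So `L` and `Γ` act on `X'`
(`Rp.sub`), and we get an `S : Sy L Γ (Γ × Fin k) X'` with `θ = tr`. Let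
`m = Sy.Bd (Nat.card Γ) 1 (Nat.card (Subgroup Γ) * 1 + 1)`; as `2 m ≤ k` there is a
`Conf S.θ (Fin 2) (Fin m)` with `A a = ⊥` (the points are `(1, e (a, i))` with an embedding
`e : Fin 2 × Fin m ↪ Fin k`). Apply `Sy.natural` with `b = 1`, `μ = 1` to `ψ = x₀`:
`hNR` holds by the definition of `X'` (`g = 1`), and `hNM` as `Mult S.b A 1` with `A = ⊥` would be
a point with trivial stabilizer. As `x₀` is moved by `L`, there is an `ω` such that the elements of
`res (stb π ω)` fix `x₀`, and `π g ω = ω` if `g` fixes `x₀`. By `Sy.exists_res` the group `S.X x₀`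
is the group of the even permutations which fix `ω`. There is `h ≠ 1` which fixes `x₀`. By
`Sy.X_b` and `fix_of_norm` (see `Sy.point_case`) `tr h ω = ω`, a contradiction.
-/

set_option autoImplicit false

namespace Pool.Agent.Lib.MP_b9166b_al.Aq

open Equiv Equiv.Perm Rg An

namespace Rp

/-- the action on an invariant subset -/
def sub {M X : Type} [Group M] (a : M →* Perm X) (p : X → Prop) (h : ∀ l x, p x → p (a l x)) :
    M →* Perm {x // p x} where
  toFun l :=
    { toFun := fun x => ⟨a l x, h l x x.2⟩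
      invFun := fun x => ⟨a l⁻¹ x, h l⁻¹ x x.2⟩
      left_inv := fun x => by
        apply Subtype.ext
        change a l⁻¹ (a l x) = x
        rw [← Perm.mul_apply, ← map_mul, inv_mul_cancel, map_one, Perm.one_apply]
      right_inv := fun x => by
        apply Subtype.ext
        change a l (a l⁻¹ x) = x
        rw [← Perm.mul_apply, ← map_mul, mul_inv_cancel, map_one, Perm.one_apply] }
  map_one' := by
    apply Equiv.ext
    intro x
    apply Subtype.ext
    change a 1 x = x
    rw [map_one, Perm.one_apply]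
  map_mul' l l' := by
    apply Equiv.ext
    intro x
    apply Subtype.ext
    change a (l * l') x = a l (a l' x)
    rw [map_mul, Perm.mul_apply]

theorem sub_coe {M X : Type} [Group M] (a : M →* Perm X) (p : X → Prop)
    (h : ∀ l x, p x → p (a l x)) (l : M) (x : {x // p x}) : (sub a p h l x : X) = a l x := rfl

/-- left translation as a homomorphism -/
def trh (Γ : Type) [Group Γ] (k : ℕ) : Γ →* Perm (Γ × Fin k) where
  toFun h := tr h
  map_one' := by
    apply Equiv.ext
    rintro ⟨g, i⟩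
    rw [tr_apply, one_mul, Perm.one_apply]
  map_mul' h h' := by
    apply Equiv.ext
    rintro ⟨g, i⟩
    rw [Perm.mul_apply, tr_apply, tr_apply, tr_apply, mul_assoc]

theorem trh_apply {Γ : Type} [Group Γ] {k : ℕ} (h : Γ) (g : Γ) (i : Fin k) :
    trh Γ k h (g, i) = (h * g, i) := rfl

end Rp

variable {Γ L : Type} [Group Γ] [Group L] [Fintype Γ] [DecidableEq Γ] {k : ℕ}

/-- the bound for `k` -/
noncomputable def kb (Γ : Type) [Group Γ] : ℕ := 2 * Sy.Bd (Nat.card Γ) 1 (Nat.card (Subgroup Γ) * 1 + 1)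

theorem reg_pt [Finite L] {q : ℕ} (hq : q.Prime) (c : Cov Γ L k) (hperf : commutator L = ⊤)
    (hQN : QNil q c.π.ker) (hk : kb Γ ≤ k) {X : Type} (a : L →* Perm X) (b : Γ →* Perm X)
    (hab : ∀ h g, a (c.φ h g) = b h * a g * (b h)⁻¹) {x₀ : X} (hmv : ∃ g, a g x₀ ≠ x₀) :
    ∃ g, ∀ h, b h (a g x₀) = a g x₀ → h = 1 := by
  by_contra hcon
  push Not at hcon
  let p : X → Prop := fun x => ∀ g, ∃ h, b h (a g x) = a g x ∧ h ≠ 1
  have hpa : ∀ l x, p x → p (a l x) := by
    intro l x hx g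
    obtain ⟨h, h1, h2⟩ := hx (g * l)
    refine ⟨h, ?_, h2⟩
    rwa [map_mul, Perm.mul_apply] at h1
  have hpb : ∀ h x, p x → p (b h x) := by
    intro h x hx g
    obtain ⟨h', h1, h2⟩ := hx (c.φ h⁻¹ g)
    have h3 : a g (b h x) = b h (a (c.φ h⁻¹ g) x) := by
      have h4 := hab h (c.φ h⁻¹ g)
      rw [map_inv, MulAut.apply_inv_self] at h4
      rw [map_inv, h4, Perm.mul_apply, Perm.mul_apply, ← Perm.mul_apply (b h)⁻¹, inv_mul_cancel,
        Perm.one_apply]
    refine ⟨h * h' * h⁻¹, ?_, ?_⟩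
    · rw [h3, map_mul, map_mul, Perm.mul_apply, Perm.mul_apply, ← Perm.mul_apply (b h⁻¹),
        ← map_mul, inv_mul_cancel, map_one, Perm.one_apply, h1]
    · intro h4
      apply h2
      rwa [mul_inv_eq_one, mul_eq_left] at h4
  let S : Sy L Γ (Γ × Fin k) {x // p x} := {
    φ := c.φ
    π := c.π
    θ := Rp.trh Γ k
    a := Rp.sub a p hpa
    b := Rp.sub b p hpb
    range := c.range
    perf := hperf
    eqπ := c.equi
    eqa := fun h g => by
      apply Equiv.ext
      intro x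
      apply Subtype.ext
      rw [← map_inv]
      change a (c.φ h g) x = b h (a g (b h⁻¹ x))
      rw [hab, map_inv]
      rfl }
  set m : ℕ := Sy.Bd (Nat.card Γ) 1 (Nat.card (Subgroup Γ) * 1 + 1) with hm
  have hkm : 2 * m ≤ k := hk
  have hm12 : 12 ≤ m := by
    rw [hm, Sy.Bd]
    omega
  obtain ⟨e⟩ : Nonempty (Fin 2 × Fin m ↪ Fin k) := by
    apply Function.Embedding.nonempty_of_card_le
    rw [Fintype.card_prod, Fintype.card_fin, Fintype.card_fin, Fintype.card_fin]
    exact hkm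
  let cf : Conf S.θ (Fin (1 + 1)) (Fin m) := {
    A := fun _ => ⊥
    p := fun i j => (1, e (i, j))
    stab := fun i j f => by
      change Rp.trh Γ k f (1, e (i, j)) = (1, e (i, j)) ↔ _
      rw [Rp.trh_apply, Subgroup.mem_bot, mul_one]
      constructor
      · intro h
        exact congrArg Prod.fst h
      · intro h
        rw [h]
    sep := fun i j i' j' f h => by
      have h1 := e.injective (congrArg Prod.snd h)
      exact ⟨congrArg Prod.fst h1, congrArg Prod.snd h1⟩
    triv := fun f hf => Subgroup.mem_bot.1 (hf 0) }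
  have h6 : 6 ≤ Fintype.card (Γ × Fin k) := by
    rw [Fintype.card_prod, Fintype.card_fin]
    have h1 : 0 < Fintype.card Γ := Fintype.card_pos
    calc 6 ≤ k := by omega
      _ ≤ Fintype.card Γ * k := Nat.le_mul_of_pos_left k h1
  have hNR : ∀ ψ, ∃ h, h ≠ 1 ∧ S.b h ψ = ψ := by
    rintro ⟨x, hx⟩
    obtain ⟨h, h1, h2⟩ := hx 1
    refine ⟨h, h2, Subtype.ext ?_⟩
    rwa [map_one, Perm.one_apply] at h1
  have hNM : ¬ ∃ A : Fin 1 → Subgroup Γ, (∀ i, Mult S.b (A i) 1) ∧
      ∀ f, (∀ i, f ∈ A i) → f = 1 := by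
    rintro ⟨A, hA, hA'⟩
    obtain ⟨q, hq1, -⟩ := hA 0
    obtain ⟨h, hh1, hh2⟩ := hNR (q 0)
    apply hh1
    apply hA'
    intro i
    rw [Subsingleton.elim i 0]
    exact (hq1 0 h).1 hh2
  let ψ : {x // p x} := ⟨x₀, hcon⟩
  rcases S.natural hq hQN Nat.one_pos cf (le_of_eq hm.symm) hNR hNM ψ with h | ⟨ω, h1, h2⟩
  · obtain ⟨g, hg⟩ := hmv
    exact hg (congrArg Subtype.val (h g))
  · have hX : ∀ σ, σ ∈ S.X ψ ↔ sign σ = 1 ∧ σ ω = ω := by
      intro σ
      constructor
      · intro hσ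
        refine ⟨S.sign_X hσ, ?_⟩
        obtain ⟨g, hg, rfl⟩ := hσ
        exact h2 g hg
      · rintro ⟨hσ1, hσ2⟩
        obtain ⟨g, hg, hgσ⟩ := S.exists_res ω h6 le_rfl (fun σ => S.exists_stb ω) hσ1 hσ2
        exact ⟨g, h1 g hg, hgσ⟩
    obtain ⟨h, hh1, hh2⟩ := hNR ψ
    have hθ : S.θ h ω = ω := by
      apply fix_of_norm (by omega)
      intro σ h3 h4
      have h5 := (S.X_b h (ψ := ψ) (σ := σ)).1 ((hX σ).2 ⟨h3, h4⟩)
      rw [hh2, hX] at h5
      exact h5.2
    apply hh1
    have h3 : h * ω.1 = ω.1 := congrArg Prod.fst hθ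
    rwa [mul_eq_right] at h3

end Pool.Agent.Lib.MP_b9166b_al.Aq
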