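import Pool.Agent.Lib.MP_b9166b_al.Rg.CoreA

/-!
# MP_b9166b_al, PRIME POWER: the rank lemma

Proof. Let `e i = f (w i) f⁻¹ (w i)⁻¹`. The `e i` commute, and
`∏ (e i) ^ (n i) = f w f⁻¹ w⁻¹` with `w = ∏ (w i) ^ (n i)`. Such an element fixes all `m` with
`f m = m` and `f (w⁻¹ m) = w⁻¹ m`. If `Nat.card M ≤ p ^ t * Nat.card {m // f m = m}`, then
`1 - f` has rank `≤ t` on the vector space `M` over `ZMod p`, so `1 - e` has rank `≤ 2 t` for all
`e` in the group `E` generated by the `e i`. By `hind` the `e i` are independent modulo `s`-th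
powers, so the elements `e` of `E` with `e ^ s = 1` form a group of order at least
`s ^ (2 t + 1)` (in a finite commutative group `E` the kernel and the cokernel of the `s`-th power
map have the same order). By `Rg.card_le_pow` (over `ZMod p`) this order is at most `s ^ (2 t)`.
-/

set_option autoImplicit false

namespace Pool.Agent.Lib.MP_b9166b_al.Aq

open Pool.Agent.Lib.MP_b9166b_al

section rep

variable {M : Type} [CommGroup M] {p : ℕ} [Module (ZMod p) (Additive M)]

/-- an automorphism as a linear map -/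
private def lin (g : MulAut M) : Additive M →ₗ[ZMod p] Additive M :=
  AddMonoidHom.toZModLinearMap p (MonoidHom.toAdditive (g : M →* M))

private theorem lin_apply (g : MulAut M) (v : Additive M) :
    lin (p := p) g v = Additive.ofMul (g v.toMul) := rfl

private theorem lin_mul (g h : MulAut M) : lin (p := p) (g * h) = lin g * lin h := by
  ext v
  rfl

private theorem lin_one : lin (p := p) (1 : MulAut M) = 1 := by
  ext v
  rfl

/-- the representation of the automorphism group -/
private def rep : MulAut M →* (Additive M →ₗ[ZMod p] Additive M)ˣ where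
  toFun g := ⟨lin g, lin g⁻¹, by rw [← lin_mul, mul_inv_cancel, lin_one],
    by rw [← lin_mul, inv_mul_cancel, lin_one]⟩
  map_one' := by
    ext v
    rfl
  map_mul' g h := by
    ext v
    rfl

private theorem rep_inj : Function.Injective (rep (M := M) (p := p)) := by
  intro g h hgh
  ext m
  have h1 := congrArg (fun u : (Additive M →ₗ[ZMod p] Additive M)ˣ => u.val (Additive.ofMul m)) hgh
  exact Additive.ofMul.injective h1

end rep

/-- the rank of `1 - f` -/
private theorem deg_f {M : Type} [CommGroup M] [Finite M] {p : ℕ} [Fact p.Prime]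
    [Module (ZMod p) (Additive M)] (f : MulAut M) {t : ℕ}
    (h : Nat.card M ≤ p ^ t * Nat.card {m : M // f m = m}) :
    Deg (rep (p := p) f).val t := by
  have hfin : Module.Finite (ZMod p) (Additive M) := Module.Finite.of_finite
  refine ⟨inferInstance, ?_⟩
  set T : Additive M →ₗ[ZMod p] Additive M := 1 - (rep (p := p) f).val with hT
  have h1 : Nat.card (LinearMap.ker T) = Nat.card {m : M // f m = m} := by
    refine Nat.card_congr ⟨fun v => ⟨(v : Additive M).toMul, ?_⟩,
      fun m => ⟨Additive.ofMul (m : M), ?_⟩, fun v => rfl, fun m => rfl⟩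
    · have h2 : (v : Additive M) - (rep (p := p) f).val v = 0 := v.2
      exact (sub_eq_zero.1 h2).symm
    · have h2 : Additive.ofMul (m : M) - (rep (p := p) f).val (Additive.ofMul (m : M)) = 0 :=
        sub_eq_zero.2 (congrArg Additive.ofMul m.2).symm
      exact h2
  have h2 : Nat.card (Additive M) = Nat.card M := rfl
  have h3 := LinearMap.finrank_range_add_finrank_ker T
  have h4 : Nat.card (Additive M) = p ^ Module.finrank (ZMod p) (Additive M) := by
    rw [Module.natCard_eq_pow_finrank (K := ZMod p), Nat.card_zmod]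
  have h5 : Nat.card (LinearMap.ker T) = p ^ Module.finrank (ZMod p) (LinearMap.ker T) := by
    rw [Module.natCard_eq_pow_finrank (K := ZMod p), Nat.card_zmod]
  have hp := (Fact.out : p.Prime)
  rw [← h2, h4, ← h1, h5, ← pow_add, Nat.pow_le_pow_iff_right hp.one_lt, ← h3] at h
  omega

/-- the rank lemma -/
theorem rank_lemma {M : Type} [CommGroup M] [Finite M] {p : ℕ} [Fact p.Prime]
    (hM : ∀ m : M, m ^ p = 1) (f : MulAut M) {t s : ℕ} (hs : s.Prime) (hsp : s ≠ p)
    (w : Fin (2 * t + 1) → MulAut M) (h1 : ∀ i j, Commute (w i) (w j))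
    (h2 : ∀ i j, Commute (w i) (f * w j * f⁻¹))
    (hind : ∀ i, ∃ H : Subgroup (MulAut M), (∀ j, j ≠ i → f * w j * f⁻¹ * (w j)⁻¹ ∈ H) ∧
      ∀ n : ℕ, (f * w i * f⁻¹ * (w i)⁻¹) ^ n ∈ H → s ∣ n) :
    p ^ t * Nat.card {m : M // f m = m} < Nat.card M := by
  classical
  by_contra hcon
  rw [not_lt] at hcon
  have hp := (Fact.out : p.Prime)
  have hM' : ∀ m : Additive M, p • m = 0 := by
    intro m
    change Additive.ofMul (m.toMul ^ p) = 0
    rw [hM]
    rfl
  let _ : Module (ZMod p) (Additive M) := AddCommGroup.zmodModule (n := p) hM'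
  have hdeg : Deg (rep (M := M) (p := p) f).val t := deg_f f hcon
  -- the group generated by the `w i`
  set W : Subgroup (MulAut M) := Subgroup.closure (Set.range w) with hW
  have hwW : ∀ i, w i ∈ W := fun i => Subgroup.subset_closure ⟨i, rfl⟩
  have hWc : ∀ x ∈ W, ∀ y ∈ W, x * y = y * x := by
    intro x hx y hy
    have h3 : W ≤ Subgroup.centralizer (W : Set (MulAut M)) := by
      have h4 : ∀ i, W ≤ Subgroup.centralizer {w i} := by
        intro i
        rw [hW, Subgroup.closure_le]
        rintro _ ⟨j, rfl⟩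
        rw [SetLike.mem_coe, Subgroup.mem_centralizer_singleton_iff]
        exact (h1 j i)
      rw [hW, Subgroup.closure_le]
      rintro _ ⟨j, rfl⟩
      rw [SetLike.mem_coe, Subgroup.mem_centralizer_iff]
      intro z hz
      exact Subgroup.mem_centralizer_singleton_iff.1 (h4 j hz)
    have h4 := h3 hx
    rw [Subgroup.mem_centralizer_iff] at h4
    exact (h4 y hy).symm
  have hWf : ∀ x ∈ W, ∀ y ∈ W, x * (f * y * f⁻¹) = (f * y * f⁻¹) * x := by
    intro x hx y hy
    have h4 : ∀ i, W ≤ Subgroup.centralizer {f * w i * f⁻¹} := by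
      intro i
      rw [hW, Subgroup.closure_le]
      rintro _ ⟨j, rfl⟩
      rw [SetLike.mem_coe, Subgroup.mem_centralizer_singleton_iff]
      exact (h2 j i)
    have h5 : W ≤ (Subgroup.centralizer {x}).comap (MulAut.conj f).toMonoidHom := by
      rw [hW, Subgroup.closure_le]
      rintro _ ⟨j, rfl⟩
      rw [SetLike.mem_coe, Subgroup.mem_comap, Subgroup.mem_centralizer_singleton_iff]
      exact (Subgroup.mem_centralizer_singleton_iff.1 (h4 j hx)).symm
    have h6 := h5 hy
    rw [Subgroup.mem_comap, Subgroup.mem_centralizer_singleton_iff] at h6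
    exact h6.symm
  let _ : CommGroup W := { (inferInstance : Group W) with
    mul_comm := fun a b => Subtype.ext (hWc a a.2 b b.2) }
  set φ : W →* MulAut M :=
    { toFun := fun x => f * (x : MulAut M) * f⁻¹ * (x : MulAut M)⁻¹
      map_one' := by
        change f * 1 * f⁻¹ * (1 : MulAut M)⁻¹ = 1
        group
      map_mul' := fun a b => by
        change f * ((a : MulAut M) * b) * f⁻¹ * ((a : MulAut M) * b)⁻¹ =
          f * (a : MulAut M) * f⁻¹ * (a : MulAut M)⁻¹ * (f * (b : MulAut M) * f⁻¹ *
            (b : MulAut M)⁻¹)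
        have h3 := hWf _ (W.inv_mem a.2) b b.2
        have h4 := hWc _ (W.inv_mem a.2) _ (W.inv_mem b.2)
        calc f * ((a : MulAut M) * b) * f⁻¹ * ((a : MulAut M) * b)⁻¹
            = (f * a * f⁻¹) * (f * b * f⁻¹) * ((b : MulAut M)⁻¹ * (a : MulAut M)⁻¹) := by group
          _ = (f * a * f⁻¹) * (f * b * f⁻¹) * ((a : MulAut M)⁻¹ * (b : MulAut M)⁻¹) := by rw [h4]
          _ = (f * a * f⁻¹) * ((f * b * f⁻¹) * (a : MulAut M)⁻¹) * (b : MulAut M)⁻¹ := by group
          _ = (f * a * f⁻¹) * ((a : MulAut M)⁻¹ * (f * b * f⁻¹)) * (b : MulAut M)⁻¹ := by rw [h3]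
          _ = _ := by group } with hφ
  have hφa : ∀ x : W, φ x = f * (x : MulAut M) * f⁻¹ * (x : MulAut M)⁻¹ := fun x => rfl
  set γ : Multiplicative (Fin (2 * t + 1) → ℤ) →* W :=
    { toFun := fun n => ∏ i, (⟨w i, hwW i⟩ : W) ^ (Multiplicative.toAdd n i)
      map_one' := by
        refine Finset.prod_eq_one fun i _ => ?_
        exact zpow_zero _
      map_mul' := fun a b => by
        rw [← Finset.prod_mul_distrib]
        refine Finset.prod_congr rfl fun i _ => ?_
        exact zpow_add _ _ _ } with hγ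
  have hγa : ∀ n, γ n = ∏ i, (⟨w i, hwW i⟩ : W) ^ (Multiplicative.toAdd n i) := fun n => rfl
  set Φ := φ.comp γ with hΦ
  have hfinM : Finite (MulAut M) :=
    Finite.of_injective (fun g : MulAut M => (g : M → M)) DFunLike.coe_injective
  let _ : CommGroup Φ.range := { (inferInstance : Group Φ.range) with
    mul_comm := by
      rintro ⟨_, a, rfl⟩ ⟨_, b, rfl⟩
      apply Subtype.ext
      change Φ a * Φ b = Φ b * Φ a
      rw [← map_mul, ← map_mul]
      exact congrArg Φ (mul_comm a b) }
  -- reduction modulo `s`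
  set R : Multiplicative (Fin (2 * t + 1) → ℤ) →* Multiplicative (Fin (2 * t + 1) → ZMod s) :=
    { toFun := fun n => Multiplicative.ofAdd fun i => ((Multiplicative.toAdd n i : ℤ) : ZMod s)
      map_one' := by
        apply Multiplicative.toAdd.injective
        ext i
        exact Int.cast_zero
      map_mul' := fun a b => by
        apply Multiplicative.toAdd.injective
        ext i
        exact Int.cast_add _ _ } with hR
  have hker : Φ.rangeRestrict.ker ≤ R.ker := by
    intro n hn
    rw [MonoidHom.mem_ker] at hn ⊢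
    have hn1 : φ (γ n) = 1 := congrArg Subtype.val hn
    apply Multiplicative.toAdd.injective
    ext i
    change ((Multiplicative.toAdd n i : ℤ) : ZMod s) = 0
    obtain ⟨H, hH1, hH2⟩ := hind i
    have hrest : φ (∏ j ∈ Finset.univ.erase i,
        (⟨w j, hwW j⟩ : W) ^ (Multiplicative.toAdd n j)) ∈ H := by
      have h3 : ∏ j ∈ Finset.univ.erase i,
          (⟨w j, hwW j⟩ : W) ^ (Multiplicative.toAdd n j) ∈ H.comap φ := by
        refine Subgroup.prod_mem _ fun j hj => Subgroup.zpow_mem _ ?_ _
        rw [Subgroup.mem_comap]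
        exact hH1 j (Finset.ne_of_mem_erase hj)
      exact Subgroup.mem_comap.1 h3
    rw [hγa, ← Finset.mul_prod_erase Finset.univ _ (Finset.mem_univ i), map_mul, map_zpow] at hn1
    have h4 : φ ⟨w i, hwW i⟩ ^ (Multiplicative.toAdd n i) ∈ H := by
      rw [eq_inv_of_mul_eq_one_left hn1]
      exact H.inv_mem hrest
    have h5 : φ ⟨w i, hwW i⟩ ^ (Multiplicative.toAdd n i).natAbs ∈ H := by
      rcases Int.natAbs_eq (Multiplicative.toAdd n i) with h6 | h6
      · rw [h6, zpow_natCast] at h4
        exact h4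
      · rw [h6, zpow_neg, zpow_natCast] at h4
        exact (Subgroup.inv_mem_iff H).1 h4
    have h6 := hH2 _ h5
    rw [ZMod.intCast_zmod_eq_zero_iff_dvd]
    exact Int.natCast_dvd.2 h6
  set Θ : Φ.range →* Multiplicative (Fin (2 * t + 1) → ZMod s) :=
    Φ.rangeRestrict.liftOfSurjective Φ.rangeRestrict_surjective ⟨R, hker⟩ with hΘ
  have hΘR : ∀ n, Θ (Φ.rangeRestrict n) = R n := fun n =>
    MonoidHom.liftOfRightInverse_comp_apply _ _ _ ⟨R, hker⟩ n
  have hsurj : Function.Surjective Θ := by
    intro v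
    refine ⟨Φ.rangeRestrict (Multiplicative.ofAdd fun i =>
      ((ZMod.cast (Multiplicative.toAdd v i) : ℤ))), ?_⟩
    rw [hΘR]
    apply Multiplicative.toAdd.injective
    ext i
    exact ZMod.intCast_zmod_cast _
  have hcard := Rg.card_torsion Θ hsurj
  set B := (powMonoidHom s : Φ.range →* Φ.range).ker with hB
  set ι : B →* MulAut M :=
    { toFun := fun b => ((b : Φ.range) : MulAut M)
      map_one' := rfl
      map_mul' := fun _ _ => rfl } with hι
  have hιinj : Function.Injective ι := fun a b hab => Subtype.ext (Subtype.ext hab)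
  have hdeg2 : ∀ b : B, Deg (((rep (M := M) (p := p)).comp ι) b).val (2 * t) := by
    rintro ⟨⟨_, a, rfl⟩, hb⟩
    have h3 : ι ⟨⟨Φ a, ⟨a, rfl⟩⟩, hb⟩ = f * (γ a : MulAut M) * f⁻¹ * (γ a : MulAut M)⁻¹ := rfl
    rw [MonoidHom.comp_apply, h3, map_mul, map_mul, map_mul, map_inv, map_inv]
    exact hdeg.comm
  have hsF : (s : ZMod p) ≠ 0 := by
    intro h3
    rw [ZMod.natCast_eq_zero_iff] at h3
    exact hsp ((Nat.prime_dvd_prime_iff_eq hp hs).1 h3).symm
  have hle := Rg.card_le_pow (F := ZMod p) hs hsF (E := B) (D := 2 * t)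
    (fun b => by
      have h3 : (b : Φ.range) ^ s = 1 := MonoidHom.mem_ker.1 b.2
      exact Subtype.ext h3)
    ((rep (M := M) (p := p)).comp ι) (rep_inj.comp hιinj) (fun b => (hdeg2 b).1) (fun b => (hdeg2 b).2)
  have h3 := hcard.trans hle
  rw [Nat.pow_le_pow_iff_right hs.one_lt] at h3
  omega

end Pool.Agent.Lib.MP_b9166b_al.Aq
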