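import Pool.Agent.Lib.MP_b9166b_al.Aq.RkA
import Pool.Agent.Lib.MP_b9166b_al.Aq.Kap
import Pool.Agent.Lib.MP_b9166b_al.An.Sys

/-!
# MP_b9166b_al, PRIME POWER: an operator with small commutator, central case

`L` acts on the group `M` of exponent `p` by `ρ`, and has the alternating group of `Ω` as a
quotient, by `π`; the kernel of `π` acts centrally. The automorphisms `φf` of `L` and `fM` of `M`
are compatible with each other and with the permutation `θ f`. The points `c.p a i` (`i < m`)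
are moved by `θ f`. Then the fixed points of `fM` have large index.

Proof. Let `s` be a prime in `{2, 3}`, `s ≠ p`, and `α`, `β` as in `exists_five`. For
`i : Fin (2 t + 1)` let `j i : Fin 5 ↪ Ω`, `j i x = c.p a (5 i + x)`, with image `D i`, let
`σ i`, `τ i` be the images of `α`, `β` under `viaEmbeddingHom (j i)`, and `w i = kap (σ i) (τ i)`.
The sets `D i` and `θ f (D j)` are pairwise disjoint: `θ f (c.p a k) = c.p a k'` gives `k = k'` by
`c.sep` and then `f ∈ c.A a` by `c.stab`. So the `w i` commute with each other and with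
`fM (w j) fM⁻¹ = kap (θ f σ_j (θ f)⁻¹) (θ f τ_j (θ f)⁻¹)` (`kap_map` for conjugation by `fM`).
Apply `rank_lemma`. For `hind` let `H` be the group of the `ρ g` where `π g` fixes all points of
`D i`. It contains `fM (w j) fM⁻¹ (w j)⁻¹` for `j ≠ i`, which is `ρ g` with
`π g = (θ f [σ_j, τ_j] (θ f)⁻¹) [σ_j, τ_j]⁻¹`. If `(fM (w i) fM⁻¹ (w i)⁻¹) ^ n = ρ g` with `π g`
trivial on `D i`, then by `hker` the permutation `π g` is the `n`-th power of
`(θ f [σ_i, τ_i] (θ f)⁻¹) [σ_i, τ_i]⁻¹`, which acts on `D i` as `[σ_i, τ_i]⁻¹ ^ n`, and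
`[σ_i, τ_i]` has order `s`.
-/

set_option autoImplicit false

namespace Pool.Agent.Lib.MP_b9166b_al.Aq

open Equiv Equiv.Perm An

theorem sign_via {Ω : Type} [Fintype Ω] [DecidableEq Ω] (j : Fin 5 ↪ Ω) (σ : Perm (Fin 5)) :
    sign (viaEmbeddingHom j σ) = sign σ := by
  rw [viaEmbeddingHom_apply]
  exact @sign_extendDomain _ _ _ _ _ _ σ (fun x => x ∈ Set.range j) (Classical.decPred _) _

/-- a permutation which moves only points in the image of `j` -/
theorem via_off {Ω : Type} (j : Fin 5 ↪ Ω) (σ : Perm (Fin 5)) {x : Ω} (hx : ∀ y, j y ≠ x) :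
    viaEmbeddingHom j σ x = x := by
  rw [viaEmbeddingHom_apply]
  exact viaEmbedding_apply_of_notMem _ _ _ fun ⟨y, hy⟩ => hx y hy

theorem via_on {Ω : Type} (j : Fin 5 ↪ Ω) (σ : Perm (Fin 5)) (y : Fin 5) :
    viaEmbeddingHom j σ (j y) = j (σ y) := by
  rw [viaEmbeddingHom_apply, viaEmbedding_apply]

theorem conj_off {Ω : Type} (υ : Perm Ω) (j : Fin 5 ↪ Ω) (σ : Perm (Fin 5)) {x : Ω}
    (hx : ∀ y, υ (j y) ≠ x) : (υ * viaEmbeddingHom j σ * υ⁻¹) x = x := by
  rw [Perm.mul_apply, Perm.mul_apply, via_off j σ, ← Perm.mul_apply, mul_inv_cancel,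
    Perm.one_apply]
  intro y hy
  apply hx y
  rw [hy, ← Perm.mul_apply, mul_inv_cancel, Perm.one_apply]

theorem comm_via {Ω : Type} {j j' : Fin 5 ↪ Ω} (h : ∀ x y, j x ≠ j' y) (σ τ : Perm (Fin 5)) :
    Commute (viaEmbeddingHom j σ) (viaEmbeddingHom j' τ) := by
  apply Perm.Disjoint.commute
  intro x
  by_cases hx : ∃ y, j y = x
  · obtain ⟨y, rfl⟩ := hx
    exact Or.inr (via_off j' τ fun z hz => h y z hz.symm)
  · push Not at hx
    exact Or.inl (via_off j σ hx)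

theorem comm_conj {Ω : Type} {υ : Perm Ω} {j j' : Fin 5 ↪ Ω} (h : ∀ x y, υ (j' y) ≠ j x)
    (σ τ : Perm (Fin 5)) :
    Commute (viaEmbeddingHom j σ) (υ * viaEmbeddingHom j' τ * υ⁻¹) := by
  apply Perm.Disjoint.commute
  intro x
  by_cases hx : ∃ y, j y = x
  · obtain ⟨y, rfl⟩ := hx
    exact Or.inr (conj_off υ j' τ fun z => h y z)
  · push Not at hx
    exact Or.inl (via_off j σ hx)

theorem prime_choice (p : ℕ) : ∃ s : ℕ, (s = 2 ∨ s = 3) ∧ s ≠ p := by
  by_cases hp : p = 2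
  · exact ⟨3, Or.inr rfl, by omega⟩
  · exact ⟨2, Or.inl rfl, by omega⟩

variable {L F Ω ι M : Type} [Group L] [Finite L] [Group F] [Fintype Ω] [DecidableEq Ω]
  [CommGroup M] [Finite M] {π : L →* Perm Ω} {θ : F →* Perm Ω} {p : ℕ} [Fact p.Prime]
  {ρ : L →* MulAut M}

omit [Finite L] in
theorem rk_central (hr : π.range = alternatingGroup Ω) (hM : ∀ m : M, m ^ p = 1)
    (hker : ∀ g, ρ g = 1 → π g = 1) (hcen : ∀ n, π n = 1 → ∀ g, Commute (ρ n) (ρ g))
    {f : F} {φf : MulAut L} (he : ∀ g, π (φf g) = θ f * π g * (θ f)⁻¹) {fM : MulAut M}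
    (hc : ∀ g, ρ (φf g) = fM * ρ g * fM⁻¹) {m t : ℕ} (c : Conf θ ι (Fin m)) {a : ι}
    (hfa : f ∉ c.A a) (hm : 5 * (2 * t + 1) ≤ m) :
    p ^ t * Nat.card {m : M // fM m = m} < Nat.card M := by
  obtain ⟨s, hs, hsp⟩ := prime_choice p
  have hsP : s.Prime := by
    rcases hs with rfl | rfl
    · exact Nat.prime_two
    · exact Nat.prime_three
  obtain ⟨α, β, hα, hβ, hαβ, hne⟩ := exists_five hs
  have hfix : ∀ k k' : Fin m, θ f (c.p a k) ≠ c.p a k' := by
    intro k k' h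
    obtain ⟨-, rfl⟩ := c.sep a k a k' f h
    exact hfa ((c.stab a k f).1 h)
  let idx : Fin (2 * t + 1) → Fin 5 → Fin m := fun i x => ⟨5 * i.1 + x.1, by
    have h1 := i.2
    have h2 := x.2
    omega⟩
  have hidx : ∀ i x i' x', c.p a (idx i x) = c.p a (idx i' x') → i = i' ∧ x = x' := by
    intro i x i' x' h
    obtain ⟨-, h1⟩ := c.sep a (idx i x) a (idx i' x') 1 (by rw [map_one, Perm.one_apply, h])
    have h2 : 5 * i.1 + x.1 = 5 * i'.1 + x'.1 := congrArg Fin.val h1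
    have h3 := x.2
    have h4 := x'.2
    exact ⟨Fin.ext (by omega), Fin.ext (by omega)⟩
  let j : Fin (2 * t + 1) → (Fin 5 ↪ Ω) := fun i =>
    ⟨fun x => c.p a (idx i x), fun x y h => (hidx i x i y h).2⟩
  have hj : ∀ i i', i ≠ i' → ∀ x y, j i x ≠ j i' y := fun i i' hii x y h =>
    hii (hidx i x i' y h).1
  have hjf : ∀ i i' x y, θ f (j i' y) ≠ j i x := fun i i' x y h => hfix _ _ h
  have hrg : ∀ {σ : Perm Ω}, sign σ = 1 → σ ∈ π.range := by
    intro σ h
    rw [hr, mem_alternatingGroup, h]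
  have hσ : ∀ i, viaEmbeddingHom (j i) α ∈ π.range := fun i => hrg (by rw [sign_via, hα])
  have hτ : ∀ i, viaEmbeddingHom (j i) β ∈ π.range := fun i => hrg (by rw [sign_via, hβ])
  have hσ' : ∀ i, θ f * viaEmbeddingHom (j i) α * (θ f)⁻¹ ∈ π.range := fun i => hrg (by
    rw [map_mul, map_mul, map_inv, sign_via, hα, mul_one, mul_inv_cancel])
  have hτ' : ∀ i, θ f * viaEmbeddingHom (j i) β * (θ f)⁻¹ ∈ π.range := fun i => hrg (by
    rw [map_mul, map_mul, map_inv, sign_via, hβ, mul_one, mul_inv_cancel])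
  have hconj : ∀ i, fM * kap π ρ (viaEmbeddingHom (j i) α) (viaEmbeddingHom (j i) β) * fM⁻¹ =
      kap π ρ (θ f * viaEmbeddingHom (j i) α * (θ f)⁻¹)
        (θ f * viaEmbeddingHom (j i) β * (θ f)⁻¹) := fun i =>
    kap_map hcen (hσ i) (hτ i) φf.toMonoidHom (MulAut.conj fM).toMonoidHom (θ f) he hc
  -- the commutator
  have hcom : ∀ i, ∃ g, ρ g = fM * kap π ρ (viaEmbeddingHom (j i) α)
      (viaEmbeddingHom (j i) β) * fM⁻¹ *
        (kap π ρ (viaEmbeddingHom (j i) α) (viaEmbeddingHom (j i) β))⁻¹ ∧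
      π g = (θ f * viaEmbeddingHom (j i) (α * β * α⁻¹ * β⁻¹) * (θ f)⁻¹) *
        viaEmbeddingHom (j i) (α * β * α⁻¹ * β⁻¹)⁻¹ := by
    intro i
    obtain ⟨g1, hg1, hg1'⟩ := exists_kap hcen (hσ i) (hτ i)
    obtain ⟨g2, hg2, hg2'⟩ := exists_kap hcen (hσ' i) (hτ' i)
    refine ⟨g2 * g1⁻¹, ?_, ?_⟩
    · rw [map_mul, map_inv, hg1', hg2', hconj]
    · rw [map_mul, map_inv, hg1, hg2]
      simp only [map_mul, map_inv]
      group
  refine rank_lemma hM fM hsP hsp
    (fun i => kap π ρ (viaEmbeddingHom (j i) α) (viaEmbeddingHom (j i) β)) ?_ ?_ ?_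
  · intro i i'
    by_cases hii : i = i'
    · rw [hii]
    · exact kap_comm_kap hcen (hσ i) (hτ i) (hσ i') (hτ i') (comm_via (hj i i' hii) _ _)
        (comm_via (hj i i' hii) _ _) (comm_via (hj i i' hii) _ _) (comm_via (hj i i' hii) _ _)
  · intro i i'
    simp only [hconj]
    exact kap_comm_kap hcen (hσ i) (hτ i) (hσ' i') (hτ' i') (comm_conj (hjf i i') _ _)
      (comm_conj (hjf i i') _ _) (comm_conj (hjf i i') _ _) (comm_conj (hjf i i') _ _)
  · intro i
    refine ⟨((fixingSubgroup (Perm Ω) (Set.range (j i))).comap π).map ρ, ?_, ?_⟩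
    · intro i' hii
      obtain ⟨g, hg, hg'⟩ := hcom i'
      refine ⟨g, ?_, hg⟩
      rw [SetLike.mem_coe, Subgroup.mem_comap, mem_fixingSubgroup_iff]
      rintro _ ⟨x, rfl⟩
      rw [Perm.smul_def, hg', Perm.mul_apply, via_off (j i') _ fun y => hj i' i hii y x,
        conj_off (θ f) (j i') _ fun y => hjf i i' x y]
    · intro n hn
      obtain ⟨g, hg, hg'⟩ := hn
      rw [SetLike.mem_coe, Subgroup.mem_comap, mem_fixingSubgroup_iff] at hg
      obtain ⟨g1, hg1, hg1'⟩ := hcom i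
      have h1 : π (g * (g1 ^ n)⁻¹) = 1 := by
        apply hker
        rw [map_mul, map_inv, map_pow, hg', hg1]
        exact mul_inv_cancel _
      have h2 : π g = π g1 ^ n := by
        rw [map_mul, map_inv, map_pow, mul_inv_eq_one] at h1
        exact h1
      have h3 : Commute (viaEmbeddingHom (j i) (α * β * α⁻¹ * β⁻¹)⁻¹)
          (θ f * viaEmbeddingHom (j i) (α * β * α⁻¹ * β⁻¹) * (θ f)⁻¹) :=
        comm_conj (hjf i i) _ _
      rw [hg1', h3.symm.mul_pow] at h2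
      have h4 : ((α * β * α⁻¹ * β⁻¹)⁻¹) ^ n = 1 := by
        ext x
        have h5 := hg (j i x) ⟨x, rfl⟩
        rw [Perm.smul_def, h2, ← map_pow, Perm.mul_apply, via_on] at h5
        have h6 : (θ f * viaEmbeddingHom (j i) (α * β * α⁻¹ * β⁻¹) * (θ f)⁻¹) ^ n =
            θ f * viaEmbeddingHom (j i) ((α * β * α⁻¹ * β⁻¹) ^ n) * (θ f)⁻¹ := by
          rw [map_pow, conj_pow]
        rw [h6, conj_off (θ f) (j i) _ fun y => hjf i i _ y] at h5
        rw [(j i).injective h5, Perm.one_apply]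
      rw [inv_pow, inv_eq_one] at h4
      have h7 : orderOf (α * β * α⁻¹ * β⁻¹) = s := by
        have := Fact.mk hsP
        exact orderOf_eq_prime hαβ hne
      rw [← h7]
      exact orderOf_dvd_of_pow_eq_one h4

end Pool.Agent.Lib.MP_b9166b_al.Aq
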