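import Pool.Agent.Lib.MP_b9166b_al.Aq.Cv
import Pool.Agent.Lib.MP_b9166b_al.Aq.QN
import Pool.Agent.Lib.MP_b9166b_al.Rg.CovA

/-!
# MP_b9166b_al, PRIME POWER, regular case: regular covers in `G`
-/

set_option autoImplicit false

namespace Pool.Agent.Lib.MP_b9166b_al.Aq

open Equiv Equiv.Perm Rg

/-- a regular cover for the subgroup `F` of `G`, with a perfect group `L` and a kernel which is an
extension of a `q`-group by a nilpotent group of order prime to `q` -/
structure Rq {G : Type} [Group G] (q : ℕ) (F : Subgroup G) [Fintype F] [DecidableEq F] (k : ℕ)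
    where
  L : Subgroup G
  fin : Finite L
  norm : ∀ h ∈ F, ∀ g ∈ L, h * g * h⁻¹ ∈ L
  π : L →* Perm (F × Fin k)
  range : π.range = alternatingGroup (F × Fin k)
  equi : ∀ (h : F) (g : L), π ⟨h * g * h⁻¹, norm h h.2 g g.2⟩ = tr h * π g * (tr h)⁻¹
  perf : commutator L = ⊤
  qnil : QNil q π.ker

end Pool.Agent.Lib.MP_b9166b_al.Aq
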