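import Pool.Agent.Lib.MP_b9166b_al.Aq.Rq
import Pool.Agent.Lib.MP_b9166b_al.Aq.Frat
import Pool.Agent.Lib.MP_b9166b_al.Rg.RegB

/-!
# MP_b9166b_al, PRIME POWER, regular case: restriction to regular orbits

Proof. As in `Rg.rc_of` (Rg/RegB.lean) let `L₁` be the group of the `g ∈ c.H` for which `c.π g`
is `viaEmbeddingHom ι d` for an even `d`, and `π₁ g = d`; `L₁` is normalized by `F`, `π₁` is
onto the alternating group of `F × Fin k`, and equivariant for `tr`. Among the subgroups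
`L ≤ L₁` of `G` normalized by `F` with `L.map π₁` the alternating group choose one of minimal
order. Apply `frattini` to `L` with the action of `F` by conjugation and the restriction of `π₁`
(the alternating group of at least five points is perfect, `commutator_alternatingGroup_eq_self`).
-/

set_option autoImplicit false

namespace Pool.Agent.Lib.MP_b9166b_al.Aq

open Equiv Equiv.Perm Rg

/-- conjugation on a subgroup which is normalized by `F` -/
private def rqConj {G : Type} [Group G] {F : Subgroup G} (L : Subgroup G)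
    (hL : ∀ h ∈ F, ∀ g ∈ L, h * g * h⁻¹ ∈ L) : F →* MulAut L where
  toFun h :=
    { toFun := fun x => ⟨h * x * (h : G)⁻¹, hL h h.2 x x.2⟩
      invFun := fun x => ⟨(h : G)⁻¹ * x * h, by
        have h1 := hL (h : G)⁻¹ (F.inv_mem h.2) x x.2
        rwa [inv_inv] at h1⟩
      left_inv := fun x => by
        apply Subtype.ext
        change (h : G)⁻¹ * (h * x * (h : G)⁻¹) * h = x
        group
      right_inv := fun x => by
        apply Subtype.ext
        change (h : G) * ((h : G)⁻¹ * x * h) * (h : G)⁻¹ = x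
        group
      map_mul' := fun x y => by
        apply Subtype.ext
        change (h : G) * (x * y) * (h : G)⁻¹ = (h * x * (h : G)⁻¹) * (h * y * (h : G)⁻¹)
        group }
  map_one' := by
    ext x
    change (1 : G) * x * (1 : G)⁻¹ = x
    group
  map_mul' := fun a b => by
    ext x
    change ((a : G) * b) * x * ((a : G) * b)⁻¹ = a * (b * x * (b : G)⁻¹) * (a : G)⁻¹
    group

/-- the minimal invariant subgroup -/
private theorem rq_min {G : Type} [Group G] {q : ℕ} (hq : q.Prime) {F : Subgroup G} [Fintype F]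
    [DecidableEq F] (hF : IsPGroup q F) {k : ℕ} (hk : 5 ≤ k) (L₁ : Subgroup G) [Finite L₁]
    (hnorm : ∀ h ∈ F, ∀ g ∈ L₁, h * g * h⁻¹ ∈ L₁) (π₁ : L₁ →* Perm (F × Fin k))
    (hrange : π₁.range = alternatingGroup (F × Fin k))
    (hequi : ∀ (h : F) (g : L₁), π₁ ⟨h * g * h⁻¹, hnorm h h.2 g g.2⟩ = tr h * π₁ g * (tr h)⁻¹) :
    Nonempty (Rq q F k) := by
  let P : Set (Subgroup G) := {L | L ≤ L₁ ∧ (∀ h ∈ F, ∀ g ∈ L, h * g * h⁻¹ ∈ L) ∧
    ∀ σ ∈ alternatingGroup (F × Fin k), ∃ g : L₁, (g : G) ∈ L ∧ π₁ g = σ}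
  have hP : L₁ ∈ P := by
    refine ⟨le_rfl, hnorm, fun σ hσ => ?_⟩
    rw [← hrange] at hσ
    obtain ⟨g, hg⟩ := hσ
    exact ⟨g, g.2, hg⟩
  obtain ⟨L, ⟨hle, hLn, hLs⟩, hmin⟩ :=
    WellFounded.has_min (measure (fun L : Subgroup G => Nat.card L)).wf P ⟨L₁, hP⟩
  have hLfin : Finite L :=
    Finite.of_injective (Subgroup.inclusion hle) (Subgroup.inclusion_injective hle)
  let π : L →* Perm (F × Fin k) := π₁.comp (Subgroup.inclusion hle)
  have hπr : π.range = alternatingGroup (F × Fin k) := by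
    apply le_antisymm
    · rintro _ ⟨g, rfl⟩
      rw [← hrange]
      exact ⟨_, rfl⟩
    · intro σ hσ
      obtain ⟨g, hg, hgσ⟩ := hLs σ hσ
      exact ⟨⟨g, hg⟩, hgσ⟩
  have hπe : ∀ (h : F) (g : L), π ⟨h * g * h⁻¹, hLn h h.2 g g.2⟩ = tr h * π g * (tr h)⁻¹ :=
    fun h g => hequi h (Subgroup.inclusion hle g)
  have hcard : 5 ≤ Nat.card (F × Fin k) := by
    rw [Nat.card_prod, Nat.card_eq_fintype_card (α := Fin k), Fintype.card_fin]
    have h1 : 0 < Nat.card F := Nat.card_pos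
    exact hk.trans (Nat.le_mul_of_pos_left k h1)
  have hfr := frattini hq hF (rqConj L hLn) π
    (by rw [hπr]; exact commutator_alternatingGroup_eq_self hcard)
    (by
      intro h g hg
      have h1 := hπe h g
      rw [hg, mul_one, mul_inv_cancel] at h1
      exact h1)
    (by
      intro M hM hMr
      have hM' : M.map L.subtype ∈ P := by
        refine ⟨(Subgroup.map_subtype_le M).trans hle, ?_, fun σ hσ => ?_⟩
        · rintro h hh _ ⟨g, hg, rfl⟩
          exact ⟨rqConj L hLn ⟨h, hh⟩ g, hM ⟨h, hh⟩ g hg, rfl⟩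
        · rw [← hπr, ← hMr] at hσ
          obtain ⟨g, hg, hgσ⟩ := hσ
          exact ⟨Subgroup.inclusion hle g, ⟨g, hg, rfl⟩, hgσ⟩
      have h1 : Nat.card L ≤ Nat.card (M.map L.subtype) := not_lt.1 (hmin _ hM')
      have h2 : M.map L.subtype = L :=
        Subgroup.eq_of_le_of_card_ge (Subgroup.map_subtype_le M) h1
      rw [eq_top_iff]
      intro x _
      have h3 : (x : G) ∈ M.map L.subtype := by
        rw [h2]
        exact x.2
      obtain ⟨y, hy, hyx⟩ := h3
      have h4 : y = x := Subtype.ext hyx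
      rw [← h4]
      exact hy)
  exact ⟨{
    L := L
    fin := hLfin
    norm := hLn
    π := π
    range := hπr
    equi := hπe
    perf := hfr.1
    qnil := hfr.2 }⟩

theorem exists_rq {G : Type} [Group G] {q : ℕ} (hq : q.Prime) {F : Subgroup G} [Fintype F]
    [DecidableEq F] (hF : IsPGroup q F) {k : ℕ} (hk : 5 ≤ k) (c : Cv G) (hFH : F ≤ c.H)
    (ι : F × Fin k ↪ Fin c.n)
    (hι : ∀ (h : F) (x : F × Fin k), c.π ⟨h, hFH h.2⟩ (ι x) = ι (tr h x)) :
    Nonempty (Rq q F k) := by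
  let v : Perm (F × Fin k) →* Perm (Fin c.n) := viaEmbeddingHom ι
  have hv : Function.Injective v := viaEmbeddingHom_injective ι
  let W : Subgroup (Perm (Fin c.n)) := (alternatingGroup (F × Fin k)).map v
  let L₁ : Subgroup G := (W.comap c.π).map c.H.subtype
  have hle : L₁ ≤ c.H := Subgroup.map_subtype_le _
  have hL₁ : Finite L₁ :=
    Finite.of_injective (Subgroup.inclusion hle) (Subgroup.inclusion_injective hle)
  have hmem : ∀ g : L₁, c.π (Subgroup.inclusion hle g) ∈ W := by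
    rintro ⟨_, ⟨g, hg, rfl⟩⟩
    exact hg
  let e : alternatingGroup (F × Fin k) ≃* W := Subgroup.equivMapOfInjective _ v hv
  let π₁ : L₁ →* Perm (F × Fin k) := (alternatingGroup (F × Fin k)).subtype.comp
    (e.symm.toMonoidHom.comp ((c.π.comp (Subgroup.inclusion hle)).codRestrict W hmem))
  have hπ₁ : ∀ g : L₁, v (π₁ g) = c.π (Subgroup.inclusion hle g) := by
    intro g
    exact congrArg Subtype.val (e.apply_symm_apply ⟨c.π (Subgroup.inclusion hle g), hmem g⟩)
  have hπ₁' : ∀ g : L₁, π₁ g ∈ alternatingGroup (F × Fin k) := by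
    intro g
    exact (e.symm ⟨c.π (Subgroup.inclusion hle g), hmem g⟩).2
  have hθ : ∀ (h : F) (d : Perm (F × Fin k)), c.π ⟨h, hFH h.2⟩ * v d * (c.π ⟨h, hFH h.2⟩)⁻¹ =
      v (tr h * d * (tr h)⁻¹) := fun h d => via_conj ι (hι h) d
  have hconj : ∀ (h : F) (g : c.H), c.π ⟨h * g * (h : G)⁻¹,
      c.H.mul_mem (c.H.mul_mem (hFH h.2) g.2) (c.H.inv_mem (hFH h.2))⟩ =
      c.π ⟨h, hFH h.2⟩ * c.π g * (c.π ⟨h, hFH h.2⟩)⁻¹ := by
    intro h g
    rw [← map_mul, ← map_inv, ← map_mul]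
    rfl
  have hnorm : ∀ h ∈ F, ∀ g ∈ L₁, h * g * h⁻¹ ∈ L₁ := by
    rintro h hh _ ⟨g, ⟨d, hd, hd'⟩, rfl⟩
    refine ⟨⟨h * g * h⁻¹, c.H.mul_mem (c.H.mul_mem (hFH hh) g.2) (c.H.inv_mem (hFH hh))⟩, ?_, rfl⟩
    refine ⟨tr ⟨h, hh⟩ * d * (tr ⟨h, hh⟩)⁻¹, ?_, ?_⟩
    · rw [SetLike.mem_coe, mem_alternatingGroup] at hd ⊢
      rw [Perm.sign_mul, Perm.sign_mul, Perm.sign_inv, hd, mul_one]
      exact Int.units_mul_self _
    · rw [← hθ, hd']
      exact (hconj ⟨h, hh⟩ g).symm
  refine rq_min hq hF hk L₁ hnorm π₁ ?_ ?_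
  · ext σ
    constructor
    · rintro ⟨g, rfl⟩
      exact hπ₁' g
    · intro hσ
      have h1 : v σ ∈ c.π.range := by
        rw [c.range]
        rw [mem_alternatingGroup] at hσ ⊢
        rw [sign_via, hσ]
      obtain ⟨g, hg⟩ := h1
      refine ⟨⟨g, ⟨g, ⟨σ, hσ, hg.symm⟩, rfl⟩⟩, ?_⟩
      apply hv
      rw [hπ₁]
      exact hg
  · intro h g
    apply hv
    rw [← hθ, hπ₁, hπ₁]
    exact hconj h (Subgroup.inclusion hle g)

end Pool.Agent.Lib.MP_b9166b_al.Aq
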