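import Pool.Agent.Lib.MP_b9166b_al.An.Sys

/-!
# MP_b9166b_al, PRIME POWER: a group acting on two sets, and an operator group, arbitrary kernel
-/

set_option autoImplicit false

namespace Pool.Agent.Lib.MP_b9166b_al.Aq

open Equiv Equiv.Perm An

/-- a perfect group with two actions and a group of operators -/
structure Sy (L F Ω Ω' : Type) [Group L] [Group F] [Fintype Ω] [DecidableEq Ω] where
  φ : F →* MulAut L
  π : L →* Perm Ω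
  θ : F →* Perm Ω
  a : L →* Perm Ω'
  b : F →* Perm Ω'
  range : π.range = alternatingGroup Ω
  perf : commutator L = ⊤
  eqπ : ∀ h g, π (φ h g) = θ h * π g * (θ h)⁻¹
  eqa : ∀ h g, a (φ h g) = b h * a g * (b h)⁻¹

namespace Sy

variable {L F Ω Ω' : Type} [Group L] [Group F] [Fintype Ω] [DecidableEq Ω] (S : Sy L F Ω Ω')

theorem exists_lift {σ : Perm Ω} (h : sign σ = 1) : ∃ g, S.π g = σ := by
  have h1 : σ ∈ S.π.range := by
    rw [S.range, mem_alternatingGroup, h]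
  exact h1

theorem sign_π (g : L) : sign (S.π g) = 1 := by
  rw [← mem_alternatingGroup, ← S.range]
  exact ⟨g, rfl⟩

/-- the permutations of `Ω` induced by the stabilizer of `ψ` -/
def X (ψ : Ω') : Subgroup (Perm Ω) := (stb S.a ψ).map S.π

theorem mem_X {ψ : Ω'} {σ : Perm Ω} : σ ∈ S.X ψ ↔ ∃ g, S.a g ψ = ψ ∧ S.π g = σ := Iff.rfl

theorem sign_X {ψ : Ω'} {σ : Perm Ω} (h : σ ∈ S.X ψ) : sign σ = 1 := by
  obtain ⟨g, -, rfl⟩ := h
  exact S.sign_π g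

theorem X_conj (l : L) {ψ : Ω'} {σ : Perm Ω} :
    σ ∈ S.X ψ ↔ S.π l * σ * (S.π l)⁻¹ ∈ S.X (S.a l ψ) := by
  constructor
  · rintro ⟨g, hg, rfl⟩
    refine ⟨l * g * l⁻¹, ?_, by rw [map_mul, map_mul, map_inv]⟩
    change S.a (l * g * l⁻¹) (S.a l ψ) = S.a l ψ
    have hg' : S.a g ψ = ψ := hg
    rw [← Perm.mul_apply, ← map_mul, inv_mul_cancel_right, map_mul, Perm.mul_apply, hg']
  · rintro ⟨g, hg, hgσ⟩
    refine ⟨l⁻¹ * g * l, ?_, ?_⟩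
    · have hg' : S.a g (S.a l ψ) = S.a l ψ := hg
      change S.a (l⁻¹ * g * l) ψ = ψ
      rw [map_mul, map_mul, Perm.mul_apply, Perm.mul_apply, hg', map_inv, Perm.inv_eq_iff_eq]
    · rw [map_mul, map_mul, hgσ, map_inv]
      group

theorem X_b (h : F) {ψ : Ω'} {σ : Perm Ω} :
    σ ∈ S.X ψ ↔ S.θ h * σ * (S.θ h)⁻¹ ∈ S.X (S.b h ψ) := by
  constructor
  · rintro ⟨g, hg, rfl⟩
    refine ⟨S.φ h g, ?_, S.eqπ h g⟩
    have hg' : S.a g ψ = ψ := hg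
    change S.a (S.φ h g) (S.b h ψ) = S.b h ψ
    rw [S.eqa, Perm.mul_apply, Perm.mul_apply, ← Perm.mul_apply (S.b h)⁻¹, inv_mul_cancel,
      Perm.one_apply, hg']
  · rintro ⟨g, hg, hgσ⟩
    have hg' : S.a g (S.b h ψ) = S.b h ψ := hg
    refine ⟨S.φ h⁻¹ g, ?_, ?_⟩
    · change S.a (S.φ h⁻¹ g) ψ = ψ
      rw [S.eqa, map_inv, inv_inv, Perm.mul_apply, Perm.mul_apply, hg', Perm.inv_eq_iff_eq]
    · rw [S.eqπ, hgσ, map_inv]
      group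

/-- if `h` maps `a l ψ` to `a l' ψ` then the corresponding permutation normalizes `X` -/
theorem X_norm {h : F} {l l' : L} {ψ : Ω'} (hh : S.b h (S.a l⁻¹ ψ) = S.a l'⁻¹ ψ) (σ : Perm Ω) :
    σ ∈ S.X ψ ↔ (S.π l' * S.θ h * (S.π l)⁻¹) * σ * (S.π l' * S.θ h * (S.π l)⁻¹)⁻¹ ∈ S.X ψ := by
  rw [S.X_conj l⁻¹, S.X_b h, hh, S.X_conj l']
  have h1 : S.a l' (S.a l'⁻¹ ψ) = ψ := by
    rw [← Perm.mul_apply, ← map_mul, mul_inv_cancel, map_one, Perm.one_apply]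
  rw [h1]
  have h2 : S.π l' * (S.θ h * (S.π l⁻¹ * σ * (S.π l⁻¹)⁻¹) * (S.θ h)⁻¹) * (S.π l')⁻¹ =
      (S.π l' * S.θ h * (S.π l)⁻¹) * σ * (S.π l' * S.θ h * (S.π l)⁻¹)⁻¹ := by
    rw [map_inv]
    group
  rw [h2]

end Sy

end Pool.Agent.Lib.MP_b9166b_al.Aq
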